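import Pool.Agent.H97.SXM.Defs

/-!
# [SXM REG] The region of the forms at one place, 120-200 lines. File Pool/Agent/H97/SXM/Reg.lean

`x = (a, b, c, e) : Fin 4 → ℂ`, `δ² = ‖disc x‖`, `A = hA x = b² - 3ac`, `C = hC x = c² - 3be`, `A₀ = bc - 9ae`; identity `A₀² - 4 A C = -3 disc` (`ring`).
`reg_bd`. If `disc x = 0` trivial. Let `δ > 0`, `H = T³ / δ`. `|a|, |e| ≤ H` (`|a|² δ² ≤ T⁶`). `M = max |b| |c|`. From `b² = A + 3ac`, `c² = C + 3be`: `M² ≤ T² + 3 H M`.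
(1) `δ² ≤ 135 T⁴`: if `δ ≤ T²` clear. Otherwise `H ≤ T`, `M² ≤ T² + 3 T M`, so `M ≤ 3.31 T`, `|A₀| ≤ M² + 9 T² ≤ 20 T²`, `3 δ² ≤ 400 T⁴ + 4 T⁴`.
(2) `T ≤ 12 H` (from (1), `δ ≤ 11.7 T²`), so `M² ≤ 144 H² + 3 H M`, `M ≤ 14 H` (`14² = 196 > 144 + 42`). So `|x i|² δ² ≤ 196 T⁶`.
`reg_pert`. `θ T⁴ ≤ δ²`, `θ ≤ 1`: `H² = T⁶/δ² ≤ T²/θ`, so `|x i| ≤ 14 H ≤ 14 T θ^(-1/2) =: B` (square roots can be avoided: `|x i| ≤ 15 T / θ`). With `|y i| ≤ ρ ≤ T`: every polynomial `P` of degree `k` in the coefficients satisfies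
`|P(x + y) - P(x)| ≤ C_k B^(k-1) ρ` if `ρ ≤ B` (`B ≥ T`). So `|A(x+y) - A(x)| ≤ C B ρ ≤ C T ρ / θ ≤ T² ε`, `|disc(x+y) - disc x| ≤ C B³ ρ ≤ C T³ ρ / θ³ ≤ ε θ T⁴ ≤ ε δ²`, `|(a² disc)(x+y) - (a² disc)(x)| ≤ C B⁵ ρ ≤ C T⁵ ρ / θ⁵ ≤ ε T⁶`
with `ε = C₀ ρ / (θ⁵ T)`; and `T² (1 + ε) ≤ (T (1 + ε))²`, `T⁶ (1 + ε) ≤ (T (1 + ε))⁶`. (For the estimates of `P(x+y) - P(x)`: expand by `ring` and bound every monomial, or telescoping product by product with the lemma `|uv - u'v'| ≤ |u||v - v'| + |v'||u - u'|`.)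
-/

set_option autoImplicit false

open H77.MF

noncomputable section

namespace H97.SXM

private theorem disc_id (x : Fin 4 → ℂ) :
    (x 1 * x 2 - 9 * x 0 * x 3) ^ 2 - 4 * hA x * hC x = -3 * disc x := by
  simp only [hA, hC, disc]
  ring

/-- the real inequality, first part -/
private theorem reg1 {T a b c e D : ℝ} (hT : 0 < T) (ha : 0 ≤ a) (hb : 0 ≤ b) (hc : 0 ≤ c) (he : 0 ≤ e)
    (hb2 : b ^ 2 ≤ T ^ 2 + 3 * a * c) (hc2 : c ^ 2 ≤ T ^ 2 + 3 * b * e)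
    (haD : a ^ 2 * D ≤ T ^ 6) (heD : e ^ 2 * D ≤ T ^ 6) (h3 : 3 * D ≤ (b * c + 9 * a * e) ^ 2 + 4 * T ^ 4) :
    D ≤ 135 * T ^ 4 := by
  rcases le_or_gt D (T ^ 4) with h | h
  · have : 0 < T ^ 4 := by positivity
    linarith
  · have hT4 : 0 < T ^ 4 := by positivity
    have key : ∀ z : ℝ, 0 ≤ z → z ^ 2 * D ≤ T ^ 6 → z ≤ T := by
      intro z hz hzD
      have h1 : z ^ 2 * T ^ 4 ≤ T ^ 2 * T ^ 4 := by
        have h2 : z ^ 2 * T ^ 4 ≤ z ^ 2 * D := mul_le_mul_of_nonneg_left h.le (by positivity)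
        calc z ^ 2 * T ^ 4 ≤ T ^ 6 := h2.trans hzD
          _ = T ^ 2 * T ^ 4 := by ring
      have h2 : z ^ 2 ≤ T ^ 2 := le_of_mul_le_mul_right h1 hT4
      exact (pow_le_pow_iff_left₀ hz hT.le two_ne_zero).1 h2
    have haT := key a ha haD
    have heT := key e he heD
    obtain ⟨M, hM⟩ : ∃ M, M = max b c := ⟨_, rfl⟩
    have hbM : b ≤ M := by rw [hM]; exact le_max_left _ _
    have hcM : c ≤ M := by rw [hM]; exact le_max_right _ _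
    have hM0 : 0 ≤ M := hb.trans hbM
    have hac : a * c ≤ T * M := mul_le_mul haT hcM hc hT.le
    have hbe : b * e ≤ M * T := mul_le_mul hbM heT he hM0
    have hM2 : M ^ 2 ≤ T ^ 2 + 3 * T * M := by
      rcases max_choice b c with h1 | h1
      · rw [h1] at hM
        rw [hM] at hac ⊢
        nlinarith
      · rw [h1] at hM
        rw [hM] at hbe ⊢
        nlinarith
    have hMT : M ≤ 3.31 * T := by
      by_contra hcon
      push Not at hcon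
      nlinarith
    have h5 : b * c ≤ 10.9561 * T ^ 2 := by
      have h6 : b * c ≤ (3.31 * T) * (3.31 * T) := mul_le_mul (hbM.trans hMT) (hcM.trans hMT) hc (by positivity)
      linarith
    have h6 : a * e ≤ T ^ 2 := by
      have h7 : a * e ≤ T * T := mul_le_mul haT heT he hT.le
      linarith
    have h7 : b * c + 9 * a * e ≤ 20 * T ^ 2 := by
      have : 0 < T ^ 2 := by positivity
      linarith
    have h8 : (b * c + 9 * a * e) ^ 2 ≤ (20 * T ^ 2) ^ 2 := by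
      have h9 : 0 ≤ b * c + 9 * a * e := by positivity
      exact pow_le_pow_left₀ h9 h7 2
    nlinarith

/-- the real inequality, second part -/
private theorem reg2 {T a b c e D : ℝ} (hT : 0 < T) (ha : 0 ≤ a) (hb : 0 ≤ b) (hc : 0 ≤ c) (he : 0 ≤ e)
    (hD : 0 < D) (hb2 : b ^ 2 ≤ T ^ 2 + 3 * a * c) (hc2 : c ^ 2 ≤ T ^ 2 + 3 * b * e)
    (haD : a ^ 2 * D ≤ T ^ 6) (heD : e ^ 2 * D ≤ T ^ 6) (h3 : D ≤ 135 * T ^ 4) :
    b ^ 2 * D ≤ 200 * T ^ 6 ∧ c ^ 2 * D ≤ 200 * T ^ 6 := by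
  obtain ⟨δ, hδ0, hδ⟩ : ∃ δ : ℝ, 0 < δ ∧ δ ^ 2 = D := ⟨Real.sqrt D, Real.sqrt_pos.2 hD, Real.sq_sqrt hD.le⟩
  obtain ⟨H, hH⟩ : ∃ H, H = T ^ 3 / δ := ⟨_, rfl⟩
  have hH0 : 0 < H := by rw [hH]; positivity
  have hHδ : H * δ = T ^ 3 := by
    rw [hH]
    field_simp
  have hHD : H ^ 2 * D = T ^ 6 := by
    rw [← hδ, ← mul_pow, hHδ]
    ring
  have key : ∀ z : ℝ, 0 ≤ z → z ^ 2 * D ≤ T ^ 6 → z ≤ H := by
    intro z hz hzD
    rw [← hHD] at hzD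
    have h2 : z ^ 2 ≤ H ^ 2 := le_of_mul_le_mul_right hzD hD
    exact (pow_le_pow_iff_left₀ hz hH0.le two_ne_zero).1 h2
  have haT := key a ha haD
  have heT := key e he heD
  have hTH : T ≤ 12 * H := by
    have h1 : T ^ 2 * D ≤ (12 * H) ^ 2 * D := by
      have h2 : (12 * H) ^ 2 * D = 144 * T ^ 6 := by
        rw [← hHD]
        ring
      rw [h2]
      have h4 : T ^ 2 * D ≤ T ^ 2 * (135 * T ^ 4) := mul_le_mul_of_nonneg_left h3 (by positivity)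
      have h5 : 0 < T ^ 6 := by positivity
      nlinarith
    exact (pow_le_pow_iff_left₀ hT.le (by positivity) two_ne_zero).1 (le_of_mul_le_mul_right h1 hD)
  obtain ⟨M, hM⟩ : ∃ M, M = max b c := ⟨_, rfl⟩
  have hbM : b ≤ M := by rw [hM]; exact le_max_left _ _
  have hcM : c ≤ M := by rw [hM]; exact le_max_right _ _
  have hM0 : 0 ≤ M := hb.trans hbM
  have hac : a * c ≤ H * M := mul_le_mul haT hcM hc hH0.le
  have hbe : b * e ≤ M * H := mul_le_mul hbM heT he hM0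
  have hM2 : M ^ 2 ≤ T ^ 2 + 3 * H * M := by
    rcases max_choice b c with h1 | h1
    · rw [h1] at hM
      rw [hM] at hac ⊢
      nlinarith
    · rw [h1] at hM
      rw [hM] at hbe ⊢
      nlinarith
  have hT2 : T ^ 2 ≤ 144 * H ^ 2 := by
    have := pow_le_pow_left₀ hT.le hTH 2
    linarith
  have hMH : M ≤ 14 * H := by
    by_contra hcon
    push Not at hcon
    nlinarith
  have hfin : ∀ z : ℝ, 0 ≤ z → z ≤ M → z ^ 2 * D ≤ 200 * T ^ 6 := by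
    intro z hz hzM
    have h5 : z ^ 2 ≤ (14 * H) ^ 2 := pow_le_pow_left₀ hz (hzM.trans hMH) 2
    have h6 := mul_le_mul_of_nonneg_right h5 hD.le
    have h7 : (14 * H) ^ 2 * D = 196 * T ^ 6 := by
      rw [← hHD]
      ring
    have h8 : 0 < T ^ 6 := by positivity
    linarith
  exact ⟨hfin b hb hbM, hfin c hc hcM⟩

theorem reg_bd {T : ℝ} (hT : 0 < T) {x : Fin 4 → ℂ} (h : D1 T x) :
    ‖disc x‖ ≤ 200 * T ^ 4 ∧ ∀ i, ‖x i‖ ^ 2 * ‖disc x‖ ≤ 200 * T ^ 6 := by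
  obtain ⟨hA1, hC1, ha1, he1⟩ := h
  have haD : ‖x 0‖ ^ 2 * ‖disc x‖ ≤ T ^ 6 := by
    rw [← norm_pow, ← norm_mul]
    exact ha1
  have heD : ‖x 3‖ ^ 2 * ‖disc x‖ ≤ T ^ 6 := by
    rw [← norm_pow, ← norm_mul]
    exact he1
  have hb2 : ‖x 1‖ ^ 2 ≤ T ^ 2 + 3 * ‖x 0‖ * ‖x 2‖ := by
    have h1 : x 1 ^ 2 = hA x + 3 * x 0 * x 2 := by
      simp only [hA]
      ring
    rw [← norm_pow, h1]
    refine (norm_add_le _ _).trans (add_le_add hA1 (le_of_eq ?_))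
    rw [norm_mul, norm_mul]
    norm_num
  have hc2 : ‖x 2‖ ^ 2 ≤ T ^ 2 + 3 * ‖x 1‖ * ‖x 3‖ := by
    have h1 : x 2 ^ 2 = hC x + 3 * x 1 * x 3 := by
      simp only [hC]
      ring
    rw [← norm_pow, h1]
    refine (norm_add_le _ _).trans (add_le_add hC1 (le_of_eq ?_))
    rw [norm_mul, norm_mul]
    norm_num
  have h3 : 3 * ‖disc x‖ ≤ (‖x 1‖ * ‖x 2‖ + 9 * ‖x 0‖ * ‖x 3‖) ^ 2 + 4 * T ^ 4 := by
    have h1 : 3 * ‖disc x‖ = ‖(x 1 * x 2 - 9 * x 0 * x 3) ^ 2 - 4 * hA x * hC x‖ := by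
      rw [disc_id, norm_mul]
      norm_num
    rw [h1]
    refine (norm_sub_le _ _).trans (add_le_add ?_ ?_)
    · rw [norm_pow]
      refine pow_le_pow_left₀ (norm_nonneg _) ?_ 2
      refine (norm_sub_le _ _).trans (le_of_eq ?_)
      rw [norm_mul, norm_mul, norm_mul]
      norm_num
    · rw [norm_mul, norm_mul]
      have h4 : ‖hA x‖ * ‖hC x‖ ≤ T ^ 2 * T ^ 2 := mul_le_mul hA1 hC1 (norm_nonneg _) (by positivity)
      have h5 : ‖(4 : ℂ)‖ = 4 := by norm_num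
      rw [h5]
      nlinarith
  have hD := reg1 hT (norm_nonneg (x 0)) (norm_nonneg (x 1)) (norm_nonneg (x 2)) (norm_nonneg (x 3)) hb2 hc2
    haD heD h3
  have hT4 : 0 < T ^ 4 := by positivity
  have hT6 : 0 < T ^ 6 := by positivity
  refine ⟨by linarith, ?_⟩
  rcases (norm_nonneg (disc x)).eq_or_lt with h0 | h0
  · intro i
    rw [← h0, mul_zero]
    positivity
  have h6 := reg2 hT (norm_nonneg (x 0)) (norm_nonneg (x 1)) (norm_nonneg (x 2)) (norm_nonneg (x 3)) h0 hb2 hc2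
    haD heD hD
  intro i
  fin_cases i
  · show ‖x 0‖ ^ 2 * ‖disc x‖ ≤ 200 * T ^ 6
    linarith
  · exact h6.1
  · exact h6.2
  · show ‖x 3‖ ^ 2 * ‖disc x‖ ≤ 200 * T ^ 6
    linarith

/-- `u` is a polynomial of degree `k` at a point, `v` at a near point -/
private structure Sm (b s : ℝ) (k : ℕ) (c : ℝ) (u v : ℂ) : Prop where
  c0 : 0 ≤ c
  h1 : ‖u‖ ≤ c * b ^ k
  h2 : ‖v‖ ≤ c * b ^ k
  h3 : ‖v - u‖ ≤ c * k * b ^ k * s

private theorem Sm.add {b s : ℝ} {k : ℕ} {c c' d : ℝ} {u v u' v' : ℂ} (h : Sm b s k c u v)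
    (h' : Sm b s k c' u' v') (hd : c + c' = d) : Sm b s k d (u + u') (v + v') := by
  subst hd
  refine ⟨add_nonneg h.c0 h'.c0, ?_, ?_, ?_⟩
  · rw [add_mul]
    exact (norm_add_le _ _).trans (add_le_add h.h1 h'.h1)
  · rw [add_mul]
    exact (norm_add_le _ _).trans (add_le_add h.h2 h'.h2)
  · have e : v + v' - (u + u') = (v - u) + (v' - u') := by ring
    rw [e]
    refine (norm_add_le _ _).trans ((add_le_add h.h3 h'.h3).trans (le_of_eq ?_))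
    ring

private theorem Sm.sub {b s : ℝ} {k : ℕ} {c c' d : ℝ} {u v u' v' : ℂ} (h : Sm b s k c u v)
    (h' : Sm b s k c' u' v') (hd : c + c' = d) : Sm b s k d (u - u') (v - v') := by
  subst hd
  refine ⟨add_nonneg h.c0 h'.c0, ?_, ?_, ?_⟩
  · rw [add_mul]
    exact (norm_sub_le _ _).trans (add_le_add h.h1 h'.h1)
  · rw [add_mul]
    exact (norm_sub_le _ _).trans (add_le_add h.h2 h'.h2)
  · have e : v - v' - (u - u') = (v - u) - (v' - u') := by ring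
    rw [e]
    refine (norm_sub_le _ _).trans ((add_le_add h.h3 h'.h3).trans (le_of_eq ?_))
    ring

private theorem Sm.mul {b s : ℝ} (hb : 0 ≤ b) (hs : 0 ≤ s) {k l m : ℕ} {c c' d : ℝ} {u v u' v' : ℂ} (h : Sm b s k c u v)
    (h' : Sm b s l c' u' v') (hm : k + l = m) (hd : c * c' = d) : Sm b s m d (u * u') (v * v') := by
  subst hd hm
  have hc := h.c0
  have hc' := h'.c0
  have hbk : 0 ≤ b ^ k := pow_nonneg hb k
  have hbl : 0 ≤ b ^ l := pow_nonneg hb l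
  refine ⟨mul_nonneg h.c0 h'.c0, ?_, ?_, ?_⟩
  · rw [norm_mul, pow_add]
    refine (mul_le_mul h.h1 h'.h1 (norm_nonneg _) (by positivity)).trans (le_of_eq ?_)
    ring
  · rw [norm_mul, pow_add]
    refine (mul_le_mul h.h2 h'.h2 (norm_nonneg _) (by positivity)).trans (le_of_eq ?_)
    ring
  · have e : v * v' - u * u' = v * (v' - u') + (v - u) * u' := by ring
    rw [e]
    refine (norm_add_le _ _).trans ?_
    rw [norm_mul, norm_mul]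
    refine (add_le_add (mul_le_mul h.h2 h'.h3 (norm_nonneg _) (by positivity))
      (mul_le_mul h.h3 h'.h1 (norm_nonneg _) (by positivity))).trans (le_of_eq ?_)
    rw [pow_add]
    push_cast
    ring

private theorem Sm.cst {b s : ℝ} {z : ℂ} {c : ℝ} (hz : ‖z‖ = c) : Sm b s 0 c z z := by
  refine ⟨by rw [← hz]; exact norm_nonneg _, ?_, ?_, ?_⟩
  · rw [pow_zero, mul_one, hz]
  · rw [pow_zero, mul_one, hz]
  · rw [sub_self, norm_zero]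
    simp

private theorem Sm.pow {b s : ℝ} (hb : 0 ≤ b) (hs : 0 ≤ s) {u v : ℂ} (h : Sm b s 1 1 u v) (n : ℕ) :
    Sm b s n 1 (u ^ n) (v ^ n) := by
  induction n with
  | zero =>
    rw [pow_zero, pow_zero]
    exact Sm.cst norm_one
  | succ n ih =>
    rw [pow_succ, pow_succ]
    exact Sm.mul hb hs ih h rfl (one_mul 1)

private theorem sm_hA {b s : ℝ} (hb : 0 ≤ b) (hs : 0 ≤ s) {x z : Fin 4 → ℂ} (h : ∀ i, Sm b s 1 1 (x i) (z i)) :
    Sm b s 2 4 (hA x) (hA z) := by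
  unfold hA
  refine Sm.sub ((h 1).pow hb hs 2) (c' := 3) ?_ (by norm_num)
  exact Sm.mul hb hs (Sm.mul hb hs (Sm.cst (by norm_num : ‖(3 : ℂ)‖ = 3)) (h 0) rfl rfl) (h 2) rfl (by norm_num)

private theorem sm_hC {b s : ℝ} (hb : 0 ≤ b) (hs : 0 ≤ s) {x z : Fin 4 → ℂ} (h : ∀ i, Sm b s 1 1 (x i) (z i)) :
    Sm b s 2 4 (hC x) (hC z) := by
  unfold hC
  refine Sm.sub ((h 2).pow hb hs 2) (c' := 3) ?_ (by norm_num)
  exact Sm.mul hb hs (Sm.mul hb hs (Sm.cst (by norm_num : ‖(3 : ℂ)‖ = 3)) (h 1) rfl rfl) (h 3) rfl (by norm_num)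

private theorem sm_disc {b s : ℝ} (hb : 0 ≤ b) (hs : 0 ≤ s) {x z : Fin 4 → ℂ} (h : ∀ i, Sm b s 1 1 (x i) (z i)) :
    Sm b s 4 54 (disc x) (disc z) := by
  unfold disc
  have m1 : Sm b s 4 1 (x 1 ^ 2 * x 2 ^ 2) (z 1 ^ 2 * z 2 ^ 2) :=
    Sm.mul hb hs ((h 1).pow hb hs 2) ((h 2).pow hb hs 2) rfl (by norm_num)
  have m2 : Sm b s 4 4 (4 * x 0 * x 2 ^ 3) (4 * z 0 * z 2 ^ 3) :=
    Sm.mul hb hs (Sm.mul hb hs (Sm.cst (by norm_num : ‖(4 : ℂ)‖ = 4)) (h 0) rfl rfl) ((h 2).pow hb hs 3) rfl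
      (by norm_num)
  have m3 : Sm b s 4 4 (4 * x 1 ^ 3 * x 3) (4 * z 1 ^ 3 * z 3) :=
    Sm.mul hb hs (Sm.mul hb hs (Sm.cst (by norm_num : ‖(4 : ℂ)‖ = 4)) ((h 1).pow hb hs 3) rfl rfl) (h 3) rfl
      (by norm_num)
  have m4 : Sm b s 4 27 (27 * x 0 ^ 2 * x 3 ^ 2) (27 * z 0 ^ 2 * z 3 ^ 2) :=
    Sm.mul hb hs (Sm.mul hb hs (Sm.cst (by norm_num : ‖(27 : ℂ)‖ = 27)) ((h 0).pow hb hs 2) rfl rfl)
      ((h 3).pow hb hs 2) rfl (by norm_num)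
  have m5 : Sm b s 4 18 (18 * x 0 * x 1 * x 2 * x 3) (18 * z 0 * z 1 * z 2 * z 3) :=
    Sm.mul hb hs (Sm.mul hb hs (Sm.mul hb hs (Sm.mul hb hs (Sm.cst (by norm_num : ‖(18 : ℂ)‖ = 18)) (h 0) rfl rfl)
      (h 1) rfl rfl) (h 2) rfl rfl) (h 3) rfl (by norm_num)
  exact Sm.add (Sm.sub (Sm.sub (Sm.sub m1 m2 rfl) m3 rfl) m4 rfl) m5 (by norm_num)

theorem reg_pert : ∃ C₀ : ℝ, 1 ≤ C₀ ∧ ∀ (T θ ρ : ℝ) (x y : Fin 4 → ℂ), 0 < T → 0 < θ → θ ≤ 1 →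
    0 ≤ ρ → C₀ * ρ / (θ ^ 5 * T) ≤ 1 / 2 → D1 T x → θ * T ^ 4 ≤ ‖disc x‖ → (∀ i, ‖y i‖ ≤ ρ) →
    D1 (T * (1 + C₀ * ρ / (θ ^ 5 * T))) (x + y) ∧
      ‖disc (x + y) - disc x‖ ≤ C₀ * ρ / (θ ^ 5 * T) * ‖disc x‖ := by
  refine ⟨10 ^ 10, by norm_num, ?_⟩
  intro T θ ρ x y hT hθ hθ1 hρ hsm hD hlo hy
  obtain ⟨q, hq⟩ : ∃ q : ℝ, q = 1 / θ := ⟨_, rfl⟩
  have hq1 : 1 ≤ q := by
    rw [hq, le_div_iff₀ hθ]
    linarith
  have hq0 : 0 < q := zero_lt_one.trans_le hq1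
  have hθq : θ * q = 1 := by
    rw [hq]
    field_simp
  obtain ⟨E, hE⟩ : ∃ E : ℝ, E = 10 ^ 10 * ρ / (θ ^ 5 * T) := ⟨_, rfl⟩
  have hET : E * T = 10 ^ 10 * ρ * q ^ 5 := by
    rw [hE, hq]
    field_simp
  rw [← hE] at hsm ⊢
  have hE0 : 0 ≤ E := by
    rw [hE]
    positivity
  have hq5 : 1 ≤ q ^ 5 := one_le_pow₀ hq1
  have hρT : ρ ≤ T := by
    have h1 : E * T ≤ 1 / 2 * T := mul_le_mul_of_nonneg_right hsm hT.le
    rw [hET] at h1
    have h2 : ρ * 1 ≤ ρ * q ^ 5 := mul_le_mul_of_nonneg_left hq5 hρ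
    nlinarith
  -- the size of `x`
  obtain ⟨-, hxi⟩ := reg_bd hT hD
  have hTD : T ^ 4 ≤ q * ‖disc x‖ := by
    have h1 : q * (θ * T ^ 4) ≤ q * ‖disc x‖ := mul_le_mul_of_nonneg_left hlo hq0.le
    have h2 : q * (θ * T ^ 4) = T ^ 4 := by
      rw [← mul_assoc, mul_comm q, hθq, one_mul]
    rwa [h2] at h1
  have hx : ∀ i, ‖x i‖ ≤ 15 * T * q := by
    intro i
    have h1 := hxi i
    have h2 : ‖x i‖ ^ 2 * T ^ 4 ≤ (15 * T * q) ^ 2 * T ^ 4 := by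
      calc ‖x i‖ ^ 2 * T ^ 4 ≤ ‖x i‖ ^ 2 * (q * ‖disc x‖) := mul_le_mul_of_nonneg_left hTD (by positivity)
        _ = q * (‖x i‖ ^ 2 * ‖disc x‖) := by ring
        _ ≤ q * (200 * T ^ 6) := mul_le_mul_of_nonneg_left h1 hq0.le
        _ ≤ (15 * T * q) ^ 2 * T ^ 4 := by
          have h3 : 0 < T ^ 6 := by positivity
          have h4 : q * 200 ≤ 225 * q ^ 2 := by nlinarith
          have h5 := mul_le_mul_of_nonneg_right h4 h3.le
          calc q * (200 * T ^ 6) = q * 200 * T ^ 6 := by ring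
            _ ≤ 225 * q ^ 2 * T ^ 6 := h5
            _ = (15 * T * q) ^ 2 * T ^ 4 := by ring
    have h3 := le_of_mul_le_mul_right h2 (by positivity : 0 < T ^ 4)
    exact (pow_le_pow_iff_left₀ (norm_nonneg _) (by positivity) two_ne_zero).1 h3
  obtain ⟨b, hb⟩ : ∃ b : ℝ, b = 30 * T * q := ⟨_, rfl⟩
  have hb0 : 0 < b := by rw [hb]; positivity
  have hTq : T ≤ T * q := le_mul_of_one_le_right hT.le hq1
  obtain ⟨s, hs⟩ : ∃ s : ℝ, s = ρ / b := ⟨_, rfl⟩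
  have hs0 : 0 ≤ s := by rw [hs]; positivity
  have hbs : b * s = ρ := by
    rw [hs]
    field_simp
  have hxz : ∀ i, Sm b s 1 1 (x i) ((x + y) i) := by
    intro i
    have h1 := hx i
    have h2 := hy i
    refine ⟨zero_le_one, ?_, ?_, ?_⟩
    · rw [pow_one, one_mul, hb]
      linarith
    · rw [pow_one, one_mul, hb, Pi.add_apply]
      refine (norm_add_le _ _).trans ?_
      linarith
    · rw [Pi.add_apply, add_sub_cancel_left, pow_one, Nat.cast_one, one_mul, one_mul, hbs]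
      exact h2
  have dA : ‖hA (x + y) - hA x‖ ≤ T ^ 2 * E := by
    refine (sm_hA hb0.le hs0 hxz).h3.trans ?_
    calc (4 : ℝ) * (2 : ℕ) * b ^ 2 * s = 8 * b * (b * s) := by push_cast; ring
      _ = 240 * (T * (ρ * q)) := by rw [hbs, hb]; ring
      _ ≤ 10 ^ 10 * (T * (ρ * q ^ 5)) := by
        have h1 : q ≤ q ^ 5 := le_self_pow₀ hq1 (by norm_num)
        have h2 : T * (ρ * q) ≤ T * (ρ * q ^ 5) :=
          mul_le_mul_of_nonneg_left (mul_le_mul_of_nonneg_left h1 hρ) hT.le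
        have h3 : 0 ≤ T * (ρ * q ^ 5) := by positivity
        linarith
      _ = T * (E * T) := by rw [hET]; ring
      _ = T ^ 2 * E := by ring
  have dC : ‖hC (x + y) - hC x‖ ≤ T ^ 2 * E := by
    refine (sm_hC hb0.le hs0 hxz).h3.trans ?_
    calc (4 : ℝ) * (2 : ℕ) * b ^ 2 * s = 8 * b * (b * s) := by push_cast; ring
      _ = 240 * (T * (ρ * q)) := by rw [hbs, hb]; ring
      _ ≤ 10 ^ 10 * (T * (ρ * q ^ 5)) := by
        have h1 : q ≤ q ^ 5 := le_self_pow₀ hq1 (by norm_num)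
        have h2 : T * (ρ * q) ≤ T * (ρ * q ^ 5) :=
          mul_le_mul_of_nonneg_left (mul_le_mul_of_nonneg_left h1 hρ) hT.le
        have h3 : 0 ≤ T * (ρ * q ^ 5) := by positivity
        linarith
      _ = T * (E * T) := by rw [hET]; ring
      _ = T ^ 2 * E := by ring
  have dD : ‖disc (x + y) - disc x‖ ≤ E * ‖disc x‖ := by
    refine (sm_disc hb0.le hs0 hxz).h3.trans ?_
    have h1 : (54 : ℝ) * (4 : ℕ) * b ^ 4 * s = 5832000 * (T ^ 3 * (ρ * q ^ 3)) := by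
      calc (54 : ℝ) * (4 : ℕ) * b ^ 4 * s = 216 * b ^ 3 * (b * s) := by push_cast; ring
        _ = _ := by rw [hbs, hb]; ring
    rw [h1]
    have h2 : q * (5832000 * (T ^ 3 * (ρ * q ^ 3))) ≤ q * (E * ‖disc x‖) := by
      have h3 : E * T ^ 4 ≤ E * (q * ‖disc x‖) := mul_le_mul_of_nonneg_left hTD hE0
      have h4 : E * T ^ 4 = 10 ^ 10 * (T ^ 3 * (ρ * q ^ 5)) := by
        calc E * T ^ 4 = (E * T) * T ^ 3 := by ring
          _ = _ := by rw [hET]; ring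
      have h5 : q ^ 4 ≤ q ^ 5 := pow_le_pow_right₀ hq1 (by norm_num)
      have h6 : T ^ 3 * (ρ * q ^ 4) ≤ T ^ 3 * (ρ * q ^ 5) :=
        mul_le_mul_of_nonneg_left (mul_le_mul_of_nonneg_left h5 hρ) (by positivity)
      have h7 : 0 ≤ T ^ 3 * (ρ * q ^ 5) := by positivity
      have h8 : q * (5832000 * (T ^ 3 * (ρ * q ^ 3))) = 5832000 * (T ^ 3 * (ρ * q ^ 4)) := by ring
      rw [h8]
      rw [h4] at h3
      linarith
    exact le_of_mul_le_mul_left h2 hq0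
  have hg : ∀ i, ‖(x + y) i ^ 2 * disc (x + y) - x i ^ 2 * disc x‖ ≤ T ^ 6 * E := by
    intro i
    have h1 := (Sm.mul hb0.le hs0 ((hxz i).pow hb0.le hs0 2) (sm_disc hb0.le hs0 hxz) rfl rfl).h3
    refine h1.trans ?_
    have h2 : (1 : ℝ) * 54 * ((2 + 4 : ℕ) : ℝ) * b ^ (2 + 4) * s = 7873200000 * (T ^ 5 * (ρ * q ^ 5)) := by
      calc (1 : ℝ) * 54 * ((2 + 4 : ℕ) : ℝ) * b ^ (2 + 4) * s = 324 * b ^ 5 * (b * s) := by push_cast; ring
        _ = _ := by rw [hbs, hb]; ring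
    rw [h2]
    have h3 : T ^ 6 * E = 10 ^ 10 * (T ^ 5 * (ρ * q ^ 5)) := by
      calc T ^ 6 * E = T ^ 5 * (E * T) := by ring
        _ = _ := by rw [hET]; ring
    rw [h3]
    have h4 : 0 ≤ T ^ 5 * (ρ * q ^ 5) := by positivity
    linarith
  obtain ⟨hA1, hC1, ha1, he1⟩ := hD
  have hE1 : 1 ≤ 1 + E := by linarith
  have p2 : 1 + E ≤ (1 + E) ^ 2 := le_self_pow₀ hE1 (by norm_num)
  have p6 : 1 + E ≤ (1 + E) ^ 6 := le_self_pow₀ hE1 (by norm_num)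
  have q2 : T ^ 2 * (1 + E) ≤ (T * (1 + E)) ^ 2 := by
    rw [mul_pow]
    exact mul_le_mul_of_nonneg_left p2 (by positivity)
  have q6 : T ^ 6 * (1 + E) ≤ (T * (1 + E)) ^ 6 := by
    rw [mul_pow]
    exact mul_le_mul_of_nonneg_left p6 (by positivity)
  have tri : ∀ (u v : ℂ) (r t : ℝ), ‖u‖ ≤ r → ‖v - u‖ ≤ t → ‖v‖ ≤ r + t := by
    intro u v r t h1 h2
    have h3 : v = u + (v - u) := by ring
    rw [h3]
    exact (norm_add_le _ _).trans (add_le_add h1 h2)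
  refine ⟨⟨?_, ?_, ?_, ?_⟩, dD⟩
  · have := tri _ _ _ _ hA1 dA
    linarith
  · have := tri _ _ _ _ hC1 dC
    linarith
  · have := tri _ _ _ _ ha1 (hg 0)
    linarith
  · have := tri _ _ _ _ he1 (hg 3)
    linarith

end H97.SXM
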