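import Pool.Agent.H97.SXM.Defs

/-!
# [SXM VECA] Cubic forms over `ℂ` as products of linear forms, 120-200 lines. File Pool/Agent/H97/SXM/VecA.lean

For a form `f : Fin 4 → ℂ` with `disc f ≠ 0` there are `l, m : Fin 2 → ℂ` (linear forms `ℓ₁(v) = l 0 v 0 + l 1 v 1`, `ℓ₂(v) = m 0 v 0 + m 1 v 1`) with `δ = dt l m`, `disc f = δ²`, `f(v) δ = -ℓ₁ ℓ₂ (ℓ₁ + ℓ₂)`, `hes f v = ℓ₁² + ℓ₁ ℓ₂ + ℓ₂²` (`fac`). PROOF. Case `a = f 0 ≠ 0`: `a t³ + b t² + c t + e =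
a (t - r₁)(t - r₂)(t - r₃)` over `ℂ`, so `b = -a (r₁+r₂+r₃)`, `c = a (r₁r₂+r₁r₃+r₂r₃)`, `e = -a r₁r₂r₃` (existence: a root `r₁` by `IsAlgClosed.exists_root` or `Complex.exists_root`, then the quadratic factor: roots `r₂, r₃` from a square root of its discriminant). Put `ℓ₁ = a (r₂ - r₃)(x - r₁ y)`, `ℓ₂ = a (r₃ - r₁)(x - r₂ y)`;
`-(ℓ₁ + ℓ₂) = a (r₁ - r₂)(x - r₃ y)`, `δ = a² (r₁-r₂)(r₂-r₃)(r₃-r₁)`; all identities by `ring` after substituting `b, c, e`. Case `a = 0`: `b ≠ 0` (else `disc f = 0`), `b t² + c t + e = b (t - r₁)(t - r₂)`: `ℓ₁ = b (r₁ - r₂) y`, `ℓ₂ = b (x - r₁ y)`, `δ = -b² (r₁ - r₂)`; `ring`.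
`fac_bd` (sizes). The number `z = l 0` satisfies `z³ = (l0² + l0 m0 + m0²) z - l0 m0 (l0 + m0)` (`ring`), and `l0² + l0 m0 + m0² = hes f (1,0) = hA f = b² - 3ac`, `|hA f| ≤ 4 κ² T₁²`, `|l0 m0 (l0+m0)| = |a δ| ≤ κ² T₁³` (`|δ|² = |disc f| ≤ κ T₁² T₂²`, so `|δ| ≤ κ T₁ T₂`); so `|l0| ≤ 3 κ T₁`
(if `|l0| > 3κT₁` then `|l0|³ > 9 κ² T₁² |l0| > 4 κ² T₁² |l0| + κ² T₁³`). The same for `m 0`, and with `(0, 1)`, `hC f`, `e δ` for `l 1`, `m 1`: `≤ 3 κ T₂`.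
`v1_in`: if `V1 T f v` then `|ℓ₁(v)|, |ℓ₂(v)| ≤ 2 T` (the same cubic equation with `T²`, `T³`; `|ev f v ² disc f| = |ℓ₁ℓ₂(ℓ₁+ℓ₂)|²`), and `δ v 0 = ℓ₁ m 1 - ℓ₂ l 1`, `δ v 1 = ℓ₂ l 0 - ℓ₁ m 0`, `|δ| ≥ T₁ T₂ / κ` (`(T₁T₂)² ≤ κ |δ|²`): `|v 0| ≤ 12 κ² T / T₁`, `|v 1| ≤ 12 κ² T / T₂`.
`v1_pert`: `|u i| ≤ ρ`, `ρ T₂ ≤ T`: `|ℓ_i(u)| ≤ 6 κ T₂ ρ =: η ≤ 6 κ T` (`T₁ ≤ T₂`), `|hes f (v+u)| ≤ T² + C T η`, `|(ℓ₁ℓ₂(ℓ₁+ℓ₂))(v+u)| ≤ T³ + C T² η`, so `V1 (T (1 + C η / T)) f (v + u)`.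
-/

set_option autoImplicit false

open H77.MF

noncomputable section

namespace H97.SXM

private theorem fac_a {f : Fin 4 → ℂ} (ha : f 0 ≠ 0) : ∃ l m : Fin 2 → ℂ, disc f = dt l m ^ 2 ∧
    (∀ v : Fin 2 → ℂ, ev f v * dt l m = -((l 0 * v 0 + l 1 * v 1) * (m 0 * v 0 + m 1 * v 1) *
      ((l 0 * v 0 + l 1 * v 1) + (m 0 * v 0 + m 1 * v 1)))) ∧
    ∀ v : Fin 2 → ℂ, hes f v = (l 0 * v 0 + l 1 * v 1) ^ 2 +
      (l 0 * v 0 + l 1 * v 1) * (m 0 * v 0 + m 1 * v 1) + (m 0 * v 0 + m 1 * v 1) ^ 2 := by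
  set P : Cubic ℂ := ⟨f 0, f 1, f 2, f 3⟩ with hP
  have hPa : P.a ≠ 0 := ha
  have hsp : (P.toPoly.map (RingHom.id ℂ)).Splits := IsAlgClosed.splits _
  obtain ⟨r1, r2, r3, h3⟩ := (Cubic.splits_iff_roots_eq_three (φ := RingHom.id ℂ) hPa).1 hsp
  have hb : f 1 = f 0 * -(r1 + r2 + r3) := by
    have := Cubic.b_eq_three_roots hPa h3
    simpa [hP] using this
  have hc : f 2 = f 0 * (r1 * r2 + r1 * r3 + r2 * r3) := by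
    have := Cubic.c_eq_three_roots hPa h3
    simpa [hP] using this
  have hd : f 3 = f 0 * -(r1 * r2 * r3) := by
    have := Cubic.d_eq_three_roots hPa h3
    simpa [hP] using this
  refine ⟨![f 0 * (r2 - r3), -(f 0 * (r2 - r3) * r1)], ![f 0 * (r3 - r1), -(f 0 * (r3 - r1) * r2)],
    ?_, ?_, ?_⟩
  · simp only [disc, dt, hb, hc, hd, Matrix.cons_val_zero, Matrix.cons_val_one]
    ring
  · intro v
    simp only [ev, dt, hb, hc, hd, Matrix.cons_val_zero, Matrix.cons_val_one]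
    ring
  · intro v
    simp only [hes, hA, hC, hb, hc, hd, Matrix.cons_val_zero, Matrix.cons_val_one]
    ring

private theorem fac_b {f : Fin 4 → ℂ} (ha : f 0 = 0) (hb : f 1 ≠ 0) : ∃ l m : Fin 2 → ℂ,
    disc f = dt l m ^ 2 ∧
    (∀ v : Fin 2 → ℂ, ev f v * dt l m = -((l 0 * v 0 + l 1 * v 1) * (m 0 * v 0 + m 1 * v 1) *
      ((l 0 * v 0 + l 1 * v 1) + (m 0 * v 0 + m 1 * v 1)))) ∧
    ∀ v : Fin 2 → ℂ, hes f v = (l 0 * v 0 + l 1 * v 1) ^ 2 +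
      (l 0 * v 0 + l 1 * v 1) * (m 0 * v 0 + m 1 * v 1) + (m 0 * v 0 + m 1 * v 1) ^ 2 := by
  obtain ⟨s, hs⟩ := IsAlgClosed.exists_pow_nat_eq (f 2 ^ 2 - 4 * f 1 * f 3) (n := 2) (by norm_num)
  obtain ⟨r1, hr1⟩ : ∃ r1 : ℂ, r1 = (-f 2 + s) / (2 * f 1) := ⟨_, rfl⟩
  obtain ⟨r2, hr2⟩ : ∃ r2 : ℂ, r2 = (-f 2 - s) / (2 * f 1) := ⟨_, rfl⟩
  have hc : f 2 = -(f 1 * (r1 + r2)) := by
    rw [hr1, hr2]
    field_simp
    ring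
  have hd : f 3 = f 1 * (r1 * r2) := by
    have h1 : f 1 * (r1 * r2) = (f 2 ^ 2 - s ^ 2) / (4 * f 1) := by
      rw [hr1, hr2]
      field_simp
      ring
    rw [h1, hs]
    field_simp
    ring
  refine ⟨![0, f 1 * (r1 - r2)], ![f 1, -(f 1 * r1)], ?_, ?_, ?_⟩
  · simp only [disc, dt, ha, hc, hd, Matrix.cons_val_zero, Matrix.cons_val_one]
    ring
  · intro v
    simp only [ev, dt, ha, hc, hd, Matrix.cons_val_zero, Matrix.cons_val_one]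
    ring
  · intro v
    simp only [hes, hA, hC, ha, hc, hd, Matrix.cons_val_zero, Matrix.cons_val_one]
    ring

theorem fac {f : Fin 4 → ℂ} (hf : disc f ≠ 0) : ∃ l m : Fin 2 → ℂ, disc f = dt l m ^ 2 ∧
    (∀ v : Fin 2 → ℂ, ev f v * dt l m = -((l 0 * v 0 + l 1 * v 1) * (m 0 * v 0 + m 1 * v 1) *
      ((l 0 * v 0 + l 1 * v 1) + (m 0 * v 0 + m 1 * v 1)))) ∧
    ∀ v : Fin 2 → ℂ, hes f v = (l 0 * v 0 + l 1 * v 1) ^ 2 +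
      (l 0 * v 0 + l 1 * v 1) * (m 0 * v 0 + m 1 * v 1) + (m 0 * v 0 + m 1 * v 1) ^ 2 := by
  by_cases ha : f 0 = 0
  · have hb : f 1 ≠ 0 := by
      intro hb
      exact hf (by simp [disc, ha, hb])
    exact fac_b ha hb
  · exact fac_a ha

/-- the sizes of a reduced form at one place -/
structure Rd1 (κ T₁ T₂ : ℝ) (f : Fin 4 → ℂ) : Prop where
  one : 1 ≤ T₁
  le : T₁ ≤ T₂
  s0 : ‖f 0‖ ≤ κ * (T₁ ^ 2 / T₂)
  s1 : ‖f 1‖ ≤ κ * T₁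
  s2 : ‖f 2‖ ≤ κ * T₂
  s3 : ‖f 3‖ ≤ κ * (T₂ ^ 2 / T₁)
  lo : (T₁ * T₂) ^ 2 ≤ κ * ‖disc f‖
  hi : ‖disc f‖ ≤ κ * (T₁ * T₂) ^ 2

private theorem cube_le {x A B M : ℝ} (hM : 0 < M) (hB : 0 ≤ B) (h : x ^ 3 ≤ A * x + B)
    (hAM : A * M + B ≤ M ^ 3) : x ≤ M := by
  by_contra hx
  push Not at hx
  have h0 : 0 < x := hM.trans hx
  have h1 : M * (M * x) < x * (x * x) := by
    have : M * (M * x) < x * (M * x) := mul_lt_mul_of_pos_right hx (by positivity)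
    have h2 : x * (M * x) ≤ x * (x * x) :=
      mul_le_mul_of_nonneg_left (mul_le_mul_of_nonneg_right hx.le h0.le) h0.le
    linarith
  have h3 : M ^ 3 * x ≥ (A * M + B) * x := mul_le_mul_of_nonneg_right hAM h0.le
  have h4 : B * M ≤ B * x := mul_le_mul_of_nonneg_left hx.le hB
  have h5 : M * (M * (M * x)) < M * (x * (x * x)) := mul_lt_mul_of_pos_left h1 hM
  have h6 : M * (x * (x * x)) ≤ M * (A * x + B) := by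
    apply mul_le_mul_of_nonneg_left _ hM.le
    nlinarith [h]
  nlinarith [h3, h4, h5, h6]

/-- the cubic equation for a linear form -/
private theorem lin_le {x y : ℂ} {A B M : ℝ} (hM : 0 < M) (hA : ‖x ^ 2 + x * y + y ^ 2‖ ≤ A)
    (hB : ‖x * y * (x + y)‖ ≤ B) (hAM : A * M + B ≤ M ^ 3) : ‖x‖ ≤ M ∧ ‖y‖ ≤ M := by
  have hB0 : 0 ≤ B := (norm_nonneg _).trans hB
  constructor
  · apply cube_le hM hB0 _ hAM
    have h1 : x ^ 3 = (x ^ 2 + x * y + y ^ 2) * x - x * y * (x + y) := by ring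
    calc ‖x‖ ^ 3 = ‖x ^ 3‖ := (norm_pow _ _).symm
      _ = ‖(x ^ 2 + x * y + y ^ 2) * x - x * y * (x + y)‖ := by rw [← h1]
      _ ≤ ‖(x ^ 2 + x * y + y ^ 2) * x‖ + ‖x * y * (x + y)‖ := norm_sub_le _ _
      _ ≤ A * ‖x‖ + B := by
        rw [norm_mul]
        exact add_le_add (mul_le_mul_of_nonneg_right hA (norm_nonneg _)) hB
  · apply cube_le hM hB0 _ hAM
    have h1 : y ^ 3 = (x ^ 2 + x * y + y ^ 2) * y - x * y * (x + y) := by ring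
    calc ‖y‖ ^ 3 = ‖y ^ 3‖ := (norm_pow _ _).symm
      _ = ‖(x ^ 2 + x * y + y ^ 2) * y - x * y * (x + y)‖ := by rw [← h1]
      _ ≤ ‖(x ^ 2 + x * y + y ^ 2) * y‖ + ‖x * y * (x + y)‖ := norm_sub_le _ _
      _ ≤ A * ‖y‖ + B := by
        rw [norm_mul]
        exact add_le_add (mul_le_mul_of_nonneg_right hA (norm_nonneg _)) hB

private theorem rd_disc {κ T₁ T₂ : ℝ} {f : Fin 4 → ℂ} (h : Rd1 κ T₁ T₂ f) :
    disc f ≠ 0 := by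
  intro h0
  have h1 := h.lo
  rw [h0, norm_zero, mul_zero] at h1
  have h2 : 0 < T₁ := by linarith [h.one]
  have h3 : 0 < T₂ := by linarith [h.le]
  have : 0 < (T₁ * T₂) ^ 2 := by positivity
  linarith

/-- the sizes of the linear forms -/
private theorem fac_bd {κ T₁ T₂ : ℝ} (hκ : 1 ≤ κ) {f : Fin 4 → ℂ} (h : Rd1 κ T₁ T₂ f)
    {l m : Fin 2 → ℂ} (h1 : disc f = dt l m ^ 2)
    (h2 : ∀ v : Fin 2 → ℂ, ev f v * dt l m = -((l 0 * v 0 + l 1 * v 1) *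
      (m 0 * v 0 + m 1 * v 1) * ((l 0 * v 0 + l 1 * v 1) + (m 0 * v 0 + m 1 * v 1))))
    (h3 : ∀ v : Fin 2 → ℂ, hes f v = (l 0 * v 0 + l 1 * v 1) ^ 2 +
      (l 0 * v 0 + l 1 * v 1) * (m 0 * v 0 + m 1 * v 1) + (m 0 * v 0 + m 1 * v 1) ^ 2) :
    (‖l 0‖ ≤ 3 * κ * T₁ ∧ ‖m 0‖ ≤ 3 * κ * T₁) ∧ (‖l 1‖ ≤ 3 * κ * T₂ ∧ ‖m 1‖ ≤ 3 * κ * T₂) ∧
      T₁ * T₂ ≤ κ * ‖dt l m‖ := by
  have hT1 : 0 < T₁ := by linarith [h.one]
  have hT2 : 0 < T₂ := by linarith [h.le]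
  have hκ0 : 0 < κ := by linarith
  have hκ2 : κ ≤ κ ^ 2 := by nlinarith
  have hδ : ‖dt l m‖ ^ 2 = ‖disc f‖ := by rw [h1, norm_pow]
  have hδ1 : ‖dt l m‖ ≤ κ * (T₁ * T₂) := by
    apply le_of_sq_le_sq _ (by positivity)
    rw [hδ]
    calc ‖disc f‖ ≤ κ * (T₁ * T₂) ^ 2 := h.hi
      _ ≤ κ ^ 2 * (T₁ * T₂) ^ 2 := mul_le_mul_of_nonneg_right hκ2 (by positivity)
      _ = (κ * (T₁ * T₂)) ^ 2 := by ring
  have hδ2 : T₁ * T₂ ≤ κ * ‖dt l m‖ := by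
    apply le_of_sq_le_sq _ (by positivity)
    calc (T₁ * T₂) ^ 2 ≤ κ * ‖disc f‖ := h.lo
      _ ≤ κ ^ 2 * ‖disc f‖ := mul_le_mul_of_nonneg_right hκ2 (by positivity)
      _ = (κ * ‖dt l m‖) ^ 2 := by rw [← hδ]; ring
  have e0 := h2 ![1, 0]
  have e1 := h3 ![1, 0]
  have e2 := h2 ![0, 1]
  have e3 := h3 ![0, 1]
  simp only [ev, hes, Matrix.cons_val_zero, Matrix.cons_val_one, mul_one, mul_zero, add_zero,
    zero_add, one_pow, ne_eq, OfNat.ofNat_ne_zero, not_false_eq_true, zero_pow] at e0 e1 e2 e3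
  have b1 : ‖l 0 ^ 2 + l 0 * m 0 + m 0 ^ 2‖ ≤ 4 * κ ^ 2 * T₁ ^ 2 := by
    rw [← e1]
    calc ‖hA f‖ ≤ ‖f 1 ^ 2‖ + ‖3 * f 0 * f 2‖ := norm_sub_le _ _
      _ = ‖f 1‖ ^ 2 + 3 * ‖f 0‖ * ‖f 2‖ := by
        rw [norm_pow, norm_mul, norm_mul]
        norm_num
      _ ≤ (κ * T₁) ^ 2 + 3 * (κ * (T₁ ^ 2 / T₂)) * (κ * T₂) := by
        have := h.s0
        have := h.s1
        have := h.s2
        gcongr
      _ = 4 * κ ^ 2 * T₁ ^ 2 := by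
        field_simp
        ring
  have b2 : ‖l 0 * m 0 * (l 0 + m 0)‖ ≤ κ ^ 2 * T₁ ^ 3 := by
    have : l 0 * m 0 * (l 0 + m 0) = -(f 0 * dt l m) := by rw [e0]; ring
    rw [this, norm_neg, norm_mul]
    calc ‖f 0‖ * ‖dt l m‖ ≤ (κ * (T₁ ^ 2 / T₂)) * (κ * (T₁ * T₂)) := by
          have := h.s0
          gcongr
      _ = κ ^ 2 * T₁ ^ 3 := by
        field_simp
  have b3 : ‖l 1 ^ 2 + l 1 * m 1 + m 1 ^ 2‖ ≤ 4 * κ ^ 2 * T₂ ^ 2 := by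
    rw [← e3]
    calc ‖hC f‖ ≤ ‖f 2 ^ 2‖ + ‖3 * f 1 * f 3‖ := norm_sub_le _ _
      _ = ‖f 2‖ ^ 2 + 3 * ‖f 1‖ * ‖f 3‖ := by
        rw [norm_pow, norm_mul, norm_mul]
        norm_num
      _ ≤ (κ * T₂) ^ 2 + 3 * (κ * T₁) * (κ * (T₂ ^ 2 / T₁)) := by
        have := h.s3
        have := h.s1
        have := h.s2
        gcongr
      _ = 4 * κ ^ 2 * T₂ ^ 2 := by
        field_simp
        ring
  have b4 : ‖l 1 * m 1 * (l 1 + m 1)‖ ≤ κ ^ 2 * T₂ ^ 3 := by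
    have : l 1 * m 1 * (l 1 + m 1) = -(f 3 * dt l m) := by rw [e2]; ring
    rw [this, norm_neg, norm_mul]
    calc ‖f 3‖ * ‖dt l m‖ ≤ (κ * (T₂ ^ 2 / T₁)) * (κ * (T₁ * T₂)) := by
          have := h.s3
          gcongr
      _ = κ ^ 2 * T₂ ^ 3 := by
        field_simp
  have hκ3 : κ ^ 2 ≤ κ ^ 3 := by nlinarith [sq_nonneg κ]
  refine ⟨lin_le (by positivity) b1 b2 ?_, lin_le (by positivity) b3 b4 ?_, hδ2⟩
  · have : κ ^ 2 * T₁ ^ 3 ≤ κ ^ 3 * T₁ ^ 3 := mul_le_mul_of_nonneg_right hκ3 (by positivity)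
    have h9 : 0 < κ ^ 3 * T₁ ^ 3 := by positivity
    nlinarith
  · have : κ ^ 2 * T₂ ^ 3 ≤ κ ^ 3 * T₂ ^ 3 := mul_le_mul_of_nonneg_right hκ3 (by positivity)
    have h9 : 0 < κ ^ 3 * T₂ ^ 3 := by positivity
    nlinarith

/-- the linear forms of a vector of the region -/
private theorem v1_lin {T : ℝ} (hT : 0 < T) {f : Fin 4 → ℂ} {v : Fin 2 → ℂ} (hv : V1 T f v)
    {l m : Fin 2 → ℂ} (h1 : disc f = dt l m ^ 2)
    (h2 : ∀ v : Fin 2 → ℂ, ev f v * dt l m = -((l 0 * v 0 + l 1 * v 1) *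
      (m 0 * v 0 + m 1 * v 1) * ((l 0 * v 0 + l 1 * v 1) + (m 0 * v 0 + m 1 * v 1))))
    (h3 : ∀ v : Fin 2 → ℂ, hes f v = (l 0 * v 0 + l 1 * v 1) ^ 2 +
      (l 0 * v 0 + l 1 * v 1) * (m 0 * v 0 + m 1 * v 1) + (m 0 * v 0 + m 1 * v 1) ^ 2) :
    ‖(l 0 * v 0 + l 1 * v 1) * (m 0 * v 0 + m 1 * v 1) *
      ((l 0 * v 0 + l 1 * v 1) + (m 0 * v 0 + m 1 * v 1))‖ ≤ T ^ 3 ∧
    ‖l 0 * v 0 + l 1 * v 1‖ ≤ 2 * T ∧ ‖m 0 * v 0 + m 1 * v 1‖ ≤ 2 * T := by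
  have e1 : ‖(l 0 * v 0 + l 1 * v 1) * (m 0 * v 0 + m 1 * v 1) *
      ((l 0 * v 0 + l 1 * v 1) + (m 0 * v 0 + m 1 * v 1))‖ ≤ T ^ 3 := by
    apply le_of_sq_le_sq _ (by positivity)
    rw [← norm_pow]
    have : ((l 0 * v 0 + l 1 * v 1) * (m 0 * v 0 + m 1 * v 1) *
      ((l 0 * v 0 + l 1 * v 1) + (m 0 * v 0 + m 1 * v 1))) ^ 2 = ev f v ^ 2 * disc f := by
      rw [h1, ← mul_pow, h2 v]
      ring
    rw [this]
    calc _ ≤ T ^ 6 := hv.2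
      _ = (T ^ 3) ^ 2 := by ring
  have e2 := hv.1
  rw [h3 v] at e2
  refine ⟨e1, lin_le (by positivity) e2 e1 ?_⟩
  have : 0 < T ^ 3 := by positivity
  nlinarith

theorem v1_in {κ T₁ T₂ T : ℝ} (hκ : 1 ≤ κ) (hT : 0 < T) {f : Fin 4 → ℂ} (h : Rd1 κ T₁ T₂ f)
    {v : Fin 2 → ℂ} (hv : V1 T f v) : ‖v 0‖ ≤ 12 * κ ^ 2 * T / T₁ ∧ ‖v 1‖ ≤ 12 * κ ^ 2 * T / T₂ := by
  obtain ⟨l, m, h1, h2, h3⟩ := fac (rd_disc h)
  obtain ⟨⟨hl0, hm0⟩, ⟨hl1, hm1⟩, hδ⟩ := fac_bd hκ h h1 h2 h3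
  obtain ⟨-, hx, hy⟩ := v1_lin hT hv h1 h2 h3
  have hT1 : 0 < T₁ := by linarith [h.one]
  have hT2 : 0 < T₂ := by linarith [h.le]
  have hκ0 : 0 < κ := by linarith
  constructor
  · rw [le_div_iff₀ hT1]
    have e : dt l m * v 0 = (l 0 * v 0 + l 1 * v 1) * m 1 - (m 0 * v 0 + m 1 * v 1) * l 1 := by
      simp only [dt]
      ring
    have e1 : ‖dt l m‖ * ‖v 0‖ ≤ 2 * T * (3 * κ * T₂) + 2 * T * (3 * κ * T₂) := by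
      rw [← norm_mul, e]
      refine (norm_sub_le _ _).trans ?_
      rw [norm_mul, norm_mul]
      gcongr
    have e2 : T₁ * T₂ * ‖v 0‖ ≤ κ * ‖dt l m‖ * ‖v 0‖ :=
      mul_le_mul_of_nonneg_right hδ (norm_nonneg _)
    have e3 : κ * (‖dt l m‖ * ‖v 0‖) ≤ κ * (2 * T * (3 * κ * T₂) + 2 * T * (3 * κ * T₂)) :=
      mul_le_mul_of_nonneg_left e1 hκ0.le
    have e4 : T₂ * (‖v 0‖ * T₁) ≤ T₂ * (12 * κ ^ 2 * T) := by nlinarith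
    exact le_of_mul_le_mul_left e4 hT2
  · rw [le_div_iff₀ hT2]
    have e : dt l m * v 1 = (m 0 * v 0 + m 1 * v 1) * l 0 - (l 0 * v 0 + l 1 * v 1) * m 0 := by
      simp only [dt]
      ring
    have e1 : ‖dt l m‖ * ‖v 1‖ ≤ 2 * T * (3 * κ * T₁) + 2 * T * (3 * κ * T₁) := by
      rw [← norm_mul, e]
      refine (norm_sub_le _ _).trans ?_
      rw [norm_mul, norm_mul]
      gcongr
    have e2 : T₁ * T₂ * ‖v 1‖ ≤ κ * ‖dt l m‖ * ‖v 1‖ :=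
      mul_le_mul_of_nonneg_right hδ (norm_nonneg _)
    have e3 : κ * (‖dt l m‖ * ‖v 1‖) ≤ κ * (2 * T * (3 * κ * T₁) + 2 * T * (3 * κ * T₁)) :=
      mul_le_mul_of_nonneg_left e1 hκ0.le
    have e4 : T₁ * (‖v 1‖ * T₂) ≤ T₁ * (12 * κ ^ 2 * T) := by nlinarith
    exact le_of_mul_le_mul_left e4 hT1

private theorem pert_hes {x y ξ ζ : ℂ} {T κ s : ℝ} (hκ : 1 ≤ κ) (hT : 0 < T) (hs : 0 ≤ s)
    (hs1 : s ≤ 1) (hx : ‖x‖ ≤ 2 * T) (hy : ‖y‖ ≤ 2 * T) (hξ : ‖ξ‖ ≤ 6 * κ * s * T)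
    (hζ : ‖ζ‖ ≤ 6 * κ * s * T) (hP : ‖x ^ 2 + x * y + y ^ 2‖ ≤ T ^ 2) :
    ‖(x + ξ) ^ 2 + (x + ξ) * (y + ζ) + (y + ζ) ^ 2‖ ≤ (T * (1 + 1008 * κ ^ 3 * s)) ^ 2 := by
  have hκ0 : 0 < κ := by linarith
  have e : (x + ξ) ^ 2 + (x + ξ) * (y + ζ) + (y + ζ) ^ 2 =
      (x ^ 2 + x * y + y ^ 2) + (ξ * (2 * x + y) + ζ * (x + 2 * y) + (ξ * ξ + ξ * ζ + ζ * ζ)) := by
    ring
  have a1 : ‖2 * x + y‖ ≤ 6 * T := by
    refine (norm_add_le _ _).trans ?_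
    rw [norm_mul]
    norm_num
    linarith
  have a2 : ‖x + 2 * y‖ ≤ 6 * T := by
    refine (norm_add_le _ _).trans ?_
    rw [norm_mul]
    norm_num
    linarith
  have hη : 0 ≤ 6 * κ * s * T := by positivity
  have a3 : ‖ξ * (2 * x + y) + ζ * (x + 2 * y) + (ξ * ξ + ξ * ζ + ζ * ζ)‖ ≤
      6 * κ * s * T * (6 * T) + 6 * κ * s * T * (6 * T) + (6 * κ * s * T * (6 * κ * s * T) +
        6 * κ * s * T * (6 * κ * s * T) + 6 * κ * s * T * (6 * κ * s * T)) := by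
    refine (norm_add_le _ _).trans (add_le_add ((norm_add_le _ _).trans (add_le_add ?_ ?_))
      ((norm_add_le _ _).trans (add_le_add ((norm_add_le _ _).trans (add_le_add ?_ ?_)) ?_)))
    · rw [norm_mul]
      exact mul_le_mul hξ a1 (norm_nonneg _) hη
    · rw [norm_mul]
      exact mul_le_mul hζ a2 (norm_nonneg _) hη
    · rw [norm_mul]
      exact mul_le_mul hξ hξ (norm_nonneg _) hη
    · rw [norm_mul]
      exact mul_le_mul hξ hζ (norm_nonneg _) hη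
    · rw [norm_mul]
      exact mul_le_mul hζ hζ (norm_nonneg _) hη
  rw [e]
  refine (norm_add_le _ _).trans ((add_le_add hP a3).trans ?_)
  have q1 : κ ≤ κ ^ 3 := by nlinarith [sq_nonneg κ, mul_pos hκ0 hκ0]
  have q2 : κ ^ 2 ≤ κ ^ 3 := by nlinarith [sq_nonneg κ, mul_pos hκ0 hκ0]
  have q3 : s ^ 2 ≤ s := by nlinarith
  have q4 : κ * s ≤ κ ^ 3 * s := mul_le_mul_of_nonneg_right q1 hs
  have q5 : κ ^ 2 * s ^ 2 ≤ κ ^ 3 * s := mul_le_mul q2 q3 (by positivity) (by positivity)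
  have q6 : T ^ 2 * (1 + 72 * (κ * s) + 108 * (κ ^ 2 * s ^ 2)) ≤
      T ^ 2 * (1 + 1008 * κ ^ 3 * s) ^ 2 := by
    apply mul_le_mul_of_nonneg_left _ (by positivity)
    have : 0 ≤ κ ^ 3 * s := by positivity
    nlinarith [sq_nonneg (κ ^ 3 * s)]
  nlinarith [q6]

private theorem pert_pr {x y ξ ζ : ℂ} {T κ s : ℝ} (hκ : 1 ≤ κ) (hT : 0 < T) (hs : 0 ≤ s)
    (hs1 : s ≤ 1) (hx : ‖x‖ ≤ 2 * T) (hy : ‖y‖ ≤ 2 * T) (hξ : ‖ξ‖ ≤ 6 * κ * s * T)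
    (hζ : ‖ζ‖ ≤ 6 * κ * s * T) (hQ : ‖x * y * (x + y)‖ ≤ T ^ 3) :
    ‖(x + ξ) * (y + ζ) * ((x + ξ) + (y + ζ))‖ ≤ (T * (1 + 1008 * κ ^ 3 * s)) ^ 3 := by
  have hκ0 : 0 < κ := by linarith
  have hη : 0 ≤ 6 * κ * s * T := by positivity
  have hη1 : 6 * κ * s * T ≤ 6 * κ * T := by
    have : 6 * κ * s * T = 6 * κ * T * s := by ring
    rw [this]
    exact mul_le_of_le_one_right (by positivity) hs1
  have hκT : T ≤ κ * T := le_mul_of_one_le_left hT.le hκ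
  have e : (x + ξ) * (y + ζ) * ((x + ξ) + (y + ζ)) = x * y * (x + y) +
      (ξ * ((y + ζ) * ((x + ξ) + (y + ζ))) + x * (ζ * ((x + ξ) + (y + ζ))) +
        x * (y * (ξ + ζ))) := by
    ring
  have a1 : ‖y + ζ‖ ≤ 8 * κ * T := by
    refine (norm_add_le _ _).trans ?_
    linarith
  have a0 : ‖x + ξ‖ ≤ 8 * κ * T := by
    refine (norm_add_le _ _).trans ?_
    linarith
  have a2 : ‖(x + ξ) + (y + ζ)‖ ≤ 16 * κ * T := by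
    refine (norm_add_le _ _).trans ?_
    linarith
  have a4 : ‖ξ + ζ‖ ≤ 12 * κ * s * T := by
    refine (norm_add_le _ _).trans ?_
    linarith
  have a3 : ‖ξ * ((y + ζ) * ((x + ξ) + (y + ζ))) + x * (ζ * ((x + ξ) + (y + ζ))) +
        x * (y * (ξ + ζ))‖ ≤ 6 * κ * s * T * (8 * κ * T * (16 * κ * T)) +
      2 * T * (6 * κ * s * T * (16 * κ * T)) + 2 * T * (2 * T * (12 * κ * s * T)) := by
    refine (norm_add_le _ _).trans (add_le_add ((norm_add_le _ _).trans (add_le_add ?_ ?_)) ?_)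
    · rw [norm_mul, norm_mul]
      exact mul_le_mul hξ (mul_le_mul a1 a2 (norm_nonneg _) (by positivity)) (by positivity) hη
    · rw [norm_mul, norm_mul]
      exact mul_le_mul hx (mul_le_mul hζ a2 (norm_nonneg _) hη) (by positivity) (by positivity)
    · rw [norm_mul, norm_mul]
      exact mul_le_mul hx (mul_le_mul hy a4 (norm_nonneg _) (by positivity)) (by positivity)
        (by positivity)
  rw [e]
  refine (norm_add_le _ _).trans ((add_le_add hQ a3).trans ?_)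
  have q1 : κ ≤ κ ^ 3 := by nlinarith [sq_nonneg κ, mul_pos hκ0 hκ0]
  have q2 : κ ^ 2 ≤ κ ^ 3 := by nlinarith [sq_nonneg κ, mul_pos hκ0 hκ0]
  have q4 : κ * s ≤ κ ^ 3 * s := mul_le_mul_of_nonneg_right q1 hs
  have q5 : κ ^ 2 * s ≤ κ ^ 3 * s := mul_le_mul_of_nonneg_right q2 hs
  have q7 : 0 ≤ κ ^ 3 * s := by positivity
  have q6 : T ^ 3 * (1 + 768 * (κ ^ 3 * s) + 192 * (κ ^ 2 * s) + 48 * (κ * s)) ≤
      T ^ 3 * (1 + 1008 * κ ^ 3 * s) ^ 3 := by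
    apply mul_le_mul_of_nonneg_left _ (by positivity)
    have h5 : 1 + 768 * (κ ^ 3 * s) + 192 * (κ ^ 2 * s) + 48 * (κ * s) ≤
      1 + 1008 * κ ^ 3 * s := by nlinarith
    refine h5.trans ?_
    have h6 : 1 ≤ 1 + 1008 * κ ^ 3 * s := by nlinarith
    exact le_self_pow₀ h6 (by norm_num)
  have q8 : (T * (1 + 1008 * κ ^ 3 * s)) ^ 3 = T ^ 3 * (1 + 1008 * κ ^ 3 * s) ^ 3 := mul_pow _ _ _
  rw [q8]
  refine le_trans (le_of_eq ?_) q6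
  ring

theorem v1_pert {κ : ℝ} (hκ : 1 ≤ κ) : ∃ C : ℝ, 1 ≤ C ∧ ∀ (T₁ T₂ T ρ : ℝ) (f : Fin 4 → ℂ)
    (v u : Fin 2 → ℂ), Rd1 κ T₁ T₂ f → 0 ≤ ρ → ρ * T₂ ≤ T → 0 < T → V1 T f v → (∀ i, ‖u i‖ ≤ ρ) →
    V1 (T * (1 + C * (ρ * T₂ / T))) f (v + u) := by
  refine ⟨1008 * κ ^ 3, ?_, ?_⟩
  · have : 1 ≤ κ ^ 3 := one_le_pow₀ hκ
    linarith
  intro T₁ T₂ T ρ f v u h hρ hρT hT hv hu
  obtain ⟨l, m, h1, h2, h3⟩ := fac (rd_disc h)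
  obtain ⟨⟨hl0, hm0⟩, ⟨hl1, hm1⟩, hδ⟩ := fac_bd hκ h h1 h2 h3
  obtain ⟨hQ, hx, hy⟩ := v1_lin hT hv h1 h2 h3
  have hT1 : 0 < T₁ := by linarith [h.one]
  have hT2 : 0 < T₂ := by linarith [h.le]
  have hκ0 : 0 < κ := by linarith
  obtain ⟨s, hs⟩ : ∃ s : ℝ, s = ρ * T₂ / T := ⟨_, rfl⟩
  rw [← hs]
  have hs0 : 0 ≤ s := by rw [hs]; positivity
  have hs1 : s ≤ 1 := by rw [hs]; exact div_le_one_of_le₀ hρT hT.le
  have hsT : ρ * T₂ = s * T := by rw [hs]; field_simp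
  have key : ∀ a b : ℂ, ‖a‖ ≤ 3 * κ * T₁ → ‖b‖ ≤ 3 * κ * T₂ → ‖a * u 0 + b * u 1‖ ≤ 6 * κ * s * T := by
    intro a b ha hb
    refine (norm_add_le _ _).trans ?_
    rw [norm_mul, norm_mul]
    have ha' : ‖a‖ ≤ 3 * κ * T₂ := ha.trans (mul_le_mul_of_nonneg_left h.le (by positivity))
    have k1 : ‖a‖ * ‖u 0‖ ≤ 3 * κ * T₂ * ρ := mul_le_mul ha' (hu 0) (norm_nonneg _) (by positivity)
    have k2 : ‖b‖ * ‖u 1‖ ≤ 3 * κ * T₂ * ρ := mul_le_mul hb (hu 1) (norm_nonneg _) (by positivity)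
    have k3 : 6 * κ * s * T = 6 * κ * (ρ * T₂) := by rw [hsT]; ring
    rw [k3]
    linarith
  have hξ := key (l 0) (l 1) hl0 hl1
  have hζ := key (m 0) (m 1) hm0 hm1
  have hP : ‖(l 0 * v 0 + l 1 * v 1) ^ 2 + (l 0 * v 0 + l 1 * v 1) * (m 0 * v 0 + m 1 * v 1) +
      (m 0 * v 0 + m 1 * v 1) ^ 2‖ ≤ T ^ 2 := by
    rw [← h3 v]
    exact hv.1
  have el : l 0 * (v + u) 0 + l 1 * (v + u) 1 = (l 0 * v 0 + l 1 * v 1) + (l 0 * u 0 + l 1 * u 1) := by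
    simp only [Pi.add_apply]
    ring
  have em : m 0 * (v + u) 0 + m 1 * (v + u) 1 = (m 0 * v 0 + m 1 * v 1) + (m 0 * u 0 + m 1 * u 1) := by
    simp only [Pi.add_apply]
    ring
  constructor
  · rw [h3 (v + u), el, em]
    exact pert_hes hκ hT hs0 hs1 hx hy hξ hζ hP
  · have e1 : ev f (v + u) ^ 2 * disc f = (((l 0 * v 0 + l 1 * v 1) + (l 0 * u 0 + l 1 * u 1)) *
        ((m 0 * v 0 + m 1 * v 1) + (m 0 * u 0 + m 1 * u 1)) *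
        (((l 0 * v 0 + l 1 * v 1) + (l 0 * u 0 + l 1 * u 1)) +
          ((m 0 * v 0 + m 1 * v 1) + (m 0 * u 0 + m 1 * u 1)))) ^ 2 := by
      rw [h1, ← mul_pow, h2 (v + u), el, em]
      ring
    rw [e1, norm_pow]
    have e2 := pert_pr hκ hT hs0 hs1 hx hy hξ hζ hQ
    calc _ ≤ ((T * (1 + 1008 * κ ^ 3 * s)) ^ 3) ^ 2 := pow_le_pow_left₀ (norm_nonneg _) e2 2
      _ = (T * (1 + 1008 * κ ^ 3 * s)) ^ 6 := by ring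

theorem red_rd1 {K : Type} [Field K] [NumberField K] {κ T₁ T₂ : ℝ} {f : Fin 4 → K}
    (h : Red κ T₁ T₂ f) (w : NumberField.InfinitePlace K) : Rd1 κ T₁ T₂ (emb f w) := by
  have hd : disc (emb f w) = w.embedding (disc f) := by
    simp only [disc, emb, map_add, map_sub, map_mul, map_pow, map_ofNat]
  exact ⟨h.one, h.le, h.s0 w.embedding, h.s1 w.embedding, h.s2 w.embedding, h.s3 w.embedding,
    by rw [hd]; exact h.lo w.embedding, by rw [hd]; exact h.hi w.embedding⟩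

end H97.SXM
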