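import Pool.Agent.H97.SXM.OdA

/-!
# [SXM NMP] Few primes at which a form is not maximal, 60-110 lines. File Pool/Agent/H97/SXM/NmP.lean

`two_pow`: `∏_{l ∈ B} 2 ≤ ∏_{l ∈ B, nm l ≤ y} 2 · ∏_{l ∈ B, nm l > y} (nm l)^ε`, `y = 2^(1/ε)`, and `(nm l)^ε ≥ 1` for all `l`; there are finitely many primes with `nm l ≤ y` (`C = 2^(their number)`). (As `H23/LP/Tau.lean`.)
`nm_prod`: `f ∈ VL Λ`, `𝓞² ≤ Λ`, `NZ f`, frame `(c, u)` of `f` (`recov`, ncard 3 so nonempty). For `l ∈ B`: `f ∈ NM l Λ`, so `Λ` and `LF u` differ locally at `l` (`nm_loc`), `Λ ≤ LF u` (`lf_max`), so `nm l` divides `[LF u : Λ]` (the `l`-part of the finite `𝓞 K`-module `LF u / Λ` is not 0: its length at `l` is `≥ 1`;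
e.g. `LF u / Λ` has a quotient or a submodule isomorphic to `𝓞/l`; or induct: there is `Λ < Λ₁ ≤ LF u` with `l Λ₁ ≤ Λ`, `Λ₁/Λ` a nonzero `𝓞/l`-vector space). Distinct primes: `∏_{l ∈ B} nm l ≤ [LF u : Λ]` (the sum of the `l`-torsion submodules of `LF u/Λ` over `l ∈ B` is direct and has cardinality `≥ ∏ nm l`).
`ix (LF u) = [LF u : Λ] ix Λ` (`relIndex_mul_relIndex`) and `nd f = c.D ix(LF u)² ≥ ix(LF u)²` (`disc_ix`, `od_one`/`1 ≤ c.D`). So `nd f ≥ (∏ nm l)² ix(Λ)²`.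
-/

set_option autoImplicit false

open scoped NumberField Classical
open IsDedekindDomain NumberField H38.ML H63.MA H67.SX H77.MF

noncomputable section

namespace H97.SXM

private theorem nmp_two (K : Type) [Field K] [NumberField K] (l : Pl K) : 2 ≤ nm l := by
  have h1 : nm l ≠ 0 := by
    unfold nm
    rw [Ne, Ideal.absNorm_eq_zero_iff]
    exact l.ne_bot
  have h2 : nm l ≠ 1 := by
    unfold nm
    rw [Ne, Ideal.absNorm_eq_one_iff]
    exact l.isPrime.ne_top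
  omega

private theorem nmp_fin (K : Type) [Field K] [NumberField K] (x : ℝ) : {l : Pl K | (nm l : ℝ) ≤ x}.Finite := by
  have h := Ideal.finite_setOfPred_absNorm_le (S := 𝓞 K) ⌊x⌋₊
  have h2 : Set.InjOn (fun l : Pl K => l.asIdeal) ((fun l : Pl K => l.asIdeal) ⁻¹' {I | Ideal.absNorm I ≤ ⌊x⌋₊}) :=
    fun a _ b _ hab => IsDedekindDomain.HeightOneSpectrum.ext hab
  refine (h.preimage h2).subset ?_
  intro l hl
  exact Nat.le_floor hl

theorem two_pow (K : Type) [Field K] [NumberField K] {ε : ℝ} (hε : 0 < ε) : ∃ C : ℝ, 1 ≤ C ∧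
    ∀ B : Finset (Pl K), (2 : ℝ) ^ B.card ≤ C * nQ B ^ ε := by
  set P := (nmp_fin K ((2 : ℝ) ^ (1 / ε))).toFinset with hP
  refine ⟨2 ^ P.card, one_le_pow₀ (by norm_num), ?_⟩
  intro B
  have h1 : (2 : ℝ) ^ B.card = ∏ _l ∈ B, (2 : ℝ) := by rw [Finset.prod_const]
  have hnm : ∀ l : Pl K, (1 : ℝ) ≤ (nm l : ℝ) := by
    intro l
    have := nmp_two K l
    exact_mod_cast (by omega : 1 ≤ nm l)
  have h2 : nQ B ^ ε = ∏ l ∈ B, (nm l : ℝ) ^ ε := by
    unfold nQ
    exact (Real.finsetProd_rpow _ _ (fun l _ => Nat.cast_nonneg _) _).symm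
  rw [h1, h2, ← Finset.prod_filter_mul_prod_filter_not B (fun l => l ∈ P)]
  refine mul_le_mul ?_ ?_ (Finset.prod_nonneg fun _ _ => by norm_num) (by positivity)
  · rw [Finset.prod_const]
    refine pow_le_pow_right₀ (by norm_num) (Finset.card_le_card ?_)
    intro l hl
    exact (Finset.mem_filter.1 hl).2
  · calc ∏ _l ∈ B.filter (fun l => ¬ l ∈ P), (2 : ℝ) ≤ ∏ l ∈ B.filter (fun l => ¬ l ∈ P), (nm l : ℝ) ^ ε := by
          refine Finset.prod_le_prod (fun _ _ => by norm_num) fun l hl => ?_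
          have h3 := (Finset.mem_filter.1 hl).2
          rw [hP, Set.Finite.mem_toFinset, Set.mem_ofPred_eq, not_le] at h3
          calc (2 : ℝ) = ((2 : ℝ) ^ (1 / ε)) ^ ε := by
                rw [← Real.rpow_mul (by norm_num), one_div, inv_mul_cancel₀ hε.ne', Real.rpow_one]
            _ ≤ (nm l : ℝ) ^ ε := Real.rpow_le_rpow (by positivity) h3.le hε.le
      _ ≤ ∏ l ∈ B, (nm l : ℝ) ^ ε := by
          refine Finset.prod_le_prod_of_subset_of_one_le (Finset.filter_subset _ _)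
            (fun l _ => by positivity) fun l _ _ => ?_
          exact Real.one_le_rpow (hnm l) hε.le

private theorem nmp_step {K : Type} [Field K] [NumberField K] {V : Type} [AddCommGroup V] [Module (𝓞 K) V]
    (Λ M : Submodule (𝓞 K) V) (hle : Λ ≤ M) (hfin : Λ.toAddSubgroup.relIndex M.toAddSubgroup ≠ 0) (l : Pl K)
    (x : V) (hx : x ∈ M) (hxl : ∀ t : 𝓞 K, t ∉ l.asIdeal → t • x ∉ Λ) :
    ∃ y ∈ M, y ∉ Λ ∧ ∀ t ∈ l.asIdeal, t • y ∈ Λ := by
  -- the annihilator of `x` modulo `Λ`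
  let I : Ideal (𝓞 K) :=
    { carrier := {t | t • x ∈ Λ}
      add_mem' := fun {a b} ha hb => by
        change (a + b) • x ∈ Λ
        rw [add_smul]
        exact Λ.add_mem ha hb
      zero_mem' := by
        change (0 : 𝓞 K) • x ∈ Λ
        rw [zero_smul]
        exact Λ.zero_mem
      smul_mem' := fun c a ha => by
        change (c * a) • x ∈ Λ
        rw [mul_smul]
        exact Λ.smul_mem c ha }
  have hI : ∀ t, t ∈ I ↔ t • x ∈ Λ := fun t => Iff.rfl
  have hI0 : I ≠ ⊥ := by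
    intro hb
    have h1 : (((Λ.toAddSubgroup.relIndex M.toAddSubgroup).factorial : ℕ) : 𝓞 K) ∈ I := by
      rw [hI]
      have h2 : (Λ.toAddSubgroup.relIndex M.toAddSubgroup).factorial • x ∈ Λ.toAddSubgroup :=
        (AddSubgroup.nsmul_mem_of_relIndex_ne_zero_of_dvd hfin hx (fun m hm hle => Nat.dvd_factorial hm hle)).1
      rw [Nat.cast_smul_eq_nsmul]
      exact h2
    rw [hb, Ideal.mem_bot, Nat.cast_eq_zero] at h1
    exact Nat.factorial_ne_zero _ h1
  have hIl : I ≤ l.asIdeal := by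
    intro t ht
    by_contra h
    exact hxl t h ht
  obtain ⟨J, hJ⟩ := Ideal.dvd_iff_le.2 hIl
  have hJI : ¬ J ≤ I := by
    intro h
    have h1 : I = J := le_antisymm (by rw [hJ]; exact Ideal.mul_le_right) h
    have h2 : l.asIdeal * J = 1 * J := by rw [← hJ, one_mul, h1]
    have hJ0 : J ≠ 0 := by
      rw [← h1]
      exact hI0
    have h3 := mul_right_cancel₀ hJ0 h2
    rw [Ideal.one_eq_top] at h3
    exact l.isPrime.ne_top h3
  obtain ⟨r, hrJ, hrI⟩ := SetLike.not_le_iff_exists.1 hJI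
  refine ⟨r • x, M.smul_mem r hx, hrI, ?_⟩
  intro t ht
  rw [← mul_smul, ← hI, hJ]
  exact Ideal.mul_mem_mul ht hrJ

private theorem nmp_card {K : Type} [Field K] [NumberField K] {V : Type} [AddCommGroup V] [Module (𝓞 K) V]
    (Λ : Submodule (𝓞 K) V) (l : Pl K) (y : V) (hy : y ∉ Λ) (hyl : ∀ t ∈ l.asIdeal, t • y ∈ Λ)
    (hfin : Λ.toAddSubgroup.relIndex (Λ ⊔ Submodule.span (𝓞 K) {y}).toAddSubgroup ≠ 0) :
    nm l ≤ Λ.toAddSubgroup.relIndex (Λ ⊔ Submodule.span (𝓞 K) {y}).toAddSubgroup := by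
  set M := Λ ⊔ Submodule.span (𝓞 K) {y} with hM
  have hmem : ∀ t : 𝓞 K, t • y ∈ M := fun t =>
    M.smul_mem t (Submodule.mem_sup_right (Submodule.mem_span_singleton_self y))
  have hker : ∀ t : 𝓞 K, t • y ∈ Λ → t ∈ l.asIdeal := by
    intro t ht
    by_contra h
    have hmax : l.asIdeal.IsMaximal := l.isMaximal
    obtain ⟨c, a, ha, hab⟩ := hmax.exists_inv h
    apply hy
    have h3 : y = c • (t • y) + a • y := by
      rw [← mul_smul, ← add_smul, hab, one_smul]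
    rw [h3]
    exact Λ.add_mem (Λ.smul_mem c ht) (hyl a ha)
  have hcard : nm l = Nat.card (𝓞 K ⧸ l.asIdeal) := by
    unfold nm
    rw [Ideal.absNorm_apply, Submodule.cardQuot_apply]
  have hidx : Λ.toAddSubgroup.relIndex M.toAddSubgroup =
      Nat.card (M.toAddSubgroup ⧸ Λ.toAddSubgroup.addSubgroupOf M.toAddSubgroup) := rfl
  rw [hcard, hidx]
  rw [hidx] at hfin
  have hfin' : Finite (M.toAddSubgroup ⧸ Λ.toAddSubgroup.addSubgroupOf M.toAddSubgroup) :=
    Nat.finite_of_card_ne_zero hfin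
  let φ : 𝓞 K →+ (M.toAddSubgroup ⧸ Λ.toAddSubgroup.addSubgroupOf M.toAddSubgroup) :=
    (QuotientAddGroup.mk' _).comp
      { toFun := fun t => (⟨t • y, hmem t⟩ : M.toAddSubgroup)
        map_zero' := by ext; exact zero_smul _ _
        map_add' := fun a b => by ext; exact add_smul _ _ _ }
  have hφ : ∀ t, φ t = 0 ↔ t ∈ l.asIdeal := by
    intro t
    change QuotientAddGroup.mk (s := Λ.toAddSubgroup.addSubgroupOf M.toAddSubgroup)
      (⟨t • y, hmem t⟩ : M.toAddSubgroup) = 0 ↔ _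
    rw [QuotientAddGroup.eq_zero_iff, AddSubgroup.mem_addSubgroupOf]
    exact ⟨hker t, hyl t⟩
  refine Nat.card_le_card_of_injective (α := 𝓞 K ⧸ l.asIdeal)
    (fun q => φ (Quotient.out q)) ?_
  intro a b hab
  have h1 : φ (Quotient.out a - Quotient.out b) = 0 := by
    rw [map_sub]
    exact sub_eq_zero.2 hab
  rw [hφ] at h1
  have h2 : (Ideal.Quotient.mk l.asIdeal (Quotient.out a)) = Ideal.Quotient.mk l.asIdeal (Quotient.out b) :=
    Ideal.Quotient.eq.2 h1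
  have h3 : ∀ c : 𝓞 K ⧸ l.asIdeal, Ideal.Quotient.mk l.asIdeal (Quotient.out c) = c := fun c => Quotient.out_eq c
  rwa [h3, h3] at h2

private theorem nmp_prod {K : Type} [Field K] [NumberField K] {V : Type} [AddCommGroup V] [Module (𝓞 K) V]
    (M : Submodule (𝓞 K) V) (B : Finset (Pl K)) : ∀ Λ : Submodule (𝓞 K) V, Λ ≤ M →
    Λ.toAddSubgroup.relIndex M.toAddSubgroup ≠ 0 →
    (∀ l ∈ B, ∃ x ∈ M, ∀ t : 𝓞 K, t ∉ l.asIdeal → t • x ∉ Λ) →
    ∏ l ∈ B, nm l ≤ Λ.toAddSubgroup.relIndex M.toAddSubgroup := by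
  induction B using Finset.induction_on with
  | empty =>
    intro Λ _ hfin _
    rw [Finset.prod_empty]
    exact Nat.one_le_iff_ne_zero.2 hfin
  | insert l B hlB ih =>
    intro Λ hle hfin h
    obtain ⟨x, hx, hxl⟩ := h l (Finset.mem_insert_self l B)
    obtain ⟨y, hyM, hyΛ, hyl⟩ := nmp_step Λ M hle hfin l x hx hxl
    set Λ₁ := Λ ⊔ Submodule.span (𝓞 K) {y} with hΛ₁
    have h1 : Λ ≤ Λ₁ := le_sup_left
    have h2 : Λ₁ ≤ M := sup_le hle (by rwa [Submodule.span_singleton_le_iff_mem])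
    have hmul := AddSubgroup.relIndex_mul_relIndex Λ.toAddSubgroup Λ₁.toAddSubgroup M.toAddSubgroup h1 h2
    have hf1 : Λ.toAddSubgroup.relIndex Λ₁.toAddSubgroup ≠ 0 := by
      intro h0
      rw [h0, zero_mul] at hmul
      exact hfin hmul.symm
    have hf2 : Λ₁.toAddSubgroup.relIndex M.toAddSubgroup ≠ 0 := by
      intro h0
      rw [h0, mul_zero] at hmul
      exact hfin hmul.symm
    have h3 := nmp_card Λ l y hyΛ hyl hf1
    have hlΛ₁ : ∀ s ∈ l.asIdeal, ∀ z ∈ Λ₁, s • z ∈ Λ := by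
      intro s hs z hz
      obtain ⟨a, ha, b, hb, rfl⟩ := Submodule.mem_sup.1 hz
      obtain ⟨c, rfl⟩ := Submodule.mem_span_singleton.1 hb
      rw [smul_add]
      refine Λ.add_mem (Λ.smul_mem s ha) ?_
      rw [smul_comm]
      exact Λ.smul_mem c (hyl s hs)
    have h4 := ih Λ₁ h2 hf2 (by
      intro l' hl'
      obtain ⟨x', hx', hxl'⟩ := h l' (Finset.mem_insert_of_mem hl')
      refine ⟨x', hx', ?_⟩
      intro t ht hmem
      have hne : l ≠ l' := fun he => hlB (he ▸ hl')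
      have hnle : ¬ l.asIdeal ≤ l'.asIdeal := by
        intro hle'
        exact hne (IsDedekindDomain.HeightOneSpectrum.ext (l.isMaximal.eq_of_le l'.isPrime.ne_top hle'))
      obtain ⟨s, hs, hs'⟩ := SetLike.not_le_iff_exists.1 hnle
      refine hxl' (s * t) ?_ ?_
      · intro hst
        rcases l'.isPrime.mem_or_mem hst with h5 | h5
        · exact hs' h5
        · exact ht h5
      · rw [mul_smul]
        exact hlΛ₁ s hs _ hmem)
    rw [Finset.prod_insert hlB, ← hmul]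
    exact Nat.mul_le_mul h3 h4

theorem nm_prod (K : IntermediateField ℚ QBar) [NumberField K]
    {Λ : Submodule (𝓞 K) (Fin 2 → K)} (hL : Lt Λ) (hO : OO K 2 ≤ Λ) {f : Fin 4 → K} (hf : NZ f)
    (hV : f ∈ VL Λ) (B : Finset (Pl K)) (hB : ∀ l ∈ B, f ∈ NM l Λ) :
    nQ B ^ 2 * (ix Λ : ℝ) ^ 2 ≤ nd f := by
  have hne : {x : (c : Cb K) × (Fin 2 → c.F) | Lv f x.2}.Nonempty := by
    rw [Set.nonempty_iff_ne_empty]
    intro h0
    have h1 := (recov hf).1
    rw [h0, Set.ncard_empty] at h1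
    omega
  obtain ⟨⟨c, w⟩, hw⟩ := hne
  have hw' : Lv f w := hw
  have hmax := lf_max c.deg hw' hL hV
  have hOL : OO K 2 ≤ LF w := hO.trans hmax
  have hlt : Lt (LF (K := K) w) := lf_lt c.deg hw'
  have hixL := ix_pos hlt hOL
  have hmul := AddSubgroup.relIndex_mul_relIndex (OO K 2).toAddSubgroup Λ.toAddSubgroup
    (LF (K := K) w).toAddSubgroup hO hmax
  have hix : ix Λ * Λ.toAddSubgroup.relIndex (LF (K := K) w).toAddSubgroup = ix (LF (K := K) w) := hmul
  have hrel : Λ.toAddSubgroup.relIndex (LF (K := K) w).toAddSubgroup ≠ 0 := by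
    intro h0
    rw [h0, mul_zero] at hix
    omega
  have hprod := nmp_prod (LF (K := K) w) B Λ hmax hrel (by
    intro l hl
    have h1 := (nm_loc c.deg hw' hL hV l).1 (hB l hl)
    unfold LocEq at h1
    push Not at h1
    obtain ⟨v, hv⟩ := h1
    have h2 : Lc l (LF w) v ∧ ¬ Lc l Λ v := by
      rcases hv with h | h
      · obtain ⟨⟨s, hs, hsv⟩, h'⟩ := h
        exact absurd ⟨s, hs, hmax hsv⟩ h'
      · exact ⟨h.2, h.1⟩
    obtain ⟨⟨s, hs, hsv⟩, h'⟩ := h2
    refine ⟨s • v, hsv, ?_⟩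
    intro t ht hmem
    apply h'
    refine ⟨t * s, ?_, ?_⟩
    · intro hts
      rcases l.isPrime.mem_or_mem hts with h5 | h5
      · exact ht h5
      · exact hs h5
    · rw [mul_smul]
      exact hmem)
  have hdisc := disc_ix c hw' hOL
  have hD : 1 ≤ c.D := (od_one (om c)).1
  have hQ : nQ B ≤ (Λ.toAddSubgroup.relIndex (LF (K := K) w).toAddSubgroup : ℝ) := by
    unfold nQ
    exact_mod_cast hprod
  have hQ0 : 0 ≤ nQ B := Finset.prod_nonneg fun l _ => Nat.cast_nonneg _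
  unfold nd
  rw [← hdisc]
  calc nQ B ^ 2 * (ix Λ : ℝ) ^ 2
      ≤ (Λ.toAddSubgroup.relIndex (LF (K := K) w).toAddSubgroup : ℝ) ^ 2 * (ix Λ : ℝ) ^ 2 := by gcongr
    _ = 1 * (ix (LF (K := K) w) : ℝ) ^ 2 := by
        rw [← hix]
        push_cast
        ring
    _ ≤ c.D * (ix (LF (K := K) w) : ℝ) ^ 2 := by gcongr

end H97.SXM
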