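import Mathlib

/-!
# [SXM LIM] Windows and limits (real analysis), 150-250 lines. File Pool/Agent/H97/SXM/Lim.lean

`lim_log`. `s = 2a`, `T(R) = R^(1/(dd - s))`, so `T^dd / R = T^s` (`dd - s ≥ dd/2 > 0`), `T ≥ 1`. STEP 1: let `R ≥ 1`, `R ≤ R' ≤ R²`, `T = T(R)`, and `T'` with `T'^dd = T^s R'` (`T' ≥ T`). With `R' = R^θ`, `1 ≤ θ ≤ 2`: `T' = T^φ`, `φ = (s + (dd - s) θ)/dd ∈ [1, 2]` (if `R = 1` everything is 1). So `T'^dd / R' = T^s`, and `T'^a = T^(aφ) ≤ T^(2a) = T^s ≤ T'^(2a)`: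
the hypothesis holds for `(T, αR, R)` and for `(T', αR', R')`, with the SAME arguments of `G`: `αR/T^dd = α T^(-s) = αR'/T'^dd`. So `|B(αR, R) - B(αR', R')| ≤ 2 E T^(-η) = 2 E R^(-η₁)`, `η₁ = η/(dd - s)`. STEP 2: for `R ≥ 2` and all `R' ≥ R`: chain `R, R², R⁴, ..`: `|B(αR, R) - B(αR', R')| ≤ ∑_k 2E R^(-η₁ 2^k) ≤ C E R^(-η₁)`
(`R^(-η₁ 2^k) ≤ R^(-η₁) 2^(-η₁ (2^k - 1)) ≤ R^(-η₁) 2^(-η₁ k)`). So `B(αR, R)` converges (Cauchy) to `β α` and `|B(αR, R) - β α| ≤ C E R^(-η₁)` for `R ≥ 2`, and for `1 ≤ R ≤ 2` because `0 ≤ B ≤ E` (then also `0 ≤ β ≤ E`), `C ≥ 2^(η₁)`. STEP 3: `β ≥ 0`, and for `α, α' ∈ [1/2, 1]` with `αα' ≥ 1/2`: `B(αα'R, R) = B(α'(αR), αR) + B(αR, R)`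
gives `β(αα') = β(α) + β(α')`; so `β` is antitone. `h(x) = β(e^(-x))` is additive and monotone on `[0, log 2]`, so `h(k log 2/n) = (k/n) h(log 2)` and `h(x) = (h(log 2)/log 2) x` (squeeze). `κ = β(1/2)/log 2`.
`lim_sum`. `W(α, R) = ∑_{αR < D ≤ R} g/D`, `W₀` the same for `g₀`. `|β| log 2 ≤ |W(1/2, 1)| + E ≤ W₀(1/2, 1) + E ≤ κ log 2 + 2E`, so `|β| ≤ 4 E`. For `D ∈ (αR, R]`: `|g - R g/D| = (R - D)|g|/D ≤ (1-α) R g₀/D`. So `|∑_{αR < D ≤ R} g - R β log(1/α)| ≤ E R^(1-η) + (1-α) R (κ log(1/α) + E R^(-η))`.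
Let `ε = R^(-η/2)/2 ≤ 1/2`, `α = 1 - ε`, `R_j = α^j R`, `J` the first index with `R_J < 1` (`J ≤ 1 + log R/ε`). Sum over `j < J` (`R_j ≥ 1`; the windows `(R_(j+1), R_j]` cover all `D ≤ R`, because `D ≥ 1 > R_J`): `∑_j R_j = (R - R_J)/ε`, `|log(1/α) - ε| ≤ ε²`: main term `β R + O(|β|) + O(|β| ε R)`;
errors `E ∑_j R_j^(1-η) ≤ E J R^(1-η) ≤ C E R^(1-η/4)` (`log R ≤ C R^(η/4)`), `ε ∑_j R_j κ · 2ε ≤ 2 κ ε R`, `ε ∑_j E R_j^(1-η)` smaller. Total `≤ C E R^(1-η/4)`.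
-/

set_option autoImplicit false

noncomputable section

namespace H97.SXM

open Filter Topology

private theorem rpow_le_of {x y c : ℝ} (hx : 0 ≤ x) (hy : 0 ≤ y) (hc : 0 < c) (h : x ^ c ≤ y ^ c) : x ≤ y :=
  (Real.rpow_le_rpow_iff hx hy hc).1 h

private theorem step1 {B G : ℝ → ℝ → ℝ} {dd a η E : ℝ} (hdd : 1 ≤ dd) (ha : 0 < a) (ha2 : 4 * a ≤ dd)
    (hη : 0 < η) (hE : 1 ≤ E)
    (h : ∀ T R₁ R₂, 1 ≤ T → 1 ≤ R₂ → R₁ ≤ R₂ → R₂ ≤ 2 * R₁ → T ^ a ≤ T ^ dd / R₂ →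
      T ^ dd / R₂ ≤ T ^ (2 * a) → |B R₁ R₂ - G (R₁ / T ^ dd) (R₂ / T ^ dd)| ≤ E * T ^ (-η))
    {α R R' : ℝ} (hα : 1 / 2 ≤ α) (hα1 : α ≤ 1) (hR : 1 ≤ R) (hRR : R ≤ R') (hR2 : R' ≤ R ^ 2) :
    |B (α * R) R - B (α * R') R'| ≤ 2 * E * R ^ (-(η / (dd - 2 * a))) := by
  obtain ⟨e, he⟩ : ∃ e : ℝ, e = dd - 2 * a := ⟨_, rfl⟩
  rw [← he]
  have he0 : 0 < e := by linarith
  have hdd0 : 0 < dd := by linarith
  have hR0 : 0 < R := by linarith
  have hR'0 : 0 < R' := by linarith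
  have hR'1 : 1 ≤ R' := hR.trans hRR
  obtain ⟨T, hT⟩ : ∃ T : ℝ, T = R ^ (1 / e) := ⟨_, rfl⟩
  have hT1 : 1 ≤ T := by
    rw [hT]
    exact Real.one_le_rpow hR (by positivity)
  have hT0 : 0 < T := by linarith
  have hTe : T ^ e = R := by
    rw [hT, ← Real.rpow_mul hR0.le, one_div_mul_cancel he0.ne', Real.rpow_one]
  have hTd : T ^ dd = T ^ (2 * a) * R := by
    have : dd = 2 * a + e := by rw [he]; ring
    rw [this, Real.rpow_add hT0, hTe]
  have hs0 : 0 < T ^ (2 * a) := Real.rpow_pos_of_pos hT0 _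
  obtain ⟨T', hT'⟩ : ∃ T' : ℝ, T' = (T ^ (2 * a) * R') ^ (1 / dd) := ⟨_, rfl⟩
  have hT'0 : 0 < T' := by
    rw [hT']
    positivity
  have hT'd : T' ^ dd = T ^ (2 * a) * R' := by
    rw [hT', ← Real.rpow_mul (by positivity), one_div_mul_cancel hdd0.ne', Real.rpow_one]
  have hTT' : T ≤ T' := by
    refine rpow_le_of hT0.le hT'0.le hdd0 ?_
    rw [hTd, hT'd]
    exact mul_le_mul_of_nonneg_left hRR hs0.le
  have hT'1 : 1 ≤ T' := hT1.trans hTT'
  have hT'2 : T' ≤ T ^ 2 := by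
    refine rpow_le_of hT'0.le (by positivity) hdd0 ?_
    rw [hT'd]
    have h1 : (T ^ 2) ^ dd = T ^ (2 * dd) := by
      rw [← Real.rpow_natCast, ← Real.rpow_mul hT0.le]
      norm_num
    have h2 : R ^ 2 = T ^ (2 * e) := by
      rw [← hTe, ← Real.rpow_natCast, ← Real.rpow_mul hT0.le]
      congr 1
      push_cast
      ring
    rw [h1]
    calc T ^ (2 * a) * R' ≤ T ^ (2 * a) * R ^ 2 := mul_le_mul_of_nonneg_left hR2 hs0.le
      _ = T ^ (2 * a + 2 * e) := by rw [h2, ← Real.rpow_add hT0]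
      _ ≤ T ^ (2 * dd) := Real.rpow_le_rpow_of_exponent_le hT1 (by rw [he]; linarith)
  have e1 : T ^ dd / R = T ^ (2 * a) := by
    rw [hTd, mul_div_assoc, div_self hR0.ne', mul_one]
  have e2 : T' ^ dd / R' = T ^ (2 * a) := by
    rw [hT'd, mul_div_assoc, div_self hR'0.ne', mul_one]
  have c1 : T ^ a ≤ T ^ (2 * a) := Real.rpow_le_rpow_of_exponent_le hT1 (by linarith)
  have c2 : T' ^ a ≤ T ^ (2 * a) := by
    calc T' ^ a ≤ (T ^ 2) ^ a := Real.rpow_le_rpow hT'0.le hT'2 ha.le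
      _ = T ^ (2 * a) := by
        rw [← Real.rpow_natCast, ← Real.rpow_mul hT0.le]
        norm_num
  have c3 : T ^ (2 * a) ≤ T' ^ (2 * a) := Real.rpow_le_rpow hT0.le hTT' (by linarith)
  have g1 := h T (α * R) R hT1 hR (by nlinarith) (by nlinarith) (by rw [e1]; exact c1) (by rw [e1])
  have g2 := h T' (α * R') R' hT'1 hR'1 (by nlinarith) (by nlinarith) (by rw [e2]; exact c2) (by rw [e2]; exact c3)
  have e3 : R / T ^ dd = R' / T' ^ dd := by
    rw [hTd, hT'd]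
    field_simp
  have e4 : α * R / T ^ dd = α * R' / T' ^ dd := by
    rw [mul_div_assoc, e3, ← mul_div_assoc]
  rw [e3, e4] at g1
  have e5 : T' ^ (-η) ≤ T ^ (-η) := Real.rpow_le_rpow_of_nonpos hT0 hTT' (by linarith)
  have e6 : T ^ (-η) = R ^ (-(η / e)) := by
    rw [hT, ← Real.rpow_mul hR0.le]
    congr 1
    field_simp
  rw [← e6]
  rw [abs_le] at g1 g2 ⊢
  constructor <;> nlinarith

private theorem step2 {F : ℝ → ℝ} {E ρ : ℝ} (hE : 0 ≤ E) (hρ : 0 < ρ)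
    (h : ∀ R R' : ℝ, 1 ≤ R → R ≤ R' → R' ≤ R ^ 2 → |F R - F R'| ≤ 2 * E * R ^ (-ρ)) :
    ∀ R R' : ℝ, 2 ≤ R → R ≤ R' → |F R - F R'| ≤ 2 / (1 - 2 ^ (-ρ)) * E * R ^ (-ρ) := by
  have hq : (2 : ℝ) ^ (-ρ) < 1 := Real.rpow_lt_one_of_one_lt_of_neg (by norm_num) (by linarith)
  have hq0 : (0 : ℝ) < 1 - 2 ^ (-ρ) := by linarith
  obtain ⟨C, hC⟩ : ∃ C : ℝ, C = 2 / (1 - 2 ^ (-ρ)) := ⟨_, rfl⟩
  have hC0 : 0 < C := by rw [hC]; positivity
  have hCe : 2 + C * 2 ^ (-ρ) = C := by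
    rw [hC]
    field_simp
    ring
  have hC2 : 2 ≤ C := by
    have : 0 < (2 : ℝ) ^ (-ρ) := by positivity
    nlinarith
  rw [← hC]
  have key : ∀ n : ℕ, ∀ R R' : ℝ, 2 ≤ R → R ≤ R' → R' ≤ R ^ (2 ^ n) → |F R - F R'| ≤ C * E * R ^ (-ρ) := by
    intro n
    induction n with
    | zero =>
      intro R R' h2 h3 h4
      rw [pow_zero, pow_one] at h4
      rw [le_antisymm h4 h3, sub_self, abs_zero]
      positivity
    | succ n ih =>
      intro R R' h2 h3 h4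
      have hRp : 0 < R ^ (-ρ) := Real.rpow_pos_of_pos (by linarith) _
      by_cases h5 : R' ≤ R ^ 2
      · refine (h R R' (by linarith) h3 h5).trans ?_
        exact mul_le_mul_of_nonneg_right (mul_le_mul_of_nonneg_right hC2 hE) hRp.le
      · push Not at h5
        have h6 := h R (R ^ 2) (by linarith) (by nlinarith) le_rfl
        have h7 := ih (R ^ 2) R' (by nlinarith) h5.le (by
          rw [← pow_mul]
          rw [pow_succ'] at h4
          exact h4)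
        have h8 : (R ^ 2) ^ (-ρ) ≤ 2 ^ (-ρ) * R ^ (-ρ) := by
          have h9 : (R ^ 2) ^ (-ρ) = R ^ (-ρ) * R ^ (-ρ) := by
            rw [sq, Real.mul_rpow (by linarith) (by linarith)]
          rw [h9]
          exact mul_le_mul_of_nonneg_right (Real.rpow_le_rpow_of_nonpos (by norm_num) h2 (by linarith)) hRp.le
        have h10 : C * E * (R ^ 2) ^ (-ρ) ≤ C * E * (2 ^ (-ρ) * R ^ (-ρ)) :=
          mul_le_mul_of_nonneg_left h8 (by positivity)
        have h11 : 2 * E * R ^ (-ρ) + C * E * (2 ^ (-ρ) * R ^ (-ρ)) = C * E * R ^ (-ρ) := by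
          have : 2 * E * R ^ (-ρ) + C * E * (2 ^ (-ρ) * R ^ (-ρ)) = (2 + C * 2 ^ (-ρ)) * E * R ^ (-ρ) := by ring
          rw [this, hCe]
        rw [abs_le] at h6 h7 ⊢
        constructor <;> linarith
  intro R R' h2 h3
  obtain ⟨n, hn⟩ : ∃ n : ℕ, R' ≤ R ^ n := by
    have := pow_unbounded_of_one_lt R' (by linarith : 1 < R)
    exact ⟨this.choose, this.choose_spec.le⟩
  refine key n R R' h2 h3 (hn.trans ?_)
  exact pow_le_pow_right₀ (by linarith) (Nat.lt_two_pow_self).le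

/-- existence of the limit -/
private theorem step2b {F : ℝ → ℝ} {E ρ : ℝ} (hE : 0 ≤ E) (hρ : 0 < ρ) (hF0 : ∀ R, 1 ≤ R → 0 ≤ F R)
    (hFE : ∀ R, 1 ≤ R → F R ≤ E)
    (h : ∀ R R' : ℝ, 1 ≤ R → R ≤ R' → R' ≤ R ^ 2 → |F R - F R'| ≤ 2 * E * R ^ (-ρ)) :
    ∃ b : ℝ, 0 ≤ b ∧ ∀ R, 1 ≤ R → |F R - b| ≤ (2 / (1 - 2 ^ (-ρ)) + 2 ^ ρ) * E * R ^ (-ρ) := by
  have h2 := step2 hE hρ h
  have hq : (2 : ℝ) ^ (-ρ) < 1 := Real.rpow_lt_one_of_one_lt_of_neg (by norm_num) (by linarith)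
  have hq0 : (0 : ℝ) < 1 - 2 ^ (-ρ) := by linarith
  obtain ⟨C, hC⟩ : ∃ C : ℝ, C = 2 / (1 - 2 ^ (-ρ)) := ⟨_, rfl⟩
  have hC0 : 0 < C := by rw [hC]; positivity
  rw [← hC] at h2 ⊢
  have hpow : ∀ n : ℕ, (2 : ℝ) ≤ 2 ^ (n + 1) := by
    intro n
    calc (2 : ℝ) = 2 ^ 1 := by norm_num
      _ ≤ 2 ^ (n + 1) := pow_le_pow_right₀ (by norm_num) (by omega)
  have hcs : CauchySeq fun n : ℕ => F (2 ^ (n + 1)) := by
    refine cauchySeq_of_le_tendsto_0 (fun N : ℕ => 2 * (C * E * (2 ^ (N + 1)) ^ (-ρ))) ?_ ?_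
    · intro n m N hn hm
      have e1 := h2 (2 ^ (N + 1)) (2 ^ (n + 1)) (hpow N) (pow_le_pow_right₀ (by norm_num) (by omega))
      have e2 := h2 (2 ^ (N + 1)) (2 ^ (m + 1)) (hpow N) (pow_le_pow_right₀ (by norm_num) (by omega))
      rw [Real.dist_eq]
      rw [abs_le] at e1 e2 ⊢
      constructor <;> linarith
    · have e1 : Tendsto (fun N : ℕ => ((2 : ℝ) ^ (N + 1)) ^ (-ρ)) atTop (𝓝 0) :=
        (tendsto_rpow_neg_atTop hρ).comp ((tendsto_pow_atTop_atTop_of_one_lt (by norm_num : (1 : ℝ) < 2)).comp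
          (tendsto_add_atTop_nat 1))
      have e2 := (e1.const_mul (C * E)).const_mul 2
      rw [mul_zero, mul_zero] at e2
      exact e2
  obtain ⟨b, hb⟩ := cauchySeq_tendsto_of_complete hcs
  have hb0 : 0 ≤ b := ge_of_tendsto' hb fun n => hF0 _ (by have := hpow n; linarith)
  have hbE : b ≤ E := le_of_tendsto' hb fun n => hFE _ (by have := hpow n; linarith)
  refine ⟨b, hb0, fun R hR => ?_⟩
  have hRp : 0 < R ^ (-ρ) := Real.rpow_pos_of_pos (by linarith) _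
  by_cases hR2 : 2 ≤ R
  · have e1 : |F R - b| ≤ C * E * R ^ (-ρ) := by
      have e2 : Tendsto (fun n : ℕ => |F R - F (2 ^ (n + 1))|) atTop (𝓝 |F R - b|) :=
        (tendsto_const_nhds.sub hb).abs
      refine le_of_tendsto e2 ?_
      have e3 : ∀ᶠ n : ℕ in atTop, R ≤ 2 ^ (n + 1) :=
        ((tendsto_pow_atTop_atTop_of_one_lt (by norm_num : (1 : ℝ) < 2)).comp
          (tendsto_add_atTop_nat 1)).eventually_ge_atTop R
      filter_upwards [e3] with n hn
      exact h2 R _ hR2 hn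
    refine e1.trans ?_
    have : 0 ≤ 2 ^ ρ * E * R ^ (-ρ) := by positivity
    nlinarith
  · push Not at hR2
    have e1 : |F R - b| ≤ E := by
      have h3 := hF0 R hR
      have h4 := hFE R hR
      rw [abs_le]
      constructor <;> linarith
    have e2 : 1 ≤ 2 ^ ρ * R ^ (-ρ) := by
      have e3 : (2 : ℝ) ^ (-ρ) ≤ R ^ (-ρ) := Real.rpow_le_rpow_of_nonpos (by linarith) hR2.le (by linarith)
      have e4 : (2 : ℝ) ^ ρ * 2 ^ (-ρ) = 1 := by
        rw [← Real.rpow_add (by norm_num)]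
        norm_num
      rw [← e4]
      exact mul_le_mul_of_nonneg_left e3 (by positivity)
    refine e1.trans ?_
    have e5 : 0 ≤ C * E * R ^ (-ρ) := by positivity
    nlinarith [mul_le_mul_of_nonneg_left e2 hE]

/-- a nonnegative additive function on `[0, L]` is linear -/
private theorem lin_of_add {h : ℝ → ℝ} {L : ℝ} (hL : 0 < L) (h0 : ∀ x, 0 ≤ x → x ≤ L → 0 ≤ h x)
    (hadd : ∀ x y, 0 ≤ x → 0 ≤ y → x + y ≤ L → h (x + y) = h x + h y) {x : ℝ} (hx : 0 ≤ x) (hxL : x ≤ L) :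
    h x = h L / L * x := by
  have hz : h 0 = 0 := by
    have := hadd 0 0 le_rfl le_rfl (by linarith)
    rw [add_zero] at this
    linarith
  have hmono : ∀ u v, 0 ≤ u → u ≤ v → v ≤ L → h u ≤ h v := by
    intro u v hu huv hv
    have e1 := hadd u (v - u) hu (by linarith) (by linarith)
    rw [add_sub_cancel] at e1
    have e2 := h0 (v - u) (by linarith) (by linarith)
    linarith
  have hmul : ∀ n : ℕ, ∀ y, 0 ≤ y → (n : ℝ) * y ≤ L → h (n * y) = n * h y := by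
    intro n y hy
    induction n with
    | zero =>
      intro _
      rw [Nat.cast_zero, zero_mul, zero_mul, hz]
    | succ n ih =>
      intro hn
      push_cast at hn ⊢
      have e1 : (n : ℝ) * y ≤ L := by linarith [add_one_mul (n : ℝ) y]
      rw [add_one_mul, hadd _ _ (by positivity) hy (by linarith [add_one_mul (n : ℝ) y]), ih e1, add_one_mul]
  have hLn : 0 ≤ h L := h0 L hL.le le_rfl
  have key : ∀ n : ℕ, 1 ≤ n → |h x - h L / L * x| ≤ h L / n := by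
    intro n hn
    have hn0 : (0 : ℝ) < n := by exact_mod_cast hn
    obtain ⟨y, hy⟩ : ∃ y : ℝ, y = L / n := ⟨_, rfl⟩
    have hy0 : 0 < y := by rw [hy]; positivity
    have hny : (n : ℝ) * y = L := by rw [hy]; field_simp
    have hhy : h y = h L / n := by
      have e1 := hmul n y hy0.le hny.le
      rw [hny] at e1
      rw [e1]
      field_simp
    obtain ⟨k, hk⟩ : ∃ k : ℕ, k = ⌊x / y⌋₊ := ⟨_, rfl⟩
    have hk1 : (k : ℝ) * y ≤ x := by
      have : (k : ℝ) ≤ x / y := by rw [hk]; exact Nat.floor_le (by positivity)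
      rwa [le_div_iff₀ hy0] at this
    have hk2 : x < (k + 1 : ℝ) * y := by
      have : x / y < (k : ℝ) + 1 := by rw [hk]; exact Nat.lt_floor_add_one _
      rwa [div_lt_iff₀ hy0] at this
    have hlo : (k : ℝ) * h y ≤ h x := by
      rw [← hmul k y hy0.le (hk1.trans hxL)]
      exact hmono _ _ (by positivity) hk1 hxL
    have hhy0 : 0 ≤ h y := by rw [hhy]; positivity
    have hup : h x ≤ (k + 1 : ℝ) * h y := by
      by_cases hc : (k + 1 : ℝ) * y ≤ L
      · have e1 := hmul (k + 1) y hy0.le (by push_cast; exact hc)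
        push_cast at e1
        rw [← e1]
        exact hmono _ _ hx hk2.le hc
      · push Not at hc
        have e2 : (n : ℝ) ≤ k + 1 := by
          by_contra hcon
          push Not at hcon
          have : (k + 1 : ℝ) * y ≤ n * y := mul_le_mul_of_nonneg_right hcon.le hy0.le
          linarith
        calc h x ≤ h L := hmono _ _ hx hxL le_rfl
          _ = n * h y := by rw [hhy]; field_simp
          _ ≤ (k + 1 : ℝ) * h y := mul_le_mul_of_nonneg_right e2 hhy0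
    have e3 : h L / L * y = h y := by
      rw [hhy, hy]
      field_simp
    have hκ : 0 ≤ h L / L := by positivity
    have e4 : (k : ℝ) * h y ≤ h L / L * x := by
      rw [← e3]
      nlinarith [mul_le_mul_of_nonneg_left hk1 hκ]
    have e5 : h L / L * x ≤ (k + 1 : ℝ) * h y := by
      rw [← e3]
      nlinarith [mul_le_mul_of_nonneg_left hk2.le hκ]
    rw [← hhy, abs_le]
    constructor <;> nlinarith
  have hlim : Tendsto (fun n : ℕ => h L / (n : ℝ)) atTop (𝓝 0) :=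
    tendsto_const_nhds.div_atTop tendsto_natCast_atTop_atTop
  have h1 : |h x - h L / L * x| ≤ 0 := by
    refine ge_of_tendsto hlim ?_
    filter_upwards [eventually_ge_atTop 1] with n hn
    exact key n hn
  have h2 := abs_nonpos_iff.1 h1
  linarith

theorem lim_log {B G : ℝ → ℝ → ℝ} {dd a η E : ℝ} (hdd : 1 ≤ dd) (ha : 0 < a) (ha2 : 4 * a ≤ dd)
    (hη : 0 < η) (hE : 1 ≤ E) (hpos : ∀ R₁ R₂, 0 ≤ B R₁ R₂)
    (hadd : ∀ R₁ R₂ R₃, R₁ ≤ R₂ → R₂ ≤ R₃ → B R₁ R₃ = B R₁ R₂ + B R₂ R₃)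
    (hbd : ∀ R₁ R₂, 1 ≤ R₂ → R₁ ≤ R₂ → R₂ ≤ 2 * R₁ → B R₁ R₂ ≤ E)
    (h : ∀ T R₁ R₂, 1 ≤ T → 1 ≤ R₂ → R₁ ≤ R₂ → R₂ ≤ 2 * R₁ → T ^ a ≤ T ^ dd / R₂ →
      T ^ dd / R₂ ≤ T ^ (2 * a) → |B R₁ R₂ - G (R₁ / T ^ dd) (R₂ / T ^ dd)| ≤ E * T ^ (-η)) :
    ∃ κ C η' : ℝ, 0 ≤ κ ∧ 1 ≤ C ∧ 0 < η' ∧ η' ≤ 1 ∧ ∀ α R : ℝ, 1 / 2 ≤ α → α ≤ 1 → 1 ≤ R →
      |B (α * R) R - κ * Real.log (1 / α)| ≤ C * R ^ (-η') := by
  have he0 : 0 < dd - 2 * a := by linarith
  obtain ⟨ρ, hρ⟩ : ∃ ρ : ℝ, ρ = η / (dd - 2 * a) := ⟨_, rfl⟩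
  have hρ0 : 0 < ρ := by rw [hρ]; positivity
  have hE0 : 0 ≤ E := by linarith
  obtain ⟨C₁, hC₁⟩ : ∃ C₁ : ℝ, C₁ = (2 / (1 - 2 ^ (-ρ)) + 2 ^ ρ) * E := ⟨_, rfl⟩
  have hex : ∀ α : ℝ, ∃ b : ℝ, 1 / 2 ≤ α → α ≤ 1 → 0 ≤ b ∧ ∀ R, 1 ≤ R → |B (α * R) R - b| ≤ C₁ * R ^ (-ρ) := by
    intro α
    by_cases hα : 1 / 2 ≤ α ∧ α ≤ 1
    · obtain ⟨b, hb0, hb⟩ := step2b (F := fun R => B (α * R) R) hE0 hρ0 (fun R _ => hpos _ _)
        (fun R hR => hbd _ _ hR (by nlinarith [hα.2]) (by nlinarith [hα.1]))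
        (fun R R' h1 h2 h3 => by
          rw [hρ]
          exact step1 hdd ha ha2 hη hE h hα.1 hα.2 h1 h2 h3)
      refine ⟨b, fun _ _ => ⟨hb0, fun R hR => ?_⟩⟩
      rw [hC₁]
      exact hb R hR
    · exact ⟨0, fun h1 h2 => absurd ⟨h1, h2⟩ hα⟩
  choose β hβ using hex
  have hq : (2 : ℝ) ^ (-ρ) < 1 := Real.rpow_lt_one_of_one_lt_of_neg (by norm_num) (by linarith)
  have hC₁0 : 0 ≤ C₁ := by
    rw [hC₁]
    have : (0 : ℝ) < 1 - 2 ^ (-ρ) := by linarith
    positivity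
  have hlim : Tendsto (fun R : ℝ => C₁ * R ^ (-ρ)) atTop (𝓝 0) := by
    have := (tendsto_rpow_neg_atTop hρ0).const_mul C₁
    rwa [mul_zero] at this
  have hβadd : ∀ α α' : ℝ, 1 / 2 ≤ α * α' → α ≤ 1 → α' ≤ 1 → 0 < α → 0 < α' → β (α * α') = β α + β α' := by
    intro α α' h1 h2 h3 h4 h5
    have h6 : 1 / 2 ≤ α := by nlinarith
    have h7 : 1 / 2 ≤ α' := by nlinarith
    have h8 : |β (α * α') - (β α + β α')| ≤ 0 := by
      have h9 : Tendsto (fun R : ℝ => C₁ * R ^ (-ρ) + C₁ * R ^ (-ρ) + C₁ * (α * R) ^ (-ρ)) atTop (𝓝 (0 + 0 + 0)) :=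
        (hlim.add hlim).add (hlim.comp (tendsto_id.const_mul_atTop h4))
      rw [add_zero, add_zero] at h9
      refine ge_of_tendsto h9 ?_
      filter_upwards [eventually_ge_atTop (2 : ℝ)] with R hR
      have hR0 : 0 < R := by linarith
      have e1 := (hβ (α * α') h1 (by nlinarith)).2 R (by linarith)
      have e2 := (hβ α h6 h2).2 R (by linarith)
      have e3 := (hβ α' h7 h3).2 (α * R) (by nlinarith)
      have e4 := hadd (α' * (α * R)) (α * R) R (by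
        have : 0 < α * R := by positivity
        nlinarith) (by nlinarith)
      have e5 : α * α' * R = α' * (α * R) := by ring
      rw [e5] at e1
      rw [abs_le] at e1 e2 e3 ⊢
      constructor <;> linarith
    have h10 := abs_nonpos_iff.1 h8
    linarith
  have hL : 0 < Real.log 2 := Real.log_pos (by norm_num)
  have hexp : ∀ x : ℝ, x ≤ Real.log 2 → 1 / 2 ≤ Real.exp (-x) := by
    intro x hx
    rw [one_div, ← Real.exp_log (show (0 : ℝ) < 2 by norm_num), ← Real.exp_neg]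
    exact Real.exp_le_exp.2 (by linarith)
  have hexp1 : ∀ x : ℝ, 0 ≤ x → Real.exp (-x) ≤ 1 := fun x hx => by
    rw [← Real.exp_zero]
    exact Real.exp_le_exp.2 (by linarith)
  have hlin : ∀ x, 0 ≤ x → x ≤ Real.log 2 → β (Real.exp (-x)) = β (Real.exp (-Real.log 2)) / Real.log 2 * x := by
    intro x hx hx2
    refine lin_of_add (h := fun x => β (Real.exp (-x))) hL ?_ ?_ hx hx2
    · intro x h1 h2
      exact (hβ _ (hexp x h2) (hexp1 x h1)).1
    · intro x y h1 h2 h3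
      show β (Real.exp (-(x + y))) = β (Real.exp (-x)) + β (Real.exp (-y))
      have e1 : Real.exp (-(x + y)) = Real.exp (-x) * Real.exp (-y) := by
        rw [← Real.exp_add]
        congr 1
        ring
      rw [e1]
      refine hβadd _ _ ?_ (hexp1 x h1) (hexp1 y h2) (Real.exp_pos _) (Real.exp_pos _)
      rw [← e1]
      exact hexp _ h3
  refine ⟨β (Real.exp (-Real.log 2)) / Real.log 2, C₁ + 1, min ρ 1, ?_, by linarith, lt_min hρ0 one_pos, min_le_right _ _, ?_⟩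
  · exact div_nonneg (hβ _ (hexp _ le_rfl) (hexp1 _ hL.le)).1 hL.le
  · intro α R h1 h2 h3
    have hα0 : 0 < α := by linarith
    have hR0 : 0 < R := by linarith
    have e1 := hlin (Real.log (1 / α)) (Real.log_nonneg (by
      rw [le_div_iff₀ hα0]
      linarith)) (by
      apply Real.log_le_log (by positivity)
      rw [div_le_iff₀ hα0]
      linarith)
    have e2 : Real.exp (-Real.log (1 / α)) = α := by
      rw [← Real.log_inv, Real.exp_log (by positivity), one_div, inv_inv]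
    rw [e2] at e1
    rw [← e1]
    refine ((hβ α h1 h2).2 R h3).trans ?_
    have e3 : R ^ (-ρ) ≤ R ^ (-min ρ 1) :=
      Real.rpow_le_rpow_of_exponent_le h3 (neg_le_neg (min_le_left _ _))
    have e4 : 0 < R ^ (-min ρ 1) := Real.rpow_pos_of_pos hR0 _
    nlinarith [mul_le_mul_of_nonneg_left e3 hC₁0]

private theorem log_inv_bd {ε : ℝ} (h0 : 0 < ε) (h1 : ε ≤ 1 / 2) :
    ε ≤ Real.log (1 / (1 - ε)) ∧ Real.log (1 / (1 - ε)) ≤ ε + 2 * ε ^ 2 := by
  have h2 : 0 < 1 - ε := by linarith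
  constructor
  · have e1 := Real.log_le_sub_one_of_pos h2
    rw [one_div, Real.log_inv]
    linarith
  · have e1 := Real.log_le_sub_one_of_pos (show 0 < 1 / (1 - ε) by positivity)
    have e2 : 1 / (1 - ε) - 1 ≤ ε + 2 * ε ^ 2 := by
      rw [sub_le_iff_le_add, div_le_iff₀ h2]
      nlinarith [sq_nonneg ε, mul_nonneg (sq_nonneg ε) (by linarith : 0 ≤ 1 - 2 * ε)]
    linarith

theorem lim_sum {η : ℝ} (hη : 0 < η) (hη1 : η ≤ 1) : ∃ C : ℝ, 1 ≤ C ∧
    ∀ (ι : Type) (D g g₀ : ι → ℝ) (κ β E : ℝ), 0 ≤ κ → κ ≤ E → 1 ≤ E → (∀ i, 1 ≤ D i) →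
    (∀ R, {i | D i ≤ R}.Finite) → (∀ i, |g i| ≤ g₀ i) →
    (∀ α R : ℝ, 1 / 2 ≤ α → α ≤ 1 → 1 ≤ R →
      |(∑ᶠ i ∈ {i | α * R < D i ∧ D i ≤ R}, g i / D i) - β * Real.log (1 / α)| ≤ E * R ^ (-η)) →
    (∀ α R : ℝ, 1 / 2 ≤ α → α ≤ 1 → 1 ≤ R →
      |(∑ᶠ i ∈ {i | α * R < D i ∧ D i ≤ R}, g₀ i / D i) - κ * Real.log (1 / α)| ≤ E * R ^ (-η)) →
    ∀ R : ℝ, 1 ≤ R → |(∑ᶠ i ∈ {i | D i ≤ R}, g i) - β * R| ≤ C * E * R ^ (1 - η / 4) := by
  refine ⟨32 + 16 / η, by
    have : 0 < 16 / η := by positivity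
    linarith, ?_⟩
  intro ι D g g₀ κ β E hκ hκE hE hD hfin hg H1 H2
  classical
  have hE0 : 0 < E := by linarith
  have hlog2 : (0.69 : ℝ) < Real.log 2 := by linarith [Real.log_two_gt_d9]
  have hg₀ : ∀ i, 0 ≤ g₀ i := fun i => (abs_nonneg _).trans (hg i)
  -- windows as finite sums
  have hwin : ∀ (f : ι → ℝ) (u R : ℝ), ∑ᶠ i ∈ {i | u < D i ∧ D i ≤ R}, f i =
      ∑ i ∈ (hfin R).toFinset.filter (fun i => u < D i), f i := by
    intro f u R
    have e1 : {i | u < D i ∧ D i ≤ R} = (((hfin R).toFinset.filter (fun i => u < D i) : Finset ι) : Set ι) := by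
      ext i
      simp [and_comm]
    rw [e1, finsum_mem_coe_finset]
  have hall : ∀ (f : ι → ℝ) (R : ℝ), ∑ᶠ i ∈ {i | D i ≤ R}, f i = ∑ i ∈ (hfin R).toFinset, f i := by
    intro f R
    rw [finsum_mem_eq_finite_toFinset_sum _ (hfin R)]
  have hlow : ∀ (f : ι → ℝ) (u R : ℝ), u ≤ R → ∑ᶠ i ∈ {i | D i ≤ u}, f i =
      ∑ i ∈ (hfin R).toFinset.filter (fun i => ¬ u < D i), f i := by
    intro f u R huR
    have e1 : {i | D i ≤ u} = (((hfin R).toFinset.filter (fun i => ¬ u < D i) : Finset ι) : Set ι) := by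
      ext i
      simp only [Set.mem_setOf_eq, Finset.coe_filter, Set.Finite.mem_toFinset, not_lt]
      exact ⟨fun h => ⟨h.trans huR, h⟩, fun h => h.2⟩
    rw [e1, finsum_mem_coe_finset]
  -- the bound for β
  have hβ : |β| ≤ 4 * E := by
    have e1 := H1 (1 / 2) 1 le_rfl (by norm_num) le_rfl
    have e2 := H2 (1 / 2) 1 le_rfl (by norm_num) le_rfl
    rw [hwin] at e1 e2
    rw [Real.one_rpow, mul_one] at e1 e2
    have e3 : |∑ i ∈ (hfin 1).toFinset.filter (fun i => 1 / 2 * 1 < D i), g i / D i| ≤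
        ∑ i ∈ (hfin 1).toFinset.filter (fun i => 1 / 2 * 1 < D i), g₀ i / D i := by
      refine (Finset.abs_sum_le_sum_abs _ _).trans (Finset.sum_le_sum fun i _ => ?_)
      have := hD i
      rw [abs_div, abs_of_pos (by linarith : 0 < D i)]
      exact div_le_div_of_nonneg_right (hg i) (by linarith)
    have e4 : Real.log (1 / (1 / 2)) = Real.log 2 := by norm_num
    rw [e4] at e1 e2
    have e5 : |β * Real.log 2| ≤ κ * Real.log 2 + 2 * E := by
      rw [abs_le] at e1 e2 e3 ⊢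
      constructor <;> linarith
    rw [abs_mul, abs_of_pos (by linarith : 0 < Real.log 2)] at e5
    by_contra hcon
    push Not at hcon
    have e6 : 4 * E * Real.log 2 < |β| * Real.log 2 := mul_lt_mul_of_pos_right hcon (by linarith)
    have e7 : κ * Real.log 2 ≤ E * Real.log 2 := mul_le_mul_of_nonneg_right hκE (by linarith)
    nlinarith
  intro R hR
  have hR0 : 0 < R := by linarith
  obtain ⟨ε, hε⟩ : ∃ ε : ℝ, ε = R ^ (-(η / 2)) / 2 := ⟨_, rfl⟩
  have hε0 : 0 < ε := by rw [hε]; positivity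
  have hε1 : ε ≤ 1 / 2 := by
    rw [hε]
    have : R ^ (-(η / 2)) ≤ 1 := Real.rpow_le_one_of_one_le_of_nonpos hR (by linarith)
    linarith
  obtain ⟨l, hl⟩ : ∃ l : ℝ, l = Real.log (1 / (1 - ε)) := ⟨_, rfl⟩
  obtain ⟨hl1, hl2⟩ := log_inv_bd hε0 hε1
  rw [← hl] at hl1 hl2
  have hl0 : 0 < l := by linarith
  have hl3 : l ≤ 2 * ε := by nlinarith
  -- one step
  obtain ⟨S, hS⟩ : ∃ S : ℝ → ℝ, S = fun x => ∑ᶠ i ∈ {i | D i ≤ x}, g i := ⟨_, rfl⟩
  have hSx : ∀ x, S x = ∑ᶠ i ∈ {i | D i ≤ x}, g i := fun x => by rw [hS]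
  obtain ⟨X, hX⟩ : ∃ X : ℝ, X = R ^ (1 - η) := ⟨_, rfl⟩
  have hX0 : 0 < X := by rw [hX]; positivity
  have hstep : ∀ x, 1 ≤ x → x ≤ R → |S x - S ((1 - ε) * x) - x * (β * l)| ≤ 2 * E * X + ε * x * (κ * l) := by
    intro x hx hxR
    have hx0 : 0 < x := by linarith
    have e1 := H1 (1 - ε) x (by linarith) (by linarith) hx
    have e2 := H2 (1 - ε) x (by linarith) (by linarith) hx
    rw [hwin, ← hl] at e1 e2
    have hle : (1 - ε) * x ≤ x := by nlinarith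
    have e3 : S x - S ((1 - ε) * x) = ∑ i ∈ (hfin x).toFinset.filter (fun i => (1 - ε) * x < D i), g i := by
      rw [hSx, hSx, hall g x, hlow g ((1 - ε) * x) x hle,
        ← Finset.sum_filter_add_sum_filter_not (hfin x).toFinset (fun i => (1 - ε) * x < D i) g]
      ring
    have e4 : |∑ i ∈ (hfin x).toFinset.filter (fun i => (1 - ε) * x < D i), g i -
        x * ∑ i ∈ (hfin x).toFinset.filter (fun i => (1 - ε) * x < D i), g i / D i| ≤
        ε * x * ∑ i ∈ (hfin x).toFinset.filter (fun i => (1 - ε) * x < D i), g₀ i / D i := by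
      rw [Finset.mul_sum, ← Finset.sum_sub_distrib, Finset.mul_sum]
      refine (Finset.abs_sum_le_sum_abs _ _).trans (Finset.sum_le_sum fun i hi => ?_)
      rw [Finset.mem_filter, Set.Finite.mem_toFinset] at hi
      obtain ⟨hi1, hi2⟩ := hi
      have hi1' : D i ≤ x := hi1
      have hDi := hD i
      have hDi0 : 0 < D i := by linarith
      have e5 : g i - x * (g i / D i) = -((x - D i) * (g i / D i)) := by
        field_simp
        ring
      rw [e5, abs_neg, abs_mul, abs_div, abs_of_pos hDi0, abs_of_nonneg (by linarith : 0 ≤ x - D i)]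
      refine mul_le_mul ?_ (div_le_div_of_nonneg_right (hg i) hDi0.le) (by positivity) (by positivity)
      nlinarith
    have e6 : x * x ^ (-η) ≤ X := by
      have e7 : x * x ^ (-η) = x ^ (1 - η) := by
        rw [sub_eq_add_neg, Real.rpow_add hx0, Real.rpow_one]
      rw [e7, hX]
      exact Real.rpow_le_rpow hx0.le hxR (by linarith)
    have hxη : 0 < x ^ (-η) := Real.rpow_pos_of_pos hx0 _
    rw [e3]
    obtain ⟨W, hW⟩ : ∃ W, W = ∑ i ∈ (hfin x).toFinset.filter (fun i => (1 - ε) * x < D i), g i / D i := ⟨_, rfl⟩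
    obtain ⟨W₀, hW₀⟩ : ∃ W₀, W₀ = ∑ i ∈ (hfin x).toFinset.filter (fun i => (1 - ε) * x < D i), g₀ i / D i := ⟨_, rfl⟩
    rw [← hW] at e1 e4
    rw [← hW₀] at e2 e4
    have e8 : x * |W - β * l| ≤ E * X := by
      calc x * |W - β * l| ≤ x * (E * x ^ (-η)) := mul_le_mul_of_nonneg_left e1 hx0.le
        _ = E * (x * x ^ (-η)) := by ring
        _ ≤ E * X := mul_le_mul_of_nonneg_left e6 hE0.le
    have e9 : W₀ ≤ κ * l + E * x ^ (-η) := by
      have := (abs_le.1 e2).2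
      linarith
    have e10 : ε * x * W₀ ≤ ε * x * (κ * l) + E * X := by
      calc ε * x * W₀ ≤ ε * x * (κ * l + E * x ^ (-η)) := mul_le_mul_of_nonneg_left e9 (by positivity)
        _ = ε * x * (κ * l) + ε * (E * (x * x ^ (-η))) := by ring
        _ ≤ ε * x * (κ * l) + 1 * (E * X) := by
          have : ε * (E * (x * x ^ (-η))) ≤ 1 * (E * X) :=
            mul_le_mul (by linarith) (mul_le_mul_of_nonneg_left e6 hE0.le) (by positivity) zero_le_one
          linarith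
        _ = ε * x * (κ * l) + E * X := by ring
    have e11 : |x * W - x * (β * l)| = x * |W - β * l| := by
      rw [← mul_sub, abs_mul, abs_of_pos hx0]
    have e12 : ∑ i ∈ (hfin x).toFinset.filter (fun i => (1 - ε) * x < D i), g i - x * (β * l) =
        (∑ i ∈ (hfin x).toFinset.filter (fun i => (1 - ε) * x < D i), g i - x * W) + (x * W - x * (β * l)) := by ring
    rw [e12]
    refine (abs_add_le _ _).trans ?_
    rw [e11]
    linarith
  -- induction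
  obtain ⟨β', hβ'⟩ : ∃ β' : ℝ, β' = β * l / ε := ⟨_, rfl⟩
  have hβl : β' * ε = β * l := by
    rw [hβ']
    field_simp
  have hind : ∀ n : ℕ, ∀ x, 0 < x → x ≤ R → (1 - ε) ^ n * x < 1 →
      |S x - β' * x| ≤ n * (2 * E * X) + κ * l * x + |β'| := by
    have hsmall : ∀ (n : ℕ) (x : ℝ), 0 < x → x < 1 → |S x - β' * x| ≤ n * (2 * E * X) + κ * l * x + |β'| := by
      intro n x hx0 hx1
      have e1 : S x = 0 := by
        rw [hSx]
        have : {i | D i ≤ x} = ∅ := by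
          ext i
          simp only [Set.mem_setOf_eq, Set.mem_empty_iff_false, iff_false, not_le]
          have := hD i
          linarith
        rw [this, finsum_mem_empty]
      rw [e1, zero_sub, abs_neg, abs_mul, abs_of_pos hx0]
      have e2 : |β'| * x ≤ |β'| := mul_le_of_le_one_right (abs_nonneg _) hx1.le
      have e3 : 0 ≤ (n : ℝ) * (2 * E * X) := by positivity
      have e4 : 0 ≤ κ * l * x := by positivity
      linarith
    intro n
    induction n with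
    | zero =>
      intro x hx0 hxR hx1
      rw [pow_zero, one_mul] at hx1
      exact hsmall 0 x hx0 hx1
    | succ n ih =>
      intro x hx0 hxR hx1
      by_cases hx : x < 1
      · exact hsmall (n + 1) x hx0 hx
      · push Not at hx
        have e1 := hstep x hx hxR
        have e2 := ih ((1 - ε) * x) (mul_pos (by linarith) hx0) (by nlinarith) (by
          rw [← mul_assoc, ← pow_succ]
          exact hx1)
        have e3 : S x - β' * x = (S x - S ((1 - ε) * x) - x * (β * l)) + (S ((1 - ε) * x) - β' * ((1 - ε) * x)) := by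
          rw [← hβl]
          ring
        rw [e3]
        refine (abs_add_le _ _).trans ?_
        push_cast
        nlinarith
  -- the number of steps
  obtain ⟨J, hJ⟩ : ∃ J : ℕ, J = ⌊Real.log R / ε⌋₊ + 1 := ⟨_, rfl⟩
  have hlogR : 0 ≤ Real.log R := Real.log_nonneg hR
  have hJ1 : Real.log R < ε * J := by
    have e1 := Nat.lt_floor_add_one (Real.log R / ε)
    rw [div_lt_iff₀ hε0] at e1
    rw [hJ]
    push_cast
    linarith
  have hJ2 : (J : ℝ) ≤ Real.log R / ε + 1 := by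
    rw [hJ]
    push_cast
    linarith [Nat.floor_le (show 0 ≤ Real.log R / ε by positivity)]
  have hJR : (1 - ε) ^ J * R < 1 := by
    have e1 : 1 - ε ≤ Real.exp (-ε) := by
      have := Real.add_one_le_exp (-ε)
      linarith
    have e2 : (1 - ε) ^ J ≤ Real.exp (-ε) ^ J := pow_le_pow_left₀ (by linarith) e1 J
    rw [← Real.exp_nat_mul] at e2
    calc (1 - ε) ^ J * R ≤ Real.exp (J * -ε) * R := mul_le_mul_of_nonneg_right e2 hR0.le
      _ = Real.exp (J * -ε) * Real.exp (Real.log R) := by rw [Real.exp_log hR0]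
      _ = Real.exp (J * -ε + Real.log R) := by rw [← Real.exp_add]
      _ < 1 := by
        rw [Real.exp_lt_one_iff]
        linarith
  have hmain := hind J R hR0 le_rfl hJR
  -- the bounds
  obtain ⟨Z, hZ⟩ : ∃ Z : ℝ, Z = R ^ (1 - η / 4) := ⟨_, rfl⟩
  have hZ1 : 1 ≤ Z := by
    rw [hZ]
    exact Real.one_le_rpow hR (by linarith)
  have hεR : ε * R ≤ Z := by
    have e1 : R ^ (-(η / 2)) * R ≤ Z := by
      have e2 : R ^ (-(η / 2)) * R = R ^ (-(η / 2) + 1) := by rw [Real.rpow_add hR0, Real.rpow_one]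
      rw [e2, hZ]
      exact Real.rpow_le_rpow_of_exponent_le hR (by linarith)
    have e3 : 0 < R ^ (-(η / 2)) * R := by positivity
    rw [hε]
    linarith
  have hXZ : X ≤ Z := by
    rw [hX, hZ]
    exact Real.rpow_le_rpow_of_exponent_le hR (by linarith)
  have hlogX : Real.log R / ε * X ≤ 8 / η * Z := by
    have e1 := Real.log_le_rpow_div hR0.le (show 0 < η / 4 by positivity)
    have e2 : Real.log R / ε = 2 * Real.log R * R ^ (η / 2) := by
      rw [hε, Real.rpow_neg hR0.le]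
      field_simp
    have e3 : R ^ (η / 4) * R ^ (η / 2) * X = Z := by
      rw [hX, hZ, ← Real.rpow_add hR0, ← Real.rpow_add hR0]
      congr 1
      ring
    have e4 : 0 < R ^ (η / 2) * X := by positivity
    rw [e2]
    calc 2 * Real.log R * R ^ (η / 2) * X = 2 * Real.log R * (R ^ (η / 2) * X) := by ring
      _ ≤ 2 * (R ^ (η / 4) / (η / 4)) * (R ^ (η / 2) * X) :=
        mul_le_mul_of_nonneg_right (by linarith) e4.le
      _ = 8 / η * (R ^ (η / 4) * R ^ (η / 2) * X) := by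
        field_simp
        ring
      _ = 8 / η * Z := by rw [e3]
  have hJX : (J : ℝ) * (2 * E * X) ≤ 2 * E * (8 / η * Z + Z) := by
    calc (J : ℝ) * (2 * E * X) ≤ (Real.log R / ε + 1) * (2 * E * X) :=
        mul_le_mul_of_nonneg_right hJ2 (by positivity)
      _ = 2 * E * (Real.log R / ε * X + X) := by ring
      _ ≤ 2 * E * (8 / η * Z + Z) := mul_le_mul_of_nonneg_left (by linarith) (by positivity)
  have hκl : κ * l * R ≤ 2 * E * Z := by
    calc κ * l * R ≤ E * (2 * ε) * R :=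
        mul_le_mul_of_nonneg_right (mul_le_mul hκE hl3 hl0.le hE0.le) hR0.le
      _ = 2 * E * (ε * R) := by ring
      _ ≤ 2 * E * Z := mul_le_mul_of_nonneg_left hεR (by positivity)
  have hdiff : |β' - β| ≤ 8 * E * ε := by
    have e1 : β' - β = β * ((l - ε) / ε) := by
      rw [hβ']
      field_simp
    have e2 : (l - ε) / ε ≤ 2 * ε := by
      rw [div_le_iff₀ hε0]
      nlinarith
    have e3 : 0 ≤ (l - ε) / ε := div_nonneg (by linarith) hε0.le
    rw [e1, abs_mul, abs_of_nonneg e3]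
    calc |β| * ((l - ε) / ε) ≤ 4 * E * (2 * ε) := mul_le_mul hβ e2 e3 (by positivity)
      _ = 8 * E * ε := by ring
  have hβ'b : |β'| ≤ 8 * E := by
    have e1 : |β'| ≤ |β| + |β' - β| := by
      have := abs_add_le β (β' - β)
      rwa [add_sub_cancel] at this
    nlinarith
  have hfin2 : |S R - β * R| ≤ (J : ℝ) * (2 * E * X) + κ * l * R + |β'| + 8 * E * ε * R := by
    have e1 : S R - β * R = (S R - β' * R) + (β' - β) * R := by ring
    rw [e1]
    refine (abs_add_le _ _).trans ?_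
    rw [abs_mul, abs_of_pos hR0]
    have := mul_le_mul_of_nonneg_right hdiff hR0.le
    linarith
  rw [← hSx, ← hZ]
  have e20 : 8 * E * ε * R ≤ 8 * E * Z := by
    have := mul_le_mul_of_nonneg_left hεR (show 0 ≤ 8 * E by positivity)
    linarith
  have e21 : 8 * E ≤ 8 * E * Z := le_mul_of_one_le_right (by positivity) hZ1
  have e22 : 2 * E * (8 / η * Z + Z) + 2 * E * Z + 8 * E * Z + 8 * E * Z ≤ (32 + 16 / η) * E * Z := by
    have e23 : 2 * E * (8 / η * Z + Z) = 16 / η * E * Z + 2 * E * Z := by ring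
    have e24 : (32 + 16 / η) * E * Z = 32 * (E * Z) + 16 / η * E * Z := by ring
    have e25 : 0 ≤ E * Z := by positivity
    rw [e23, e24]
    linarith
  linarith

end H97.SXM
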