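import Pool.Agent.H97.SXM.Mst
import Pool.Agent.H88.SO.Main

/-!
# SXM: chapter M, final form (complete; no hypothesis on orders: helper88's `red_frame`, `od_cnt`, `od_finite`)
-/

set_option autoImplicit false

open scoped NumberField Classical
open IsDedekindDomain NumberField H38.ML H63.MA H67.SX H77.MF

noncomputable section

namespace H97.SXM

/-- CHAPTER M for every totally complex number field which contains the cube roots of unity -/
theorem mstX (K : IntermediateField ℚ QBar) [NumberField K] [IsTotallyComplex K] {ω : K}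
    (hω : IsPrimitiveRoot ω 3) (S : Finset (Pl K))
    (h6 : ∀ l : Pl K, (6 : 𝓞 K) ∈ l.asIdeal → l ∈ S) (Qd : DP K QBar) : MStat K S Qd := by
  obtain ⟨κ, hκ, hf⟩ := H88.SO.red_frame K
  have hR : RFS K κ := hf
  obtain ⟨C, hC, hc⟩ := H88.SO.od_cnt K κ hκ
  have hO : OCS K κ := ⟨C, hC, fun Y Z hY hZ => ⟨H88.SO.od_finite K Y, fun O h => hc Y Z hY hZ O h⟩⟩
  exact mst K hω hκ hR hO S h6 Qd

end H97.SXM
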