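import Pool.Agent.H97.SXM.Defs

/-!
# [SXM LAT] Lattice points of `v + n 𝓞^m` in a region, 120-200 lines. File Pool/Agent/H97/SXM/Lat.lean

`K` totally complex, `d = [K : ℚ] = 2 #(InfinitePlace K)`. The real vector space `En K m` has dimension `m d`. Let `ω` be the integral basis of `𝓞 K`; the vectors `b (i, j) = emb (ω_j e_i)` (`i : Fin m`, `j` an index of the integral basis) form an `ℝ`-basis of
`En K m` and `{emb z : z ∈ 𝓞^m}` is their `ℤ`-span (for `m = 1` this is `NumberField.mixedEmbedding.latticeBasis` for `mixedSpace K`, whose real part is trivial because `K` is totally complex; `En K m ≃ (Fin m → (complex places → ℂ))`).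
Let `ρ = 1 + ∑ ‖b (i, j)‖`. For `n ≥ 1` the parallelotope `P = {∑ t_k n b_k : 0 ≤ t_k < 1}` (`ZSpan.fundamentalDomain` of the basis `n b`) has the following properties: its translates by `n emb z`, `z ∈ 𝓞^m`, are disjoint and cover `En K m`; every `y ∈ P` has
`‖y‖ ≤ ρ n`; its volume is `n^(m d) cv K m` (`NumberField.mixedEmbedding.volume_fundamentalDomain_latticeBasis`: `2^(-r₂) √|discr|` for `m = 1`; product measure for general `m`; scaling by `n`: `Measure.addHaar_smul`).
UPPER BOUND: the sets `v + n emb z + P`, `z` in the set of the points with `v + n emb z ∈ D`, are disjoint and contained in `Dp`. So any finite set `Z` of such `z` satisfies `#Z n^(md) cv ≤ vol Dp < ∞`, hence the set is finite and the bound holds.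
LOWER BOUND: every `x ∈ Dm` lies in some `v + n emb z + P`, i.e. `x - y = v + n emb z` with `y ∈ P`, and `x - y = x + (-y) ∈ D` (`‖-y‖ ≤ ρ n`), so `Dm` is covered by the finitely many sets `v + n emb z + P` with `v + n emb z ∈ D`, each of volume `n^(md) cv`.
-/

set_option autoImplicit false

open scoped NumberField Classical
open NumberField MeasureTheory H77.MF

noncomputable section

namespace H97.SXM

theorem cv_pos (K : Type) [Field K] [NumberField K] (m : ℕ) : 0 < cv K m := by
  have h : (0 : ℝ) < |(discr K : ℝ)| := by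
    have := discr_ne_zero K
    positivity
  have h2 := Real.sqrt_pos.2 h
  unfold cv
  positivity

private theorem swap_mp (α β : Type) [Fintype α] [Fintype β] :
    MeasurePreserving (fun (x : α → β → ℂ) (b : β) (a : α) => x a b) volume volume := by
  let L : (α → β → ℂ) ≃ₗ[ℝ] (β → α → ℂ) :=
    { toFun := fun x b a => x a b
      invFun := fun x a b => x b a
      map_add' := fun _ _ => rfl
      map_smul' := fun _ _ => rfl
      left_inv := fun _ => rfl
      right_inv := fun _ => rfl }
  let L' := L.toContinuousLinearEquiv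
  have hL : Measurable L' := L'.continuous.measurable
  have hv1 : (volume : Measure (α → β → ℂ)).IsAddHaarMeasure := Measure.pi.isAddHaarMeasure _
  have hv2 : (volume : Measure (β → α → ℂ)).IsAddHaarMeasure := Measure.pi.isAddHaarMeasure _
  have hH : (Measure.map L' volume).IsAddHaarMeasure := L'.isAddHaarMeasure_map volume
  have h := Measure.isAddLeftInvariant_eq_smul (Measure.map L' (volume : Measure (α → β → ℂ))) volume
  set c := Measure.addHaarScalarFactor (Measure.map L' (volume : Measure (α → β → ℂ))) volume with hcd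
  have hb0 : (volume (Metric.ball (0 : ℂ) 1)) ≠ 0 := (Metric.measure_ball_pos volume 0 one_pos).ne'
  have hbt : (volume (Metric.ball (0 : ℂ) 1)) ≠ ⊤ := measure_ball_lt_top.ne
  let S : Set (β → α → ℂ) := Set.univ.pi fun _ => Set.univ.pi fun _ => Metric.ball (0 : ℂ) 1
  have hSm : MeasurableSet S :=
    MeasurableSet.univ_pi fun _ => MeasurableSet.univ_pi fun _ => measurableSet_ball
  have hS : volume S = (volume (Metric.ball (0 : ℂ) 1)) ^ (Fintype.card α * Fintype.card β) := by
    simp only [S]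
    rw [volume_pi_pi]
    rw [Finset.prod_congr rfl fun b _ => volume_pi_pi _]
    simp only [Finset.prod_const, Finset.card_univ]
    rw [← pow_mul]
  have hpre : L' ⁻¹' S = Set.univ.pi fun _ => Set.univ.pi fun _ => Metric.ball (0 : ℂ) 1 := by
    ext x
    simp only [S, Set.mem_preimage, Set.mem_pi, Set.mem_univ, forall_true_left]
    exact ⟨fun h a b => h b a, fun h b a => h a b⟩
  have hS' : (Measure.map L' (volume : Measure (α → β → ℂ))) S =
      (volume (Metric.ball (0 : ℂ) 1)) ^ (Fintype.card α * Fintype.card β) := by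
    rw [Measure.map_apply hL hSm, hpre, volume_pi_pi]
    rw [Finset.prod_congr rfl fun b _ => volume_pi_pi _]
    simp only [Finset.prod_const, Finset.card_univ]
    rw [← pow_mul, mul_comm (Fintype.card β)]
  have hc : c = 1 := by
    have h1 : (Measure.map L' (volume : Measure (α → β → ℂ))) S = (c • (volume : Measure (β → α → ℂ))) S := by
      rw [← h]
    rw [hS', Measure.smul_apply, hS] at h1
    have h2 : (volume (Metric.ball (0 : ℂ) 1)) ^ (Fintype.card α * Fintype.card β) ≠ 0 := pow_ne_zero _ hb0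
    have h3 : (volume (Metric.ball (0 : ℂ) 1)) ^ (Fintype.card α * Fintype.card β) ≠ ⊤ := ENNReal.pow_ne_top hbt
    have h4 : (1 : ENNReal) * (volume (Metric.ball (0 : ℂ) 1)) ^ (Fintype.card α * Fintype.card β) =
        (c : ENNReal) * (volume (Metric.ball (0 : ℂ) 1)) ^ (Fintype.card α * Fintype.card β) := by
      rw [one_mul]
      exact h1
    have h5 := (ENNReal.mul_left_inj h2 h3).1 h4
    exact_mod_cast h5.symm
  refine ⟨hL, ?_⟩
  have h6 : Measure.map L' (volume : Measure (α → β → ℂ)) = volume := by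
    rw [h, hc, one_smul]
  exact h6

variable (K : Type) [Field K] [NumberField K]

/-- restriction to the complex places -/
private def rr (y : InfinitePlace K → ℂ) : mixedEmbedding.mixedSpace K := (fun _ => 0, fun w => y w.1)

private theorem rr_mp [IsTotallyComplex K] : MeasurePreserving (rr K) volume volume := by
  have hc : ∀ w : InfinitePlace K, w.IsComplex := IsTotallyComplex.isComplex
  have he : IsEmpty {w : InfinitePlace K // w.IsReal} :=
    ⟨fun w => (InfinitePlace.not_isReal_iff_isComplex.2 (hc w.1)) w.2⟩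
  let e : {w : InfinitePlace K // w.IsComplex} ≃ InfinitePlace K := Equiv.subtypeUnivEquiv hc
  have h1 := (volume_measurePreserving_piCongrLeft (fun _ : InfinitePlace K => ℂ) e).symm
  have h2 : MeasurePreserving (fun (y : InfinitePlace K → ℂ) (w : {w : InfinitePlace K // w.IsComplex}) => y w.1)
      volume volume := h1
  have h3 : MeasurePreserving (fun z : {w : InfinitePlace K // w.IsComplex} → ℂ =>
      (((fun _ => 0, z) : mixedEmbedding.mixedSpace K))) volume volume := by
    refine ⟨measurable_prodMk_left, ?_⟩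
    have h4 : (volume : Measure ({w : InfinitePlace K // w.IsReal} → ℝ)) = Measure.dirac (fun _ => 0) :=
      Measure.pi_of_empty _ _
    have h5 : (volume : Measure (mixedEmbedding.mixedSpace K)) =
        (volume : Measure ({w : InfinitePlace K // w.IsReal} → ℝ)).prod
          (volume : Measure ({w : InfinitePlace K // w.IsComplex} → ℂ)) := rfl
    rw [h5, h4, Measure.dirac_prod]
  exact h3.comp h2

omit [NumberField K] in
private theorem rr_sub (x y : InfinitePlace K → ℂ) : rr K (x - y) = rr K x - rr K y := by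
  unfold rr
  ext w
  · simp
  · simp

omit [NumberField K] in
private theorem rr_emb [IsTotallyComplex K] (a : K) : rr K (fun w => w.embedding a) = mixedEmbedding K a := by
  have hc : ∀ w : InfinitePlace K, w.IsComplex := IsTotallyComplex.isComplex
  unfold rr
  ext w
  · exact absurd w.2 (InfinitePlace.not_isReal_iff_isComplex.2 (hc w.1))
  · simp

/-- the fundamental domain -/
private def fd (m : ℕ) : Set (En K m) :=
  {x | ∀ i, rr K (fun w => x w i) ∈ ZSpan.fundamentalDomain (mixedEmbedding.latticeBasis K)}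

private theorem fd_eq (m : ℕ) : fd K m = (fun (x : InfinitePlace K → Fin m → ℂ) (b : Fin m) (a : InfinitePlace K) => x a b) ⁻¹'
    (Set.univ.pi fun _ : Fin m => rr K ⁻¹' ZSpan.fundamentalDomain (mixedEmbedding.latticeBasis K)) := by
  ext x
  simp only [fd, Set.mem_ofPred_eq, Set.mem_preimage, Set.mem_pi, Set.mem_univ, forall_true_left]

private theorem fd_meas [IsTotallyComplex K] (m : ℕ) : MeasurableSet (fd K m) := by
  rw [fd_eq]
  refine (swap_mp (InfinitePlace K) (Fin m)).measurable (MeasurableSet.univ_pi fun _ => ?_)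
  exact (rr_mp K).measurable (ZSpan.fundamentalDomain_measurableSet _)

private theorem fd_vol [IsTotallyComplex K] (m : ℕ) : volume (fd K m) = ENNReal.ofReal (cv K m) := by
  have hm : MeasurableSet (rr K ⁻¹' ZSpan.fundamentalDomain (mixedEmbedding.latticeBasis K)) :=
    (rr_mp K).measurable (ZSpan.fundamentalDomain_measurableSet _)
  rw [fd_eq, (swap_mp (InfinitePlace K) (Fin m)).measure_preimage
    (MeasurableSet.univ_pi fun _ => hm).nullMeasurableSet, volume_pi_pi]
  rw [Finset.prod_const, Finset.card_univ, Fintype.card_fin,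
    (rr_mp K).measure_preimage (ZSpan.fundamentalDomain_measurableSet _).nullMeasurableSet,
    mixedEmbedding.volume_fundamentalDomain_latticeBasis]
  unfold cv
  rw [ENNReal.ofReal_pow (by positivity)]
  congr 1
  have hcard : Fintype.card (InfinitePlace K) = InfinitePlace.nrComplexPlaces K := by
    rw [InfinitePlace.card_eq_nrRealPlaces_add_nrComplexPlaces, IsTotallyComplex.nrRealPlaces_eq_zero, zero_add]
  rw [hcard, div_eq_mul_inv, mul_comm (Real.sqrt _), ENNReal.ofReal_mul (by positivity)]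
  congr 1
  · rw [← inv_pow, ENNReal.ofReal_pow (by positivity)]
    congr 1
    rw [ENNReal.ofReal_inv_of_pos (by norm_num)]
    simp
  · rw [ENNReal.ofReal]
    congr 1
    rw [← NNReal.coe_inj, Real.coe_sqrt, coe_nnnorm, Int.norm_eq_abs,
      Real.coe_toNNReal _ (Real.sqrt_nonneg _)]

private theorem fd_bd [IsTotallyComplex K] (m : ℕ) : ∃ ρ : ℝ, 1 ≤ ρ ∧ ∀ y ∈ fd K m, ‖y‖ ≤ ρ := by
  obtain ⟨δ, hδ⟩ := (ZSpan.fundamentalDomain_isBounded (mixedEmbedding.latticeBasis K)).exists_norm_le
  refine ⟨max 1 δ, le_max_left _ _, fun y hy => ?_⟩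
  have h0 : (0 : ℝ) ≤ max 1 δ := zero_le_one.trans (le_max_left _ _)
  rw [pi_norm_le_iff_of_nonneg h0]
  intro w
  rw [pi_norm_le_iff_of_nonneg h0]
  intro i
  have h1 := hδ _ (hy i)
  have h2 : ‖(rr K (fun w => y w i)).2‖ ≤ ‖rr K (fun w => y w i)‖ := norm_snd_le _
  have h3 : ‖y w i‖ ≤ ‖(rr K (fun w => y w i)).2‖ :=
    norm_le_pi_norm (rr K (fun w => y w i)).2 ⟨w, IsTotallyComplex.isComplex w⟩
  exact (h3.trans (h2.trans h1)).trans (le_max_right _ _)

private theorem fd_cover [IsTotallyComplex K] (m : ℕ) (x : En K m) : ∃ z : Fin m → 𝓞 K, x - emb (fun i => (z i : K)) ∈ fd K m := by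
  have h : ∀ i, ∃ z : 𝓞 K, rr K (fun w => x w i) - mixedEmbedding K (z : K) ∈
      ZSpan.fundamentalDomain (mixedEmbedding.latticeBasis K) := by
    intro i
    have h1 := ZSpan.fract_mem_fundamentalDomain (mixedEmbedding.latticeBasis K) (rr K (fun w => x w i))
    rw [ZSpan.fract_apply] at h1
    have h2 := (mixedEmbedding.mem_span_latticeBasis K).1
      (ZSpan.floor (mixedEmbedding.latticeBasis K) (rr K (fun w => x w i))).2
    obtain ⟨z, hz⟩ := h2
    refine ⟨z, ?_⟩
    have h3 : mixedEmbedding K (z : K) =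
        ((ZSpan.floor (mixedEmbedding.latticeBasis K) (rr K (fun w => x w i)) :
          Submodule.span ℤ (Set.range (mixedEmbedding.latticeBasis K))) : mixedEmbedding.mixedSpace K) := hz
    rw [h3]
    exact h1
  choose z hz using h
  refine ⟨z, fun i => ?_⟩
  have h4 := hz i
  rw [← rr_emb, ← rr_sub] at h4
  exact h4

private theorem fd_uniq [IsTotallyComplex K] (m : ℕ) (x : En K m) (z z' : Fin m → 𝓞 K)
    (h : x - emb (fun i => (z i : K)) ∈ fd K m) (h' : x - emb (fun i => (z' i : K)) ∈ fd K m) : z = z' := by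
  funext i
  have h1 : rr K ((fun w => x w i) - fun w => w.embedding (z i : K)) ∈
      ZSpan.fundamentalDomain (mixedEmbedding.latticeBasis K) := h i
  have h1' : rr K ((fun w => x w i) - fun w => w.embedding (z' i : K)) ∈
      ZSpan.fundamentalDomain (mixedEmbedding.latticeBasis K) := h' i
  rw [rr_sub, rr_emb] at h1 h1'
  have h2 := ZSpan.fract_eq_self.2 h1
  have h2' := ZSpan.fract_eq_self.2 h1'
  have hmem : ∀ a : 𝓞 K, mixedEmbedding K (a : K) ∈ Submodule.span ℤ (Set.range (mixedEmbedding.latticeBasis K)) := by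
    intro a
    rw [mixedEmbedding.mem_span_latticeBasis]
    exact ⟨a, rfl⟩
  have h3 : ZSpan.fract (mixedEmbedding.latticeBasis K) (rr K (fun w => x w i) - mixedEmbedding K (z i : K)) =
      ZSpan.fract (mixedEmbedding.latticeBasis K) (rr K (fun w => x w i) - mixedEmbedding K (z' i : K)) := by
    rw [ZSpan.fract_eq_fract]
    have h4 : -(rr K (fun w => x w i) - mixedEmbedding K (z i : K)) + (rr K (fun w => x w i) - mixedEmbedding K (z' i : K)) =
        mixedEmbedding K (z i : K) - mixedEmbedding K (z' i : K) := by abel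
    rw [h4]
    exact sub_mem (hmem _) (hmem _)
  rw [h2, h2'] at h3
  have h5 : mixedEmbedding K (z i : K) = mixedEmbedding K (z' i : K) := sub_right_injective h3
  exact RingOfIntegers.ext (mixedEmbedding_injective K h5)

private theorem tr_vol [IsTotallyComplex K] (m : ℕ) (a : En K m) :
    volume {x : En K m | x - a ∈ fd K m} = ENNReal.ofReal (cv K m) ∧ MeasurableSet {x : En K m | x - a ∈ fd K m} := by
  have hv : (volume : Measure (En K m)).IsAddHaarMeasure := Measure.pi.isAddHaarMeasure _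
  have h1 : {x : En K m | x - a ∈ fd K m} = (fun x => x + (-a)) ⁻¹' fd K m := by
    ext x
    simp only [Set.mem_ofPred_eq, Set.mem_preimage, sub_eq_add_neg]
  rw [h1]
  refine ⟨?_, (measurable_add_const (-a)) (fd_meas K m)⟩
  rw [measure_preimage_add_right, fd_vol]

private theorem core_up [IsTotallyComplex K] (m : ℕ) {ρ : ℝ} (hρ : ∀ y ∈ fd K m, ‖y‖ ≤ ρ) (D Dp : Set (En K m))
    (ht : volume Dp ≠ ⊤) (hD : ∀ x ∈ D, ∀ y, ‖y‖ ≤ ρ → x + y ∈ Dp) :
    {z : Fin m → 𝓞 K | emb (fun i => (z i : K)) ∈ D}.Finite ∧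
      ({z : Fin m → 𝓞 K | emb (fun i => (z i : K)) ∈ D}.ncard : ℝ) * cv K m ≤ (volume Dp).toReal := by
  have hcv := cv_pos K m
  have key : ∀ S : Finset (Fin m → 𝓞 K), (S : Set (Fin m → 𝓞 K)) ⊆ {z : Fin m → 𝓞 K | emb (fun i => (z i : K)) ∈ D} →
      (S.card : ℝ) * cv K m ≤ (volume Dp).toReal := by
    intro S hS
    have h1 : volume (⋃ z ∈ S, {x : En K m | x - emb (fun i => (z i : K)) ∈ fd K m}) =
        ∑ z ∈ S, volume {x : En K m | x - emb (fun i => (z i : K)) ∈ fd K m} := by
      apply measure_biUnion_finset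
      · intro z _ z' _ hne
        rw [Function.onFun, Set.disjoint_left]
        intro x hx hx'
        exact hne (fd_uniq K m x z z' hx hx')
      · intro z _
        exact (tr_vol K m _).2
    rw [Finset.sum_congr rfl fun z _ => (tr_vol K m _).1, Finset.sum_const, nsmul_eq_mul] at h1
    have h2 : (⋃ z ∈ S, {x : En K m | x - emb (fun i => (z i : K)) ∈ fd K m}) ⊆ Dp := by
      intro x hx
      rw [Set.mem_iUnion₂] at hx
      obtain ⟨z, hz, hx⟩ := hx
      have h3 := hD _ (hS hz) _ (hρ _ hx)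
      rwa [add_sub_cancel] at h3
    have h4 := measure_mono (μ := volume) h2
    rw [h1] at h4
    have h5 := ENNReal.toReal_mono ht h4
    rw [ENNReal.toReal_mul, ENNReal.toReal_natCast, ENNReal.toReal_ofReal hcv.le] at h5
    exact h5
  have hfin : {z : Fin m → 𝓞 K | emb (fun i => (z i : K)) ∈ D}.Finite := by
    by_contra hinf
    obtain ⟨N, hN⟩ := exists_nat_gt ((volume Dp).toReal / cv K m)
    obtain ⟨S, hS, hSN⟩ := Set.Infinite.exists_subset_card_eq hinf N
    have h1 := key S hS
    rw [hSN] at h1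
    rw [div_lt_iff₀ hcv] at hN
    linarith
  refine ⟨hfin, ?_⟩
  rw [Set.ncard_eq_toFinset_card _ hfin]
  exact key _ (by rw [Set.Finite.coe_toFinset])

private theorem core_lo [IsTotallyComplex K] (m : ℕ) {ρ : ℝ} (hρ : ∀ y ∈ fd K m, ‖y‖ ≤ ρ) (D Dm : Set (En K m))
    (hD : ∀ x ∈ Dm, ∀ y, ‖y‖ ≤ ρ → x + y ∈ D) (hfin : {z : Fin m → 𝓞 K | emb (fun i => (z i : K)) ∈ D}.Finite) :
    (volume Dm).toReal ≤ ({z : Fin m → 𝓞 K | emb (fun i => (z i : K)) ∈ D}.ncard : ℝ) * cv K m := by
  have hcv := cv_pos K m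
  have h1 : Dm ⊆ ⋃ z ∈ hfin.toFinset, {x : En K m | x - emb (fun i => (z i : K)) ∈ fd K m} := by
    intro x hx
    obtain ⟨z, hz⟩ := fd_cover K m x
    rw [Set.mem_iUnion₂]
    refine ⟨z, ?_, hz⟩
    rw [Set.Finite.mem_toFinset]
    have h2 := hD x hx (-(x - emb (fun i => (z i : K)))) (by rw [norm_neg]; exact hρ _ hz)
    have h3 : x + -(x - emb (fun i => (z i : K))) = emb (fun i => (z i : K)) := by abel
    rw [h3] at h2
    exact h2
  have h4 := (measure_mono (μ := volume) h1).trans (measure_biUnion_finset_le _ _)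
  rw [Finset.sum_congr rfl fun z _ => (tr_vol K m _).1, Finset.sum_const, nsmul_eq_mul] at h4
  have h5 := ENNReal.toReal_mono (ENNReal.mul_ne_top (ENNReal.natCast_ne_top _) ENNReal.ofReal_ne_top) h4
  rw [ENNReal.toReal_mul, ENNReal.toReal_natCast, ENNReal.toReal_ofReal hcv.le] at h5
  rw [Set.ncard_eq_toFinset_card _ hfin]
  exact h5

private theorem fr_eq [IsTotallyComplex K] (m : ℕ) : Module.finrank ℝ (En K m) = m * Module.finrank ℚ K := by
  have hcard : Fintype.card (InfinitePlace K) = InfinitePlace.nrComplexPlaces K := by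
    rw [InfinitePlace.card_eq_nrRealPlaces_add_nrComplexPlaces, IsTotallyComplex.nrRealPlaces_eq_zero, zero_add]
  rw [IsTotallyComplex.finrank, ← hcard, Module.finrank_pi_fintype]
  simp only [Module.finrank_pi_fintype, Complex.finrank_real_complex, Finset.sum_const, Finset.card_univ,
    Fintype.card_fin, smul_eq_mul]
  ring

private theorem sc_vol [IsTotallyComplex K] (m : ℕ) (n : ℕ) (hn : 1 ≤ n) (v : En K m) (S : Set (En K m)) :
    volume {x : En K m | v + (n : ℝ) • x ∈ S} =
      ENNReal.ofReal (((n : ℝ) ^ (m * Module.finrank ℚ K))⁻¹) * volume S := by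
  have hv : (volume : Measure (En K m)).IsAddHaarMeasure := Measure.pi.isAddHaarMeasure _
  have hn0 : (n : ℝ) ≠ 0 := by
    have : 0 < n := hn
    exact_mod_cast this.ne'
  have h1 : {x : En K m | v + (n : ℝ) • x ∈ S} = ((n : ℝ) • ·) ⁻¹' ((fun x => v + x) ⁻¹' S) := by
    ext x
    simp only [Set.mem_ofPred_eq, Set.mem_preimage]
  rw [h1, Measure.addHaar_preimage_smul volume hn0, measure_preimage_add, fr_eq, abs_of_nonneg (by positivity)]


theorem lat (K : Type) [Field K] [NumberField K] [IsTotallyComplex K] (m : ℕ) : ∃ ρ : ℝ, 1 ≤ ρ ∧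
    ∀ n : ℕ, 1 ≤ n → ∀ v : En K m, ∀ D : Set (En K m),
    (∀ Dp : Set (En K m), volume Dp ≠ ⊤ → (∀ x ∈ D, ∀ y, ‖y‖ ≤ ρ * n → x + y ∈ Dp) →
      {z : Fin m → 𝓞 K | v + (n : ℝ) • emb (fun i => (z i : K)) ∈ D}.Finite ∧
      ({z : Fin m → 𝓞 K | v + (n : ℝ) • emb (fun i => (z i : K)) ∈ D}.ncard : ℝ) *
        ((n : ℝ) ^ (m * Module.finrank ℚ K) * cv K m) ≤ (volume Dp).toReal) ∧
    (∀ Dm : Set (En K m), volume Dm ≠ ⊤ → (∀ x ∈ Dm, ∀ y, ‖y‖ ≤ ρ * n → x + y ∈ D) →
      {z : Fin m → 𝓞 K | v + (n : ℝ) • emb (fun i => (z i : K)) ∈ D}.Finite →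
      (volume Dm).toReal ≤ ({z : Fin m → 𝓞 K | v + (n : ℝ) • emb (fun i => (z i : K)) ∈ D}.ncard : ℝ) *
        ((n : ℝ) ^ (m * Module.finrank ℚ K) * cv K m)) := by
  obtain ⟨ρ, hρ1, hρ⟩ := fd_bd K m
  refine ⟨ρ, hρ1, fun n hn v D => ⟨fun Dp ht hD => ?_, fun Dm _ hD hfin => ?_⟩⟩
  · have hn0 : (0 : ℝ) < n := by exact_mod_cast hn
    have hN : (0 : ℝ) < (n : ℝ) ^ (m * Module.finrank ℚ K) := by positivity
    have h1 := sc_vol K m n hn v Dp
    obtain ⟨h2, h3⟩ := core_up K m hρ {x : En K m | v + (n : ℝ) • x ∈ D} {x : En K m | v + (n : ℝ) • x ∈ Dp}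
      (by
        rw [h1]
        exact ENNReal.mul_ne_top ENNReal.ofReal_ne_top ht) (fun x hx y hy => by
        have h4 := hD _ hx ((n : ℝ) • y) (by
          rw [norm_smul, Real.norm_of_nonneg hn0.le, mul_comm]
          exact mul_le_mul_of_nonneg_right hy hn0.le)
        rw [add_assoc, ← smul_add] at h4
        exact h4)
    refine ⟨h2, ?_⟩
    rw [h1, ENNReal.toReal_mul, ENNReal.toReal_ofReal (by positivity), inv_mul_eq_div, le_div_iff₀ hN] at h3
    have h5 : ({z : Fin m → 𝓞 K | v + (n : ℝ) • emb (fun i => (z i : K)) ∈ D}.ncard : ℝ) * cv K m *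
        (n : ℝ) ^ (m * Module.finrank ℚ K) ≤ (volume Dp).toReal := h3
    rw [mul_assoc, mul_comm (cv K m)] at h5
    exact h5
  · have hn0 : (0 : ℝ) < n := by exact_mod_cast hn
    have hN : (0 : ℝ) < (n : ℝ) ^ (m * Module.finrank ℚ K) := by positivity
    have h1 := sc_vol K m n hn v Dm
    have h3 := core_lo K m hρ {x : En K m | v + (n : ℝ) • x ∈ D} {x : En K m | v + (n : ℝ) • x ∈ Dm}
      (fun x hx y hy => by
        have h4 := hD _ hx ((n : ℝ) • y) (by
          rw [norm_smul, Real.norm_of_nonneg hn0.le, mul_comm]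
          exact mul_le_mul_of_nonneg_right hy hn0.le)
        rw [add_assoc, ← smul_add] at h4
        exact h4) hfin
    rw [h1, ENNReal.toReal_mul, ENNReal.toReal_ofReal (by positivity), inv_mul_eq_div, div_le_iff₀ hN] at h3
    have h5 : (volume Dm).toReal ≤ ({z : Fin m → 𝓞 K | v + (n : ℝ) • emb (fun i => (z i : K)) ∈ D}.ncard : ℝ) * cv K m *
        (n : ℝ) ^ (m * Module.finrank ℚ K) := h3
    rw [mul_assoc, mul_comm (cv K m)] at h5
    exact h5

end H97.SXM
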