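import Pool.Agent.H97.SXM.Defs
import Pool.Agent.H38.MT.FN

/-!
# [SXM CYC] The number of the cyclic cubic fields, 100-180 lines. File Pool/Agent/H97/SXM/Cyc.lean

`K` contains the cube root of unity `ω`. For a Galois cubic extension `F = c.F` of `K` in `QBar` let `χ : Gal(QBar/K) → Multiplicative (ZMod 3)` be a surjective homomorphism with kernel `Gal(QBar/F)` (`Gal(F/K)` has order 3, so it is cyclic: `Gal(F/K) ≃* Multiplicative (ZMod 3)`; `χ` = restriction (`AlgEquiv.restrictNormalHom`) followed by this isomorphism);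
`χ ∈ Ch K` (`FT χ` = finite type, see `H63/MA` or `H48/KV` and the lemmas in `H38/MT`, e.g. how `Ch K`, `FT` are obtained for Kummer characters or for fields: the kernel contains an open subgroup and only finitely many primes ramify). `c` is determined by `χ`: `F` = fixed field of `ker χ` (`QBar/K` is Galois, `IntermediateField.fixedField_fixingSubgroup`). So `c ↦ χ_c` is injective.
CLAIM `cf Q ∅ χ ^ 2 ≤ c.D` (`Q : DP K QBar` any choice; `cf` = product of the norms of the primes `l` at which `χ` is ramified). Let `l` be such a prime, `P = Q.P l ⊓ 𝓞 F` the prime of `F` below: `χ` is not trivial on the inertia group of `Q.P l`, so the inertia group of `P` in `Gal(F/K)` (order 3) is everything, `e = 3`, `P³ = l 𝓞_F`; the different is divisible by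
`P^(e-1) = P²` (`pow_sub_one_dvd_differentIdeal` in Mathlib, or `H38/ML/DiffBound.lean`, `H38/ML/Disc.lean`: tools for `relDisc` and inertia), `N P = N l`. Different `l` give different `P`, so `∏ (N l)²` divides `relDisc K F` (or: `relDisc ≥ ∏ (N l)²`). [`relDisc K F` = absolute norm of the different, `H38/ML/Defs.lean`.]
So `{c : IsGalois, c.D ≤ R}` injects into `{χ ∈ Ch K : cf Q ∅ χ ≤ R^(1/2)}`, which is finite with at most `C R^(1/2) (1 + log R) ≤ C' R^(2/3)` elements (`H38.MT.mt_cnt`, `H38/MT/FN.lean`; a choice `Q : DP K QBar` exists: look for `Nonempty (DP K QBar)` or an existence lemma in `H63/MA`).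
-/

set_option autoImplicit false

open scoped NumberField Classical
open IsDedekindDomain NumberField H38.ML H63.MA H67.SX H77.MF

noncomputable section

namespace H97.SXM

private theorem cyc_card {K : IntermediateField ℚ QBar} [NumberField K] (c : Cb K) (h : IsGalois K c.F) :
    Nat.card Gal(c.F/K) = 3 := by
  rw [IsGalois.card_aut_eq_finrank, c.deg]

private theorem cyc_ch {K : IntermediateField ℚ QBar} [NumberField K] (c : Cb K) (h : IsGalois K c.F) :
    ∃ χ : Gal(QBar/K) →* Multiplicative (ZMod 3), Function.Surjective χ ∧ χ.ker = c.F.fixingSubgroup := by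
  have hgal : IsGalois K QBar := IsAlgClosure.isGalois K QBar
  have hp : Fact (Nat.Prime 3) := ⟨Nat.prime_three⟩
  have h3 : Nat.card (Multiplicative (ZMod 3)) = 3 := by
    rw [Nat.card_congr Multiplicative.toAdd, Nat.card_zmod]
  let e : Gal(c.F/K) ≃* Multiplicative (ZMod 3) := mulEquivOfPrimeCardEq (p := 3) (cyc_card c h) h3
  refine ⟨e.toMonoidHom.comp (AlgEquiv.restrictNormalHom c.F), ?_, ?_⟩
  · exact e.surjective.comp (AlgEquiv.restrictNormalHom_surjective QBar)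
  · rw [← IntermediateField.restrictNormalHom_ker c.F]
    ext σ
    rw [MonoidHom.mem_ker, MonoidHom.mem_ker]
    exact e.map_eq_one_iff

private theorem cyc_disc {K : IntermediateField ℚ QBar} [NumberField K] (c : Cb K) (h : IsGalois K c.F)
    (Q : DP K QBar) (χ : Gal(QBar/K) →* Multiplicative (ZMod 3)) (hχ : χ.ker = c.F.fixingSubgroup) :
    H38.MT.cf Q (H63.MA.finite_above (K := K) (p := 3) (by norm_num)).toFinset χ ^ 2 ≤ c.D := by
  obtain ⟨S, hS⟩ : ∃ S, S = (H63.MA.finite_above (K := K) (p := 3) (by norm_num)).toFinset := ⟨_, rfl⟩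
  rw [← hS]
  have hnf : NumberField c.F := NumberField.of_module_finite K c.F
  have h1 := H63.MA.disc_low (Ω := QBar) Nat.prime_three c.F (fun s => by
    rw [← cyc_card c h]
    exact pow_card_eq_one') (H38.MT.rf Q S χ) (fun v hv => by
      have h2 : v ∈ H48.KV.RC Q S χ := by
        unfold H38.MT.rf at hv
        split_ifs at hv with h3
        · exact h3.mem_toFinset.1 hv
        · exact absurd hv (Finset.notMem_empty v)
      obtain ⟨h3, σ, h4, h5⟩ := h2
      refine ⟨fun h6 => h3 ?_, Q.P v, σ, Q.prime v, Q.under v, h4, fun h6 => h5 ?_⟩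
      · rw [hS, Set.Finite.mem_toFinset]
        exact h6
      · rw [← hχ] at h6
        exact h6)
  have h2 : H38.ML.relDisc K c.F = Ideal.absNorm (differentIdeal (𝓞 K) (𝓞 c.F)) := by
    unfold H38.ML.relDisc
    rw [dif_pos hnf]
  rw [c.deg, Finset.prod_pow] at h1
  have h3 : (∏ v ∈ H38.MT.rf Q S χ, nm v) ^ 2 ≤ H38.ML.relDisc K c.F := by
    rw [h2]
    exact h1
  show (∏ v ∈ H38.MT.rf Q S χ, (nm v : ℝ)) ^ 2 ≤ ((H38.ML.relDisc K c.F : ℕ) : ℝ)
  exact_mod_cast h3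

theorem cyc_cnt (K : IntermediateField ℚ QBar) [NumberField K] {ω : K} (hω : IsPrimitiveRoot ω 3) :
    ∃ C : ℝ, 1 ≤ C ∧ ∀ R : ℝ, 1 ≤ R → {c : Cb K | IsGalois K c.F ∧ c.D ≤ R}.Finite ∧
      ({c : Cb K | IsGalois K c.F ∧ c.D ≤ R}.ncard : ℝ) ≤ C * R ^ (2 / 3 : ℝ) := by
  have hgal : IsGalois K QBar := IsAlgClosure.isGalois K QBar
  have hgl := fun v : Pl K => gloc_over K QBar v.asIdeal v.isPrime
  choose P hPp hPu using hgl
  let Q : DP K QBar := ⟨P, hPp, hPu⟩
  obtain ⟨S, hS⟩ : ∃ S, S = (H63.MA.finite_above (K := K) (p := 3) (by norm_num)).toFinset := ⟨_, rfl⟩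
  obtain ⟨C, hC, hcnt⟩ := H38.MT.mt_cnt hω Q S
  choose! f hf using fun c : Cb K => cyc_ch c
  refine ⟨4 * C + 1, by linarith, fun R hR => ?_⟩
  have hR0 : 0 < R := by linarith
  have hX : (1 : ℝ) ≤ R ^ (1 / 2 : ℝ) := Real.one_le_rpow hR (by norm_num)
  obtain ⟨h1, h2⟩ := hcnt (R ^ (1 / 2 : ℝ)) hX
  have hmaps : ∀ c ∈ {c : Cb K | IsGalois K c.F ∧ c.D ≤ R},
      f c ∈ {χ | χ ∈ H38.MT.Ch K ∧ H38.MT.cf Q S χ ≤ R ^ (1 / 2 : ℝ)} := by
    rintro c ⟨hg, hD⟩
    obtain ⟨h3, h4⟩ := hf c hg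
    refine ⟨⟨⟨c.F, inferInstance, le_of_eq h4.symm⟩, h3⟩, ?_⟩
    have h5 := (cyc_disc c hg Q (f c) h4).trans hD
    rw [← hS] at h5
    rw [← Real.sqrt_eq_rpow]
    exact Real.le_sqrt_of_sq_le h5
  have hinj : Set.InjOn f {c : Cb K | IsGalois K c.F ∧ c.D ≤ R} := by
    rintro c ⟨hg, -⟩ c' ⟨hg', -⟩ he
    have h3 := (hf c hg).2
    have h4 := (hf c' hg').2
    rw [he, h4] at h3
    have h5 : c.F = c'.F := by
      rw [← InfiniteGalois.fixedField_fixingSubgroup c.F, ← h3, InfiniteGalois.fixedField_fixingSubgroup]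
    obtain ⟨F, hF⟩ := c
    obtain ⟨F', hF'⟩ := c'
    have h6 : F = F' := h5
    subst h6
    rfl
  refine ⟨Set.Finite.of_injOn (t := {χ | χ ∈ H38.MT.Ch K ∧ H38.MT.cf Q S χ ≤ R ^ (1 / 2 : ℝ)}) hmaps hinj h1, ?_⟩
  have h3 := Set.ncard_le_ncard_of_injOn f hmaps hinj h1
  have h4 : ({c : Cb K | IsGalois K c.F ∧ c.D ≤ R}.ncard : ℝ) ≤
      C * R ^ (1 / 2 : ℝ) * (1 + Real.log (R ^ (1 / 2 : ℝ))) := le_trans (by exact_mod_cast h3) h2
  refine h4.trans ?_
  have h5 : Real.log R ≤ R ^ (1 / 6 : ℝ) / (1 / 6) := Real.log_le_rpow_div hR0.le (by norm_num)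
  have h6 : (1 : ℝ) ≤ R ^ (1 / 6 : ℝ) := Real.one_le_rpow hR (by norm_num)
  have h7 : R ^ (2 / 3 : ℝ) = R ^ (1 / 2 : ℝ) * R ^ (1 / 6 : ℝ) := by
    rw [← Real.rpow_add hR0]
    norm_num
  rw [Real.log_rpow hR0, h7]
  have h8 : 1 + 1 / 2 * Real.log R ≤ 4 * R ^ (1 / 6 : ℝ) := by linarith
  have h9 : 0 ≤ C * R ^ (1 / 2 : ℝ) := by positivity
  have h10 : 0 ≤ R ^ (1 / 2 : ℝ) * R ^ (1 / 6 : ℝ) := by positivity
  calc C * R ^ (1 / 2 : ℝ) * (1 + 1 / 2 * Real.log R) ≤ C * R ^ (1 / 2 : ℝ) * (4 * R ^ (1 / 6 : ℝ)) :=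
        mul_le_mul_of_nonneg_left h8 h9
    _ = 4 * C * (R ^ (1 / 2 : ℝ) * R ^ (1 / 6 : ℝ)) := by ring
    _ ≤ (4 * C + 1) * (R ^ (1 / 2 : ℝ) * R ^ (1 / 6 : ℝ)) := by
        rw [add_mul, one_mul]
        linarith

end H97.SXM
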