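import Pool.Agent.H77.MF.Exp

/-!
# SXM (MP_b39724_nt, SX chapter M-A, the large ball): definitions (complete)

`K` totally complex, `d = [K : ℚ]`. Forms, lattices, frames: `Pool/Agent/H77/MF/Defs.lean`.
* `En K n = InfinitePlace K → Fin n → ℂ` (real dimension `n d`), `emb` the embedding of `K^n`, `cv K n` the covolume of `𝓞^n`.
* `D1 T x` (one place, `x : Fin 4 → ℂ`): `|A| ≤ T²`, `|C| ≤ T²`, `|a² disc| ≤ T⁶`, `|d² disc| ≤ T⁶`. `Dg K T R₁ R₂`: `D1` at all places and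
  `R₁ < ∏ |disc|² ≤ R₂`. `vD K R₁ R₂` the volume of `Dg K 1 R₁ R₂`.
* `V1 T f v`: `|hes f v| ≤ T²`, `|f(v)² disc f| ≤ T⁶` (one place): the same conditions for the vector `v₀ w₀ + v₁ w₁` of the
  lattice of the field. `Vg K f T`: at all places.
* `nd f = |N disc f|`. `Red κ T₁ T₂ f`: `f` is the form of a reduced frame with the successive minima `T₁ ≤ T₂`.
* `pre w M = {v | v₀ w₀ + v₁ w₁ ∈ M}`. `KO c = K + 𝓞_F`. `Od K`: orders `R` of cubic fields in the form `M = K + R`. `o.D = |N disc R|`.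
* `LQ Q`: the lattices `Λ ⊇ 𝓞²` with `Λ = 𝓞²` locally at the primes of `Q`. `dl Λ` the density of the lattice `VL Λ`; `dn l Λ` the density of
  `NM l Λ` in it; `kp Q Λ = ∏_{l ∉ Q} (1 - dn l Λ)`; `GQ Q z₁ z₂ = ∑_{Λ ∈ LQ Q} dl Λ kp Q Λ vD (ix² z₁) (ix² z₂)`.
* `NP Λ f Q T`: the pairs of vectors of `Λ` in the ball `T` (with respect to the form `f`) which generate `Λ` at `Q`. `cF K` the constant of the field side.
* `Fs T R₁ R₂ Λ`: the forms which are maximal on `Λ`, in the ball `T`. `FT Q T R₁ R₂`: their union over `Λ ∈ LQ Q`. `o.Nmx l`: not maximal at `l`.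
-/

set_option autoImplicit false

open scoped NumberField Classical
open IsDedekindDomain NumberField MeasureTheory H38.ML H63.MA H67.SX H77.MF

noncomputable section

namespace H97.SXM

section an

/-- the space of the vectors `(K ⊗ ℝ)^n`, `K` totally complex -/
abbrev En (K : Type) [Field K] [NumberField K] (n : ℕ) : Type := InfinitePlace K → Fin n → ℂ

variable {K : Type} [Field K] [NumberField K]

/-- the embedding of `K^n` -/
def emb {n : ℕ} (x : Fin n → K) : En K n := fun w i => w.embedding (x i)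

/-- the covolume of `𝓞^n` -/
def cv (K : Type) [Field K] [NumberField K] (n : ℕ) : ℝ :=
  (Real.sqrt |(discr K : ℝ)| / 2 ^ Fintype.card (InfinitePlace K)) ^ n

/-- the conditions at one place -/
def D1 (T : ℝ) (x : Fin 4 → ℂ) : Prop :=
  ‖hA x‖ ≤ T ^ 2 ∧ ‖hC x‖ ≤ T ^ 2 ∧ ‖x 0 ^ 2 * disc x‖ ≤ T ^ 6 ∧ ‖x 3 ^ 2 * disc x‖ ≤ T ^ 6

/-- the region of the forms -/
def Dg (K : Type) [Field K] [NumberField K] (T R₁ R₂ : ℝ) : Set (En K 4) :=
  {x | (∀ w, D1 T (x w)) ∧ R₁ < ∏ w, ‖disc (x w)‖ ^ 2 ∧ ∏ w, ‖disc (x w)‖ ^ 2 ≤ R₂}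

/-- the volume -/
def vD (K : Type) [Field K] [NumberField K] (R₁ R₂ : ℝ) : ℝ := (volume (Dg K 1 R₁ R₂)).toReal

/-- the conditions for one vector at one place -/
def V1 (T : ℝ) (f : Fin 4 → ℂ) (v : Fin 2 → ℂ) : Prop :=
  ‖hes f v‖ ≤ T ^ 2 ∧ ‖ev f v ^ 2 * disc f‖ ≤ T ^ 6

/-- the region of the vectors -/
def Vg (K : Type) [Field K] [NumberField K] (f : Fin 4 → K) (T : ℝ) : Set (En K 2) :=
  {v | ∀ w, V1 T (emb f w) (v w)}

/-- the absolute norm of the discriminant of the form -/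
def nd (f : Fin 4 → K) : ℝ := |((Algebra.norm ℚ (disc f) : ℚ) : ℝ)|

/-- the form of a reduced frame -/
structure Red (κ T₁ T₂ : ℝ) (f : Fin 4 → K) : Prop where
  one : 1 ≤ T₁
  le : T₁ ≤ T₂
  s0 : ∀ σ : K →+* ℂ, ‖σ (f 0)‖ ≤ κ * (T₁ ^ 2 / T₂)
  s1 : ∀ σ : K →+* ℂ, ‖σ (f 1)‖ ≤ κ * T₁
  s2 : ∀ σ : K →+* ℂ, ‖σ (f 2)‖ ≤ κ * T₂
  s3 : ∀ σ : K →+* ℂ, ‖σ (f 3)‖ ≤ κ * (T₂ ^ 2 / T₁)
  lo : ∀ σ : K →+* ℂ, (T₁ * T₂) ^ 2 ≤ κ * ‖σ (disc f)‖
  hi : ∀ σ : K →+* ℂ, ‖σ (disc f)‖ ≤ κ * (T₁ * T₂) ^ 2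

/-- `n 𝓞^m` -/
def nO (K : Type) [Field K] [NumberField K] (n m : ℕ) : Submodule (𝓞 K) (Fin m → K) :=
  Ideal.span {(n : 𝓞 K)} • OO K m

/-- the density of the lattice of the forms -/
def dl (Λ : Submodule (𝓞 K) (Fin 2 → K)) : ℝ :=
  ((nO K (ix Λ ^ 3) 4).toAddSubgroup.relIndex (VL Λ).toAddSubgroup : ℝ) /
    (((ix Λ : ℝ) ^ 3) ^ (4 * Module.finrank ℚ K) * cv K 4)

/-- the density of the forms which are not maximal at `l` -/
def dn (l : Pl K) (Λ : Submodule (𝓞 K) (Fin 2 → K)) : ℝ :=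
  mean (VL Λ) (l.asIdeal ^ 3) (fun f => if f ∈ NM l Λ then 1 else 0)

/-- the density of the forms which are maximal outside `Q` -/
def kp (Q : Finset (Pl K)) (Λ : Submodule (𝓞 K) (Fin 2 → K)) : ℝ :=
  ⨅ B : Finset (Pl K), ∏ l ∈ B \ Q, (1 - dn l Λ)

/-- the lattices which are trivial at `Q` -/
def LQ (Q : Finset (Pl K)) : Set (Submodule (𝓞 K) (Fin 2 → K)) :=
  {Λ | Lt Λ ∧ OO K 2 ≤ Λ ∧ ∀ l ∈ Q, LocEq l Λ (OO K 2)}

/-- the main term of the form side -/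
def GQ (Q : Finset (Pl K)) (z₁ z₂ : ℝ) : ℝ :=
  ∑ᶠ Λ ∈ LQ Q, dl Λ * kp Q Λ * vD K ((ix Λ : ℝ) ^ 2 * z₁) ((ix Λ : ℝ) ^ 2 * z₂)

/-- the forms which are maximal on `Λ` -/
def Fs (T R₁ R₂ : ℝ) (Λ : Submodule (𝓞 K) (Fin 2 → K)) : Set (Fin 4 → K) :=
  {f | f ∈ VL Λ ∧ emb f ∈ Dg K T (R₁ * (ix Λ : ℝ) ^ 2) (R₂ * (ix Λ : ℝ) ^ 2) ∧
    (∀ v : Fin 2 → K, v ≠ 0 → ev f v ≠ 0) ∧ ∀ l : Pl K, f ∉ NM l Λ}

/-- the forms on `Λ` which are not maximal at a large prime outside `Q` -/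
def Ft (Q : Finset (Pl K)) (z T R₁ R₂ : ℝ) (Λ : Submodule (𝓞 K) (Fin 2 → K)) :
    Set (Fin 4 → K) :=
  {f | f ∈ VL Λ ∧ emb f ∈ Dg K T (R₁ * (ix Λ : ℝ) ^ 2) (R₂ * (ix Λ : ℝ) ^ 2) ∧
    (∀ v : Fin 2 → K, v ≠ 0 → ev f v ≠ 0) ∧ ∃ l : Pl K, l ∉ Q ∧ z < nm l ∧ f ∈ NM l Λ}

/-- the pairs of vectors of `Λ` in the ball `T` which generate `Λ` at `Q` -/
def NP (Λ : Submodule (𝓞 K) (Fin 2 → K)) (f : Fin 4 → K) (Q : Finset (Pl K)) (T : ℝ) :
    Set ((Fin 2 → K) × (Fin 2 → K)) :=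
  {x | x.1 ∈ Λ ∧ x.2 ∈ Λ ∧ dt x.1 x.2 ≠ 0 ∧ emb x.1 ∈ Vg K f T ∧ emb x.2 ∈ Vg K f T ∧
    ∀ l ∈ Q, Gn l Λ x.1 x.2}

/-- the volume of the standard region of the vectors -/
def cV : ℝ := (volume {v : Fin 2 → ℂ | ‖v 0 ^ 2 + v 0 * v 1 + v 1 ^ 2‖ ≤ 1 ∧
  ‖v 0 * v 1 * (v 0 + v 1)‖ ≤ 1}).toReal

/-- the constant of the field side -/
def cF (K : Type) [Field K] [NumberField K] : ℝ :=
  (cV ^ Fintype.card (InfinitePlace K) / cv K 2) ^ 2

/-- `π_Q = ∏ (1 - 1/N l) (1 - 1/(N l)²)`: the density of the pairs which generate at `Q` -/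
def piQ (Q : Finset (Pl K)) : ℝ := ∏ l ∈ Q, ((1 - 1 / (nm l : ℝ)) * (1 - 1 / (nm l : ℝ) ^ 2))

/-- the norm of a finite set of primes -/
def nQ (Q : Finset (Pl K)) : ℝ := ∏ l ∈ Q, (nm l : ℝ)

end an

section fr

variable {K F : Type} [Field K] [NumberField K] [Field F] [Algebra K F]

/-- the inverse image of a module under the frame -/
def pre (w : Fin 2 → F) (M : Submodule (𝓞 K) F) : Submodule (𝓞 K) (Fin 2 → K) where
  carrier := {v | lin w v ∈ M}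
  add_mem' := by
    intro v v' hv hv'
    have h : lin w (v + v') = lin w v + lin w v' := by
      simp only [lin, Pi.add_apply, map_add]
      ring
    change lin w (v + v') ∈ M
    rw [h]
    exact M.add_mem hv hv'
  zero_mem' := by
    change lin w (0 : Fin 2 → K) ∈ M
    have h : lin w (0 : Fin 2 → K) = 0 := by simp [lin]
    rw [h]
    exact M.zero_mem
  smul_mem' := by
    intro r v hv
    have h : lin w (r • v) = r • lin w v := by
      have h1 : ∀ i, (r • v) i = (r : K) * v i := fun i => by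
        rw [Pi.smul_apply, Algebra.smul_def]
      have h2 : r • lin w v = algebraMap K F (r : K) * lin w v := by
        rw [Algebra.smul_def]
        rfl
      rw [h2]
      simp only [lin, h1, map_mul]
      ring
    change lin w (r • v) ∈ M
    rw [h]
    exact M.smul_mem r hv

end fr

variable {K : IntermediateField ℚ QBar} [NumberField K]

/-- `K + 𝓞_F` -/
def KO (c : Cb K) : Submodule (𝓞 K) c.F where
  carrier := {x | ∃ k : K, IsIntegral ℤ (algebraMap K c.F k + x)}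
  add_mem' := by
    rintro x y ⟨k, hk⟩ ⟨l, hl⟩
    refine ⟨k + l, ?_⟩
    have h : algebraMap K c.F (k + l) + (x + y) = (algebraMap K c.F k + x) + (algebraMap K c.F l + y) := by
      rw [map_add]
      ring
    rw [h]
    exact hk.add hl
  zero_mem' := ⟨0, by rw [map_zero, zero_add]; exact isIntegral_zero⟩
  smul_mem' := by
    rintro r x ⟨k, hk⟩
    refine ⟨(r : K) * k, ?_⟩
    have h : algebraMap K c.F ((r : K) * k) + r • x =
        algebraMap K c.F (r : K) * (algebraMap K c.F k + x) := by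
      have h2 : r • x = algebraMap K c.F (r : K) * x := by
        rw [Algebra.smul_def]
        rfl
      rw [h2, map_mul]
      ring
    have h3 : IsIntegral ℤ (algebraMap K c.F ((r : K) * k) + r • x) := by
      rw [h]
      exact (NumberField.RingOfIntegers.isIntegral_coe r).map (algebraMap K c.F).toIntAlgHom |>.mul hk
    exact h3

/-- an order `R` of a cubic field, in the form `M = K + R` -/
structure Od (K : IntermediateField ℚ QBar) [NumberField K] where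
  c : Cb K
  M : Submodule (𝓞 K) c.F
  hK : ∀ k : K, algebraMap K c.F k ∈ M
  hO : ∃ (f : Fin 4 → K) (w : Fin 2 → c.F), Lv f w ∧ Lt (pre w M) ∧ f ∈ VL (pre w M)

/-- the absolute norm of the discriminant of the order -/
def Od.D (o : Od K) : ℝ := o.c.D * ((o.M.toAddSubgroup.relIndex (KO o.c).toAddSubgroup : ℕ) : ℝ) ^ 2

/-- a reduced frame of the order -/
structure RF (κ T₁ T₂ : ℝ) (o : Od K) (f : Fin 4 → K) (w : Fin 2 → o.c.F) : Prop where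
  lv : Lv f w
  mem : ∀ i, w i ∈ o.M
  ix : (ix (pre w o.M) : ℝ) ≤ κ
  red : Red κ T₁ T₂ f

/-- the order is not maximal at `l` -/
def Od.Nmx (o : Od K) (l : Pl K) : Prop :=
  ∃ (f : Fin 4 → K) (w : Fin 2 → o.c.F), Lv f w ∧ f ∈ NM l (pre w o.M)

/-- the forms in the ball `T` whose field has the discriminant in `(R₁, R₂]` and whose frame generates the lattice of the field at `Q` -/
def FT (Q : Finset (Pl K)) (T R₁ R₂ : ℝ) : Set (Fin 4 → K) :=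
  {f | NZ f ∧ (∀ p, D1 T (emb f p)) ∧ Lmx f ∈ LQ Q ∧ R₁ * (ix (Lmx f) : ℝ) ^ 2 < nd f ∧
    nd f ≤ R₂ * (ix (Lmx f) : ℝ) ^ 2}

/-- `K + ⟨Λ⟩`: the module of a lattice in a frame -/
def mM {K F : Type} [Field K] [NumberField K] [Field F] [Algebra K F] (w : Fin 2 → F)
    (Λ : Submodule (𝓞 K) (Fin 2 → K)) : Set F :=
  {x | ∃ k : K, ∃ v ∈ Λ, x = algebraMap K F k + lin w v}

/-- every order has a reduced frame (helper88) -/
def RFS (K : IntermediateField ℚ QBar) [NumberField K] (κ : ℝ) : Prop :=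
  ∀ o : Od K, ∃ (T₁ T₂ : ℝ) (f : Fin 4 → K) (w : Fin 2 → o.c.F), RF κ T₁ T₂ o f w

/-- the number of orders (helper88) -/
def OCS (K : IntermediateField ℚ QBar) [NumberField K] (κ : ℝ) : Prop :=
  ∃ C : ℝ, 1 ≤ C ∧ ∀ Y Z : ℝ, 1 ≤ Y → 1 ≤ Z → {o : Od K | o.D ≤ Y}.Finite ∧
    ∀ O : Finset (Od K), (∀ o ∈ O, o.D ≤ Y ∧ ∃ (T₁ T₂ : ℝ) (f : Fin 4 → K) (w : Fin 2 → o.c.F),
      RF κ T₁ T₂ o f w ∧ Z * T₁ ≤ T₂) → (O.card : ℝ) ≤ C * Y / Z ^ Module.finrank ℚ K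

end H97.SXM
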