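import Pool.Agent.H97.SXM.Defs

/-!
# SXM: weights (definition, complete)

`Wt Q J H g m`: `g` is a weight on the cubic fields, `H` the corresponding weight on the forms, periodic modulo `J`, with mean `m`. `BB g R₁ R₂ = ∑_{R₁ < D ≤ R₂} g(c) / D(c)`.
-/

set_option autoImplicit false

open scoped NumberField Classical
open IsDedekindDomain NumberField H38.ML H63.MA H67.SX H77.MF

noncomputable section

namespace H97.SXM

variable {K : IntermediateField ℚ QBar} [NumberField K]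

/-- a weight on the cubic fields and the corresponding periodic weight on the forms -/
structure Wt (Q : Finset (Pl K)) (J : Ideal (𝓞 K)) (H : (Fin 4 → K) → ℝ) (g : Cb K → ℝ)
    (m : ℝ) : Prop where
  ne : J ≠ ⊥
  sub : ∀ l : Pl K, J ≤ l.asIdeal → l ∈ Q
  per : ∀ Λ ∈ LQ Q, Per (VL Λ) J H
  bd : ∀ f, |H f| ≤ 1
  zero : ∀ Λ ∈ LQ Q, ∀ l ∈ Q, ∀ f ∈ NM l Λ, H f = 0
  mn : ∀ Λ ∈ LQ Q, mean (VL Λ) J H = m
  inv : ∀ c c' : Cb K, Nonempty (c.F ≃ₐ[K] c'.F) → g c = g c'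
  gbd : ∀ c, |g c| ≤ 1
  gal : ∀ c : Cb K, IsGalois K c.F → g c = 0
  eq : ∀ (f : Fin 4 → K) (x : Fr K), Lv f x.2 → ¬ IsGalois K x.1.F → Lmx f ∈ LQ Q → H f = g x.1

/-- the sum over a window -/
def BB (g : Cb K → ℝ) (R₁ R₂ : ℝ) : ℝ := ∑ᶠ c ∈ {c : Cb K | R₁ < c.D ∧ c.D ≤ R₂}, g c / c.D

end H97.SXM
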