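import Pool.Agent.H97.SXM.FmS

/-!
# [SXM FLD] The field side, 200-320 lines. File Pool/Agent/H97/SXM/Fld.lean

`d = [K : ℚ]`, `D = c.D`. For every `c : Cb K` choose (`RFS` for `om c`) the reduced frame `(fb c, wb c)` with the minima `T₁ c ≤ T₂ c`: `RF κ T₁ T₂ (om c) (fb c) (wb c)`, `pre (wb c) (om c).M = LF (wb c) =: Λ c` (`om_pre`), `𝓞² ≤ Λ c`, `nd (fb c) = c.D ix(Λ c)²` (`od_disc`, `om_D`), `ix (Λ c) ≤ κ`, `Lt (Λ c)` (`lf_lt`).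
(1) `dc`: THE DOUBLE COUNT. Let `F = (ft_fin ..).toFinset` (all `f ∈ F` are `NZ`; `𝓞² ≤ Lmx f` because `Lmx f ∈ LQ Q`, so the filter in `dcount` is everything). `dcount` with `fb, wb`, `T := F`: `3 ∑_{f ∈ F} (frf f).elim 0 (g ∘ fst) = ∑ᶠ_{x ∈ X} g x.1`, `X` finite, `X = {(c, v, v') : v, v' ∈ Λ c, dt ≠ 0, f := dt⁻¹ • pull (fb c) v v' ∈ F}`. CLAIM
`X = {(c, v, v') : R₁ < c.D ≤ R₂, (v, v') ∈ NP (Λ c) (fb c) Q T}`. Proof: `lv_pull` gives `u` with `Lv f u`, `u i = lin w v_i + k i`; `NZ f` by `lv_ev`; `Lmx f = LF u` (`lmx_eq`), `Lt (LF u)` (`lf_lt`); `𝓞² ≤ LF u` always (`lf_change` for the two basis vectors: `cb v v' e_0 = v ∈ Λ c`); so `Lmx f ∈ LQ Q ↔ ∀ l ∈ Q, LocEq l (LF u) 𝓞² ↔ ∀ l ∈ Q, Gn l (Λ c) v v'`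
(`gn_iff`); `nd f = c.D ix(LF u)²` (`disc_ix`, `ix ≥ 1` by `ix_pos`), so the two conditions on `nd f` say `R₁ < c.D ≤ R₂`; `D1` at all places iff `emb v, emb v' ∈ Vg K (fb c) T` (`d1_iff`).
So `3 ∑_F .. = ∑_{c : R₁ < c.D ≤ R₂} g c · #NP (Λ c) (fb c) Q T` (`{c : c.D ≤ R₂}` is finite: `om` is injective into `{o : o.D ≤ R₂}`, `od_all`; `NP` is finite: `NP .. Q .. ⊆ NP .. ∅ ..`, `pair_up`).
(2) `fld_up`: `#NP Q ≤ #NP ∅ ≤ C T^(4d) ix²/nd = C T^(4d) / c.D` (`pair_up`).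
(3) `fld_side`: `y = T^(4d)/R₂ ≥ 1`, `N = nQ Q ≥ 1`. GOOD `c`: `T₂ ≤ T y^(-1/(8d)) / N`: `N T₂ ≤ T`, `pair_cnt`: `|#NP - π_Q cF T^(4d)/c.D| ≤ C y^(-1/(8d)) T^(4d)/c.D`. Sum over the `≤ C R₂` fields (`od_all`) with `c.D > R₁ ≥ R₂/2`: `≤ C y^(-1/(8d)) T^(4d)`.
BAD `c`: `T₂ > T y^(-1/(8d)) / N`. `(T₁T₂)² ≤ κ ‖σ(disc)‖` for all `σ`, product over the `d` embeddings (`nd f = ∏_σ ‖σ (disc f)‖`; or with `nd_eq`: square over the `d/2` places): `(T₁T₂)^(2d) ≤ κ^d nd (fb c) ≤ κ^(d+2) R₂`. `T^(4d) = y R₂`. So `T₂/T₁ = T₂²/(T₁T₂) ≥ T² y^(-1/(4d)) N⁻² / (κ^((d+2)/(2d)) R₂^(1/(2d))) =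
y^(1/(2d)) y^(-1/(4d)) N⁻² / C = y^(1/(4d)) / (C N²) =: Z₀` (`T² = (T^(4d))^(1/(2d)) = (y R₂)^(1/(2d))`). The number of the bad `c` is `≤ C R₂ / Z₀^d = C R₂ N^(2d) y^(-1/4)` (`OCS` with `Z = Z₀` if `Z₀ ≥ 1`; if `Z₀ < 1` the trivial bound `C R₂` is enough). For a bad `c` both `#NP` and the main term are `≤ C T^(4d)/c.D ≤ 2C T^(4d)/R₂`
(`0 ≤ piQ ≤ 1`, `0 < cF`). Total error of the bad fields: `≤ C N^(2d) y^(-1/4) T^(4d)`. So `A = 2d`, `η = min (1/(8d)) (1/4)`.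
-/

set_option autoImplicit false

open scoped NumberField Classical
open IsDedekindDomain NumberField H38.ML H63.MA H67.SX H77.MF

noncomputable section

namespace H97.SXM

private theorem fld_inj {K : IntermediateField ℚ QBar} [NumberField K] :
    Function.Injective (om : Cb K → Od K) := fun _ _ h => congrArg Od.c h

theorem cb_fin (K : IntermediateField ℚ QBar) [NumberField K] {κ : ℝ} (hR : RFS K κ)
    (hO : OCS K κ) : ∃ C : ℝ, 1 ≤ C ∧ ∀ R : ℝ, 1 ≤ R → {c : Cb K | c.D ≤ R}.Finite ∧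
    ({c : Cb K | c.D ≤ R}.ncard : ℝ) ≤ C * R := by
  obtain ⟨C, hC, h⟩ := od_all K hR hO
  refine ⟨C, hC, fun R hR1 => ?_⟩
  obtain ⟨h1, h2⟩ := h R hR1
  have hm : ∀ c ∈ {c : Cb K | c.D ≤ R}, om c ∈ {o : Od K | o.D ≤ R} := by
    intro c hc
    show (om c).D ≤ R
    rw [om_D]
    exact hc
  refine ⟨Set.Finite.of_finite_image (h1.subset (Set.image_subset_iff.2 hm)) fld_inj.injOn, ?_⟩
  refine le_trans ?_ h2
  exact_mod_cast Set.ncard_le_ncard_of_injOn om hm fld_inj.injOn h1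

/-- the data of one field -/
private theorem fld_one {K : IntermediateField ℚ QBar} [NumberField K] {κ T₁ T₂ : ℝ} (c : Cb K)
    {f : Fin 4 → K} {w : Fin 2 → c.F} (h : RF κ T₁ T₂ (om c) f w) :
    Lt (LF (K := K) w) ∧ OO K 2 ≤ LF w ∧ (ix (LF (K := K) w) : ℝ) ≤ κ ∧ 1 ≤ (ix (LF (K := K) w) : ℝ) ∧
      nd f = c.D * (ix (LF (K := K) w) : ℝ) ^ 2 ∧ 1 ≤ c.D := by
  have hp := om_pre c w
  have h1 : Lt (pre w (om c).M) ∧ f ∈ VL (pre w (om c).M) := od_any (om c) h.lv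
  have h2 : OO K 2 ≤ pre w (om c).M ∧ nd f = (om c).D * (ix (pre w (om c).M) : ℝ) ^ 2 :=
    od_disc (om c) h.lv h.mem
  have h3 : (ix (pre w (om c).M) : ℝ) ≤ κ := h.ix
  have h4 := od_one (om c)
  rw [hp] at h1 h2 h3
  rw [om_D] at h2
  refine ⟨h1.1, h2.1, h3, ?_, h2.2, h4.1⟩
  exact_mod_cast ix_pos h1.1 h2.1

private theorem fld_x {K : IntermediateField ℚ QBar} [NumberField K] {κ T₁ T₂ : ℝ} (c : Cb K)
    {f : Fin 4 → K} {w : Fin 2 → c.F} (h : RF κ T₁ T₂ (om c) f w) (X : ℝ) :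
    X * (ix (LF (K := K) w) : ℝ) ^ 2 / nd f = X / c.D := by
  obtain ⟨-, -, -, h4, h5, h6⟩ := fld_one c h
  have h7 : (ix (LF (K := K) w) : ℝ) ^ 2 ≠ 0 := by positivity
  rw [h5, mul_div_mul_right _ _ h7]

private theorem fld_oo {K : IntermediateField ℚ QBar} [NumberField K] (c : Cb K)
    {w u : Fin 2 → c.F} {v v' k : Fin 2 → K} (hv : v ∈ LF (K := K) w) (hv' : v' ∈ LF (K := K) w)
    (h₀ : u 0 = lin w v + algebraMap K c.F (k 0)) (h₁ : u 1 = lin w v' + algebraMap K c.F (k 1)) :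
    OO K 2 ≤ LF u := by
  intro x hx
  rw [lf_change h₀ h₁ x]
  obtain ⟨a, ha⟩ := hx 0
  obtain ⟨b, hb⟩ := hx 1
  have h1 : cb v v' x = a • v + b • v' := by
    funext i
    simp only [cb, Pi.add_apply, Pi.smul_apply, Algebra.smul_def, ← ha, ← hb]
  rw [h1]
  exact (LF w).add_mem ((LF w).smul_mem _ hv) ((LF w).smul_mem _ hv')

/-- the claim -/
private theorem fld_claim {K : IntermediateField ℚ QBar} [NumberField K] [IsTotallyComplex K] (c : Cb K)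
    {κ T₁ T₂ : ℝ} {f : Fin 4 → K} {w : Fin 2 → c.F} (h : RF κ T₁ T₂ (om c) f w) {Q : Finset (Pl K)}
    {T R₁ R₂ : ℝ} {v v' : Fin 2 → K} :
    (v ∈ LF (K := K) w ∧ v' ∈ LF (K := K) w ∧ dt v v' ≠ 0 ∧ (dt v v')⁻¹ • pull f v v' ∈ FT Q T R₁ R₂) ↔
      (R₁ < c.D ∧ c.D ≤ R₂) ∧ (v, v') ∈ NP (LF w) f Q T := by
  constructor
  · rintro ⟨hv, hv', hd, hF⟩
    obtain ⟨u, hu, k, h₀, h₁⟩ := lv_pull c.deg h.lv hd
    obtain ⟨-, hD, hL, hR1, hR2⟩ := hF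
    rw [lmx_eq hu] at hL hR1 hR2
    have hix : 1 ≤ (ix (LF (K := K) u) : ℝ) := by exact_mod_cast ix_pos hL.1 hL.2.1
    have hix2 : 0 < (ix (LF (K := K) u) : ℝ) ^ 2 := by positivity
    have hnd : nd ((dt v v')⁻¹ • pull f v v') = c.D * (ix (LF (K := K) u) : ℝ) ^ 2 := (disc_ix c hu hL.2.1).symm
    rw [hnd] at hR1 hR2
    refine ⟨⟨lt_of_mul_lt_mul_right hR1 hix2.le, le_of_mul_le_mul_right hR2 hix2⟩, hv, hv', hd, ?_, ?_, ?_⟩
    · exact fun p => ((d1_iff hd rfl T p).1 (hD p)).1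
    · exact fun p => ((d1_iff hd rfl T p).1 (hD p)).2
    · exact fun l hl => (gn_iff hd h₀ h₁ l).2 ⟨hL.2.1, hL.2.2 l hl⟩
  · rintro ⟨⟨hR1, hR2⟩, hv, hv', hd, hV, hV', hG⟩
    have hd : dt v v' ≠ 0 := hd
    obtain ⟨u, hu, k, h₀, h₁⟩ := lv_pull c.deg h.lv hd
    have hoo := fld_oo c hv hv' h₀ h₁
    have hlt := lf_lt c.deg hu
    have hix : 1 ≤ (ix (LF (K := K) u) : ℝ) := by exact_mod_cast ix_pos hlt hoo
    have hix2 : 0 < (ix (LF (K := K) u) : ℝ) ^ 2 := by positivity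
    have hnd : nd ((dt v v')⁻¹ • pull f v v') = c.D * (ix (LF (K := K) u) : ℝ) ^ 2 := (disc_ix c hu hoo).symm
    refine ⟨hv, hv', hd, fun x hx => lv_ev c.deg hu hx, fun p => (d1_iff hd rfl T p).2 ⟨hV p, hV' p⟩, ?_, ?_, ?_⟩
    · rw [lmx_eq hu]
      exact ⟨hlt, hoo, fun l hl => ((gn_iff hd h₀ h₁ l).1 (hG l hl)).2⟩
    · rw [lmx_eq hu, hnd]
      exact mul_lt_mul_of_pos_right hR1 hix2
    · rw [lmx_eq hu, hnd]
      exact mul_le_mul_of_nonneg_right hR2 hix2.le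

theorem dc (K : IntermediateField ℚ QBar) [NumberField K] [IsTotallyComplex K] {κ : ℝ}
    (hκ : 1 ≤ κ) (hR : RFS K κ) (hO : OCS K κ) {wb : (c : Cb K) → Fin 2 → c.F}
    {fb : Cb K → Fin 4 → K} {T₁ T₂ : Cb K → ℝ}
    (hb : ∀ c, RF κ (T₁ c) (T₂ c) (om c) (fb c) (wb c)) {Q : Finset (Pl K)} {g : Cb K → ℝ}
    (hg : ∀ c c' : Cb K, Nonempty (c.F ≃ₐ[K] c'.F) → g c = g c') {T R₁ R₂ : ℝ} (hT : 1 ≤ T)
    (h0 : 0 < R₁) (h12 : R₁ ≤ R₂) :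
    3 * (∑ᶠ f ∈ FT Q T R₁ R₂, (frf f).elim 0 (fun x => g x.1)) =
      ∑ᶠ c ∈ {c : Cb K | R₁ < c.D ∧ c.D ≤ R₂},
        g c * ((NP (LF (wb c)) (fb c) Q T).ncard : ℝ) := by
  have hF := ft_fin K (Q := Q) hT h0 h12
  have hmF : ∀ f, f ∈ hF.toFinset ↔ f ∈ FT Q T R₁ R₂ := fun f => hF.mem_toFinset
  obtain ⟨hXf, hXs⟩ := dcount hg (fun c => (hb c).lv) (T := hF.toFinset)
    (fun f hf => ((hmF f).1 hf).1)
  have hfil : hF.toFinset.filter (fun f => OO K 2 ≤ Lmx f) = hF.toFinset :=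
    Finset.filter_true_of_mem fun f hf => ((hmF f).1 hf).2.2.1.2.1
  rw [hfil] at hXs
  rw [finsum_mem_eq_finite_toFinset_sum _ hF, ← hXs]
  obtain ⟨X, hX⟩ : ∃ X, X = {x : Cb K × (Fin 2 → K) × (Fin 2 → K) | x.2.1 ∈ LF (wb x.1) ∧ x.2.2 ∈ LF (wb x.1) ∧
      dt x.2.1 x.2.2 ≠ 0 ∧ (dt x.2.1 x.2.2)⁻¹ • pull (fb x.1) x.2.1 x.2.2 ∈ hF.toFinset} := ⟨_, rfl⟩
  rw [← hX] at hXf ⊢
  have hcl : ∀ x, x ∈ X ↔ (R₁ < x.1.D ∧ x.1.D ≤ R₂) ∧ x.2 ∈ NP (LF (wb x.1)) (fb x.1) Q T := by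
    intro x
    rw [hX, Set.mem_ofPred_eq, hmF]
    exact fld_claim x.1 (hb x.1)
  obtain ⟨_, _, hcf⟩ := cb_fin K hR hO
  have hC : {c : Cb K | R₁ < c.D ∧ c.D ≤ R₂}.Finite :=
    (hcf (max R₂ 1) (le_max_right _ _)).1.subset fun c hc => hc.2.trans (le_max_left _ _)
  rw [finsum_mem_eq_finite_toFinset_sum _ hXf, finsum_mem_eq_finite_toFinset_sum _ hC,
    ← Finset.sum_fiberwise_of_maps_to (g := fun x : Cb K × (Fin 2 → K) × (Fin 2 → K) => x.1) (t := hC.toFinset)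
      (fun x hx => by
        rw [hC.mem_toFinset]
        exact ((hcl x).1 (hXf.mem_toFinset.1 hx)).1)]
  refine Finset.sum_congr rfl fun c hc => ?_
  have hc' := hC.mem_toFinset.1 hc
  have h1 : ∑ x ∈ hXf.toFinset.filter (fun x => x.1 = c), g x.1 =
      ∑ x ∈ hXf.toFinset.filter (fun x => x.1 = c), g c :=
    Finset.sum_congr rfl fun x hx => by rw [(Finset.mem_filter.1 hx).2]
  have h2 : ((NP (LF (wb c)) (fb c) Q T).ncard) = (hXf.toFinset.filter (fun x => x.1 = c)).card := by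
    rw [← Set.ncard_coe_finset]
    refine Set.ncard_congr (fun z _ => (c, z)) ?_ ?_ ?_
    · intro z hz
      rw [Finset.mem_coe, Finset.mem_filter, hXf.mem_toFinset, hcl]
      exact ⟨⟨hc', hz⟩, rfl⟩
    · intro z z' _ _ h
      exact (Prod.mk.inj h).2
    · rintro ⟨c', z⟩ hz
      rw [Finset.mem_coe, Finset.mem_filter, hXf.mem_toFinset, hcl] at hz
      obtain ⟨⟨h3, h4⟩, h5⟩ := hz
      have h5 : c' = c := h5
      subst h5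
      exact ⟨z, h4, rfl⟩
  rw [h1, Finset.sum_const, h2, nsmul_eq_mul, mul_comm]

private theorem fld_np {K : IntermediateField ℚ QBar} [NumberField K] {κ C T : ℝ} (hT : 1 ≤ T)
    (hp : ∀ (Λ : Submodule (𝓞 K) (Fin 2 → K)) (f : Fin 4 → K) (T T₁ T₂ : ℝ),
      Lt Λ → OO K 2 ≤ Λ → (ix Λ : ℝ) ≤ κ → Red κ T₁ T₂ f → 1 ≤ T →
      (NP Λ f ∅ T).Finite ∧
      ((NP Λ f ∅ T).ncard : ℝ) ≤ C * (T ^ (4 * Module.finrank ℚ K) * (ix Λ : ℝ) ^ 2 / nd f) ∧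
      ((NP Λ f ∅ T).Nonempty → T₂ ≤ C * T)) (c : Cb K) {T₁ T₂ : ℝ} {f : Fin 4 → K} {w : Fin 2 → c.F}
    (h : RF κ T₁ T₂ (om c) f w) (Q : Finset (Pl K)) :
    ((NP (LF w) f Q T).ncard : ℝ) ≤ C * (T ^ (4 * Module.finrank ℚ K) / c.D) := by
  obtain ⟨h1, h2, h3, -, -, -⟩ := fld_one c h
  obtain ⟨h4, h5, -⟩ := hp (LF w) f T T₁ T₂ h1 h2 h3 h.red hT
  have hsub : NP (LF w) f Q T ⊆ NP (LF w) f ∅ T := by
    rintro x ⟨a1, a2, a3, a4, a5, -⟩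
    exact ⟨a1, a2, a3, a4, a5, fun l hl => absurd hl (Finset.notMem_empty l)⟩
  have h6 : ((NP (LF w) f Q T).ncard : ℝ) ≤ ((NP (LF w) f ∅ T).ncard : ℝ) := by
    exact_mod_cast Set.ncard_le_ncard hsub h4
  rw [fld_x c h] at h5
  exact h6.trans h5

theorem fld_up (K : IntermediateField ℚ QBar) [NumberField K] [IsTotallyComplex K] {κ : ℝ}
    (hκ : 1 ≤ κ) (hR : RFS K κ) (hO : OCS K κ) : ∃ C : ℝ, 1 ≤ C ∧
    ∀ (Q : Finset (Pl K)) (g : Cb K → ℝ) (T R₁ R₂ : ℝ),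
    (∀ c c' : Cb K, Nonempty (c.F ≃ₐ[K] c'.F) → g c = g c') → (∀ c, 0 ≤ g c) → (∀ c, g c ≤ 1) →
    1 ≤ T → 0 < R₁ → R₁ ≤ R₂ →
    3 * (∑ᶠ f ∈ FT Q T R₁ R₂, (frf f).elim 0 (fun x => g x.1)) ≤
      C * T ^ (4 * Module.finrank ℚ K) * ∑ᶠ c ∈ {c : Cb K | R₁ < c.D ∧ c.D ≤ R₂}, g c / c.D := by
  obtain ⟨C, hC, hp⟩ := pair_up K hκ
  refine ⟨C, hC, ?_⟩
  intro Q g T R₁ R₂ hg hg0 _ hT h0 h12
  have hex : ∀ c : Cb K, ∃ (T₁ T₂ : ℝ) (f : Fin 4 → K) (w : Fin 2 → c.F), RF κ T₁ T₂ (om c) f w :=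
    fun c => hR (om c)
  choose T₁ T₂ fb wb hb using hex
  rw [dc K hκ hR hO hb hg hT h0 h12]
  obtain ⟨_, _, hcf⟩ := cb_fin K hR hO
  have hS : {c : Cb K | R₁ < c.D ∧ c.D ≤ R₂}.Finite :=
    (hcf (max R₂ 1) (le_max_right _ _)).1.subset fun c hc => hc.2.trans (le_max_left _ _)
  rw [finsum_mem_eq_finite_toFinset_sum _ hS, finsum_mem_eq_finite_toFinset_sum _ hS, Finset.mul_sum]
  refine Finset.sum_le_sum fun c _ => ?_
  have h1 := fld_np hT hp c (hb c) Q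
  have h2 := mul_le_mul_of_nonneg_left h1 (hg0 c)
  refine h2.trans (le_of_eq ?_)
  ring

private theorem fld_real {d : ℕ} (hd : 1 ≤ d) {T T₁ T₂ N κ s R : ℝ} (hT : 0 < T) (h1 : 1 ≤ T₁)
    (h12 : T₁ ≤ T₂) (hN : 1 ≤ N) (hκ : 1 ≤ κ) (hs : 1 ≤ s)
    (hTs : T ^ (4 * d) = s ^ (8 * d) * R) (hb : T < N * s * T₂)
    (hp : (T₁ * T₂) ^ (2 * d) ≤ κ ^ (4 * d) * R) : s ^ 2 / (N * κ) ^ 2 * T₁ ≤ T₂ := by
  have hT2 : 0 < T₂ := by linarith
  have hT1 : 0 < T₁ := by linarith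
  have hs0 : 0 < s := by linarith
  have hNκ : 0 < (N * κ) ^ 2 := by positivity
  rw [div_mul_eq_mul_div, div_le_iff₀ hNκ]
  have h2d : 2 * d ≠ 0 := by omega
  refine le_of_pow_le_pow_left₀ h2d (by positivity) ?_
  have e1 : T ^ (4 * d) ≤ (N * s * T₂) ^ (4 * d) := pow_le_pow_left₀ hT.le hb.le _
  obtain ⟨u, hu⟩ : ∃ u, u = s ^ (4 * d) := ⟨_, rfl⟩
  obtain ⟨A1, hA1⟩ : ∃ A1, A1 = T₁ ^ (2 * d) := ⟨_, rfl⟩
  obtain ⟨A2, hA2⟩ : ∃ A2, A2 = T₂ ^ (2 * d) := ⟨_, rfl⟩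
  obtain ⟨n, hn⟩ : ∃ n, n = N ^ (4 * d) := ⟨_, rfl⟩
  obtain ⟨k, hk⟩ : ∃ k, k = κ ^ (4 * d) := ⟨_, rfl⟩
  have hu0 : 0 < u := by rw [hu]; positivity
  have hA20 : 0 < A2 := by rw [hA2]; positivity
  have hk0 : 0 < k := by rw [hk]; positivity
  have f1 : s ^ (8 * d) = u * u := by rw [hu, ← pow_add]; congr 1; ring
  have f2 : (N * s * T₂) ^ (4 * d) = n * u * (A2 * A2) := by
    rw [mul_pow, mul_pow, hu, hn, hA2, ← pow_add]
    congr 2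
    ring
  have f3 : (T₁ * T₂) ^ (2 * d) = A1 * A2 := by rw [mul_pow, hA1, hA2]
  have f4 : (s ^ 2 * T₁) ^ (2 * d) = u * A1 := by
    rw [mul_pow, hu, hA1, ← pow_mul]
    congr 2
    ring
  have f5 : (T₂ * (N * κ) ^ 2) ^ (2 * d) = A2 * (n * k) := by
    rw [mul_pow, hA2, hn, hk, ← mul_pow N κ, ← pow_mul]
    congr 2
    ring
  rw [hTs, f1, f2] at e1
  rw [f3, ← hk] at hp
  rw [f4, f5]
  have g1 : u * R ≤ n * (A2 * A2) := by
    refine le_of_mul_le_mul_left ?_ hu0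
    linarith
  have g2 : u * (A1 * A2) ≤ u * (k * R) := mul_le_mul_of_nonneg_left hp hu0.le
  have g3 : k * (u * R) ≤ k * (n * (A2 * A2)) := mul_le_mul_of_nonneg_left g1 hk0.le
  refine le_of_mul_le_mul_right ?_ hA20
  linarith

private theorem fld_prod {K : IntermediateField ℚ QBar} [NumberField K] [IsTotallyComplex K] {κ T₁ T₂ : ℝ}
    (hκ : 1 ≤ κ) (c : Cb K) {f : Fin 4 → K} {w : Fin 2 → c.F} (h : RF κ T₁ T₂ (om c) f w) {R : ℝ}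
    (hR : c.D ≤ R) :
    (T₁ * T₂) ^ (2 * Module.finrank ℚ K) ≤ κ ^ (4 * Module.finrank ℚ K) * R := by
  obtain ⟨-, -, h3, h4, h5, h6⟩ := fld_one c h
  have hcp := card_place (K := K)
  have hd : 1 ≤ Module.finrank ℚ K := Module.finrank_pos
  have hT1 : 0 < T₁ := lt_of_lt_of_le one_pos h.red.one
  have hT2 : 0 < T₂ := lt_of_lt_of_le hT1 h.red.le
  have hκ0 : 0 < κ := by linarith
  have e1 : ∀ p : InfinitePlace K, ((T₁ * T₂) ^ 2) ^ 2 ≤ (κ * ‖disc (emb f p)‖) ^ 2 := by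
    intro p
    refine pow_le_pow_left₀ (by positivity) ?_ 2
    have h7 := h.red.lo p.embedding
    have h8 : disc (emb f p) = p.embedding (disc f) := by
      unfold disc emb
      simp only [map_add, map_sub, map_mul, map_pow, map_ofNat]
    rw [h8]
    exact h7
  have e2 : ∏ _p : InfinitePlace K, ((T₁ * T₂) ^ 2) ^ 2 ≤ ∏ p : InfinitePlace K, (κ * ‖disc (emb f p)‖) ^ 2 :=
    Finset.prod_le_prod (fun _ _ => by positivity) fun p _ => e1 p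
  have e3 : ∏ p : InfinitePlace K, (κ * ‖disc (emb f p)‖) ^ 2 = κ ^ Module.finrank ℚ K * nd f := by
    rw [nd_eq, ← hcp, pow_mul]
    simp only [mul_pow]
    rw [Finset.prod_mul_distrib, Finset.prod_const, Finset.card_univ]
  have e4 : ∏ _p : InfinitePlace K, ((T₁ * T₂) ^ 2) ^ 2 = (T₁ * T₂) ^ (2 * Module.finrank ℚ K) := by
    rw [Finset.prod_const, Finset.card_univ, ← hcp, ← pow_mul, ← pow_mul]
  rw [e3, e4, h5] at e2
  have h0 : 0 ≤ c.D := by linarith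
  have e5 : c.D * (ix (LF (K := K) w) : ℝ) ^ 2 ≤ R * κ ^ 2 :=
    mul_le_mul hR (pow_le_pow_left₀ (by linarith) h3 2) (by positivity) (h0.trans hR)
  have e6 : κ ^ Module.finrank ℚ K * (R * κ ^ 2) ≤ κ ^ (4 * Module.finrank ℚ K) * R := by
    have e7 : κ ^ Module.finrank ℚ K * (R * κ ^ 2) = κ ^ (Module.finrank ℚ K + 2) * R := by
      rw [pow_add]
      ring
    rw [e7]
    exact mul_le_mul_of_nonneg_right (pow_le_pow_right₀ hκ (by omega)) (h0.trans hR)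
  exact e2.trans ((mul_le_mul_of_nonneg_left e5 (by positivity)).trans e6)

/-- the number of the bad fields -/
private theorem fld_bad {K : IntermediateField ℚ QBar} [NumberField K] [IsTotallyComplex K] {κ C : ℝ}
    (hκ : 1 ≤ κ) (hC : 1 ≤ C) (hO : ∀ Y Z : ℝ, 1 ≤ Y → 1 ≤ Z → {o : Od K | o.D ≤ Y}.Finite ∧
      ∀ O : Finset (Od K), (∀ o ∈ O, o.D ≤ Y ∧ ∃ (T₁ T₂ : ℝ) (f : Fin 4 → K) (w : Fin 2 → o.c.F),
        RF κ T₁ T₂ o f w ∧ Z * T₁ ≤ T₂) → (O.card : ℝ) ≤ C * Y / Z ^ Module.finrank ℚ K)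
    {T N s R : ℝ} (hT : 1 ≤ T) (hN : 1 ≤ N) (hs : 1 ≤ s) (hR : 1 ≤ R)
    (hTs : T ^ (4 * Module.finrank ℚ K) = s ^ (8 * Module.finrank ℚ K) * R) (B : Finset (Cb K))
    (hB : ∀ c ∈ B, c.D ≤ R ∧ ∃ (T₁ T₂ : ℝ) (f : Fin 4 → K) (w : Fin 2 → c.F),
      RF κ T₁ T₂ (om c) f w ∧ T < N * s * T₂) :
    (B.card : ℝ) ≤ C * R * ((N * κ) ^ (2 * Module.finrank ℚ K) / s) := by
  have hd : 1 ≤ Module.finrank ℚ K := Module.finrank_pos
  have hs0 : 0 < s := by linarith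
  have hN0 : 0 < N := by linarith
  have hκ0 : 0 < κ := by linarith
  have hR0 : 0 < R := by linarith
  obtain ⟨Z, hZ⟩ : ∃ Z, Z = max (s ^ 2 / (N * κ) ^ 2) 1 := ⟨_, rfl⟩
  have hZ1 : 1 ≤ Z := by
    rw [hZ]
    exact le_max_right _ _
  have hZ2 : s ^ 2 / (N * κ) ^ 2 ≤ Z := by
    rw [hZ]
    exact le_max_left _ _
  have h1 := (hO R Z hR hZ1).2 (B.image om) (by
    intro o ho
    obtain ⟨c, hc, rfl⟩ := Finset.mem_image.1 ho
    obtain ⟨h2, T₁, T₂, f, w, h3, h4⟩ := hB c hc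
    refine ⟨by rw [om_D]; exact h2, T₁, T₂, f, w, h3, ?_⟩
    have hT1 : 0 < T₁ := lt_of_lt_of_le one_pos h3.red.one
    rw [hZ, max_mul_of_nonneg _ _ hT1.le, one_mul]
    exact max_le (fld_real hd (by linarith) h3.red.one h3.red.le hN hκ hs hTs h4 (fld_prod hκ c h3 h2)) h3.red.le)
  rw [Finset.card_image_of_injective _ fld_inj] at h1
  refine h1.trans ?_
  have hq : 0 < s ^ 2 / (N * κ) ^ 2 := by positivity
  have h5 : C * R / Z ^ Module.finrank ℚ K ≤ C * R / (s ^ 2 / (N * κ) ^ 2) ^ Module.finrank ℚ K :=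
    div_le_div_of_nonneg_left (by positivity) (by positivity) (pow_le_pow_left₀ hq.le hZ2 _)
  refine h5.trans ?_
  have h6 : C * R / (s ^ 2 / (N * κ) ^ 2) ^ Module.finrank ℚ K =
      C * R * ((N * κ) ^ (2 * Module.finrank ℚ K) / s ^ (2 * Module.finrank ℚ K)) := by
    rw [div_pow, ← pow_mul, ← pow_mul, div_div_eq_mul_div, mul_div_assoc]
  rw [h6]
  refine mul_le_mul_of_nonneg_left ?_ (by positivity)
  refine div_le_div_of_nonneg_left (by positivity) hs0 ?_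
  exact le_self_pow₀ hs (by omega)

private theorem fld_pi {K : Type} [Field K] [NumberField K] (Q : Finset (Pl K)) : 0 ≤ piQ Q ∧ piQ Q ≤ 1 := by
  have h : ∀ l : Pl K, 0 ≤ (1 - 1 / (nm l : ℝ)) * (1 - 1 / (nm l : ℝ) ^ 2) ∧
      (1 - 1 / (nm l : ℝ)) * (1 - 1 / (nm l : ℝ) ^ 2) ≤ 1 := by
    intro l
    have h1 : (1 : ℝ) ≤ nm l := by
      have h0 : 1 < nm l := one_lt_nm l
      exact_mod_cast h0.le
    have h2 : 0 ≤ 1 / (nm l : ℝ) := by positivity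
    have h3 : 1 / (nm l : ℝ) ≤ 1 := by
      rw [div_le_one (by linarith)]
      exact h1
    have h4 : 0 ≤ 1 / (nm l : ℝ) ^ 2 := by positivity
    have h5 : 1 / (nm l : ℝ) ^ 2 ≤ 1 := by
      rw [div_le_one (by positivity)]
      nlinarith
    constructor
    · exact mul_nonneg (by linarith) (by linarith)
    · exact mul_le_one₀ (by linarith) (by linarith) (by linarith)
  unfold piQ
  exact ⟨Finset.prod_nonneg fun l _ => (h l).1, Finset.prod_le_one (fun l _ => (h l).1) fun l _ => (h l).2⟩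

theorem fld_side (K : IntermediateField ℚ QBar) [NumberField K] [IsTotallyComplex K] {κ : ℝ}
    (hκ : 1 ≤ κ) (hR : RFS K κ) (hO : OCS K κ) : ∃ (C : ℝ) (A : ℕ) (η : ℝ), 1 ≤ C ∧ 0 < η ∧
    η ≤ 1 ∧ ∀ (Q : Finset (Pl K)) (g : Cb K → ℝ) (T R₁ R₂ : ℝ),
    (∀ c c' : Cb K, Nonempty (c.F ≃ₐ[K] c'.F) → g c = g c') → (∀ c, |g c| ≤ 1) →
    1 ≤ T → 1 ≤ R₂ → R₁ ≤ R₂ → R₂ ≤ 2 * R₁ → R₂ ≤ T ^ (4 * Module.finrank ℚ K) →
    |3 * (∑ᶠ f ∈ FT Q T R₁ R₂, (frf f).elim 0 (fun x => g x.1)) -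
      piQ Q * cF K * (T ^ (4 * Module.finrank ℚ K) *
        ∑ᶠ c ∈ {c : Cb K | R₁ < c.D ∧ c.D ≤ R₂}, g c / c.D)| ≤
      C * nQ Q ^ A * (T ^ (4 * Module.finrank ℚ K) *
        (T ^ (4 * Module.finrank ℚ K) / R₂) ^ (-η)) := by
  obtain ⟨C1, hC1, h1⟩ := pair_cnt K hκ
  obtain ⟨C2, hC2, h2⟩ := cb_fin K hR hO
  obtain ⟨C3, hC3, h3⟩ := pair_up K hκ
  have hO' := hO
  obtain ⟨C4, hC4, h4⟩ := hO'
  obtain ⟨d, hdd⟩ : ∃ d, d = Module.finrank ℚ K := ⟨_, rfl⟩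
  have hd : 1 ≤ d := by
    rw [hdd]
    exact Module.finrank_pos
  have hdr : (1 : ℝ) ≤ d := by exact_mod_cast hd
  have hcF : 0 ≤ cF K := by
    unfold cF
    positivity
  have hκ0 : 0 < κ := by linarith
  refine ⟨2 * C1 * C2 + 2 * (C3 + cF K) * C4 * κ ^ (2 * d), 2 * d, 1 / (8 * d), ?_, by positivity, ?_, ?_⟩
  · have e1 : 1 ≤ C1 * C2 := one_le_mul_of_one_le_of_one_le hC1 hC2
    have e2 : 0 ≤ 2 * (C3 + cF K) * C4 * κ ^ (2 * d) := by positivity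
    linarith
  · rw [div_le_one (by positivity)]
    linarith
  intro Q g T R₁ R₂ hg hg1 hT hR2 h12 h21 hRT
  have hR20 : 0 < R₂ := by linarith
  have h0 : 0 < R₁ := by linarith
  rw [← hdd] at hRT ⊢
  obtain ⟨N, hNd⟩ : ∃ N, N = nQ Q := ⟨_, rfl⟩
  have hN : 1 ≤ N := by
    rw [hNd]
    exact (JQ_norm Q).2.2
  have hN0 : 0 < N := by linarith
  obtain ⟨X, hX⟩ : ∃ X, X = T ^ (4 * d) := ⟨_, rfl⟩
  have hX0 : 0 < X := by
    rw [hX]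
    positivity
  rw [← hX, ← hNd]
  rw [← hX] at hRT
  have hy : 1 ≤ X / R₂ := by
    rw [one_le_div hR20]
    exact hRT
  obtain ⟨s, hs⟩ : ∃ s : ℝ, s = (X / R₂) ^ (1 / (8 * d) : ℝ) := ⟨_, rfl⟩
  have hs1 : 1 ≤ s := by
    rw [hs]
    exact Real.one_le_rpow hy (by positivity)
  have hs0 : 0 < s := by linarith
  have hs8 : s ^ (8 * d) = X / R₂ := by
    rw [hs, ← Real.rpow_natCast, ← Real.rpow_mul (by positivity)]
    push_cast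
    rw [one_div, inv_mul_cancel₀ (by positivity), Real.rpow_one]
  have hsi : (X / R₂) ^ (-(1 / (8 * d) : ℝ)) = s⁻¹ := by
    rw [hs, Real.rpow_neg (by positivity)]
  rw [hsi]
  have hTs : T ^ (4 * d) = s ^ (8 * d) * R₂ := by
    rw [hs8, ← hX]
    field_simp
  have hex : ∀ c : Cb K, ∃ (T₁ T₂ : ℝ) (f : Fin 4 → K) (w : Fin 2 → c.F), RF κ T₁ T₂ (om c) f w :=
    fun c => hR (om c)
  choose T₁ T₂ fb wb hb using hex
  rw [dc K hκ hR hO hb hg hT h0 h12]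
  have hS : {c : Cb K | R₁ < c.D ∧ c.D ≤ R₂}.Finite :=
    (h2 R₂ hR2).1.subset fun c hc => hc.2
  rw [finsum_mem_eq_finite_toFinset_sum _ hS, finsum_mem_eq_finite_toFinset_sum _ hS]
  obtain ⟨S, hSd⟩ : ∃ S, S = hS.toFinset := ⟨_, rfl⟩
  have hSm : ∀ c ∈ S, R₁ < c.D ∧ c.D ≤ R₂ := by
    intro c hc
    rw [hSd, hS.mem_toFinset] at hc
    exact hc
  have hSc : (S.card : ℝ) ≤ C2 * R₂ := by
    refine le_trans ?_ (h2 R₂ hR2).2
    rw [hSd, ← Set.ncard_eq_toFinset_card _ hS]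
    have hsub : {c : Cb K | R₁ < c.D ∧ c.D ≤ R₂} ⊆ {c : Cb K | c.D ≤ R₂} := fun c hc => hc.2
    exact_mod_cast Set.ncard_le_ncard hsub (h2 R₂ hR2).1
  rw [← hSd]
  have e1 : ∑ c ∈ S, g c * ((NP (LF (wb c)) (fb c) Q T).ncard : ℝ) - piQ Q * cF K * (X * ∑ c ∈ S, g c / c.D) =
      ∑ c ∈ S, g c * (((NP (LF (wb c)) (fb c) Q T).ncard : ℝ) - piQ Q * cF K * (X / c.D)) := by
    rw [Finset.mul_sum, Finset.mul_sum, ← Finset.sum_sub_distrib]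
    refine Finset.sum_congr rfl fun c _ => ?_
    ring
  rw [e1]
  have e2 : ∀ c ∈ S, |g c * (((NP (LF (wb c)) (fb c) Q T).ncard : ℝ) - piQ Q * cF K * (X / c.D))| ≤
      C1 / s * (2 * X / R₂) + (if T < N * s * T₂ c then (C3 + cF K) * (2 * X / R₂) else 0) := by
    intro c hc
    obtain ⟨hc1, hc2⟩ := hSm c hc
    have hcD : 0 < c.D := by linarith
    have hXD : X / c.D ≤ 2 * X / R₂ := by
      rw [div_le_div_iff₀ hcD hR20]
      nlinarith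
    have hXD0 : 0 ≤ X / c.D := by positivity
    rw [abs_mul]
    have f1 : |g c| * |((NP (LF (wb c)) (fb c) Q T).ncard : ℝ) - piQ Q * cF K * (X / c.D)| ≤
        |((NP (LF (wb c)) (fb c) Q T).ncard : ℝ) - piQ Q * cF K * (X / c.D)| :=
      mul_le_of_le_one_left (abs_nonneg _) (hg1 c)
    refine f1.trans ?_
    obtain ⟨a1, a2, a3, -, -, -⟩ := fld_one c (hb c)
    have hT1 : 0 < T₁ c := lt_of_lt_of_le one_pos (hb c).red.one
    have hT2 : 0 < T₂ c := lt_of_lt_of_le hT1 (hb c).red.le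
    split_ifs with hbad
    · obtain ⟨p1, p2⟩ := fld_pi Q
      have f2 := fld_np hT h3 c (hb c) Q
      rw [← hdd, ← hX] at f2
      have f3 : 0 ≤ ((NP (LF (wb c)) (fb c) Q T).ncard : ℝ) := Nat.cast_nonneg _
      have f4 : 0 ≤ piQ Q * cF K * (X / c.D) := by positivity
      have f5 : piQ Q * cF K * (X / c.D) ≤ cF K * (X / c.D) := by
        refine mul_le_mul_of_nonneg_right ?_ hXD0
        exact mul_le_of_le_one_left hcF p2
      have f6 : |((NP (LF (wb c)) (fb c) Q T).ncard : ℝ) - piQ Q * cF K * (X / c.D)| ≤ (C3 + cF K) * (X / c.D) := by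
        rw [abs_le]
        constructor
        · nlinarith
        · nlinarith
      have f7 : (C3 + cF K) * (X / c.D) ≤ (C3 + cF K) * (2 * X / R₂) :=
        mul_le_mul_of_nonneg_left hXD (by positivity)
      have f8 : 0 ≤ C1 / s * (2 * X / R₂) := by positivity
      linarith
    · push Not at hbad
      have f2 : nQ Q * T₂ c ≤ T := by
        rw [← hNd]
        refine le_trans ?_ hbad
        have f3 : N * T₂ c ≤ N * T₂ c * s := le_mul_of_one_le_right (by positivity) hs1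
        linarith
      obtain ⟨-, f3⟩ := h1 (LF (wb c)) (fb c) Q T (T₁ c) (T₂ c) a1 a2 a3 (hb c).red f2
      rw [fld_x c (hb c), ← hdd, ← hX, ← hNd] at f3
      refine f3.trans ?_
      rw [add_zero]
      have f4 : N * T₂ c / T ≤ 1 / s := by
        rw [div_le_div_iff₀ (by linarith) hs0]
        linarith
      have f5 : C1 * (N * T₂ c / T) ≤ C1 / s := by
        have f6 := mul_le_mul_of_nonneg_left f4 (by linarith : (0 : ℝ) ≤ C1)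
        rwa [mul_one_div] at f6
      exact mul_le_mul f5 hXD hXD0 (by positivity)
  refine (Finset.abs_sum_le_sum_abs _ _).trans ((Finset.sum_le_sum e2).trans ?_)
  rw [Finset.sum_add_distrib, Finset.sum_const, nsmul_eq_mul, ← Finset.sum_filter, Finset.sum_const, nsmul_eq_mul]
  have hBc := fld_bad hκ hC4 h4 hT hN hs1 hR2 (by rw [← hdd]; exact hTs) (S.filter fun c => T < N * s * T₂ c) (by
    intro c hc
    rw [Finset.mem_filter] at hc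
    exact ⟨(hSm c hc.1).2, T₁ c, T₂ c, fb c, wb c, hb c, hc.2⟩)
  rw [← hdd] at hBc
  have g1 : (S.card : ℝ) * (C1 / s * (2 * X / R₂)) ≤ C2 * R₂ * (C1 / s * (2 * X / R₂)) :=
    mul_le_mul_of_nonneg_right hSc (by positivity)
  have g2 : ((S.filter fun c => T < N * s * T₂ c).card : ℝ) * ((C3 + cF K) * (2 * X / R₂)) ≤
      C4 * R₂ * ((N * κ) ^ (2 * d) / s) * ((C3 + cF K) * (2 * X / R₂)) :=
    mul_le_mul_of_nonneg_right hBc (by positivity)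
  refine (add_le_add g1 g2).trans ?_
  have g3 : C2 * R₂ * (C1 / s * (2 * X / R₂)) + C4 * R₂ * ((N * κ) ^ (2 * d) / s) * ((C3 + cF K) * (2 * X / R₂)) =
      (2 * C1 * C2 + 2 * (C3 + cF K) * C4 * κ ^ (2 * d) * N ^ (2 * d)) * (X * s⁻¹) := by
    rw [mul_pow]
    field_simp
  rw [g3]
  refine mul_le_mul_of_nonneg_right ?_ (by positivity)
  have g4 : 1 ≤ N ^ (2 * d) := one_le_pow₀ hN
  have g5 : 2 * C1 * C2 ≤ 2 * C1 * C2 * N ^ (2 * d) := le_mul_of_one_le_right (by positivity) g4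
  rw [add_mul]
  linarith

end H97.SXM
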