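import Pool.Agent.H97.SXM.GenQ
import Pool.Agent.H97.SXM.VecC
import Pool.Agent.H67.WA.Cnt

/-!
# [SXM PAI] Pairs of vectors in the ball, 150-250 lines. File Pool/Agent/H97/SXM/Pai.lean

`X = T^(4d) ix² / nd f`. `d = [K : ℚ]`, `N = nQ Q` (a natural number, `N ∈ JQ Q`), `Λ ⊇ 𝓞²`, `ix Λ ≤ κ`.
(1) VECTORS OF ONE CLASS. For `p ∈ Λ` the class `p + JQ Λ` is the disjoint union of `M = [JQ Λ : N 𝓞²]` classes modulo `N 𝓞²` (`N 𝓞² ≤ JQ • Λ`), `M = [Λ : N 𝓞²] / [Λ : JQ Λ] = ix N^(2d) / N²` (`[𝓞² : N 𝓞²] = N^(2d)`; `[Λ : JQ Λ] = N²`: `gen_all`). By `vec_cnt` (`n = N`) the number of the elements `v` with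
`emb v ∈ Vg K f T` is `M (cV^r T^(2d)/√nd + err) / (N^(2d) cv) = (ix / N²) (cV^r / cv) (T^(2d)/√(nd f)) (1 + O(N T₂ / T))`.
(2) ALL PAIRS (also the dependent ones) which generate at `Q`: sum over the `π_Q N⁴` generating pairs of classes (`gen_all`) of the product of two numbers (1): `π_Q N⁴ (ix/N²)² cF (T^(4d)/nd f)(1 + O(N T₂/T))² = π_Q cF X (1 + O(N T₂ / T))` (`N T₂ ≤ T`).
(3) DEPENDENT PAIRS `dt v v' = 0`. For `v` in the region: `‖v 0‖_p ≤ 12 κ² T / T₁`, `‖v 1‖_p ≤ 12 κ² T / T₂` at all places (`v1_in`, `red_rd1`), and `ix Λ · v ∈ 𝓞²`. So (number of integers `x` with `‖x‖_p ≤ B` for all `p` is `≤ C (1 + B)^d`, `≤ C B^d` if `B ≥ c`: `box_card` or `H67/WA/Cnt.lean` `f1`; note `T ≥ T₂ ≥ T₁ ≥ 1`):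
`#{v} ≤ C (T/T₁)^d (T/T₂)^d`, `#{v : v 1 = 0} ≤ C (T/T₁)^d`; for `v` with `v 1 ≠ 0` the dependent `v'` are determined by `v' 1`: `≤ C (T/T₂)^d`; for `v ≠ 0`, `v 1 = 0`: `v' 1 = 0`, `≤ C (T/T₁)^d`; for `v = 0`: all. Total `≤ C [(T/T₁)^d (T/T₂)^(2d) + (T/T₁)^(2d) + (T/T₁)^d (T/T₂)^d] ≤ C (T/T₁)^(2d) (T/T₂)^(2d) (T₂/T)^d ≤ C (T₂/T) X`
(`nd f = ∏_p ‖disc‖² ≤ κ^d (T₁T₂)^(2d)`, so `(T/T₁)^(2d) (T/T₂)^(2d) ≤ κ^d X`; `ix ≥ 1`).
`pair_cnt` = (2) minus (3). `pair_up`: if `T₂ ≤ T` from `pair_cnt` with `Q = ∅`. If `T₂ > 12 κ³ T`: `‖ix v 1‖_p < 1` at all places, so `v 1 = 0` for all `v` in the region (the norm of a nonzero integer is `≥ 1`), all pairs are dependent: `NP = ∅`. If `T < T₂ ≤ 12 κ³ T`: `NP Λ f ∅ T ⊆ NP Λ f ∅ T₂` (`V1` monotone in `T`) and the case `T₂ ≤ T₂`.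
-/

set_option autoImplicit false

open scoped NumberField Classical
open IsDedekindDomain NumberField H38.ML H63.MA H77.MF

noncomputable section

namespace H97.SXM

private theorem int_fin (K : Type) [Field K] [NumberField K] : ∃ C : ℝ, 1 ≤ C ∧ ∀ B : ℝ, 1 ≤ B →
    {x : 𝓞 K | ∀ φ : K →+* ℂ, ‖φ (x : K)‖ ≤ B}.Finite ∧
    ({x : 𝓞 K | ∀ φ : K →+* ℂ, ‖φ (x : K)‖ ≤ B}.ncard : ℝ) ≤ C * B ^ Module.finrank ℚ K := by
  obtain ⟨C, hC, h⟩ := Pool.Agent.H67.WA.f1 K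
  refine ⟨2 * C, by linarith, fun B hB => ?_⟩
  have hb : ∀ S : Finset (𝓞 K), (↑S ⊆ {x : 𝓞 K | ∀ φ : K →+* ℂ, ‖φ (x : K)‖ ≤ B}) →
      (S.card : ℝ) ≤ 2 * C * B ^ Module.finrank ℚ K := by
    intro S hS
    have h1 := h ⊤ (by simp) (fun _ => B) (fun _ => by linarith) S
      (fun x hx => ⟨Submodule.mem_top, fun φ => hS hx φ⟩)
    rw [Pool.Agent.H67.WA.vol_const] at h1
    have h2 : Pool.Agent.H67.WA.ni (⊤ : Ideal (𝓞 K)) = 1 := by
      unfold Pool.Agent.H67.WA.ni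
      rw [Ideal.absNorm_top]
      norm_num
    rw [h2, div_one] at h1
    have h3 : (1 : ℝ) ≤ B ^ Module.finrank ℚ K := one_le_pow₀ hB
    nlinarith
  have hfin : {x : 𝓞 K | ∀ φ : K →+* ℂ, ‖φ (x : K)‖ ≤ B}.Finite := by
    by_contra hinf
    obtain ⟨n, hn⟩ := exists_nat_gt (2 * C * B ^ Module.finrank ℚ K)
    obtain ⟨S, hS, hSc⟩ := Set.Infinite.exists_subset_card_eq hinf n
    have h1 := hb S hS
    rw [hSc] at h1
    linarith
  refine ⟨hfin, ?_⟩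
  rw [Set.ncard_eq_toFinset_card _ hfin]
  exact hb _ (by rw [Set.Finite.coe_toFinset])

private theorem emb_sz {K : Type} [Field K] [NumberField K] {n : ℕ} (v : Fin n → K) (i : Fin n)
    {B : ℝ} (h : ∀ w : InfinitePlace K, ‖emb v w i‖ ≤ B) (φ : K →+* ℂ) : ‖φ (v i)‖ ≤ B := by
  have h1 := h (InfinitePlace.mk φ)
  unfold emb at h1
  rw [InfinitePlace.norm_embedding_eq, InfinitePlace.apply] at h1
  exact h1

private theorem int_zero {K : Type} [Field K] [NumberField K] (x : 𝓞 K)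
    (h : ∀ φ : K →+* ℂ, ‖φ (x : K)‖ < 1) : x = 0 := by
  by_contra hx
  have h1 := Pool.Agent.H67.WA.one_le_nz (K := K) hx
  obtain ⟨φ₀⟩ : Nonempty (K →+* ℂ) := inferInstance
  have h2 : Pool.Agent.H67.WA.nz x < 1 := by
    unfold Pool.Agent.H67.WA.nz Pool.Agent.H67.WA.vol Pool.Agent.H67.WA.sz
    rw [← Finset.mul_prod_erase Finset.univ _ (Finset.mem_univ φ₀)]
    have h3 : ∏ φ ∈ Finset.univ.erase φ₀, ‖φ (x : K)‖ ≤ 1 :=
      Finset.prod_le_one (fun φ _ => norm_nonneg _) (fun φ _ => (h φ).le)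
    have h4 : (0 : ℝ) ≤ ∏ φ ∈ Finset.univ.erase φ₀, ‖φ (x : K)‖ :=
      Finset.prod_nonneg fun φ _ => norm_nonneg _
    have h5 := h φ₀
    have h6 := norm_nonneg (φ₀ (x : K))
    nlinarith
  linarith

/-- the integral coordinates of a vector of the lattice in the region -/
private theorem crd {K : Type} [Field K] [NumberField K] {κ : ℝ} (hκ : 1 ≤ κ)
    {Λ : Submodule (𝓞 K) (Fin 2 → K)} {f : Fin 4 → K} {T T₁ T₂ : ℝ} (hT : 0 < T)
    (hm : (ix Λ : ℝ) ≤ κ) (hR : Red κ T₁ T₂ f) {v : Fin 2 → K} (hv : v ∈ Λ)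
    (hV : emb v ∈ Vg K f T) : ∃ a b : 𝓞 K, (a : K) = (ix Λ : K) * v 0 ∧ (b : K) = (ix Λ : K) * v 1 ∧
      (∀ φ : K →+* ℂ, ‖φ (a : K)‖ ≤ 12 * κ ^ 3 * (T / T₁)) ∧
      ∀ φ : K →+* ℂ, ‖φ (b : K)‖ ≤ 12 * κ ^ 3 * (T / T₂) := by
  have hT1 : 0 < T₁ := by linarith [hR.one]
  have hT2 : 0 < T₂ := by linarith [hR.one, hR.le]
  have hκ0 : 0 < κ := by linarith
  have h1 := ix_smul hv
  obtain ⟨a, ha⟩ := h1 0
  obtain ⟨b, hb⟩ := h1 1
  have e : ∀ i, ((ix Λ : 𝓞 K) • v) i = (ix Λ : K) * v i := by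
    intro i
    rw [Pi.smul_apply, Algebra.smul_def]
    simp
  rw [e] at ha hb
  have hin : ∀ w : InfinitePlace K, ‖emb v w 0‖ ≤ 12 * κ ^ 2 * T / T₁ ∧ ‖emb v w 1‖ ≤ 12 * κ ^ 2 * T / T₂ :=
    fun w => v1_in hκ hT (red_rd1 hR w) (hV w)
  refine ⟨a, b, ha, hb, fun φ => ?_, fun φ => ?_⟩
  · have h2 := emb_sz v 0 (fun w => (hin w).1) φ
    rw [ha, map_mul, norm_mul, map_natCast, Complex.norm_natCast]
    calc (ix Λ : ℝ) * ‖φ (v 0)‖ ≤ κ * (12 * κ ^ 2 * T / T₁) :=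
          mul_le_mul hm h2 (norm_nonneg _) hκ0.le
      _ = _ := by ring
  · have h2 := emb_sz v 1 (fun w => (hin w).2) φ
    rw [hb, map_mul, norm_mul, map_natCast, Complex.norm_natCast]
    calc (ix Λ : ℝ) * ‖φ (v 1)‖ ≤ κ * (12 * κ ^ 2 * T / T₂) :=
          mul_le_mul hm h2 (norm_nonneg _) hκ0.le
      _ = _ := by ring

private theorem nd_le {K : Type} [Field K] [NumberField K] [IsTotallyComplex K] {κ : ℝ}
    {f : Fin 4 → K} {T₁ T₂ : ℝ} (hR : Red κ T₁ T₂ f) : 0 < nd f ∧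
    nd f ≤ κ ^ Module.finrank ℚ K * (T₁ * T₂) ^ (2 * Module.finrank ℚ K) := by
  have hT1 : 0 < T₁ := by linarith [hR.one]
  have hT2 : 0 < T₂ := by linarith [hR.one, hR.le]
  rw [nd_eq]
  constructor
  · refine Finset.prod_pos fun w _ => ?_
    have h1 := (red_rd1 hR w).lo
    have h2 : 0 < (T₁ * T₂) ^ 2 := by positivity
    have h3 : 0 < ‖disc (emb f w)‖ := by
      by_contra h4
      have h5 : ‖disc (emb f w)‖ = 0 := le_antisymm (not_lt.1 h4) (norm_nonneg _)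
      rw [h5] at h1
      linarith
    positivity
  · calc ∏ w : InfinitePlace K, ‖disc (emb f w)‖ ^ 2 ≤ ∏ w : InfinitePlace K, (κ * (T₁ * T₂) ^ 2) ^ 2 := by
          refine Finset.prod_le_prod (fun w _ => by positivity) fun w _ => ?_
          exact pow_le_pow_left₀ (norm_nonneg _) (red_rd1 hR w).hi 2
      _ = κ ^ (2 * Fintype.card (InfinitePlace K)) *
            (T₁ * T₂) ^ (2 * (2 * Fintype.card (InfinitePlace K))) := by
          rw [Finset.prod_const, Finset.card_univ, ← pow_mul, mul_pow, ← pow_mul]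
      _ = _ := by rw [card_place]

private theorem dep_num {u w C₀ b N₁ N₂ : ℝ} {d : ℕ} (hd : 1 ≤ d) (hw : 1 ≤ w) (hwu : w ≤ u) (hC : 1 ≤ C₀)
    (hb : 1 ≤ b) (h1 : 0 ≤ N₁) (h2 : 0 ≤ N₂) (k1 : N₁ ≤ C₀ * (b * u) ^ d) (k2 : N₂ ≤ C₀ * (b * w) ^ d) :
    N₁ * N₂ * N₂ + N₁ * N₁ + N₁ * N₂ ≤ 3 * C₀ ^ 3 * b ^ (3 * d) * (u ^ (2 * d) * w ^ (2 * d)) * (1 / w) := by
  have hu : 1 ≤ u := hw.trans hwu
  have hw0 : 0 < w := by linarith
  obtain ⟨U, hU⟩ : ∃ U, U = u ^ d := ⟨_, rfl⟩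
  obtain ⟨W, hW⟩ : ∃ W, W = w ^ d := ⟨_, rfl⟩
  obtain ⟨E, hE⟩ : ∃ E, E = b ^ d := ⟨_, rfl⟩
  have hW1 : 1 ≤ W := by rw [hW]; exact one_le_pow₀ hw
  have hE1 : 1 ≤ E := by rw [hE]; exact one_le_pow₀ hb
  have hWU : W ≤ U := by rw [hW, hU]; exact pow_le_pow_left₀ hw0.le hwu d
  have hww : w ≤ W := by
    rw [hW]
    calc w = w ^ 1 := (pow_one w).symm
      _ ≤ w ^ d := pow_le_pow_right₀ hw hd
  rw [mul_pow, ← hE, ← hU] at k1
  rw [mul_pow, ← hE, ← hW] at k2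
  have hU1 : 1 ≤ U := hW1.trans hWU
  have e1 : u ^ (2 * d) * w ^ (2 * d) = U ^ 2 * W ^ 2 := by
    rw [hU, hW, ← pow_mul, ← pow_mul, mul_comm d 2]
  have e2 : b ^ (3 * d) = E ^ 3 := by rw [hE, ← pow_mul, mul_comm d 3]
  rw [e1, e2]
  have hA : W ≤ W ^ 2 * (1 / w) := by
    rw [mul_one_div, le_div_iff₀ hw0]
    nlinarith
  have hCE : 1 ≤ C₀ * E := one_le_mul_of_one_le_of_one_le hC hE1
  have p1 : N₁ * N₂ * N₂ ≤ C₀ ^ 3 * E ^ 3 * (U ^ 2 * W) := by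
    calc N₁ * N₂ * N₂ ≤ (C₀ * (E * U)) * (C₀ * (E * W)) * (C₀ * (E * W)) := by gcongr
      _ = C₀ ^ 3 * E ^ 3 * (U * W * W) := by ring
      _ ≤ C₀ ^ 3 * E ^ 3 * (U * U * W) := by gcongr
      _ = _ := by ring
  have p2 : N₁ * N₁ ≤ C₀ ^ 3 * E ^ 3 * (U ^ 2 * W) := by
    calc N₁ * N₁ ≤ (C₀ * (E * U)) * (C₀ * (E * U)) := by gcongr
      _ = 1 * ((C₀ * E) ^ 2 * (U ^ 2 * 1)) := by ring
      _ ≤ (C₀ * E) * ((C₀ * E) ^ 2 * (U ^ 2 * W)) := by gcongr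
      _ = _ := by ring
  have p3 : N₁ * N₂ ≤ C₀ ^ 3 * E ^ 3 * (U ^ 2 * W) := by
    calc N₁ * N₂ ≤ (C₀ * (E * U)) * (C₀ * (E * W)) := by gcongr
      _ = 1 * ((C₀ * E) ^ 2 * (U * 1 * W)) := by ring
      _ ≤ (C₀ * E) * ((C₀ * E) ^ 2 * (U * U * W)) := by gcongr
      _ = _ := by ring
  calc N₁ * N₂ * N₂ + N₁ * N₁ + N₁ * N₂ ≤ 3 * (C₀ ^ 3 * E ^ 3 * (U ^ 2 * W)) := by linarith
    _ ≤ 3 * (C₀ ^ 3 * E ^ 3 * (U ^ 2 * (W ^ 2 * (1 / w)))) := by gcongr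
    _ = _ := by ring

private theorem dep_cnt (K : Type) [Field K] [NumberField K] [IsTotallyComplex K] {κ : ℝ} (hκ : 1 ≤ κ) :
    ∃ C : ℝ, 1 ≤ C ∧ ∀ (Λ : Submodule (𝓞 K) (Fin 2 → K)) (f : Fin 4 → K) (T T₁ T₂ : ℝ),
    Lt Λ → OO K 2 ≤ Λ → (ix Λ : ℝ) ≤ κ → Red κ T₁ T₂ f → T₂ ≤ T →
    ∀ S : Set ((Fin 2 → K) × (Fin 2 → K)), (∀ x ∈ S, x.1 ∈ Λ ∧ x.2 ∈ Λ ∧ dt x.1 x.2 = 0 ∧
      emb x.1 ∈ Vg K f T ∧ emb x.2 ∈ Vg K f T) →
    S.Finite ∧ (S.ncard : ℝ) ≤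
      C * (T₂ / T) * (T ^ (4 * Module.finrank ℚ K) * (ix Λ : ℝ) ^ 2 / nd f) := by
  obtain ⟨C₀, hC₀, hint⟩ := int_fin K
  have hd1 : 1 ≤ Module.finrank ℚ K := Module.finrank_pos
  obtain ⟨b, hb⟩ : ∃ b : ℝ, b = 12 * κ ^ 3 := ⟨_, rfl⟩
  have hκ3 : (1 : ℝ) ≤ κ ^ 3 := one_le_pow₀ hκ
  have hb1 : 1 ≤ b := by
    rw [hb]
    linarith
  have hb0 : 0 < b := by linarith
  have hκ0 : 0 < κ := by linarith
  refine ⟨3 * C₀ ^ 3 * b ^ (3 * Module.finrank ℚ K) * κ ^ Module.finrank ℚ K, ?_,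
    fun Λ f T T₁ T₂ hL hO hm hR hT S hS => ?_⟩
  · have a1 : (1 : ℝ) ≤ C₀ ^ 3 := one_le_pow₀ hC₀
    have a2 : (1 : ℝ) ≤ b ^ (3 * Module.finrank ℚ K) := one_le_pow₀ hb1
    have a3 : (1 : ℝ) ≤ κ ^ Module.finrank ℚ K := one_le_pow₀ hκ
    have a4 : (1 : ℝ) ≤ 3 * C₀ ^ 3 := by linarith
    exact one_le_mul_of_one_le_of_one_le (one_le_mul_of_one_le_of_one_le a4 a2) a3
  have hT1 : 0 < T₁ := by linarith [hR.one]
  have hT2 : 0 < T₂ := by linarith [hR.one, hR.le]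
  have hT0 : 0 < T := by linarith
  obtain ⟨u, hu⟩ : ∃ u, u = T / T₁ := ⟨_, rfl⟩
  obtain ⟨w, hw⟩ : ∃ w, w = T / T₂ := ⟨_, rfl⟩
  have hw1 : 1 ≤ w := by
    rw [hw, le_div_iff₀ hT2]
    linarith
  have hwu : w ≤ u := by
    rw [hw, hu]
    exact div_le_div_of_nonneg_left hT0.le hT1 hR.le
  have hu1 : 1 ≤ u := hw1.trans hwu
  have hw0 : 0 < w := by linarith
  obtain ⟨f1, c1⟩ := hint (b * u) (one_le_mul_of_one_le_of_one_le hb1 hu1)
  obtain ⟨f2, c2⟩ := hint (b * w) (one_le_mul_of_one_le_of_one_le hb1 hw1)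
  obtain ⟨I₁, hI₁⟩ : ∃ I₁ : Set (𝓞 K), I₁ = {x : 𝓞 K | ∀ φ : K →+* ℂ, ‖φ (x : K)‖ ≤ b * u} := ⟨_, rfl⟩
  obtain ⟨I₂, hI₂⟩ : ∃ I₂ : Set (𝓞 K), I₂ = {x : 𝓞 K | ∀ φ : K →+* ℂ, ‖φ (x : K)‖ ≤ b * w} := ⟨_, rfl⟩
  rw [← hI₁] at f1 c1
  rw [← hI₂] at f2 c2
  obtain ⟨m, hmd⟩ : ∃ m : K, m = (ix Λ : K) := ⟨_, rfl⟩
  have hix := ix_pos hL hO
  have hm0 : m ≠ 0 := by
    rw [hmd]
    exact_mod_cast (by omega : ix Λ ≠ 0)
  obtain ⟨A, hA⟩ : ∃ A : Set ((Fin 2 → K) × (Fin 2 → K)), A =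
    (fun p : (𝓞 K × 𝓞 K) × 𝓞 K => ((![(p.1.1 : K) / m, (p.1.2 : K) / m] : Fin 2 → K),
      (![(p.1.1 : K) * (p.2 : K) / (p.1.2 : K) / m, (p.2 : K) / m] : Fin 2 → K))) '' ((I₁ ×ˢ I₂) ×ˢ I₂) := ⟨_, rfl⟩
  obtain ⟨B, hB⟩ : ∃ B : Set ((Fin 2 → K) × (Fin 2 → K)), B =
    (fun p : 𝓞 K × 𝓞 K => ((![(p.1 : K) / m, 0] : Fin 2 → K),
      (![(p.2 : K) / m, 0] : Fin 2 → K))) '' (I₁ ×ˢ I₁) := ⟨_, rfl⟩
  obtain ⟨E, hE⟩ : ∃ E : Set ((Fin 2 → K) × (Fin 2 → K)), E =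
    (fun p : 𝓞 K × 𝓞 K => ((0 : Fin 2 → K),
      (![(p.1 : K) / m, (p.2 : K) / m] : Fin 2 → K))) '' (I₁ ×ˢ I₂) := ⟨_, rfl⟩
  have fA : A.Finite := by
    rw [hA]
    exact ((f1.prod f2).prod f2).image _
  have fB : B.Finite := by
    rw [hB]
    exact (f1.prod f1).image _
  have fE : E.Finite := by
    rw [hE]
    exact (f1.prod f2).image _
  have nA : A.ncard ≤ I₁.ncard * I₂.ncard * I₂.ncard := by
    rw [hA]
    refine (Set.ncard_image_le ((f1.prod f2).prod f2)).trans ?_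
    rw [Set.ncard_prod, Set.ncard_prod]
  have nB : B.ncard ≤ I₁.ncard * I₁.ncard := by
    rw [hB]
    refine (Set.ncard_image_le (f1.prod f1)).trans ?_
    rw [Set.ncard_prod]
  have nE : E.ncard ≤ I₁.ncard * I₂.ncard := by
    rw [hE]
    refine (Set.ncard_image_le (f1.prod f2)).trans ?_
    rw [Set.ncard_prod]
  have hsub : S ⊆ (A ∪ B) ∪ E := by
    intro x hx
    obtain ⟨hx1, hx2, hdt, hv1, hv2⟩ := hS x hx
    obtain ⟨a₁, a₂, e1, e2, s1, s2⟩ := crd hκ hT0 hm hR hx1 hv1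
    obtain ⟨b₁, b₂, e3, e4, s3, s4⟩ := crd hκ hT0 hm hR hx2 hv2
    rw [← hmd] at e1 e2 e3 e4
    rw [← hb, ← hu] at s1 s3
    rw [← hb, ← hw] at s2 s4
    have v1 : x.1 = ![(a₁ : K) / m, (a₂ : K) / m] := by
      funext i
      fin_cases i
      · simp [e1, mul_div_cancel_left₀ _ hm0]
      · simp [e2, mul_div_cancel_left₀ _ hm0]
    have v2 : x.2 = ![(b₁ : K) / m, (b₂ : K) / m] := by
      funext i
      fin_cases i
      · simp [e3, mul_div_cancel_left₀ _ hm0]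
      · simp [e4, mul_div_cancel_left₀ _ hm0]
    have hdt2 : (a₁ : K) * b₂ = a₂ * b₁ := by
      have h1 : x.1 0 * x.2 1 - x.1 1 * x.2 0 = 0 := hdt
      rw [e1, e2, e3, e4]
      linear_combination m ^ 2 * h1
    by_cases ha2 : a₂ = 0
    · by_cases ha1 : a₁ = 0
      · right
        rw [hE]
        refine ⟨(b₁, b₂), ⟨?_, ?_⟩, ?_⟩
        · rw [hI₁]
          exact s3
        · rw [hI₂]
          exact s4
        · refine Prod.ext ?_ v2.symm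
          rw [v1, ha1, ha2]
          funext i
          fin_cases i <;> simp
      · left
        right
        rw [hB]
        have hb2 : b₂ = 0 := by
          rw [ha2] at hdt2
          have h1 : (a₁ : K) * b₂ = 0 := by
            rw [hdt2]
            simp
          rcases mul_eq_zero.1 h1 with h2 | h2
          · exact absurd (by exact_mod_cast h2) ha1
          · exact_mod_cast h2
        refine ⟨(a₁, b₁), ⟨?_, ?_⟩, ?_⟩
        · rw [hI₁]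
          exact s1
        · rw [hI₁]
          exact s3
        · refine Prod.ext ?_ ?_
          · rw [v1, ha2]
            funext i
            fin_cases i <;> simp
          · rw [v2, hb2]
            funext i
            fin_cases i <;> simp
    · left
      left
      rw [hA]
      have ha2' : (a₂ : K) ≠ 0 := by exact_mod_cast ha2
      refine ⟨((a₁, a₂), b₂), ⟨⟨?_, ?_⟩, ?_⟩, ?_⟩
      · rw [hI₁]
        exact s1
      · rw [hI₂]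
        exact s2
      · rw [hI₂]
        exact s4
      · refine Prod.ext ?_ ?_
        · rw [v1]
        · rw [v2]
          funext i
          fin_cases i
          · simp only [Fin.zero_eta, Matrix.cons_val_zero]
            rw [hdt2, mul_div_cancel_left₀ _ ha2']
          · simp
  have fU : ((A ∪ B) ∪ E).Finite := (fA.union fB).union fE
  refine ⟨fU.subset hsub, ?_⟩
  have n1 : S.ncard ≤ I₁.ncard * I₂.ncard * I₂.ncard + I₁.ncard * I₁.ncard + I₁.ncard * I₂.ncard := by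
    have h1 := Set.ncard_le_ncard hsub fU
    have h2 := Set.ncard_union_le (A ∪ B) E
    have h3 := Set.ncard_union_le A B
    omega
  have n2 : (S.ncard : ℝ) ≤ (I₁.ncard : ℝ) * I₂.ncard * I₂.ncard + (I₁.ncard : ℝ) * I₁.ncard +
      (I₁.ncard : ℝ) * I₂.ncard := by exact_mod_cast n1
  have n3 := dep_num hd1 hw1 hwu hC₀ hb1 (Nat.cast_nonneg _) (Nat.cast_nonneg _) c1 c2
  refine n2.trans (n3.trans ?_)
  obtain ⟨hnd0, hnd⟩ := nd_le hR
  have hix1 : (1 : ℝ) ≤ (ix Λ : ℝ) ^ 2 := one_le_pow₀ (by exact_mod_cast hix)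
  have h5 : u ^ (2 * Module.finrank ℚ K) * w ^ (2 * Module.finrank ℚ K) ≤
      κ ^ Module.finrank ℚ K * (T ^ (4 * Module.finrank ℚ K) * (ix Λ : ℝ) ^ 2 / nd f) := by
    have h6 : u ^ (2 * Module.finrank ℚ K) * w ^ (2 * Module.finrank ℚ K) *
        (T₁ * T₂) ^ (2 * Module.finrank ℚ K) = T ^ (4 * Module.finrank ℚ K) := by
      rw [← mul_pow, ← mul_pow]
      have h7 : u * w * (T₁ * T₂) = T ^ 2 := by
        rw [hu, hw]
        field_simp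
      rw [h7, ← pow_mul]
      congr 1
      ring
    rw [mul_div_assoc', le_div_iff₀ hnd0]
    calc u ^ (2 * Module.finrank ℚ K) * w ^ (2 * Module.finrank ℚ K) * nd f ≤
        u ^ (2 * Module.finrank ℚ K) * w ^ (2 * Module.finrank ℚ K) *
          (κ ^ Module.finrank ℚ K * (T₁ * T₂) ^ (2 * Module.finrank ℚ K)) := by gcongr
      _ = κ ^ Module.finrank ℚ K * (T ^ (4 * Module.finrank ℚ K) * 1) := by
          rw [← h6]
          ring
      _ ≤ _ := by gcongr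
  have h6 : 1 / w = T₂ / T := by
    rw [hw]
    field_simp
  rw [h6]
  calc 3 * C₀ ^ 3 * b ^ (3 * Module.finrank ℚ K) *
        (u ^ (2 * Module.finrank ℚ K) * w ^ (2 * Module.finrank ℚ K)) * (T₂ / T) ≤
      3 * C₀ ^ 3 * b ^ (3 * Module.finrank ℚ K) *
        (κ ^ Module.finrank ℚ K * (T ^ (4 * Module.finrank ℚ K) * (ix Λ : ℝ) ^ 2 / nd f)) * (T₂ / T) := by
        gcongr
    _ = _ := by ring

section lt

variable (K : Type) [Field K] [NumberField K]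

variable {K} in
private theorem mem_OO {m : ℕ} (x : Fin m → K) :
    x ∈ OO K m ↔ ∃ z : Fin m → 𝓞 K, x = fun i => (z i : K) := by
  constructor
  · intro h
    choose z hz using h
    exact ⟨z, funext fun i => (hz i).symm⟩
  · rintro ⟨z, rfl⟩ i
    exact ⟨z i, rfl⟩

variable {K} in
private theorem osmul {m : ℕ} (r : 𝓞 K) (x : Fin m → K) : r • x = fun i => (r : K) * x i := by
  funext i
  rw [Pi.smul_apply, Algebra.smul_def]

variable {K} in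
private theorem mem_nO {n m : ℕ} (x : Fin m → K) :
    x ∈ nO K n m ↔ ∃ z : Fin m → 𝓞 K, x = fun i => (n : K) * (z i : K) := by
  unfold nO
  rw [Submodule.ideal_span_singleton_smul, Submodule.mem_smul_pointwise_iff_exists]
  constructor
  · rintro ⟨y, hy, rfl⟩
    obtain ⟨z, rfl⟩ := (mem_OO y).1 hy
    refine ⟨z, ?_⟩
    rw [osmul]
    simp
  · rintro ⟨z, rfl⟩
    refine ⟨fun i => (z i : K), (mem_OO _).2 ⟨z, rfl⟩, ?_⟩
    rw [osmul]
    simp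

/-- the coordinates -/
private def cmap (m : ℕ) : (Fin m → 𝓞 K) →+ (Fin m → K) where
  toFun z i := (z i : K)
  map_zero' := by
    funext i
    simp
  map_add' z z' := by
    funext i
    simp

private theorem cmap_inj (m : ℕ) : Function.Injective (cmap K m) := by
  intro z z' h
  funext i
  exact RingOfIntegers.coe_injective (congrFun h i)

/-- multiplication by `n` on `𝓞^m` -/
private def mulN (m n : ℕ) : (Fin m → 𝓞 K) →ₗ[ℤ] (Fin m → 𝓞 K) := (n : ℤ) • LinearMap.id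

private theorem mulN_index (m n : ℕ) (hn : n ≠ 0) :
    (LinearMap.range (mulN K m n)).toAddSubgroup.index = n ^ (m * Module.finrank ℚ K) := by
  have hinj : Function.Injective (mulN K m n) := by
    intro z z' h
    have h1 : (n : ℤ) • z = (n : ℤ) • z' := h
    exact smul_right_injective _ (by exact_mod_cast hn : (n : ℤ) ≠ 0) h1
  have h1 := Submodule.natAbs_det_equiv (LinearMap.range (mulN K m n))
    (LinearEquiv.ofInjective (mulN K m n) hinj)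
  have h2 : (LinearMap.range (mulN K m n)).subtype ∘ₗ AddMonoidHom.toIntLinearMap
      ((LinearEquiv.ofInjective (mulN K m n) hinj : (Fin m → 𝓞 K) ≃ₗ[ℤ] _) :
        (Fin m → 𝓞 K) →+ _) = mulN K m n := by
    ext z
    rfl
  rw [h2] at h1
  have h3 : LinearMap.det (mulN K m n) = (n : ℤ) ^ (m * Module.finrank ℚ K) := by
    unfold mulN
    rw [LinearMap.det_smul, LinearMap.det_id, mul_one, Module.finrank_pi_fintype]
    simp [RingOfIntegers.rank]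
  rw [h3, Int.natAbs_pow, Int.natAbs_natCast] at h1
  exact h1.symm

private theorem idx_nO (m n : ℕ) (hn : n ≠ 0) :
    (nO K n m).toAddSubgroup.relIndex (OO K m).toAddSubgroup = n ^ (m * Module.finrank ℚ K) := by
  have h1 : (nO K n m).toAddSubgroup =
      (LinearMap.range (mulN K m n)).toAddSubgroup.map (cmap K m) := by
    ext x
    rw [Submodule.mem_toAddSubgroup, mem_nO, AddSubgroup.mem_map]
    constructor
    · rintro ⟨z, rfl⟩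
      refine ⟨(n : ℤ) • z, ⟨z, rfl⟩, ?_⟩
      funext i
      simp [cmap]
    · rintro ⟨y, ⟨z, rfl⟩, rfl⟩
      refine ⟨z, ?_⟩
      funext i
      simp [cmap, mulN]
  have h2 : (OO K m).toAddSubgroup = (⊤ : AddSubgroup (Fin m → 𝓞 K)).map (cmap K m) := by
    ext x
    rw [Submodule.mem_toAddSubgroup, mem_OO, AddSubgroup.mem_map]
    constructor
    · rintro ⟨z, rfl⟩
      exact ⟨z, trivial, rfl⟩
    · rintro ⟨z, _, rfl⟩
      exact ⟨z, rfl⟩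
  rw [h1, h2, AddSubgroup.relIndex_map_map_of_injective _ _ (cmap_inj K m),
    AddSubgroup.relIndex_top_right, mulN_index K m n hn]
variable {K} in
private theorem nO_le_OO {m n : ℕ} : nO K n m ≤ OO K m := by
  intro x hx
  rw [mem_nO] at hx
  rw [mem_OO]
  obtain ⟨z, rfl⟩ := hx
  refine ⟨fun i => (n : 𝓞 K) * z i, ?_⟩
  funext i
  simp

private theorem sum_fib {A B : Type} [AddCommGroup A] [AddCommGroup B] [Fintype A] [Fintype B]
    (π : A →+ B) (hπ : Function.Surjective π) (F : B → ℝ) :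
    (∑ a, F (π a)) * Fintype.card B = Fintype.card A * ∑ b, F b := by
  have hk : ∀ b : B, (Finset.univ.filter (fun a => π a = b)).card =
      (Finset.univ.filter (fun a => π a = 0)).card := fun b =>
    AddMonoidHom.card_fiber_eq_of_mem_range π (hπ b) (hπ 0)
  set k := (Finset.univ.filter (fun a => π a = 0)).card with hkdef
  have h1 : ∑ a, F (π a) = k * ∑ b, F b := by
    rw [← Finset.sum_fiberwise Finset.univ π (fun a => F (π a)), Finset.mul_sum]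
    refine Finset.sum_congr rfl fun b _ => ?_
    rw [Finset.sum_congr rfl (g := fun _ => F b) fun a ha => by rw [(Finset.mem_filter.1 ha).2],
      Finset.sum_const, hk b, nsmul_eq_mul]
  have h2 : Fintype.card A = k * Fintype.card B := by
    have h3 := Finset.sum_fiberwise Finset.univ π (fun _ => 1)
    simp only [Finset.sum_const, smul_eq_mul, mul_one, hk] at h3
    rw [Finset.card_univ, Finset.card_univ, mul_comm] at h3
    exact h3.symm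
  rw [h1, h2]
  push_cast
  ring

variable {K} in
private theorem mem_JV {m : ℕ} (V : Submodule (𝓞 K) (Fin m → K)) (J : Ideal (𝓞 K)) (v : V) :
    v ∈ (J • ⊤ : Submodule (𝓞 K) V) ↔ (v : Fin m → K) ∈ J • V := by
  have h1 : (J • ⊤ : Submodule (𝓞 K) V).map V.subtype = J • V := by
    rw [Submodule.map_smul'', Submodule.map_top, Submodule.range_subtype]
  rw [← h1]
  constructor
  · intro hv
    exact ⟨v, hv, rfl⟩
  · rintro ⟨w, hw, hwv⟩
    have h2 : w = v := Subtype.ext hwv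
    rwa [← h2]

variable {K} in
private theorem emb_add_smul {m : ℕ} (v : Fin m → K) (n : ℕ) (z : Fin m → 𝓞 K) :
    emb (v + fun i => (n : K) * (z i : K)) = emb v + (n : ℝ) • emb (fun i => (z i : K)) := by
  funext w i
  simp [emb]


variable {K} in
private theorem card_A {Λ : Submodule (𝓞 K) (Fin 2 → K)} (hO : OO K 2 ≤ Λ) (n : ℕ) (hn : n ≠ 0) :
    Nat.card (Λ ⧸ (nO K n 2).comap Λ.subtype) = n ^ (2 * Module.finrank ℚ K) * ix Λ := by
  have h1 := AddSubgroup.relIndex_mul_relIndex (nO K n 2).toAddSubgroup (OO K 2).toAddSubgroup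
    Λ.toAddSubgroup (nO_le_OO (K := K)) hO
  rw [idx_nO K 2 n hn] at h1
  exact h1.symm

variable {K} in
private theorem nO_JL {Λ : Submodule (𝓞 K) (Fin 2 → K)} (hO : OO K 2 ≤ Λ) (J : Ideal (𝓞 K)) :
    nO K (Ideal.absNorm J) 2 ≤ J • Λ := by
  intro x hx
  rw [mem_nO] at hx
  obtain ⟨z, rfl⟩ := hx
  have h1 : (fun i => (z i : K)) ∈ Λ := hO ((mem_OO _).2 ⟨z, rfl⟩)
  have h2 := Submodule.smul_mem_smul (Ideal.absNorm_mem J) h1
  rw [osmul] at h2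
  have h3 : (fun i => (((Ideal.absNorm J : ℕ) : 𝓞 K) : K) * (z i : K)) =
      fun i => (Ideal.absNorm J : K) * (z i : K) := by
    funext i
    simp
  rwa [h3] at h2

variable {K} in
private theorem pair_sum (V : Submodule (𝓞 K) (Fin 2 → K)) (n : ℕ) (hn : n ≠ 0)
    (hWV : nO K n 2 ≤ V) (g : (Fin 2 → K) → (Fin 2 → K) → Prop)
    (hg : ∀ v w a b : Fin 2 → K, a ∈ nO K n 2 → b ∈ nO K n 2 → g v w → g (v + a) (w + b))
    [Fintype (V ⧸ (nO K n 2).comap V.subtype)] (D : Set (En K 2))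
    (hfin : ∀ v : En K 2,
      {z : Fin 2 → 𝓞 K | v + (n : ℝ) • emb (fun i => (z i : K)) ∈ D}.Finite) :
    {x : (Fin 2 → K) × (Fin 2 → K) | x.1 ∈ V ∧ x.2 ∈ V ∧ emb x.1 ∈ D ∧ emb x.2 ∈ D ∧ g x.1 x.2}.Finite ∧
    ({x : (Fin 2 → K) × (Fin 2 → K) | x.1 ∈ V ∧ x.2 ∈ V ∧ emb x.1 ∈ D ∧ emb x.2 ∈ D ∧ g x.1 x.2}.ncard : ℝ) =
      ∑ c : (V ⧸ (nO K n 2).comap V.subtype) × (V ⧸ (nO K n 2).comap V.subtype),
      (if g ((Quotient.out c.1 : V) : Fin 2 → K) ((Quotient.out c.2 : V) : Fin 2 → K) then (1 : ℝ) else 0) *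
        (({z : Fin 2 → 𝓞 K | emb ((Quotient.out c.1 : V) : Fin 2 → K) +
          (n : ℝ) • emb (fun i => (z i : K)) ∈ D}.ncard : ℝ) *
        ({z : Fin 2 → 𝓞 K | emb ((Quotient.out c.2 : V) : Fin 2 → K) +
          (n : ℝ) • emb (fun i => (z i : K)) ∈ D}.ncard : ℝ)) := by
  have hnK : (n : K) ≠ 0 := by exact_mod_cast hn
  obtain ⟨H, hH⟩ : ∃ H : (V ⧸ (nO K n 2).comap V.subtype) → (Fin 2 → 𝓞 K) → (Fin 2 → K),
    H = fun c z => ((Quotient.out c : V) : Fin 2 → K) + fun i => (n : K) * (z i : K) := ⟨_, rfl⟩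
  have hmem : ∀ z : Fin 2 → 𝓞 K, (fun i => (n : K) * (z i : K)) ∈ nO K n 2 := fun z =>
    (mem_nO _).2 ⟨z, rfl⟩
  have hmk : ∀ (c : V ⧸ (nO K n 2).comap V.subtype),
      (Submodule.Quotient.mk (Quotient.out c) : V ⧸ (nO K n 2).comap V.subtype) = c := fun c =>
    Quotient.out_eq c
  have hinj : ∀ c z c' z', H c z = H c' z' → c = c' ∧ z = z' := by
    intro c z c' z' hp
    have hp' : ((Quotient.out c : V) : Fin 2 → K) + (fun i => (n : K) * (z i : K)) =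
        ((Quotient.out c' : V) : Fin 2 → K) + fun i => (n : K) * (z' i : K) := by
      rw [hH] at hp
      exact hp
    have hc : c = c' := by
      rw [← hmk c, ← hmk c', Submodule.Quotient.eq, Submodule.mem_comap, Submodule.subtype_apply,
        Submodule.coe_sub]
      have h1 : ((Quotient.out c : V) : Fin 2 → K) - (Quotient.out c' : V) =
          (fun i => (n : K) * (z' i : K)) - fun i => (n : K) * (z i : K) := by
        rw [sub_eq_sub_iff_add_eq_add, hp', add_comm]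
      rw [h1]
      exact (nO K n 2).sub_mem (hmem z') (hmem z)
    subst hc
    refine ⟨rfl, ?_⟩
    funext i
    have h1 := congrFun (add_left_cancel hp') i
    exact RingOfIntegers.coe_injective (mul_left_cancel₀ hnK h1)
  have hsurj : ∀ v ∈ V, emb v ∈ D → ∃ c z, H c z = v ∧
      emb ((Quotient.out c : V) : Fin 2 → K) + (n : ℝ) • emb (fun i => (z i : K)) ∈ D := by
    intro v hv hvD
    have h1 : (⟨v, hv⟩ : V) - Quotient.out (Submodule.Quotient.mk ⟨v, hv⟩ :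
        V ⧸ (nO K n 2).comap V.subtype) ∈ (nO K n 2).comap V.subtype := by
      rw [← Submodule.Quotient.eq, hmk]
    rw [Submodule.mem_comap, Submodule.subtype_apply, Submodule.coe_sub, mem_nO] at h1
    obtain ⟨z, hz⟩ := h1
    have h2 : H (Submodule.Quotient.mk ⟨v, hv⟩) z = v := by
      rw [hH]
      simp only
      rw [← hz]
      simp
    refine ⟨Submodule.Quotient.mk ⟨v, hv⟩, z, h2, ?_⟩
    rw [← emb_add_smul]
    have h3 : ((Quotient.out (Submodule.Quotient.mk ⟨v, hv⟩ : V ⧸ (nO K n 2).comap V.subtype) : V) :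
        Fin 2 → K) + (fun i => (n : K) * (z i : K)) = v := by
      rw [hH] at h2
      exact h2
    rw [h3]
    exact hvD
  have hHV : ∀ c z, H c z ∈ V := fun c z => by
    rw [hH]
    exact V.add_mem (Quotient.out c).2 (hWV (hmem z))
  have hHD : ∀ c z, emb ((Quotient.out c : V) : Fin 2 → K) + (n : ℝ) • emb (fun i => (z i : K)) ∈ D →
      emb (H c z) ∈ D := by
    intro c z h
    rw [← emb_add_smul] at h
    rw [hH]
    exact h
  obtain ⟨Z, hZ⟩ : ∃ Z : (V ⧸ (nO K n 2).comap V.subtype) → Finset (Fin 2 → 𝓞 K), Z = fun c =>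
    (hfin (emb ((Quotient.out c : V) : Fin 2 → K))).toFinset := ⟨_, rfl⟩
  have hZm : ∀ c z, z ∈ Z c ↔ emb ((Quotient.out c : V) : Fin 2 → K) +
      (n : ℝ) • emb (fun i => (z i : K)) ∈ D := by
    intro c z
    rw [hZ, Set.Finite.mem_toFinset]
    rfl
  have hZc : ∀ c, (Z c).card = {z : Fin 2 → 𝓞 K | emb ((Quotient.out c : V) : Fin 2 → K) +
      (n : ℝ) • emb (fun i => (z i : K)) ∈ D}.ncard := by
    intro c
    rw [hZ, Set.ncard_eq_toFinset_card _ (hfin (emb ((Quotient.out c : V) : Fin 2 → K)))]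
  have hgi : ∀ c z c' z', g (H c z) (H c' z') ↔
      g ((Quotient.out c : V) : Fin 2 → K) ((Quotient.out c' : V) : Fin 2 → K) := by
    intro c z c' z'
    rw [hH]
    constructor
    · intro h
      have h1 := hg _ _ _ _ ((nO K n 2).neg_mem (hmem z)) ((nO K n 2).neg_mem (hmem z')) h
      simpa using h1
    · exact hg _ _ _ _ (hmem z) (hmem z')
  obtain ⟨P, hP⟩ : ∃ P : Finset ((V ⧸ (nO K n 2).comap V.subtype) × (V ⧸ (nO K n 2).comap V.subtype)),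
    P = Finset.univ.filter (fun c => g ((Quotient.out c.1 : V) : Fin 2 → K)
      ((Quotient.out c.2 : V) : Fin 2 → K)) := ⟨_, rfl⟩
  obtain ⟨F, hF⟩ : ∃ F : (Σ _ : (V ⧸ (nO K n 2).comap V.subtype) × (V ⧸ (nO K n 2).comap V.subtype),
      ((Fin 2 → 𝓞 K) × (Fin 2 → 𝓞 K))) → (Fin 2 → K) × (Fin 2 → K),
    F = fun p => (H p.1.1 p.2.1, H p.1.2 p.2.2) := ⟨_, rfl⟩
  have hFi : Function.Injective F := by
    rintro ⟨⟨c, c'⟩, ⟨z, z'⟩⟩ ⟨⟨e, e'⟩, ⟨y, y'⟩⟩ h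
    rw [hF] at h
    obtain ⟨h1, h2⟩ := Prod.mk.inj h
    obtain ⟨h3, h4⟩ := hinj _ _ _ _ h1
    obtain ⟨h5, h6⟩ := hinj _ _ _ _ h2
    simp only at h3 h4 h5 h6
    subst h3 h4 h5 h6
    rfl
  have hS : {x : (Fin 2 → K) × (Fin 2 → K) | x.1 ∈ V ∧ x.2 ∈ V ∧ emb x.1 ∈ D ∧ emb x.2 ∈ D ∧ g x.1 x.2} =
      ((P.sigma (fun c => Z c.1 ×ˢ Z c.2)).image F : Set ((Fin 2 → K) × (Fin 2 → K))) := by
    ext x
    rw [Finset.mem_coe, Finset.mem_image]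
    constructor
    · rintro ⟨h1, h2, h3, h4, h5⟩
      obtain ⟨c, z, e1, e2⟩ := hsurj _ h1 h3
      obtain ⟨c', z', e3, e4⟩ := hsurj _ h2 h4
      refine ⟨⟨(c, c'), (z, z')⟩, ?_, ?_⟩
      · rw [Finset.mem_sigma, hP, Finset.mem_filter, Finset.mem_product]
        refine ⟨⟨Finset.mem_univ _, ?_⟩, (hZm c z).2 e2, (hZm c' z').2 e4⟩
        rw [← e1, ← e3] at h5
        exact (hgi c z c' z').1 h5
      · rw [hF]
        exact Prod.ext e1 e3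
    · rintro ⟨⟨⟨c, c'⟩, ⟨z, z'⟩⟩, hp, rfl⟩
      rw [Finset.mem_sigma, hP, Finset.mem_filter, Finset.mem_product] at hp
      obtain ⟨⟨-, h1⟩, h2, h3⟩ := hp
      rw [hF]
      exact ⟨hHV _ _, hHV _ _, hHD _ _ ((hZm _ _).1 h2), hHD _ _ ((hZm _ _).1 h3),
        (hgi c z c' z').2 h1⟩
  constructor
  · rw [hS]
    exact Finset.finite_toSet _
  · rw [hS, Set.ncard_coe_finset, Finset.card_image_of_injective _ hFi, Finset.card_sigma]
    push_cast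
    rw [hP, Finset.sum_filter]
    refine Finset.sum_congr rfl fun c _ => ?_
    split_ifs with h
    · rw [Finset.card_product, hZc, hZc]
      push_cast
      ring
    · simp

private theorem num_sum {P : Type} [Fintype P] (g a b : P → ℝ) {B M E : ℝ} (hg0 : ∀ p, 0 ≤ g p)
    (hB : 0 < B) (hM : 0 ≤ M) (hE : 0 ≤ E)
    (ha : ∀ p, |a p * B - M| ≤ E) (hb : ∀ p, |b p * B - M| ≤ E) :
    |∑ p, g p * (a p * b p) - (∑ p, g p) * M ^ 2 / B ^ 2| ≤ (∑ p, g p) * ((2 * M + E) * E) / B ^ 2 := by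
  have hB2 : 0 < B ^ 2 := by positivity
  have h1 : ∀ p, |(a p * B) * (b p * B) - M ^ 2| ≤ (2 * M + E) * E := by
    intro p
    have e : (a p * B) * (b p * B) - M ^ 2 = (a p * B - M) * (b p * B - M) + M * (a p * B - M) +
        M * (b p * B - M) := by ring
    rw [e]
    refine (abs_add_le _ _).trans ?_
    have e1 := abs_add_le ((a p * B - M) * (b p * B - M)) (M * (a p * B - M))
    rw [abs_mul, abs_mul M, abs_of_nonneg hM] at e1
    rw [abs_mul M, abs_of_nonneg hM]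
    have e2 : |a p * B - M| * |b p * B - M| ≤ E * E :=
      mul_le_mul (ha p) (hb p) (abs_nonneg _) hE
    have e3 : M * |a p * B - M| ≤ M * E := mul_le_mul_of_nonneg_left (ha p) hM
    have e4 : M * |b p * B - M| ≤ M * E := mul_le_mul_of_nonneg_left (hb p) hM
    linarith
  have h2 : ∑ p, g p * (a p * b p) - (∑ p, g p) * M ^ 2 / B ^ 2 =
      (∑ p, g p * ((a p * B) * (b p * B) - M ^ 2)) / B ^ 2 := by
    rw [eq_div_iff hB2.ne', sub_mul, div_mul_cancel₀ _ hB2.ne', Finset.sum_mul, Finset.sum_mul,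
      ← Finset.sum_sub_distrib]
    refine Finset.sum_congr rfl fun p _ => ?_
    ring
  rw [h2, abs_div, abs_of_pos hB2]
  refine div_le_div_of_nonneg_right ?_ hB2.le
  refine (Finset.abs_sum_le_sum_abs _ _).trans ?_
  rw [Finset.sum_mul]
  refine Finset.sum_le_sum fun p _ => ?_
  rw [abs_mul, abs_of_nonneg (hg0 p)]
  exact mul_le_mul_of_nonneg_left (h1 p) (hg0 p)

variable {K} in
private theorem gen_sum {Λ : Submodule (𝓞 K) (Fin 2 → K)} (hL : Lt Λ) (hO : OO K 2 ≤ Λ)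
    (Q : Finset (Pl K)) {n : ℕ} (hn : n ≠ 0) (hnQ : (n : ℝ) = nQ Q) (hJ : nO K n 2 ≤ JQ Q • Λ)
    [Fintype (Λ ⧸ (nO K n 2).comap Λ.subtype)] :
    ∑ c : (Λ ⧸ (nO K n 2).comap Λ.subtype) × (Λ ⧸ (nO K n 2).comap Λ.subtype),
      (if ∀ l ∈ Q, Gn l Λ ((Quotient.out c.1 : Λ) : Fin 2 → K) ((Quotient.out c.2 : Λ) : Fin 2 → K)
        then (1 : ℝ) else 0) =
      piQ Q * ((n : ℝ) ^ (2 * Module.finrank ℚ K) * ix Λ) ^ 2 := by
  obtain ⟨hc1, hc2, hper⟩ := gen_all hL Q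
  have hnR : (n : ℝ) ≠ 0 := by exact_mod_cast hn
  rw [← hnQ] at hc1 hc2
  have hle : (nO K n 2).comap Λ.subtype ≤ (JQ Q • ⊤ : Submodule (𝓞 K) Λ) := fun v hv =>
    (mem_JV Λ (JQ Q) v).2 (hJ hv)
  obtain ⟨π, hπ⟩ : ∃ π : (Λ ⧸ (nO K n 2).comap Λ.subtype) →ₗ[𝓞 K] (Λ ⧸ (JQ Q • ⊤ : Submodule (𝓞 K) Λ)),
    π = Submodule.factor hle := ⟨_, rfl⟩
  have hsurj : Function.Surjective π := by
    rw [hπ]
    exact Submodule.factor_surjective hle
  have : Finite (Λ ⧸ (JQ Q • ⊤ : Submodule (𝓞 K) Λ)) := Finite.of_surjective π hsurj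
  let _ : Fintype (Λ ⧸ (JQ Q • ⊤ : Submodule (𝓞 K) Λ)) := Fintype.ofFinite _
  obtain ⟨F, hF⟩ : ∃ F : (Λ ⧸ (JQ Q • ⊤ : Submodule (𝓞 K) Λ)) × (Λ ⧸ (JQ Q • ⊤ : Submodule (𝓞 K) Λ)) → ℝ,
    F = fun x : (Λ ⧸ (JQ Q • ⊤ : Submodule (𝓞 K) Λ)) × (Λ ⧸ (JQ Q • ⊤ : Submodule (𝓞 K) Λ)) =>
      if x ∈ {x : (Λ ⧸ (JQ Q • ⊤ : Submodule (𝓞 K) Λ)) × (Λ ⧸ (JQ Q • ⊤ : Submodule (𝓞 K) Λ)) |
      ∃ v w : Λ, Submodule.Quotient.mk v = x.1 ∧ Submodule.Quotient.mk w = x.2 ∧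
        ∀ l ∈ Q, Gn l Λ (v : Fin 2 → K) (w : Fin 2 → K)} then (1 : ℝ) else 0 := ⟨_, rfl⟩
  have h1 := sum_fib (AddMonoidHom.prodMap π.toAddMonoidHom π.toAddMonoidHom) (by
    rintro ⟨x, y⟩
    obtain ⟨a, rfl⟩ := hsurj x
    obtain ⟨b, rfl⟩ := hsurj y
    exact ⟨(a, b), rfl⟩) F
  have hmk : ∀ c : Λ ⧸ (nO K n 2).comap Λ.subtype,
      π c = Submodule.Quotient.mk (Quotient.out c) := by
    intro c
    have h3 : (Submodule.Quotient.mk (Quotient.out c) : Λ ⧸ (nO K n 2).comap Λ.subtype) = c :=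
      Quotient.out_eq c
    conv_lhs => rw [← h3]
    rw [hπ]
    exact Submodule.factor_mk hle _
  have h2 : ∀ c : (Λ ⧸ (nO K n 2).comap Λ.subtype) × (Λ ⧸ (nO K n 2).comap Λ.subtype),
      F (AddMonoidHom.prodMap π.toAddMonoidHom π.toAddMonoidHom c) =
      if ∀ l ∈ Q, Gn l Λ ((Quotient.out c.1 : Λ) : Fin 2 → K) ((Quotient.out c.2 : Λ) : Fin 2 → K)
        then (1 : ℝ) else 0 := by
    rintro ⟨c, c'⟩
    have e1 : AddMonoidHom.prodMap π.toAddMonoidHom π.toAddMonoidHom (c, c') =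
        (Submodule.Quotient.mk (Quotient.out c), Submodule.Quotient.mk (Quotient.out c')) :=
      Prod.ext (hmk c) (hmk c')
    rw [e1, hF]
    have hiff : (∃ v w : Λ, (Submodule.Quotient.mk v : Λ ⧸ (JQ Q • ⊤ : Submodule (𝓞 K) Λ)) =
        Submodule.Quotient.mk (Quotient.out c) ∧
        (Submodule.Quotient.mk w : Λ ⧸ (JQ Q • ⊤ : Submodule (𝓞 K) Λ)) =
        Submodule.Quotient.mk (Quotient.out c') ∧
        ∀ l ∈ Q, Gn l Λ (v : Fin 2 → K) (w : Fin 2 → K)) ↔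
        ∀ l ∈ Q, Gn l Λ ((Quotient.out c : Λ) : Fin 2 → K) ((Quotient.out c' : Λ) : Fin 2 → K) := by
      constructor
      · rintro ⟨v, w, hv, hw, h⟩
        rw [eq_comm, Submodule.Quotient.eq, mem_JV, Submodule.coe_sub] at hv hw
        have h3 := hper _ _ _ _ hv hw h
        rw [add_sub_cancel, add_sub_cancel] at h3
        exact h3
      · intro h
        exact ⟨_, _, rfl, rfl, h⟩
    by_cases hh : ∀ l ∈ Q, Gn l Λ ((Quotient.out c : Λ) : Fin 2 → K) ((Quotient.out c' : Λ) : Fin 2 → K)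
    · rw [if_pos hh]
      exact if_pos (hiff.2 hh)
    · rw [if_neg hh]
      exact if_neg (fun h => hh (hiff.1 h))
  rw [Finset.sum_congr rfl fun c _ => h2 c] at h1
  have h3 : ∑ b, F b = piQ Q * (n : ℝ) ^ 4 := by
    rw [← hc2, hF, Finset.sum_ite, Finset.sum_const_zero, add_zero, Finset.sum_const, nsmul_eq_mul, mul_one,
      Set.ncard_eq_toFinset_card']
    congr 2
    ext x
    simp
  have h4 : ((Fintype.card ((Λ ⧸ (JQ Q • ⊤ : Submodule (𝓞 K) Λ)) ×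
      (Λ ⧸ (JQ Q • ⊤ : Submodule (𝓞 K) Λ))) : ℕ) : ℝ) = (n : ℝ) ^ 4 := by
    rw [Fintype.card_prod, ← Nat.card_eq_fintype_card]
    push_cast
    rw [hc1]
    ring
  have h5 : ((Fintype.card ((Λ ⧸ (nO K n 2).comap Λ.subtype) ×
      (Λ ⧸ (nO K n 2).comap Λ.subtype)) : ℕ) : ℝ) = ((n : ℝ) ^ (2 * Module.finrank ℚ K) * ix Λ) ^ 2 := by
    rw [Fintype.card_prod, ← Nat.card_eq_fintype_card, card_A hO n hn]
    push_cast
    ring
  rw [h3, h4, h5] at h1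
  have h6 : ((n : ℝ) ^ 4) ≠ 0 := pow_ne_zero _ hnR
  apply mul_right_cancel₀ h6
  rw [h1]
  ring

end lt

theorem pair_cnt (K : Type) [Field K] [NumberField K] [IsTotallyComplex K] {κ : ℝ} (hκ : 1 ≤ κ) :
    ∃ C : ℝ, 1 ≤ C ∧ ∀ (Λ : Submodule (𝓞 K) (Fin 2 → K)) (f : Fin 4 → K) (Q : Finset (Pl K))
    (T T₁ T₂ : ℝ), Lt Λ → OO K 2 ≤ Λ → (ix Λ : ℝ) ≤ κ → Red κ T₁ T₂ f → nQ Q * T₂ ≤ T →
    (NP Λ f Q T).Finite ∧ |((NP Λ f Q T).ncard : ℝ) - piQ Q * cF K *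
        (T ^ (4 * Module.finrank ℚ K) * (ix Λ : ℝ) ^ 2 / nd f)| ≤
      C * (nQ Q * T₂ / T) * (T ^ (4 * Module.finrank ℚ K) * (ix Λ : ℝ) ^ 2 / nd f) := by
  obtain ⟨C₁, hC₁, hvec⟩ := vec_cnt K hκ
  obtain ⟨C₂, hC₂, hdep⟩ := dep_cnt K hκ
  obtain ⟨c, hc⟩ : ∃ c, c = cV ^ Fintype.card (InfinitePlace K) := ⟨_, rfl⟩
  have hc0 : 0 < c := by
    rw [hc]
    exact pow_pos cV_pos _
  have hv0 : 0 < cv K 2 := cv_pos K 2
  rw [← hc] at hvec
  refine ⟨(2 * c + C₁) * C₁ / cv K 2 ^ 2 + C₂, ?_, fun Λ f Q T T₁ T₂ hL hO hm hR hT => ?_⟩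
  · have : 0 ≤ (2 * c + C₁) * C₁ / cv K 2 ^ 2 := by positivity
    linarith
  obtain ⟨hJ0, hJn, hQ1⟩ := JQ_norm Q
  obtain ⟨n, hn⟩ : ∃ n, n = Ideal.absNorm (JQ Q) := ⟨_, rfl⟩
  rw [← hn] at hJn
  have hn0 : n ≠ 0 := by
    rw [hn, Ne, Ideal.absNorm_eq_zero_iff]
    exact hJ0
  have hn1 : 1 ≤ n := Nat.pos_of_ne_zero hn0
  have hnR : (0 : ℝ) < n := by exact_mod_cast hn1
  have hT1 : 0 < T₁ := by linarith [hR.one]
  have hT2 : 0 < T₂ := by linarith [hR.one, hR.le]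
  have hTT : T₂ ≤ T := by
    refine le_trans ?_ hT
    nlinarith
  have hT0 : 0 < T := by linarith
  have hJL : nO K n 2 ≤ JQ Q • Λ := by
    rw [hn]
    exact nO_JL hO (JQ Q)
  have hWV : nO K n 2 ≤ Λ := (nO_le_OO (K := K)).trans hO
  have hix := ix_pos hL hO
  have : Finite (Λ ⧸ (nO K n 2).comap Λ.subtype) := Nat.finite_of_card_ne_zero (by
    rw [card_A hO n hn0]
    exact Nat.mul_ne_zero (pow_ne_zero _ hn0) (by omega))
  let _ : Fintype (Λ ⧸ (nO K n 2).comap Λ.subtype) := Fintype.ofFinite _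
  rw [← hJn] at hT ⊢
  have hfin : ∀ v : En K 2,
      {z : Fin 2 → 𝓞 K | v + (n : ℝ) • emb (fun i => (z i : K)) ∈ Vg K f T}.Finite :=
    fun v => (hvec n T T₁ T₂ f v hn1 hT0 hR hT).1
  obtain ⟨hSf, hSc⟩ := pair_sum Λ n hn0 hWV (fun v w => ∀ l ∈ Q, Gn l Λ v w)
    (fun v w a b ha hb h => (gen_all hL Q).2.2 v w a b (hJL ha) (hJL hb) h) (Vg K f T) hfin
  obtain ⟨S, hS⟩ : ∃ S, S = {x : (Fin 2 → K) × (Fin 2 → K) | x.1 ∈ Λ ∧ x.2 ∈ Λ ∧ emb x.1 ∈ Vg K f T ∧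
    emb x.2 ∈ Vg K f T ∧ ∀ l ∈ Q, Gn l Λ x.1 x.2} := ⟨_, rfl⟩
  rw [← hS] at hSf hSc
  obtain ⟨Y, hY⟩ : ∃ Y, Y = T ^ (2 * Module.finrank ℚ K) / Real.sqrt (nd f) := ⟨_, rfl⟩
  obtain ⟨t, ht⟩ : ∃ t, t = (n : ℝ) * T₂ / T := ⟨_, rfl⟩
  have ht0 : 0 ≤ t := by
    rw [ht]
    positivity
  have ht1 : t ≤ 1 := by
    rw [ht, div_le_one hT0]
    exact hT
  obtain ⟨hnd0, hnd⟩ := nd_le hR
  have hY0 : 0 ≤ Y := by
    rw [hY]
    positivity
  obtain ⟨N, hN⟩ : ∃ N : (Λ ⧸ (nO K n 2).comap Λ.subtype) → ℝ, N = fun c =>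
    ({z : Fin 2 → 𝓞 K | emb ((Quotient.out c : Λ) : Fin 2 → K) +
          (n : ℝ) • emb (fun i => (z i : K)) ∈ Vg K f T}.ncard : ℝ) := ⟨_, rfl⟩
  have hNb : ∀ x, |N x * ((n : ℝ) ^ (2 * Module.finrank ℚ K) * cv K 2) - c * Y| ≤ C₁ * t * Y := by
    intro x
    have h1 := (hvec n T T₁ T₂ f (emb ((Quotient.out x : Λ) : Fin 2 → K)) hn1 hT0 hR hT).2
    rw [hN, hY, ht, mul_div_assoc']
    exact h1
  obtain ⟨g, hg⟩ : ∃ g : (Λ ⧸ (nO K n 2).comap Λ.subtype) × (Λ ⧸ (nO K n 2).comap Λ.subtype) → ℝ,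
    g = fun c => if ∀ l ∈ Q, Gn l Λ ((Quotient.out c.1 : Λ) : Fin 2 → K)
      ((Quotient.out c.2 : Λ) : Fin 2 → K) then (1 : ℝ) else 0 := ⟨_, rfl⟩
  have hg0 : ∀ p, 0 ≤ g p := by
    intro p
    rw [hg]
    simp only
    split_ifs <;> norm_num
  have hg1 : ∀ p, g p ≤ 1 := by
    intro p
    rw [hg]
    simp only
    split_ifs <;> norm_num
  have hgs : ∑ p, g p = piQ Q * ((n : ℝ) ^ (2 * Module.finrank ℚ K) * ix Λ) ^ 2 := by
    rw [hg]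
    exact gen_sum hL hO Q hn0 hJn hJL
  have hgc : ∑ p, g p ≤ ((n : ℝ) ^ (2 * Module.finrank ℚ K) * ix Λ) ^ 2 := by
    refine (Finset.sum_le_sum fun p _ => hg1 p).trans ?_
    rw [Finset.sum_const, Finset.card_univ, nsmul_eq_mul, mul_one, Fintype.card_prod,
      ← Nat.card_eq_fintype_card, card_A hO n hn0]
    push_cast
    exact le_of_eq (by ring)
  have hgp : 0 ≤ ∑ p, g p := Finset.sum_nonneg fun p _ => hg0 p
  have hSc2 : (S.ncard : ℝ) = ∑ p, g p * (N p.1 * N p.2) := by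
    rw [hSc, hg, hN]
    refine Finset.sum_congr rfl fun c _ => ?_
    by_cases h : ∀ l ∈ Q, Gn l Λ ((Quotient.out c.1 : Λ) : Fin 2 → K) ((Quotient.out c.2 : Λ) : Fin 2 → K)
    · simp only [if_pos h]
    · simp only [if_neg h]
  have hB0 : 0 < (n : ℝ) ^ (2 * Module.finrank ℚ K) * cv K 2 := by positivity
  have hmain := num_sum g (fun p => N p.1) (fun p => N p.2) hg0 hB0 (M := c * Y) (E := C₁ * t * Y)
    (by positivity) (by positivity) (fun p => hNb p.1) (fun p => hNb p.2)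
  rw [← hSc2] at hmain
  have hY2 : Y ^ 2 = T ^ (4 * Module.finrank ℚ K) / nd f := by
    rw [hY, div_pow, Real.sq_sqrt hnd0.le, ← pow_mul]
    congr 2
    ring
  have hnp : ((n : ℝ) ^ (2 * Module.finrank ℚ K)) ≠ 0 := by positivity
  have e1 : (∑ p, g p) * (c * Y) ^ 2 / ((n : ℝ) ^ (2 * Module.finrank ℚ K) * cv K 2) ^ 2 =
      piQ Q * cF K * (T ^ (4 * Module.finrank ℚ K) * (ix Λ : ℝ) ^ 2 / nd f) := by
    have e2 : T ^ (4 * Module.finrank ℚ K) * (ix Λ : ℝ) ^ 2 / nd f = (ix Λ : ℝ) ^ 2 * Y ^ 2 := by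
      rw [hY2]
      ring
    rw [e2, hgs]
    unfold cF
    rw [← hc]
    field_simp
  rw [e1] at hmain
  have e3 : (∑ p, g p) * ((2 * (c * Y) + C₁ * t * Y) * (C₁ * t * Y)) /
      ((n : ℝ) ^ (2 * Module.finrank ℚ K) * cv K 2) ^ 2 ≤
      (2 * c + C₁) * C₁ / cv K 2 ^ 2 * t * (T ^ (4 * Module.finrank ℚ K) * (ix Λ : ℝ) ^ 2 / nd f) := by
    have e2 : T ^ (4 * Module.finrank ℚ K) * (ix Λ : ℝ) ^ 2 / nd f = (ix Λ : ℝ) ^ 2 * Y ^ 2 := by
      rw [hY2]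
      ring
    rw [e2]
    calc (∑ p, g p) * ((2 * (c * Y) + C₁ * t * Y) * (C₁ * t * Y)) /
          ((n : ℝ) ^ (2 * Module.finrank ℚ K) * cv K 2) ^ 2 ≤
          ((n : ℝ) ^ (2 * Module.finrank ℚ K) * ix Λ) ^ 2 *
            ((2 * (c * Y) + C₁ * 1 * Y) * (C₁ * t * Y)) /
          ((n : ℝ) ^ (2 * Module.finrank ℚ K) * cv K 2) ^ 2 := by
          gcongr
      _ = _ := by
          field_simp
  obtain ⟨D, hD⟩ : ∃ D, D = {x | x ∈ S ∧ dt x.1 x.2 = 0} := ⟨_, rfl⟩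
  have hDS : D ⊆ S := by
    rw [hD]
    exact fun x hx => hx.1
  obtain ⟨hDf, hDc⟩ := hdep Λ f T T₁ T₂ hL hO hm hR hTT D (by
    intro x hx
    rw [hD] at hx
    obtain ⟨h1, h2⟩ := hx
    rw [hS] at h1
    exact ⟨h1.1, h1.2.1, h2, h1.2.2.1, h1.2.2.2.1⟩)
  have hNP : NP Λ f Q T = S \ D := by
    ext x
    rw [hD, hS]
    constructor
    · rintro ⟨h1, h2, h3, h4, h5, h6⟩
      exact ⟨⟨h1, h2, h4, h5, h6⟩, fun h => h3 h.2⟩
    · rintro ⟨⟨h1, h2, h4, h5, h6⟩, h⟩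
      exact ⟨h1, h2, fun h3 => h ⟨⟨h1, h2, h4, h5, h6⟩, h3⟩, h4, h5, h6⟩
  have hcard := Set.ncard_sdiff_add_ncard_of_subset hDS hSf
  rw [← hNP] at hcard
  have hcR : ((NP Λ f Q T).ncard : ℝ) + (D.ncard : ℝ) = S.ncard := by exact_mod_cast hcard
  refine ⟨by rw [hNP]; exact hSf.subset Set.sdiff_subset, ?_⟩
  obtain ⟨X, hX⟩ : ∃ X, X = T ^ (4 * Module.finrank ℚ K) * (ix Λ : ℝ) ^ 2 / nd f := ⟨_, rfl⟩
  have hX0 : 0 ≤ X := by
    rw [hX]
    positivity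
  rw [← hX] at hmain hDc e3 ⊢
  have hDc2 : (D.ncard : ℝ) ≤ C₂ * t * X := by
    refine hDc.trans ?_
    have h1 : T₂ / T ≤ t := by
      rw [ht]
      refine div_le_div_of_nonneg_right ?_ hT0.le
      have : (1 : ℝ) ≤ n := by exact_mod_cast hn1
      nlinarith
    gcongr
  have hD0 : (0 : ℝ) ≤ D.ncard := Nat.cast_nonneg _
  rw [abs_le] at hmain ⊢
  rw [← ht]
  have e4 : ((2 * c + C₁) * C₁ / cv K 2 ^ 2 + C₂) * t * X =
      (2 * c + C₁) * C₁ / cv K 2 ^ 2 * t * X + C₂ * t * X := by ring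
  rw [e4]
  constructor
  · linarith [hmain.1]
  · linarith [hmain.2]

theorem pair_up (K : Type) [Field K] [NumberField K] [IsTotallyComplex K] {κ : ℝ} (hκ : 1 ≤ κ) :
    ∃ C : ℝ, 1 ≤ C ∧ ∀ (Λ : Submodule (𝓞 K) (Fin 2 → K)) (f : Fin 4 → K) (T T₁ T₂ : ℝ),
    Lt Λ → OO K 2 ≤ Λ → (ix Λ : ℝ) ≤ κ → Red κ T₁ T₂ f → 1 ≤ T →
    (NP Λ f ∅ T).Finite ∧
    ((NP Λ f ∅ T).ncard : ℝ) ≤ C * (T ^ (4 * Module.finrank ℚ K) * (ix Λ : ℝ) ^ 2 / nd f) ∧
    ((NP Λ f ∅ T).Nonempty → T₂ ≤ C * T) := by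
  obtain ⟨C₁, hC₁, hcnt⟩ := pair_cnt K hκ
  have hcF : 0 ≤ cF K := by
    unfold cF
    positivity
  have hκ3 : (1 : ℝ) ≤ κ ^ 3 := one_le_pow₀ hκ
  obtain ⟨b, hb⟩ : ∃ b : ℝ, b = 12 * κ ^ 3 := ⟨_, rfl⟩
  have hb1 : 1 ≤ b := by
    rw [hb]
    linarith
  have hb0 : 0 < b := by linarith
  have hbp : (1 : ℝ) ≤ b ^ (4 * Module.finrank ℚ K) := one_le_pow₀ hb1
  have hbase : ∀ (Λ : Submodule (𝓞 K) (Fin 2 → K)) (f : Fin 4 → K) (T T₁ T₂ : ℝ),
      Lt Λ → OO K 2 ≤ Λ → (ix Λ : ℝ) ≤ κ → Red κ T₁ T₂ f → T₂ ≤ T →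
      (NP Λ f ∅ T).Finite ∧
      ((NP Λ f ∅ T).ncard : ℝ) ≤ (cF K + C₁) * (T ^ (4 * Module.finrank ℚ K) * (ix Λ : ℝ) ^ 2 / nd f) := by
    intro Λ f T T₁ T₂ hL hO hm hR hT
    have hT2 : 0 < T₂ := by linarith [hR.one, hR.le]
    have hT0 : 0 < T := by linarith
    have e1 : nQ (∅ : Finset (Pl K)) = 1 := by simp [nQ]
    have e2 : piQ (∅ : Finset (Pl K)) = 1 := by simp [piQ]
    obtain ⟨h1, h2⟩ := hcnt Λ f ∅ T T₁ T₂ hL hO hm hR (by rw [e1, one_mul]; exact hT)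
    refine ⟨h1, ?_⟩
    rw [e1, e2, one_mul, one_mul] at h2
    obtain ⟨X, hX⟩ : ∃ X, X = T ^ (4 * Module.finrank ℚ K) * (ix Λ : ℝ) ^ 2 / nd f := ⟨_, rfl⟩
    have hX0 : 0 ≤ X := by
      rw [hX]
      have := (nd_le hR).1
      positivity
    rw [← hX] at h2 ⊢
    have h3 := (abs_le.1 h2).2
    have h4 : C₁ * (T₂ / T) * X ≤ C₁ * 1 * X := by
      gcongr
      rw [div_le_one hT0]
      exact hT
    nlinarith
  refine ⟨max b ((cF K + C₁) * b ^ (4 * Module.finrank ℚ K)), hb1.trans (le_max_left _ _),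
    fun Λ f T T₁ T₂ hL hO hm hR hT => ?_⟩
  have hT1 : 0 < T₁ := by linarith [hR.one]
  have hT2 : 0 < T₂ := by linarith [hR.one, hR.le]
  have hT0 : 0 < T := by linarith
  have hnd0 := (nd_le hR).1
  have hX0 : 0 ≤ T ^ (4 * Module.finrank ℚ K) * (ix Λ : ℝ) ^ 2 / nd f := by positivity
  by_cases h1 : T₂ ≤ b * T
  · have key : ∀ T', T ≤ T' → T₂ ≤ T' → T' ≤ b * T → (NP Λ f ∅ T).Finite ∧
        ((NP Λ f ∅ T).ncard : ℝ) ≤ (cF K + C₁) * b ^ (4 * Module.finrank ℚ K) *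
          (T ^ (4 * Module.finrank ℚ K) * (ix Λ : ℝ) ^ 2 / nd f) := by
      intro T' k1 k2 k3
      have hT'0 : 0 < T' := by linarith
      obtain ⟨f1, f2⟩ := hbase Λ f T' T₁ T₂ hL hO hm hR k2
      have hmono : ∀ v : En K 2, v ∈ Vg K f T → v ∈ Vg K f T' := by
        intro v hv w
        obtain ⟨a1, a2⟩ := hv w
        exact ⟨a1.trans (pow_le_pow_left₀ hT0.le k1 2), a2.trans (pow_le_pow_left₀ hT0.le k1 6)⟩
      have hsub : NP Λ f ∅ T ⊆ NP Λ f ∅ T' := by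
        rintro x ⟨a1, a2, a3, a4, a5, a6⟩
        exact ⟨a1, a2, a3, hmono _ a4, hmono _ a5, a6⟩
      refine ⟨f1.subset hsub, ?_⟩
      have n1 : ((NP Λ f ∅ T).ncard : ℝ) ≤ (NP Λ f ∅ T').ncard := by
        exact_mod_cast Set.ncard_le_ncard hsub f1
      refine n1.trans (f2.trans ?_)
      have hC0 : 0 ≤ cF K + C₁ := by linarith
      calc (cF K + C₁) * (T' ^ (4 * Module.finrank ℚ K) * (ix Λ : ℝ) ^ 2 / nd f) ≤
          (cF K + C₁) * ((b * T) ^ (4 * Module.finrank ℚ K) * (ix Λ : ℝ) ^ 2 / nd f) := by gcongr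
        _ = _ := by
            rw [mul_pow]
            ring
    obtain ⟨k1, k2⟩ : (NP Λ f ∅ T).Finite ∧
        ((NP Λ f ∅ T).ncard : ℝ) ≤ (cF K + C₁) * b ^ (4 * Module.finrank ℚ K) *
          (T ^ (4 * Module.finrank ℚ K) * (ix Λ : ℝ) ^ 2 / nd f) := by
      by_cases h2 : T₂ ≤ T
      · refine key T le_rfl h2 ?_
        nlinarith
      · exact key T₂ (by linarith) le_rfl h1
    refine ⟨k1, k2.trans ?_, fun _ => h1.trans ?_⟩
    · gcongr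
      exact le_max_right _ _
    · gcongr
      exact le_max_left _ _
  · have hemp : NP Λ f ∅ T = ∅ := by
      rw [Set.eq_empty_iff_forall_notMem]
      rintro x ⟨a1, a2, a3, a4, a5, a6⟩
      have hlt : b * (T / T₂) < 1 := by
        rw [mul_div_assoc', div_lt_one hT2]
        linarith
      have hmK : (ix Λ : K) ≠ 0 := by
        have := ix_pos hL hO
        exact_mod_cast (by omega : ix Λ ≠ 0)
      have hz : ∀ v ∈ Λ, emb v ∈ Vg K f T → v 1 = 0 := by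
        intro v hv hV
        obtain ⟨p, q, e1, e2, s1, s2⟩ := crd hκ hT0 hm hR hv hV
        rw [← hb] at s2
        have hq : q = 0 := int_zero q fun φ => lt_of_le_of_lt (s2 φ) hlt
        rw [hq] at e2
        have e3 : (ix Λ : K) * v 1 = 0 := by
          rw [← e2]
          simp
        rcases mul_eq_zero.1 e3 with h | h
        · exact absurd h hmK
        · exact h
      apply a3
      change x.1 0 * x.2 1 - x.1 1 * x.2 0 = 0
      rw [hz _ a1 a4, hz _ a2 a5]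
      ring
    rw [hemp]
    refine ⟨Set.finite_empty, ?_, fun h => absurd h Set.not_nonempty_empty⟩
    rw [Set.ncard_empty]
    push_cast
    have : 0 ≤ max b ((cF K + C₁) * b ^ (4 * Module.finrank ℚ K)) := hb0.le.trans (le_max_left _ _)
    positivity

end H97.SXM
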