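import Pool.Agent.H97.SXM.OneL
import Pool.Agent.H97.SXM.Tail

/-!
# [SXM FMS] The form side, 120-200 lines. File Pool/Agent/H97/SXM/FmS.lean

`y = 1 + T^(4d)/R₁`, `R₁ ≥ 1/2` (`R₂ ≤ 2 R₁`).
`ft_iff`: for `Λ ∈ LQ Q`: `f ∈ Fs T R₁ R₂ Λ ↔ f ∈ FT Q T R₁ R₂ ∧ Λ = Lmx f`: both sides contain `NZ f` (by definition of `Fs`, `NZ` is the third condition); `lmx_iff`: `Λ = Lmx f ↔ f ∈ VL Λ ∧ ∀ l, f ∉ NM l Λ`; `nd_eq`: `nd f = ∏ w, ‖disc (emb f w)‖ ^ 2`, so `emb f ∈ Dg K T (R₁ ix²) (R₂ ix²)` iff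
(`D1 T` at all places) and `R₁ ix² < nd f ≤ R₂ ix²`.
So `FT Q T R₁ R₂` is the disjoint union of the sets `Fs T R₁ R₂ Λ`, `Λ ∈ LQ Q`; by `lam_fin` (a finite set `Ls` of lattices: for the others `Dg .. = ∅`, so `Fs = ∅`) it is the disjoint union over `Λ ∈ Ls` of finite sets (`one_lat` for `H = 0`, `J = ⊤`: `Per`, the hypotheses are trivial: `⊤ ≤ l.asIdeal` is impossible), hence finite (`ft_fin`).
`form_side`: `∑ᶠ_{f ∈ FT} H f = ∑_{Λ ∈ Ls} ∑ᶠ_{f ∈ Fs Λ} H f`; `one_lat` for each `Λ ∈ Ls` (`mean = m`), main terms: `∑_{Λ ∈ Ls} m T^(4d) dl kp vD = m T^(4d) GQ Q ..` (the terms with `Λ ∉ Ls` of `GQ` are 0 by `lam_fin`: `vD = 0`; `finsum_mem_eq_finite..`), errors: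
`∑_{Λ ∈ Ls} C (ix q y)^A T^(4d - η) ≤ (C y)^A' · C ((C y) q y)^A T^(4d-η)` (`ix ≤ C y`), and `∑_{Λ ∈ Ls} #Ft Q (T^η) T R₁ R₂ Λ ≤ C T^(4d) / T^η` (`tail`, all terms nonnegative; `1 ≤ T^η`).
-/

set_option autoImplicit false

open scoped NumberField Classical
open IsDedekindDomain NumberField H38.ML H63.MA H67.SX H77.MF

noncomputable section

namespace H97.SXM

theorem ft_iff (K : IntermediateField ℚ QBar) [NumberField K] [IsTotallyComplex K]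
    {Q : Finset (Pl K)} {Λ : Submodule (𝓞 K) (Fin 2 → K)} (hL : Λ ∈ LQ Q) {T R₁ R₂ : ℝ}
    (f : Fin 4 → K) : f ∈ Fs T R₁ R₂ Λ ↔ f ∈ FT Q T R₁ R₂ ∧ Λ = Lmx f := by
  constructor
  · rintro ⟨h1, h2, h3, h4⟩
    have hz : NZ f := h3
    have h5 : Λ = Lmx f := (lmx_iff hz hL.1).2 ⟨h1, h4⟩
    refine ⟨⟨hz, h2.1, ?_, ?_, ?_⟩, h5⟩
    · rw [← h5]
      exact hL
    · rw [← h5, nd_eq K f]
      exact h2.2.1
    · rw [← h5, nd_eq K f]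
      exact h2.2.2
  · rintro ⟨⟨hz, h1, h2, h3, h4⟩, h5⟩
    have h6 := (lmx_iff hz hL.1).1 h5
    rw [← h5, nd_eq K f] at h3 h4
    exact ⟨h6.1, ⟨h1, h3, h4⟩, hz, h6.2⟩

private theorem fs_fin (K : IntermediateField ℚ QBar) [NumberField K] [IsTotallyComplex K]
    {Q : Finset (Pl K)} {Λ : Submodule (𝓞 K) (Fin 2 → K)} (hL : Λ ∈ LQ Q) {T R₁ R₂ : ℝ}
    (hT : 1 ≤ T) (h0 : 0 < R₁) (h12 : R₁ ≤ R₂) : (Fs T R₁ R₂ Λ).Finite := by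
  obtain ⟨C, A, η, hC, hη, hη1, h⟩ := one_lat K
  refine (h Q Λ ⊤ (fun _ => 0) T R₁ R₂ hL ?_ ?_ ?_ ?_ ?_ hT h0 h12).1
  · exact top_ne_bot
  · intro l hl
    exact absurd (top_le_iff.1 hl) l.isPrime.ne_top
  · intro f _ g _
    rfl
  · intro f
    rw [abs_zero]
    exact zero_le_one
  · intro l _ f _
    rfl

/-- the form side is covered by finitely many lattices -/
private theorem ft_cov (K : IntermediateField ℚ QBar) [NumberField K] [IsTotallyComplex K]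
    {Q : Finset (Pl K)} {T R₁ R₂ : ℝ} {Ls : Finset (Submodule (𝓞 K) (Fin 2 → K))}
    (h : ∀ Λ ∈ LQ Q, Λ ∉ Ls → Dg K T (R₁ * (ix Λ : ℝ) ^ 2) (R₂ * (ix Λ : ℝ) ^ 2) = ∅)
    {f : Fin 4 → K} (hf : f ∈ FT Q T R₁ R₂) : Lmx f ∈ Ls ∧ f ∈ Fs T R₁ R₂ (Lmx f) := by
  have h1 : f ∈ Fs T R₁ R₂ (Lmx f) := (ft_iff K hf.2.2.1 f).2 ⟨hf, rfl⟩
  refine ⟨?_, h1⟩
  by_contra hn
  have h2 := h _ hf.2.2.1 hn
  have h3 := h1.2.1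
  rw [h2] at h3
  exact h3

theorem ft_fin (K : IntermediateField ℚ QBar) [NumberField K] [IsTotallyComplex K]
    {Q : Finset (Pl K)} {T R₁ R₂ : ℝ} (hT : 1 ≤ T) (h0 : 0 < R₁) (h12 : R₁ ≤ R₂) :
    (FT Q T R₁ R₂ : Set (Fin 4 → K)).Finite := by
  obtain ⟨C, A, hC, hl⟩ := lam_fin K
  obtain ⟨Ls, h1, h2, h3⟩ := hl Q T R₁ R₂ (by linarith) h0
  have h4 : (⋃ Λ ∈ Ls, Fs T R₁ R₂ Λ).Finite :=
    Ls.finite_toSet.biUnion fun Λ hΛ => fs_fin K (h1 Λ hΛ).1 hT h0 h12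
  refine h4.subset fun f hf => ?_
  have h5 := ft_cov K (fun Λ hΛ hn => (h3 Λ hΛ hn).1) hf
  exact Set.mem_biUnion h5.1 h5.2

theorem form_side (K : IntermediateField ℚ QBar) [NumberField K] [IsTotallyComplex K] {κ : ℝ}
    (hκ : 1 ≤ κ) (hR : RFS K κ) (hO : OCS K κ) :
    ∃ (C : ℝ) (A : ℕ) (η : ℝ), 1 ≤ C ∧ 0 < η ∧ η ≤ 1 ∧
    ∀ (Q : Finset (Pl K)) (J : Ideal (𝓞 K)) (H : (Fin 4 → K) → ℝ) (m T R₁ R₂ : ℝ),
    J ≠ ⊥ → (∀ l : Pl K, J ≤ l.asIdeal → l ∈ Q) → (∀ Λ ∈ LQ Q, Per (VL Λ) J H) →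
    (∀ f, |H f| ≤ 1) → (∀ Λ ∈ LQ Q, ∀ l ∈ Q, ∀ f ∈ NM l Λ, H f = 0) →
    (∀ Λ ∈ LQ Q, mean (VL Λ) J H = m) → 1 ≤ T → 1 ≤ R₂ → R₁ ≤ R₂ → R₂ ≤ 2 * R₁ →
    |(∑ᶠ f ∈ FT Q T R₁ R₂, H f) - m * (T ^ (4 * Module.finrank ℚ K) *
        GQ Q (R₁ / T ^ (4 * Module.finrank ℚ K)) (R₂ / T ^ (4 * Module.finrank ℚ K)))| ≤
      C * ((Ideal.absNorm J : ℝ) * (1 + T ^ (4 * Module.finrank ℚ K) / R₁)) ^ A *
        (T ^ (4 * Module.finrank ℚ K) * T ^ (-η)) := by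
  obtain ⟨C₁, A₁, η, hC₁, hη, hη1, hone⟩ := one_lat K
  obtain ⟨C₂, A₂, hC₂, hlam⟩ := lam_fin K
  obtain ⟨C₃, hC₃, htail⟩ := tail K hκ hR hO
  obtain ⟨D, hD⟩ : ∃ D : ℕ, D = 4 * Module.finrank ℚ K := ⟨_, rfl⟩
  rw [← hD] at hone hlam htail
  rw [← hD]
  have hCC : 1 ≤ C₂ * C₁ * C₂ ^ A₁ :=
    one_le_mul_of_one_le_of_one_le (one_le_mul_of_one_le_of_one_le hC₂ hC₁) (one_le_pow₀ hC₂)
  refine ⟨C₂ * C₁ * C₂ ^ A₁ + C₃, A₂ + 2 * A₁, η, by linarith, hη, hη1, ?_⟩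
  intro Q J H m T R₁ R₂ hJ hJQ hper hH1 hHN hmean hT hR₂ hRR hR2
  have hR1 : 0 < R₁ := by linarith
  have hT0 : 0 < T := by linarith
  obtain ⟨Ls, hLs1, hLs2, hLs3⟩ := hlam Q T R₁ R₂ hT0 hR1
  obtain ⟨y, hy⟩ : ∃ y : ℝ, y = 1 + T ^ D / R₁ := ⟨_, rfl⟩
  rw [← hy] at hLs1 hLs2
  rw [← hy]
  have hy1 : 1 ≤ y := by
    rw [hy]
    have : 0 ≤ T ^ D / R₁ := by positivity
    linarith
  obtain ⟨q, hq⟩ : ∃ q : ℝ, q = (Ideal.absNorm J : ℝ) := ⟨_, rfl⟩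
  have hq1 : 1 ≤ q := by
    rw [hq]
    have h1 : Ideal.absNorm J ≠ 0 := fun h => hJ (Ideal.absNorm_eq_zero_iff.1 h)
    exact_mod_cast Nat.one_le_iff_ne_zero.2 h1
  rw [← hq]
  -- the sets
  have hfs : ∀ Λ ∈ LQ Q, (Fs T R₁ R₂ Λ).Finite := fun Λ hΛ => fs_fin K hΛ hT hR1 hRR
  obtain ⟨t, ht⟩ : ∃ t : Submodule (𝓞 K) (Fin 2 → K) → Finset (Fin 4 → K),
      ∀ Λ ∈ LQ Q, (t Λ : Set (Fin 4 → K)) = Fs T R₁ R₂ Λ := by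
    refine ⟨fun Λ => if h : (Fs T R₁ R₂ Λ).Finite then h.toFinset else ∅, fun Λ hΛ => ?_⟩
    dsimp only
    rw [dif_pos (hfs Λ hΛ), Set.Finite.coe_toFinset]
  have hFT : (FT Q T R₁ R₂ : Set (Fin 4 → K)) = ((Ls.biUnion t : Finset (Fin 4 → K)) : Set (Fin 4 → K)) := by
    ext f
    rw [Finset.coe_biUnion]
    constructor
    · intro hf
      have h5 := ft_cov K (fun Λ hΛ hn => (hLs3 Λ hΛ hn).1) hf
      refine Set.mem_biUnion h5.1 ?_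
      rw [ht _ (hLs1 _ h5.1).1]
      exact h5.2
    · intro hf
      rw [Set.mem_iUnion₂] at hf
      obtain ⟨Λ, hΛ, hf⟩ := hf
      have hΛ' := (hLs1 Λ hΛ).1
      rw [ht Λ hΛ'] at hf
      exact ((ft_iff K hΛ' f).1 hf).1
  have hsum : ∑ᶠ f ∈ FT Q T R₁ R₂, H f = ∑ Λ ∈ Ls, ∑ᶠ f ∈ Fs T R₁ R₂ Λ, H f := by
    rw [hFT, finsum_mem_coe_finset, Finset.sum_biUnion]
    · refine Finset.sum_congr rfl fun Λ hΛ => ?_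
      rw [← ht Λ (hLs1 Λ hΛ).1, finsum_mem_coe_finset]
    · intro Λ hΛ Λ' hΛ' hne
      rw [Function.onFun, Finset.disjoint_left]
      intro f hf hf'
      apply hne
      have h1 : f ∈ Fs T R₁ R₂ Λ := by
        rw [← ht Λ (hLs1 Λ hΛ).1]
        exact hf
      have h2 : f ∈ Fs T R₁ R₂ Λ' := by
        rw [← ht Λ' (hLs1 Λ' hΛ').1]
        exact hf'
      rw [((ft_iff K (hLs1 Λ hΛ).1 f).1 h1).2, ((ft_iff K (hLs1 Λ' hΛ').1 f).1 h2).2]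
  have hG : GQ Q (R₁ / T ^ D) (R₂ / T ^ D) = ∑ Λ ∈ Ls, dl Λ * kp Q Λ *
      vD K ((ix Λ : ℝ) ^ 2 * (R₁ / T ^ D)) ((ix Λ : ℝ) ^ 2 * (R₂ / T ^ D)) := by
    unfold GQ
    refine finsum_mem_eq_sum_of_inter_support_eq _ ?_
    ext Λ
    simp only [Set.mem_inter_iff, Function.mem_support, Finset.mem_coe]
    constructor
    · rintro ⟨h1, h2⟩
      refine ⟨?_, h2⟩
      by_contra h3
      apply h2
      rw [(hLs3 Λ h1 h3).2, mul_zero]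
    · rintro ⟨h1, h2⟩
      exact ⟨(hLs1 Λ h1).1, h2⟩
  have hmt : m * (T ^ D * GQ Q (R₁ / T ^ D) (R₂ / T ^ D)) = ∑ Λ ∈ Ls,
      mean (VL Λ) J H * (T ^ D * (dl Λ * kp Q Λ *
      vD K ((ix Λ : ℝ) ^ 2 * (R₁ / T ^ D)) ((ix Λ : ℝ) ^ 2 * (R₂ / T ^ D)))) := by
    rw [hG, Finset.mul_sum, Finset.mul_sum]
    refine Finset.sum_congr rfl fun Λ hΛ => ?_
    rw [hmean Λ (hLs1 Λ hΛ).1]
  rw [hsum, hmt, ← Finset.sum_sub_distrib]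
  obtain ⟨W, hW⟩ : ∃ W : ℝ, W = T ^ D * T ^ (-η) := ⟨_, rfl⟩
  have hTe : 0 < T ^ (-η) := Real.rpow_pos_of_pos hT0 _
  have hW0 : 0 < W := by
    rw [hW]
    positivity
  rw [← hW]
  have hqy : 1 ≤ q * y := one_le_mul_of_one_le_of_one_le hq1 hy1
  -- each lattice
  have h1 : ∀ Λ ∈ Ls, |(∑ᶠ f ∈ Fs T R₁ R₂ Λ, H f) - mean (VL Λ) J H * (T ^ D * (dl Λ * kp Q Λ *
      vD K ((ix Λ : ℝ) ^ 2 * (R₁ / T ^ D)) ((ix Λ : ℝ) ^ 2 * (R₂ / T ^ D))))| ≤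
      C₁ * (C₂ ^ A₁ * (q * y) ^ (2 * A₁)) * W + ((Ft Q (T ^ η) T R₁ R₂ Λ).ncard : ℝ) := by
    intro Λ hΛ
    obtain ⟨hΛ1, hΛ2⟩ := hLs1 Λ hΛ
    have h2 := (hone Q Λ J H T R₁ R₂ hΛ1 hJ hJQ (hper Λ hΛ1) hH1 (hHN Λ hΛ1) hT hR1 hRR).2
    refine h2.trans (add_le_add ?_ le_rfl)
    rw [← hW, ← hy, ← hq]
    refine mul_le_mul_of_nonneg_right ?_ hW0.le
    refine mul_le_mul_of_nonneg_left ?_ (by linarith)
    have h3 : (ix Λ : ℝ) * q * y ≤ C₂ * (q * y) ^ 2 := by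
      have h4 : (ix Λ : ℝ) * (q * y) ≤ (C₂ * y) * (q * y) :=
        mul_le_mul_of_nonneg_right hΛ2 (by linarith)
      have h5 : (C₂ * y) * (q * y) ≤ (C₂ * (q * y)) * (q * y) := by
        refine mul_le_mul_of_nonneg_right ?_ (by linarith)
        refine mul_le_mul_of_nonneg_left ?_ (by linarith)
        exact le_mul_of_one_le_left (by linarith) hq1
      calc (ix Λ : ℝ) * q * y = (ix Λ : ℝ) * (q * y) := by ring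
        _ ≤ _ := h4.trans h5
        _ = C₂ * (q * y) ^ 2 := by ring
    calc ((ix Λ : ℝ) * q * y) ^ A₁ ≤ (C₂ * (q * y) ^ 2) ^ A₁ :=
          pow_le_pow_left₀ (by positivity) h3 _
      _ = C₂ ^ A₁ * (q * y) ^ (2 * A₁) := by
          rw [mul_pow, ← pow_mul]
  -- the tail
  have hTη : 1 ≤ T ^ η := Real.one_le_rpow hT hη.le
  obtain ⟨ht1, ht2, ht3⟩ := htail Q (T ^ η) T R₁ R₂ hTη hT hR₂ hRR hR2
  have h2 : ∑ Λ ∈ Ls, ((Ft Q (T ^ η) T R₁ R₂ Λ).ncard : ℝ) ≤ C₃ * W := by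
    have h3 : ∑ᶠ Λ ∈ LQ Q, ((Ft Q (T ^ η) T R₁ R₂ Λ).ncard : ℝ) =
        ∑ Λ ∈ Ls ∪ ht2.toFinset, ((Ft Q (T ^ η) T R₁ R₂ Λ).ncard : ℝ) := by
      refine finsum_mem_eq_sum_of_inter_support_eq _ ?_
      ext Λ
      simp only [Set.mem_inter_iff, Function.mem_support, Finset.coe_union, Set.mem_union,
        Finset.mem_coe, Set.Finite.coe_toFinset]
      constructor
      · rintro ⟨h2, h3⟩
        refine ⟨Or.inr ⟨h2, ?_⟩, h3⟩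
        rw [Set.nonempty_iff_ne_empty]
        intro h5
        rw [h5, Set.ncard_empty, Nat.cast_zero] at h3
        exact h3 rfl
      · rintro ⟨h2 | h2, h3⟩
        · exact ⟨(hLs1 Λ h2).1, h3⟩
        · exact ⟨h2.1, h3⟩
    have h4 : ∑ Λ ∈ Ls, ((Ft Q (T ^ η) T R₁ R₂ Λ).ncard : ℝ) ≤
        ∑ Λ ∈ Ls ∪ ht2.toFinset, ((Ft Q (T ^ η) T R₁ R₂ Λ).ncard : ℝ) :=
      Finset.sum_le_sum_of_subset_of_nonneg Finset.subset_union_left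
        fun _ _ _ => Nat.cast_nonneg _
    refine h4.trans ?_
    rw [← h3]
    refine ht3.trans (le_of_eq ?_)
    rw [hW, Real.rpow_neg hT0.le]
    ring
  have hM0 : 0 ≤ C₁ * (C₂ ^ A₁ * (q * y) ^ (2 * A₁)) * W := by
    have : 0 ≤ C₁ := by linarith
    have : 0 ≤ C₂ := by linarith
    have : 0 ≤ q * y := by linarith
    positivity
  calc |∑ Λ ∈ Ls, ((∑ᶠ f ∈ Fs T R₁ R₂ Λ, H f) - mean (VL Λ) J H * (T ^ D * (dl Λ * kp Q Λ *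
      vD K ((ix Λ : ℝ) ^ 2 * (R₁ / T ^ D)) ((ix Λ : ℝ) ^ 2 * (R₂ / T ^ D)))))| ≤
      ∑ Λ ∈ Ls, (C₁ * (C₂ ^ A₁ * (q * y) ^ (2 * A₁)) * W +
        ((Ft Q (T ^ η) T R₁ R₂ Λ).ncard : ℝ)) :=
        (Finset.abs_sum_le_sum_abs _ _).trans (Finset.sum_le_sum h1)
    _ = (Ls.card : ℝ) * (C₁ * (C₂ ^ A₁ * (q * y) ^ (2 * A₁)) * W) +
        ∑ Λ ∈ Ls, ((Ft Q (T ^ η) T R₁ R₂ Λ).ncard : ℝ) := by
        rw [Finset.sum_add_distrib, Finset.sum_const, nsmul_eq_mul]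
    _ ≤ (C₂ * (q * y) ^ A₂) * (C₁ * (C₂ ^ A₁ * (q * y) ^ (2 * A₁)) * W) + C₃ * W := by
        refine add_le_add (mul_le_mul_of_nonneg_right ?_ hM0) h2
        refine hLs2.trans (mul_le_mul_of_nonneg_left ?_ (by linarith))
        exact pow_le_pow_left₀ (by linarith) (le_mul_of_one_le_left (by linarith) hq1) _
    _ ≤ (C₂ * (q * y) ^ A₂) * (C₁ * (C₂ ^ A₁ * (q * y) ^ (2 * A₁)) * W) +
        C₃ * (q * y) ^ (A₂ + 2 * A₁) * W := by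
        refine add_le_add le_rfl (mul_le_mul_of_nonneg_right ?_ hW0.le)
        exact le_mul_of_one_le_right (by linarith) (one_le_pow₀ hqy)
    _ = (C₂ * C₁ * C₂ ^ A₁ + C₃) * (q * y) ^ (A₂ + 2 * A₁) * W := by
        rw [pow_add]
        ring

end H97.SXM
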