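import Pool.Agent.H97.SXM.GenQ

/-!
# [SXM FRM] Frames which generate the lattice at a finite set of primes, 50-90 lines. File Pool/Agent/H97/SXM/Frm.lean

`loc_frame`: `base_ex c` gives `(f₀, w)`; `Λ = LF w`, `Lt Λ` (`lf_lt`). `gen_all` for `Q := B`: the number of the pairs of classes which generate at all `l ∈ B` is `piQ B nQ(B)^4 > 0` (`piQ > 0`: `nm l ≥ 2`), so there are `v, v' ∈ Λ` with `Gn l Λ v v'` for all `l ∈ B`. If `B ≠ ∅`, then `dt v v' ≠ 0`: take `p, p' ∈ Λ` with `dt p p' ≠ 0` (`Lt`), `l ∈ B`, `s, s' ∉ l` with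
`s p, s' p' ∈ span {v, v'}`, so `s s' dt p p'` is a multiple of `dt v v'`. If `B = ∅` take `v = p`, `v' = p'`. `lv_pull` gives `u` with `Lv (dt⁻¹ pull f₀ v v') u`, `u i = lin w v_i + k i`. `OO K 2 ≤ LF u` by `lf_change` (`cb v v' x = x 0 v + x 1 v' ∈ Λ` for `x ∈ 𝓞²`), `LocEq` by `gn_iff`.
`fr_loc`: `f ∈ VL (LF u)` (`lf_vl`), `VL (LF u) = 𝓞⁴` locally at `l` (`vl_loc`), so `In l f` (`in_of_mem`). `f ∉ NM l (LF u)` (`nm_loc` with `Λ = LF u`: `LocEq` is reflexive), so `¬ NML l f` (`nm_iff`).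
-/

set_option autoImplicit false

open scoped NumberField Classical
open IsDedekindDomain NumberField H38.ML H63.MA H67.SX H77.MF

noncomputable section

namespace H97.SXM

variable {K : IntermediateField ℚ QBar} [NumberField K]

private theorem frm_dt {L : Type} [Field L] [NumberField L] {v v' p p' : Fin 2 → L}
    (hp : p ∈ Submodule.span (𝓞 L) {v, v'}) (hp' : p' ∈ Submodule.span (𝓞 L) {v, v'})
    (hd : dt v v' = 0) : dt p p' = 0 := by
  rw [Submodule.mem_span_pair] at hp hp'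
  obtain ⟨a, b, rfl⟩ := hp
  obtain ⟨a', b', rfl⟩ := hp'
  have h1 : dt (a • v + b • v') (a' • v + b' • v') =
      ((a : L) * b' - (b : L) * a') * dt v v' := by
    simp only [H77.MF.dt, Pi.add_apply, Pi.smul_apply, Algebra.smul_def]
    ring
  rw [h1, hd, mul_zero]

private theorem frm_pair {L : Type} [Field L] [NumberField L] {Λ : Submodule (𝓞 L) (Fin 2 → L)}
    (hL : Lt Λ) (B : Finset (Pl L)) :
    ∃ v ∈ Λ, ∃ v' ∈ Λ, dt v v' ≠ 0 ∧ ∀ l ∈ B, Gn l Λ v v' := by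
  obtain ⟨p, hp, p', hp', hd⟩ := hL.2
  rcases B.eq_empty_or_nonempty with rfl | ⟨l, hl⟩
  · exact ⟨p, hp, p', hp', hd, fun l hl => absurd hl (Finset.notMem_empty l)⟩
  obtain ⟨-, h2, -⟩ := gen_all hL B
  have hnm : ∀ l : Pl L, (2 : ℝ) ≤ nm l := by
    intro l
    have h3 : 2 ≤ nm l := one_lt_nm l
    exact_mod_cast h3
  have h3 : 0 < piQ B * nQ B ^ 4 := by
    refine mul_pos (Finset.prod_pos fun l _ => ?_) (pow_pos (Finset.prod_pos fun l _ => ?_) 4)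
    · have h4 := hnm l
      have h5 : 1 / (nm l : ℝ) ≤ 1 / 2 := one_div_le_one_div_of_le two_pos h4
      have h6 : 1 / (nm l : ℝ) ^ 2 ≤ 1 / 2 := by
        refine one_div_le_one_div_of_le two_pos ?_
        nlinarith
      exact mul_pos (by linarith) (by linarith)
    · have h4 := hnm l
      linarith
  rw [← h2] at h3
  have h4 : 0 < {x : (Λ ⧸ (JQ B • ⊤ : Submodule (𝓞 L) Λ)) × (Λ ⧸ (JQ B • ⊤ : Submodule (𝓞 L) Λ)) |
      ∃ v w : Λ, Submodule.Quotient.mk v = x.1 ∧ Submodule.Quotient.mk w = x.2 ∧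
        ∀ l ∈ B, Gn l Λ (v : Fin 2 → L) (w : Fin 2 → L)}.ncard := by
    exact_mod_cast h3
  obtain ⟨x, v, v', -, -, hG⟩ := Set.nonempty_of_ncard_ne_zero h4.ne'
  refine ⟨v, v.2, v', v'.2, ?_, hG⟩
  intro h0
  obtain ⟨-, -, hg⟩ := hG l hl
  obtain ⟨s, hs, h5⟩ := hg p hp
  obtain ⟨s', hs', h6⟩ := hg p' hp'
  have h7 := frm_dt h5 h6 h0
  have h8 : dt (s • p) (s' • p') = (s : L) * (s' : L) * dt p p' := by
    simp only [H77.MF.dt, Pi.smul_apply, Algebra.smul_def]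
    ring
  rw [h8] at h7
  have h9 : ∀ t : 𝓞 L, t ∉ l.asIdeal → (t : L) ≠ 0 := by
    intro t ht h10
    apply ht
    have h11 : t = 0 := by exact_mod_cast h10
    rw [h11]
    exact Ideal.zero_mem _
  exact mul_ne_zero (mul_ne_zero (h9 s hs) (h9 s' hs')) hd h7

theorem loc_frame (c : Cb K) (B : Finset (Pl K)) : ∃ (f : Fin 4 → K) (u : Fin 2 → c.F), Lv f u ∧
    OO K 2 ≤ LF u ∧ ∀ l ∈ B, LocEq l (LF u) (OO K 2) := by
  obtain ⟨f₀, w, hw⟩ := base_ex c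
  have hL : Lt (LF (K := K) w) := lf_lt c.deg hw
  obtain ⟨v, hv, v', hv', hd, hG⟩ := frm_pair hL B
  obtain ⟨u, hu, k, h0, h1⟩ := lv_pull c.deg hw hd
  refine ⟨_, u, hu, ?_, fun l hl => ((gn_iff hd h0 h1 l).1 (hG l hl)).2⟩
  intro x hx
  rw [lf_change h0 h1]
  obtain ⟨a, ha⟩ := hx 0
  obtain ⟨b, hb⟩ := hx 1
  have h2 : cb v v' x = a • v + b • v' := by
    funext i
    simp only [cb, Pi.add_apply, Pi.smul_apply, Algebra.smul_def]
    rw [← ha, ← hb]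
  rw [h2]
  exact (LF w).add_mem ((LF w).smul_mem a hv) ((LF w).smul_mem b hv')

theorem fr_loc (c : Cb K) {f : Fin 4 → K} {u : Fin 2 → c.F} (h : Lv f u) {l : Pl K}
    (hl : LocEq l (LF u) (OO K 2)) : In l f ∧ ¬ NML l f := by
  have hL : Lt (LF (K := K) u) := lf_lt c.deg h
  have hf : f ∈ VL (LF (K := K) u) := lf_vl c.deg h
  refine ⟨in_of_mem (vl_loc hL hl) hf, fun hn => ?_⟩
  have h1 := (nm_iff hL hl hf).2 hn
  rw [nm_loc c.deg h hL hf l] at h1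
  exact h1 fun _ => Iff.rfl

end H97.SXM
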