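import Pool.Agent.H97.SXM.Defs

/-!
# [SXM GENQ] Generating pairs for a finite set of primes, 80-140 lines. File Pool/Agent/H97/SXM/GenQ.lean

`JQ Q = ∏_{l ∈ Q} l`. From `gn_card` (one prime) and the Chinese remainder theorem for modules: the map `Λ / (J₁ J₂) Λ → Λ / J₁ Λ × Λ / J₂ Λ` is bijective for coprime `J₁, J₂` (`J₁ Λ ⊓ J₂ Λ = J₁ J₂ Λ` and `J₁ Λ ⊔ J₂ Λ = Λ` from `1 = a + b`, `a ∈ J₁`, `b ∈ J₂`). `Gn l Λ v w` depends only on the classes of `v, w` modulo `l Λ`
(`gn_per`). Induction on `Q`. `JQ Q ≠ ⊥`, `absNorm (JQ Q) = ∏ nm l = nQ Q` (`nm l = Ideal.absNorm l.asIdeal`; `map_prod`).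
-/

set_option autoImplicit false

open scoped NumberField Classical
open IsDedekindDomain NumberField H38.ML H63.MA H77.MF

noncomputable section

namespace H97.SXM

variable {K : Type} [Field K] [NumberField K]

/-- the product of the primes of `Q` -/
def JQ (Q : Finset (Pl K)) : Ideal (𝓞 K) := ∏ l ∈ Q, l.asIdeal

theorem JQ_norm (Q : Finset (Pl K)) : JQ Q ≠ ⊥ ∧ ((Ideal.absNorm (JQ Q) : ℕ) : ℝ) = nQ Q ∧ 1 ≤ nQ Q := by
  refine ⟨?_, ?_, ?_⟩
  · unfold JQ
    rw [← Ideal.zero_eq_bot, Finset.prod_ne_zero_iff]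
    intro l _
    rw [Ideal.zero_eq_bot]
    exact l.ne_bot
  · unfold JQ nQ nm
    rw [map_prod]
    push_cast
    rfl
  · unfold nQ
    have h := Finset.prod_le_prod (s := Q) (f := fun _ => (1 : ℝ)) (g := fun l => (nm l : ℝ))
      (fun _ _ => zero_le_one) (fun l _ => by
        have h1 : nm l ≠ 0 := by
          unfold nm
          rw [Ne, Ideal.absNorm_eq_zero_iff]
          exact l.ne_bot
        exact_mod_cast Nat.one_le_iff_ne_zero.2 h1)
    rwa [Finset.prod_const_one] at h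

private theorem genq_bij {R M : Type} [CommRing R] [AddCommGroup M] [Module R M] (I J : Ideal R)
    (h : IsCoprime I J) (hI : ((I * J) • ⊤ : Submodule R M) ≤ I • ⊤) (hJ : ((I * J) • ⊤ : Submodule R M) ≤ J • ⊤) :
    Function.Bijective (fun x : M ⧸ ((I * J) • ⊤ : Submodule R M) =>
      ((Submodule.factor hI x, Submodule.factor hJ x) :
        (M ⧸ (I • ⊤ : Submodule R M)) × (M ⧸ (J • ⊤ : Submodule R M)))) := by
  obtain ⟨a, ha, b, hb, hab⟩ := Ideal.isCoprime_iff_exists.1 h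
  constructor
  · intro x y hxy
    obtain ⟨x, rfl⟩ := Submodule.Quotient.mk_surjective _ x
    obtain ⟨y, rfl⟩ := Submodule.Quotient.mk_surjective _ y
    have h1 := congrArg Prod.fst hxy
    have h2 := congrArg Prod.snd hxy
    have h1' : (Submodule.Quotient.mk x : M ⧸ (I • ⊤ : Submodule R M)) = Submodule.Quotient.mk y := h1
    have h2' : (Submodule.Quotient.mk x : M ⧸ (J • ⊤ : Submodule R M)) = Submodule.Quotient.mk y := h2
    rw [Submodule.Quotient.eq] at h1' h2' ⊢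
    have e : x - y = a • (x - y) + b • (x - y) := by rw [← add_smul, hab, one_smul]
    rw [e]
    refine Submodule.add_mem _ ?_ ?_
    · have h3 := Submodule.smul_mem_smul ha h2'
      rwa [← Submodule.mul_smul] at h3
    · have h3 := Submodule.smul_mem_smul hb h1'
      rwa [← Submodule.mul_smul, mul_comm] at h3
  · rintro ⟨x, y⟩
    obtain ⟨x, rfl⟩ := Submodule.Quotient.mk_surjective _ x
    obtain ⟨y, rfl⟩ := Submodule.Quotient.mk_surjective _ y
    refine ⟨Submodule.Quotient.mk (b • x + a • y), Prod.ext ?_ ?_⟩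
    · change (Submodule.Quotient.mk (b • x + a • y) : M ⧸ (I • ⊤ : Submodule R M)) = Submodule.Quotient.mk x
      rw [Submodule.Quotient.eq]
      have e : b • x + a • y - x = a • (y - x) := by
        have h3 : x = a • x + b • x := by rw [← add_smul, hab, one_smul]
        nth_rewrite 2 [h3]
        rw [smul_sub]
        abel
      rw [e]
      exact Submodule.smul_mem_smul ha trivial
    · change (Submodule.Quotient.mk (b • x + a • y) : M ⧸ (J • ⊤ : Submodule R M)) = Submodule.Quotient.mk y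
      rw [Submodule.Quotient.eq]
      have e : b • x + a • y - y = b • (x - y) := by
        have h3 : y = a • y + b • y := by rw [← add_smul, hab, one_smul]
        nth_rewrite 2 [h3]
        rw [smul_sub]
        abel
      rw [e]
      exact Submodule.smul_mem_smul hb trivial

/-- the number of the pairs of classes -/
private theorem genq_count {R M : Type} [CommRing R] [AddCommGroup M] [Module R M] (I J : Ideal R)
    (h : IsCoprime I J) (P Q : M → M → Prop)
    (hP : ∀ v w a b : M, a ∈ (I • ⊤ : Submodule R M) → b ∈ (I • ⊤ : Submodule R M) → P v w → P (v + a) (w + b))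
    (hQ : ∀ v w a b : M, a ∈ (J • ⊤ : Submodule R M) → b ∈ (J • ⊤ : Submodule R M) → Q v w → Q (v + a) (w + b)) :
    Nat.card (M ⧸ ((I * J) • ⊤ : Submodule R M)) =
      Nat.card (M ⧸ (I • ⊤ : Submodule R M)) * Nat.card (M ⧸ (J • ⊤ : Submodule R M)) ∧
    {x : (M ⧸ ((I * J) • ⊤ : Submodule R M)) × (M ⧸ ((I * J) • ⊤ : Submodule R M)) |
      ∃ v w : M, Submodule.Quotient.mk v = x.1 ∧ Submodule.Quotient.mk w = x.2 ∧ P v w ∧ Q v w}.ncard =
    {x : (M ⧸ (I • ⊤ : Submodule R M)) × (M ⧸ (I • ⊤ : Submodule R M)) |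
      ∃ v w : M, Submodule.Quotient.mk v = x.1 ∧ Submodule.Quotient.mk w = x.2 ∧ P v w}.ncard *
    {x : (M ⧸ (J • ⊤ : Submodule R M)) × (M ⧸ (J • ⊤ : Submodule R M)) |
      ∃ v w : M, Submodule.Quotient.mk v = x.1 ∧ Submodule.Quotient.mk w = x.2 ∧ Q v w}.ncard := by
  have hI : ((I * J) • ⊤ : Submodule R M) ≤ I • ⊤ := Submodule.smul_mono_left Ideal.mul_le_left
  have hJ : ((I * J) • ⊤ : Submodule R M) ≤ J • ⊤ := Submodule.smul_mono_left Ideal.mul_le_right
  have hbij := genq_bij (M := M) I J h hI hJ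
  constructor
  · rw [← Nat.card_prod]
    exact Nat.card_congr (Equiv.ofBijective _ hbij)
  · rw [← Set.ncard_prod]
    let φ : (M ⧸ ((I * J) • ⊤ : Submodule R M)) × (M ⧸ ((I * J) • ⊤ : Submodule R M)) →
        ((M ⧸ (I • ⊤ : Submodule R M)) × (M ⧸ (I • ⊤ : Submodule R M))) ×
        ((M ⧸ (J • ⊤ : Submodule R M)) × (M ⧸ (J • ⊤ : Submodule R M))) := fun x =>
      ((Submodule.factor hI x.1, Submodule.factor hI x.2), (Submodule.factor hJ x.1, Submodule.factor hJ x.2))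
    have hφi : Function.Injective φ := by
      intro x y hxy
      have h1 := congrArg (fun z => (z.1.1, z.2.1)) hxy
      have h2 := congrArg (fun z => (z.1.2, z.2.2)) hxy
      exact Prod.ext (hbij.1 h1) (hbij.1 h2)
    have hφs : Function.Surjective φ := by
      rintro ⟨⟨x1, x2⟩, ⟨y1, y2⟩⟩
      obtain ⟨z1, hz1⟩ := hbij.2 (x1, y1)
      obtain ⟨z2, hz2⟩ := hbij.2 (x2, y2)
      have a1 := congrArg Prod.fst hz1
      have a2 := congrArg Prod.snd hz1
      have a3 := congrArg Prod.fst hz2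
      have a4 := congrArg Prod.snd hz2
      exact ⟨(z1, z2), Prod.ext (Prod.ext a1 a3) (Prod.ext a2 a4)⟩
    rw [← Set.ncard_preimage_of_injective_subset_range hφi (by rw [hφs.range_eq]; exact Set.subset_univ _)]
    congr 1
    ext ⟨x1, x2⟩
    obtain ⟨v, rfl⟩ := Submodule.Quotient.mk_surjective _ x1
    obtain ⟨w, rfl⟩ := Submodule.Quotient.mk_surjective _ x2
    constructor
    · rintro ⟨v', w', h1, h2, h3, h4⟩
      simp only at h1 h2
      refine ⟨⟨v', w', ?_, ?_, h3⟩, ⟨v', w', ?_, ?_, h4⟩⟩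
      · exact congrArg (Submodule.factor hI) h1
      · exact congrArg (Submodule.factor hI) h2
      · exact congrArg (Submodule.factor hJ) h1
      · exact congrArg (Submodule.factor hJ) h2
    · rintro ⟨⟨v1, w1, h1, h2, h3⟩, ⟨v2, w2, h4, h5, h6⟩⟩
      have h1' : (Submodule.Quotient.mk v1 : M ⧸ (I • ⊤ : Submodule R M)) = Submodule.Quotient.mk v := h1
      have h2' : (Submodule.Quotient.mk w1 : M ⧸ (I • ⊤ : Submodule R M)) = Submodule.Quotient.mk w := h2
      have h4' : (Submodule.Quotient.mk v2 : M ⧸ (J • ⊤ : Submodule R M)) = Submodule.Quotient.mk v := h4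
      have h5' : (Submodule.Quotient.mk w2 : M ⧸ (J • ⊤ : Submodule R M)) = Submodule.Quotient.mk w := h5
      refine ⟨v, w, rfl, rfl, ?_, ?_⟩
      · have := hP v1 w1 (v - v1) (w - w1) ((Submodule.Quotient.eq _).1 h1'.symm)
          ((Submodule.Quotient.eq _).1 h2'.symm) h3
        rwa [add_sub_cancel, add_sub_cancel] at this
      · have := hQ v2 w2 (v - v2) (w - w2) ((Submodule.Quotient.eq _).1 h4'.symm)
          ((Submodule.Quotient.eq _).1 h5'.symm) h6
        rwa [add_sub_cancel, add_sub_cancel] at this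

theorem gen_all {Λ : Submodule (𝓞 K) (Fin 2 → K)} (hL : Lt Λ) (Q : Finset (Pl K)) :
    ((Nat.card (Λ ⧸ (JQ Q • ⊤ : Submodule (𝓞 K) Λ)) : ℕ) : ℝ) = nQ Q ^ 2 ∧
    (({x : (Λ ⧸ (JQ Q • ⊤ : Submodule (𝓞 K) Λ)) × (Λ ⧸ (JQ Q • ⊤ : Submodule (𝓞 K) Λ)) |
      ∃ v w : Λ, Submodule.Quotient.mk v = x.1 ∧ Submodule.Quotient.mk w = x.2 ∧
        ∀ l ∈ Q, Gn l Λ (v : Fin 2 → K) (w : Fin 2 → K)}.ncard : ℕ) : ℝ) = piQ Q * nQ Q ^ 4 ∧
    ∀ v w a b : Fin 2 → K, a ∈ JQ Q • Λ → b ∈ JQ Q • Λ → (∀ l ∈ Q, Gn l Λ v w) →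
      ∀ l ∈ Q, Gn l Λ (v + a) (w + b) := by
  have hper : ∀ (Q : Finset (Pl K)) (v w a b : Fin 2 → K), a ∈ JQ Q • Λ → b ∈ JQ Q • Λ →
      (∀ l ∈ Q, Gn l Λ v w) → ∀ l ∈ Q, Gn l Λ (v + a) (w + b) := by
    intro Q v w a b ha hb h l hl
    have hle : JQ Q ≤ l.asIdeal := by
      rw [← Ideal.dvd_iff_le]
      exact Finset.dvd_prod_of_mem _ hl
    exact gn_per hL (Submodule.smul_mono_left hle ha) (Submodule.smul_mono_left hle hb) (h l hl)
  suffices hmain : ((Nat.card (Λ ⧸ (JQ Q • ⊤ : Submodule (𝓞 K) Λ)) : ℕ) : ℝ) = nQ Q ^ 2 ∧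
    (({x : (Λ ⧸ (JQ Q • ⊤ : Submodule (𝓞 K) Λ)) × (Λ ⧸ (JQ Q • ⊤ : Submodule (𝓞 K) Λ)) |
      ∃ v w : Λ, Submodule.Quotient.mk v = x.1 ∧ Submodule.Quotient.mk w = x.2 ∧
        ∀ l ∈ Q, Gn l Λ (v : Fin 2 → K) (w : Fin 2 → K)}.ncard : ℕ) : ℝ) = piQ Q * nQ Q ^ 4 from
    ⟨hmain.1, hmain.2, hper Q⟩
  induction Q using Finset.induction_on with
  | empty =>
    have hJ : JQ (∅ : Finset (Pl K)) = ⊤ := by
      unfold JQ
      rw [Finset.prod_empty, Ideal.one_eq_top]
    have hn : nQ (∅ : Finset (Pl K)) = 1 := by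
      unfold nQ
      rw [Finset.prod_empty]
    have hp : piQ (∅ : Finset (Pl K)) = 1 := by
      unfold piQ
      rw [Finset.prod_empty]
    have htop : (JQ (∅ : Finset (Pl K)) • ⊤ : Submodule (𝓞 K) Λ) = ⊤ := by
      rw [hJ]
      exact Submodule.top_smul _
    rw [hn, hp, htop]
    have hsub : Subsingleton (Λ ⧸ (⊤ : Submodule (𝓞 K) Λ)) := Submodule.Quotient.subsingleton_iff.2 rfl
    have hcard : Nat.card (Λ ⧸ (⊤ : Submodule (𝓞 K) Λ)) = 1 := Nat.card_unique
    refine ⟨by rw [hcard]; norm_num, ?_⟩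
    have huniv : {x : (Λ ⧸ (⊤ : Submodule (𝓞 K) Λ)) × (Λ ⧸ (⊤ : Submodule (𝓞 K) Λ)) |
      ∃ v w : Λ, Submodule.Quotient.mk v = x.1 ∧ Submodule.Quotient.mk w = x.2 ∧
        ∀ l ∈ (∅ : Finset (Pl K)), Gn l Λ (v : Fin 2 → K) (w : Fin 2 → K)} = Set.univ := by
      ext x
      refine ⟨fun _ => trivial, fun _ => ⟨0, 0, Subsingleton.elim _ _, Subsingleton.elim _ _, ?_⟩⟩
      intro l hl
      exact absurd hl (Finset.notMem_empty l)
    rw [huniv, Set.ncard_univ, Nat.card_prod, hcard]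
    norm_num
  | insert l Q hlQ ih =>
    obtain ⟨ih1, ih2⟩ := ih
    have hJ : JQ (insert l Q) = l.asIdeal * JQ Q := by
      unfold JQ
      rw [Finset.prod_insert hlQ]
    have hco : IsCoprime l.asIdeal (JQ Q) := by
      unfold JQ
      refine IsCoprime.prod_right fun l' hl' => ?_
      have hne : l ≠ l' := fun he => hlQ (he ▸ hl')
      rw [Ideal.isCoprime_iff_sup_eq]
      refine Ideal.isCoprime_iff_sup_eq.1 (Ideal.isCoprime_of_isMaximal ?_)
      intro he
      exact hne (IsDedekindDomain.HeightOneSpectrum.ext he)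
    obtain ⟨c1, c2⟩ := gn_card hL l
    have key := genq_count (M := Λ) l.asIdeal (JQ Q) hco (fun v w => Gn l Λ (v : Fin 2 → K) (w : Fin 2 → K))
      (fun v w => ∀ l' ∈ Q, Gn l' Λ (v : Fin 2 → K) (w : Fin 2 → K))
      (by
        intro v w a b ha hb h
        rw [Submodule.mem_smul_top_iff] at ha hb
        exact gn_per hL ha hb h)
      (by
        intro v w a b ha hb h
        rw [Submodule.mem_smul_top_iff] at ha hb
        exact hper Q v w a b ha hb h)
    obtain ⟨k1, k2⟩ := key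
    have hn : nQ (insert l Q) = nm l * nQ Q := by
      unfold nQ
      rw [Finset.prod_insert hlQ]
    have hp : piQ (insert l Q) = ((1 - 1 / (nm l : ℝ)) * (1 - 1 / (nm l : ℝ) ^ 2)) * piQ Q := by
      unfold piQ
      rw [Finset.prod_insert hlQ]
    have hnm : (1 : ℝ) ≤ nm l := by
      have h1 : nm l ≠ 0 := by
        unfold nm
        rw [Ne, Ideal.absNorm_eq_zero_iff]
        exact l.ne_bot
      exact_mod_cast Nat.one_le_iff_ne_zero.2 h1
    have hset : {x : (Λ ⧸ ((l.asIdeal * JQ Q) • ⊤ : Submodule (𝓞 K) Λ)) ×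
        (Λ ⧸ ((l.asIdeal * JQ Q) • ⊤ : Submodule (𝓞 K) Λ)) |
      ∃ v w : Λ, Submodule.Quotient.mk v = x.1 ∧ Submodule.Quotient.mk w = x.2 ∧
        ∀ l' ∈ insert l Q, Gn l' Λ (v : Fin 2 → K) (w : Fin 2 → K)} =
      {x : (Λ ⧸ ((l.asIdeal * JQ Q) • ⊤ : Submodule (𝓞 K) Λ)) ×
        (Λ ⧸ ((l.asIdeal * JQ Q) • ⊤ : Submodule (𝓞 K) Λ)) |
      ∃ v w : Λ, Submodule.Quotient.mk v = x.1 ∧ Submodule.Quotient.mk w = x.2 ∧
        Gn l Λ (v : Fin 2 → K) (w : Fin 2 → K) ∧ ∀ l' ∈ Q, Gn l' Λ (v : Fin 2 → K) (w : Fin 2 → K)} := by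
      ext x
      simp only [Set.mem_ofPred_eq, Finset.forall_mem_insert]
    rw [hJ, hset, k1, k2, c1, c2, hn, hp]
    push_cast
    rw [ih1, ih2]
    constructor
    · ring
    · have h1 : (((nm l ^ 2 - 1 : ℕ)) : ℝ) = (nm l : ℝ) ^ 2 - 1 := by
        have h2 : 1 ≤ nm l ^ 2 := Nat.one_le_iff_ne_zero.2 (pow_ne_zero _ (by
          have : (0 : ℝ) < nm l := by linarith
          exact_mod_cast this.ne'))
        rw [Nat.cast_sub h2]
        push_cast
        rfl
      have h3 : (((nm l ^ 2 - nm l : ℕ)) : ℝ) = (nm l : ℝ) ^ 2 - nm l := by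
        have h2 : nm l ≤ nm l ^ 2 := Nat.le_self_pow (by norm_num) _
        rw [Nat.cast_sub h2]
        push_cast
        rfl
      rw [h1, h3]
      have h0 : (nm l : ℝ) ≠ 0 := by linarith
      field_simp

end H97.SXM
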