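import Pool.Agent.H97.SXM.Defs

/-!
# [SXM LEQ] Local types: equivalence relation, invariance, 60-120 lines. File Pool/Agent/H97/SXM/Leq.lean

`LEq S Q c c'`: for every `v ∈ S` a bijection `e` of the embeddings which commutes with the decomposition group (`H67/SX/Defs.lean`). Reflexive: identity; symmetric: `e.symm`; transitive: composition. `leq_sing`: the condition is for each `v ∈ S` separately. `leq_iso`: an isomorphism `s : c.F ≃ₐ[K] c'.F` gives `e ι = ι ∘ s⁻¹`.
`mu_iso`: `s` induces a bijection of the primes of `𝓞_F` over `l` (`NumberField.RingOfIntegers.mapRingEquiv` / `mapAlgEquiv`; the inverse image of a prime; `Over P l` means that `P` lies over `l`, see `H63/MA/Base.lean`), so `c.np l = c'.np l`, `mu = 2^(np-1) - 2`.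
`mu_le`: `c.np l ≤ 3` (at most `[F:K] = 3` primes over `l`: `Ideal.sum_ramification_inertia` or `card_primesOver_le_finrank`-like lemmas; or a lemma in `H63`/`H38`/`H67`), so `lam = 2^(np-1) - 1 ∈ {0, 1, 3}` (`np - 1` truncated), `mu = lam - 1 ∈ {-1, 0, 2}`.
-/

set_option autoImplicit false

open scoped NumberField Classical
open IsDedekindDomain NumberField H38.ML H63.MA H67.SX H77.MF

noncomputable section

namespace H97.SXM

variable {K : IntermediateField ℚ QBar} [NumberField K] {S : Finset (Pl K)} {Q : DP K QBar}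

section gen

variable {K : Type} [Field K] [NumberField K] {F F' : Type} [Field F] [NumberField F] [Algebra K F]
  [Field F'] [NumberField F'] [Algebra K F']

private theorem lq_image (l : Pl K) :
    (fun w : Pl F => w.asIdeal) '' {w : Pl F | Over w l} = l.asIdeal.primesOver (𝓞 F) := by
  ext Q
  constructor
  · rintro ⟨w, hw, rfl⟩
    exact ⟨w.isPrime, ⟨hw.symm⟩⟩
  · rintro ⟨h1, h2⟩
    exact ⟨⟨Q, h1, Ideal.ne_bot_of_liesOver_of_ne_bot l.ne_bot Q⟩, h2.over.symm, rfl⟩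

private theorem lq_fin (l : Pl K) : {w : Pl F | Over w l}.Finite := by
  have hm : l.asIdeal.IsMaximal := l.isMaximal
  have h1 : (l.asIdeal.primesOver (𝓞 F)).Finite := IsDedekindDomain.primesOver_finite l.asIdeal (𝓞 F)
  rw [← lq_image l] at h1
  exact h1.of_finite_image (fun _ _ _ _ h => HeightOneSpectrum.ext h)

private theorem lq_tr (s : F ≃ₐ[K] F') (l : Pl K) :
    {P : Pl F | Over P l}.ncard ≤ {P : Pl F' | Over P l}.ncard := by
  obtain ⟨e, he⟩ : ∃ e : 𝓞 F' ≃+* 𝓞 F, ∀ x, ((e x : 𝓞 F) : F) = s.symm (x : F') :=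
    ⟨NumberField.RingOfIntegers.mapRingEquiv (s.symm : F' ≃ₐ[K] F).toRingEquiv, fun _ => rfl⟩
  have hne : ∀ P : Pl F, P.asIdeal.comap (e : 𝓞 F' →+* 𝓞 F) ≠ ⊥ := by
    intro P h
    apply P.ne_bot
    rw [eq_bot_iff]
    intro x hx
    have h1 : e.symm x ∈ P.asIdeal.comap (e : 𝓞 F' →+* 𝓞 F) := by
      rw [Ideal.mem_comap]
      simpa using hx
    rw [h, Ideal.mem_bot] at h1
    rw [Ideal.mem_bot]
    rw [← e.apply_symm_apply x, h1, map_zero]
  let f : Pl F → Pl F' := fun P => ⟨P.asIdeal.comap (e : 𝓞 F' →+* 𝓞 F), Ideal.IsPrime.comap _, hne P⟩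
  have hf : ∀ P x, x ∈ (f P).asIdeal ↔ e x ∈ P.asIdeal := fun _ _ => Iff.rfl
  refine Set.ncard_le_ncard_of_injOn f ?_ ?_ (lq_fin l)
  · intro P hP
    show (f P).asIdeal.comap (algebraMap (𝓞 K) (𝓞 F')) = l.asIdeal
    have hP' : P.asIdeal.comap (algebraMap (𝓞 K) (𝓞 F)) = l.asIdeal := hP
    rw [← hP']
    ext x
    show e (algebraMap (𝓞 K) (𝓞 F') x) ∈ P.asIdeal ↔ algebraMap (𝓞 K) (𝓞 F) x ∈ P.asIdeal
    have h2 : e (algebraMap (𝓞 K) (𝓞 F') x) = algebraMap (𝓞 K) (𝓞 F) x := by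
      apply NumberField.RingOfIntegers.ext
      rw [he]
      exact (s.symm : F' ≃ₐ[K] F).commutes (x : K)
    rw [h2]
  · intro P _ P' _ h
    apply HeightOneSpectrum.ext
    ext x
    have h1 := hf P (e.symm x)
    have h2 := hf P' (e.symm x)
    rw [e.apply_symm_apply] at h1 h2
    rw [← h1, ← h2, h]

private theorem lq_card (l : Pl K) : {P : Pl F | Over P l}.ncard ≤ Module.finrank K F := by
  have hm : l.asIdeal.IsMaximal := l.isMaximal
  have h2 : {P : Pl F | Over P l}.ncard = (IsDedekindDomain.primesOverFinset l.asIdeal (𝓞 F)).card := by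
    rw [← Set.ncard_image_of_injective _ (fun (_ _ : Pl F) h => HeightOneSpectrum.ext h), lq_image l,
      ← IsDedekindDomain.coe_primesOverFinset l.ne_bot, Set.ncard_coe_finset]
  have hnz : NoZeroSMulDivisors (𝓞 K) (𝓞 F) := ⟨fun {x y} h => by
    rw [Algebra.smul_def, mul_eq_zero] at h
    rcases h with h | h
    · exact Or.inl ((map_eq_zero_iff _ (FaithfulSMul.algebraMap_injective (𝓞 K) (𝓞 F))).1 h)
    · exact Or.inr h⟩
  rw [h2]
  exact Ideal.card_primesOverFinset_le_finrank (𝓞 F) K F l.ne_bot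

end gen

private theorem lq_np (c : Cu K) (l : Pl K) : c.np l ≤ 3 := by
  rw [← c.deg]
  exact lq_card l

theorem leq_refl (S : Finset (Pl K)) (Q : DP K QBar) (c : Cu K) : LEq S Q c c :=
  fun _ _ => ⟨Equiv.refl _, fun _ _ _ => rfl⟩

theorem leq_symm {c c' : Cu K} (h : LEq S Q c c') : LEq S Q c' c := by
  intro v hv
  obtain ⟨e, he⟩ := h v hv
  refine ⟨e.symm, fun σ hσ ι => ?_⟩
  rw [Equiv.symm_apply_eq, he σ hσ, Equiv.apply_symm_apply]

theorem leq_trans {c c' c'' : Cu K} (h : LEq S Q c c') (h' : LEq S Q c' c'') : LEq S Q c c'' := by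
  intro v hv
  obtain ⟨e, he⟩ := h v hv
  obtain ⟨e', he'⟩ := h' v hv
  refine ⟨e.trans e', fun σ hσ ι => ?_⟩
  rw [Equiv.trans_apply, he σ hσ, he' σ hσ, Equiv.trans_apply]

theorem leq_sing {c c' : Cu K} (h : ∀ v ∈ S, LEq {v} Q c c') : LEq S Q c c' :=
  fun v hv => h v hv v (Finset.mem_singleton_self v)

theorem leq_iso (S : Finset (Pl K)) (Q : DP K QBar) {c c' : Cu K}
    (h : Nonempty (c.F ≃ₐ[K] c'.F)) : LEq S Q c c' := by
  obtain ⟨s⟩ := h
  intro v _
  refine ⟨⟨fun ι => ι.comp (s.symm : c'.F →ₐ[K] c.F), fun ι => ι.comp (s : c.F →ₐ[K] c'.F), fun ι => ?_,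
    fun ι => ?_⟩, fun σ _ ι => rfl⟩
  · apply AlgHom.ext
    intro x
    show ι (s.symm (s x)) = ι x
    rw [AlgEquiv.symm_apply_apply]
  · apply AlgHom.ext
    intro x
    show ι (s (s.symm x)) = ι x
    rw [AlgEquiv.apply_symm_apply]

theorem mu_iso {c c' : Cu K} (h : Nonempty (c.F ≃ₐ[K] c'.F)) (l : Pl K) : c.mu l = c'.mu l := by
  obtain ⟨s⟩ := h
  have h1 : c.np l = c'.np l := le_antisymm (lq_tr s l) (lq_tr s.symm l)
  unfold Cu.mu Cu.lam
  rw [h1]

theorem mu_le (c : Cu K) (l : Pl K) : |c.mu l| ≤ 2 := by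
  have h1 := lq_np c l
  unfold Cu.mu Cu.lam
  have h2 : c.np l - 1 = 0 ∨ c.np l - 1 = 1 ∨ c.np l - 1 = 2 := by omega
  rcases h2 with h2 | h2 | h2
  · rw [h2]
    norm_num
  · rw [h2]
    norm_num
  · rw [h2]
    norm_num

end H97.SXM
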