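import Pool.Agent.H97.SXM.Defs

/-!
# [SXM MUN] The mean of a local function at a finite set of primes, 60-110 lines. File Pool/Agent/H97/SXM/Mun.lean

`J = ∏_{l ∈ B} l^(k l)`, `O = OO K n`. `V` is finitely generated, `O` too, and `V = O` locally at all `l ∈ B`. (1) For every `l ∈ B` there is `s_l ∉ l` with `s_l V ≤ O` (finitely many generators) and `s'_l ∉ l` with `s'_l O ≤ V`. By the Chinese remainder theorem there is `s ∈ 𝓞 K` with `s ≡ 1` modulo `J` and `s V ≤ O`: the ideal `I = {s : s V ≤ O}`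
is not contained in any `l ∈ B`, so it is coprime to `J` (`Ideal.isCoprime_iff..`, a prime containing `I + J` contains some `l ∈ B`), `1 = s + j`. Similarly `s'` with `s' O ≤ V`. (2) The maps `V/JV → O/JO`, `v ↦ s v`, and `O/JO → V/JV`, `u ↦ s' u` are well defined and inverse to each other (`s s' - 1 ∈ J`). (3) `φ (s v) = φ v` for `v ∈ V`: `v` is integral at `l ∈ B` (`in_of_mem`) and
`s v - v = (s - 1) v` with `s - 1 ∈ J ≤ l^(k l)`: `Cg l (k l) (s v) v`. Also `φ` is constant on the classes of `V` mod `J V` and of `O` mod `J O` (`cg_of_mem`, `J V ≤ l^(k l) V`), so the representatives (`Quotient.out`) in the definition of `mean` do not matter. The two means are equal term by term, and the cardinalities agree (bijection). (`J ≠ ⊥` is not needed.)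
`mean_nonneg`, `mean_pos`: `φ ≥ 0`, `Per V J φ`, `φ g > 0` for one `g ∈ V`: the class of `g` has the value `φ g > 0`; the quotient is finite (`V` finitely generated, `J ≠ ⊥`).
-/

set_option autoImplicit false

open scoped NumberField Classical
open IsDedekindDomain NumberField H38.ML H63.MA H77.MF

noncomputable section

namespace H97.SXM

variable {K : Type} [Field K] [NumberField K]

omit [NumberField K] in
private theorem mun_mk {n : ℕ} {V : Submodule (𝓞 K) (Fin n → K)} {J : Ideal (𝓞 K)} (v w : V) :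
    (Submodule.Quotient.mk v : V ⧸ (J • ⊤ : Submodule (𝓞 K) V)) = Submodule.Quotient.mk w ↔
      (v : Fin n → K) - (w : Fin n → K) ∈ J • V := by
  rw [Submodule.Quotient.eq, Submodule.mem_smul_top_iff, Submodule.coe_sub]

omit [NumberField K] in
private theorem mun_bij {n : ℕ} {V V' : Submodule (𝓞 K) (Fin n → K)} {J J' : Ideal (𝓞 K)}
    {φ ψ : (Fin n → K) → ℝ}
    (F : (V ⧸ (J • ⊤ : Submodule (𝓞 K) V)) → (V' ⧸ (J' • ⊤ : Submodule (𝓞 K) V')))
    (hF : Function.Bijective F)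
    (h : ∀ c, ψ ((Quotient.out (F c) : V') : Fin n → K) = φ ((Quotient.out c : V) : Fin n → K)) :
    mean V J φ = mean V' J' ψ := by
  unfold mean
  rw [Nat.card_congr (Equiv.ofBijective F hF),
    ← finsum_comp_equiv (Equiv.ofBijective F hF)
      (f := fun c : V' ⧸ (J' • ⊤ : Submodule (𝓞 K) V') => ψ ((Quotient.out c : V') : Fin n → K))]
  congr 1
  exact finsum_congr fun c => (h c).symm

private theorem mun_fin {n : ℕ} {V : Submodule (𝓞 K) (Fin n → K)} {J : Ideal (𝓞 K)} (hV : V.FG) (hJ : J ≠ ⊥) :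
    Finite (V ⧸ (J • ⊤ : Submodule (𝓞 K) V)) := by
  have : Finite (𝓞 K ⧸ J) := Ideal.finiteQuotientOfFreeOfNeBot J hJ
  have : Module.Finite (𝓞 K) V := Module.Finite.iff_fg.2 hV
  have : Finite (V ⧸ (⊤ : Submodule (𝓞 K) V)) := inferInstance
  exact Submodule.finite_quotient_smul J (Module.Finite.fg_top)

omit [NumberField K] in
private theorem mun_out {n : ℕ} {V : Submodule (𝓞 K) (Fin n → K)} {J : Ideal (𝓞 K)} {φ : (Fin n → K) → ℝ}
    (hφ : Per V J φ) (v : V) :
    φ ((Quotient.out (Submodule.Quotient.mk v : V ⧸ (J • ⊤ : Submodule (𝓞 K) V)) : V) : Fin n → K) =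
      φ v := by
  obtain ⟨o, ho⟩ : ∃ o : V, o = Quotient.out (Submodule.Quotient.mk v : V ⧸ (J • ⊤ : Submodule (𝓞 K) V)) :=
    ⟨_, rfl⟩
  rw [← ho]
  have h1 : (Submodule.Quotient.mk o : V ⧸ (J • ⊤ : Submodule (𝓞 K) V)) = Submodule.Quotient.mk v := by
    rw [ho]
    exact Quotient.out_eq _
  rw [Submodule.Quotient.eq, Submodule.mem_smul_top_iff] at h1
  have h2 := hφ (v : Fin n → K) v.2 _ h1
  have h3 : (v : Fin n → K) + ((o - v : V) : Fin n → K) = (o : Fin n → K) := by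
    rw [AddSubgroupClass.coe_sub]
    abel
  rw [h3] at h2
  exact h2

private theorem mun_oo (n : ℕ) : (OO K n).FG := by
  have h1 : OO K n = Submodule.map ((Algebra.linearMap (𝓞 K) K).compLeft (Fin n)) ⊤ := by
    ext v
    constructor
    · intro hv
      choose g hg using hv
      exact ⟨g, trivial, funext hg⟩
    · rintro ⟨g, -, rfl⟩ i
      exact ⟨g i, rfl⟩
  rw [h1]
  exact Submodule.FG.map _ Module.Finite.fg_top

/-- one multiplier at all primes of `B` -/
private theorem mun_s {n : ℕ} {V W : Submodule (𝓞 K) (Fin n → K)} (hV : V.FG) {B : Finset (Pl K)}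
    {k : Pl K → ℕ} (h : ∀ l ∈ B, LocEq l V W) :
    ∃ s : 𝓞 K, (∀ v ∈ V, s • v ∈ W) ∧ s - 1 ∈ ∏ l ∈ B, l.asIdeal ^ k l := by
  obtain ⟨I, hI⟩ : ∃ I : Ideal (𝓞 K), ∀ s, s ∈ I ↔ ∀ v ∈ V, s • v ∈ W :=
    ⟨{ carrier := {s | ∀ v ∈ V, s • v ∈ W}
       add_mem' := fun {a b} ha hb v hv => by
         rw [add_smul]
         exact W.add_mem (ha v hv) (hb v hv)
       zero_mem' := fun v _ => by
         rw [zero_smul]
         exact W.zero_mem
       smul_mem' := fun r a ha v hv => by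
         rw [smul_eq_mul, mul_smul]
         exact W.smul_mem r (ha v hv) }, fun s => Iff.rfl⟩
  have hIl : ∀ l ∈ B, ¬ I ≤ l.asIdeal := by
    intro l hl hle
    obtain ⟨T, hT⟩ := hV
    have h1 : ∀ v : Fin n → K, ∃ s : 𝓞 K, s ∉ l.asIdeal ∧ (v ∈ T → s • v ∈ W) := by
      intro v
      have h1l : (1 : 𝓞 K) ∉ l.asIdeal := fun h1 => l.isPrime.ne_top ((Ideal.eq_top_iff_one _).2 h1)
      by_cases hv : v ∈ T
      · have hvV : v ∈ V := by
          rw [← hT]
          exact Submodule.subset_span hv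
        obtain ⟨s, hs, hsv⟩ := (h l hl v).1 ⟨1, h1l, by rw [one_smul]; exact hvV⟩
        exact ⟨s, hs, fun _ => hsv⟩
      · exact ⟨1, h1l, fun hv' => absurd hv' hv⟩
    choose s hs hsv using h1
    have h2 : (∏ v ∈ T, s v) ∉ l.asIdeal := by
      intro h3
      obtain ⟨v, _, hv2⟩ := (Ideal.IsPrime.prod_mem_iff (hp := l.isPrime)).1 h3
      exact hs v hv2
    refine h2 (hle ((hI _).2 fun v hv => ?_))
    rw [← hT] at hv
    induction hv using Submodule.span_induction with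
    | mem x hx =>
      rw [← Finset.prod_erase_mul _ _ hx, mul_smul]
      exact W.smul_mem _ (hsv x hx)
    | zero =>
      rw [smul_zero]
      exact W.zero_mem
    | add x y _ _ hx hy =>
      rw [smul_add]
      exact W.add_mem hx hy
    | smul a x _ hx =>
      rw [smul_comm]
      exact W.smul_mem a hx
  have hcop : IsCoprime I (∏ l ∈ B, l.asIdeal ^ k l) := by
    refine IsCoprime.prod_right fun l hl => IsCoprime.pow_right ?_
    rw [Ideal.isCoprime_iff_sup_eq, sup_comm]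
    refine (l.isMaximal).out.2 _ (lt_of_le_of_ne le_sup_left fun h3 => hIl l hl ?_)
    rw [h3]
    exact le_sup_right
  rw [Ideal.isCoprime_iff_exists] at hcop
  obtain ⟨a, ha, b, hb, hab⟩ := hcop
  refine ⟨a, (hI a).1 ha, ?_⟩
  have h3 : a - 1 = -b := by
    rw [← hab]
    ring
  rw [h3]
  exact (Ideal.neg_mem_iff _).2 hb

private theorem mun_le {B : Finset (Pl K)} {k : Pl K → ℕ} {l : Pl K} (hl : l ∈ B) :
    (∏ l ∈ B, l.asIdeal ^ k l) ≤ l.asIdeal ^ k l :=
  Ideal.le_of_dvd (Finset.dvd_prod_of_mem _ hl)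

/-- two congruences -/
private theorem mun_cg {n : ℕ} {V W : Submodule (𝓞 K) (Fin n → K)} {B : Finset (Pl K)}
    {k : Pl K → ℕ} (hV : ∀ l ∈ B, LocEq l V (OO K n)) (hW : ∀ l ∈ B, LocEq l W (OO K n)) {x y : Fin n → K}
    (hx : x ∈ (∏ l ∈ B, l.asIdeal ^ k l) • V) (hy : y ∈ (∏ l ∈ B, l.asIdeal ^ k l) • W) {l : Pl K} (hl : l ∈ B)
    {f g : Fin n → K} (hfg : g = f + (x + y)) : Cg l (k l) g f := by
  have h1 := cg_of_mem (hV l hl) (Submodule.smul_mono_left (mun_le hl) hx)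
  have h2 := cg_of_mem (hW l hl) (Submodule.smul_mono_left (mun_le hl) hy)
  intro i
  have h3 : g i - f i = x i + y i := by
    rw [hfg, Pi.add_apply, Pi.add_apply]
    ring
  rw [h3]
  have h4 := h1 i
  have h5 := h2 i
  rw [Pi.zero_apply, sub_zero] at h4 h5
  exact Valuation.map_add_le _ h4 h5

theorem mean_all {n : ℕ} {V : Submodule (𝓞 K) (Fin n → K)} (hV : V.FG) {B : Finset (Pl K)}
    {k : Pl K → ℕ} (h : ∀ l ∈ B, LocEq l V (OO K n)) {φ : (Fin n → K) → ℝ}
    (hφ : ∀ f g : Fin n → K, (∀ l ∈ B, In l f) → (∀ l ∈ B, Cg l (k l) g f) → φ g = φ f) :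
    Per V (∏ l ∈ B, l.asIdeal ^ k l) φ ∧
    mean V (∏ l ∈ B, l.asIdeal ^ k l) φ = mean (OO K n) (∏ l ∈ B, l.asIdeal ^ k l) φ := by
  have hO : ∀ l ∈ B, LocEq l (OO K n) (OO K n) := fun l _ _ => Iff.rfl
  have h0V : (0 : Fin n → K) ∈ (∏ l ∈ B, l.asIdeal ^ k l) • V := Submodule.zero_mem _
  refine ⟨fun f hf g hg => hφ f (f + g) (fun l hl => in_of_mem (h l hl) hf) fun l hl =>
    mun_cg h h hg h0V hl (by rw [add_zero]), ?_⟩
  obtain ⟨J, hJ⟩ : ∃ J : Ideal (𝓞 K), J = ∏ l ∈ B, l.asIdeal ^ k l := ⟨_, rfl⟩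
  obtain ⟨s, hs, hs1⟩ := mun_s (k := k) hV h
  obtain ⟨t, ht, ht1⟩ := mun_s (k := k) (mun_oo n) (fun l hl v => (h l hl v).symm)
  rw [← hJ] at hs1 ht1 ⊢
  have hout : ∀ c : V ⧸ (J • ⊤ : Submodule (𝓞 K) V),
      Submodule.Quotient.mk (Quotient.out c : V) = c := fun c => Quotient.out_eq c
  have hout' : ∀ c : (OO K n) ⧸ (J • ⊤ : Submodule (𝓞 K) (OO K n)),
      Submodule.Quotient.mk (Quotient.out c : OO K n) = c := fun c => Quotient.out_eq c
  have hsJ : ∀ x ∈ J • V, s • x ∈ J • OO K n := by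
    intro x hx
    refine Submodule.smul_induction_on (p := fun x => s • x ∈ J • OO K n) hx ?_ ?_
    · intro a ha v hv
      rw [smul_comm]
      exact Submodule.smul_mem_smul ha (hs v hv)
    · intro x y hx hy
      rw [smul_add]
      exact Submodule.add_mem _ hx hy
  have htJ : ∀ x ∈ J • OO K n, t • x ∈ J • V := by
    intro x hx
    refine Submodule.smul_induction_on (p := fun x => t • x ∈ J • V) hx ?_ ?_
    · intro a ha v hv
      rw [smul_comm]
      exact Submodule.smul_mem_smul ha (ht v hv)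
    · intro x y hx hy
      rw [smul_add]
      exact Submodule.add_mem _ hx hy
  have hts : t * s - 1 ∈ J := by
    have e1 : t * s - 1 = t * (s - 1) + (t - 1) := by ring
    rw [e1]
    exact J.add_mem (J.mul_mem_left t hs1) ht1
  refine mun_bij (fun c => Submodule.Quotient.mk ⟨s • ((Quotient.out c : V) : Fin n → K), hs _ (Quotient.out c : V).2⟩)
    ⟨?_, ?_⟩ ?_
  · intro c₁ c₂ h12
    have h1 := (mun_mk _ _).1 h12
    rw [← hout c₁, ← hout c₂, mun_mk]
    simp only [] at h1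
    obtain ⟨x, hx⟩ : ∃ x : Fin n → K, x = ((Quotient.out c₁ : V) : Fin n → K) - ((Quotient.out c₂ : V) : Fin n → K) :=
      ⟨_, rfl⟩
    have hxV : x ∈ V := by
      rw [hx]
      exact V.sub_mem (Quotient.out c₁ : V).2 (Quotient.out c₂ : V).2
    rw [← smul_sub, ← hx] at h1
    rw [← hx]
    have h2 := htJ _ h1
    have h3 : x = t • s • x - (t * s - 1) • x := by
      rw [sub_smul, mul_smul, one_smul, sub_sub_cancel]
    rw [h3]
    exact Submodule.sub_mem _ h2 (Submodule.smul_mem_smul hts hxV)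
  · intro c'
    obtain ⟨u, hu⟩ : ∃ u : OO K n, u = Quotient.out c' := ⟨_, rfl⟩
    refine ⟨Submodule.Quotient.mk ⟨t • (u : Fin n → K), ht _ u.2⟩, ?_⟩
    rw [← hout' c', ← hu]
    refine (mun_mk _ _).2 ?_
    simp only []
    obtain ⟨o, ho⟩ : ∃ o : V, o = Quotient.out (Submodule.Quotient.mk ⟨t • (u : Fin n → K), ht _ u.2⟩ :
      V ⧸ (J • ⊤ : Submodule (𝓞 K) V)) := ⟨_, rfl⟩
    have h1 := (mun_mk _ _).1 (hout (Submodule.Quotient.mk ⟨t • (u : Fin n → K), ht _ u.2⟩))
    rw [← ho] at h1 ⊢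
    simp only [] at h1
    have h2 := hsJ _ h1
    have h3 : s • (o : Fin n → K) - (u : Fin n → K) = s • ((o : Fin n → K) - t • (u : Fin n → K)) +
        (t * s - 1) • (u : Fin n → K) := by
      rw [smul_sub, sub_smul, mul_comm t s, mul_smul, one_smul]
      abel
    rw [h3]
    exact Submodule.add_mem _ h2 (Submodule.smul_mem_smul hts u.2)
  · intro c
    obtain ⟨v, hv⟩ : ∃ v : V, v = Quotient.out c := ⟨_, rfl⟩
    rw [← hv]
    refine hφ _ _ (fun l hl => in_of_mem (h l hl) v.2) fun l hl => ?_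
    obtain ⟨o, ho⟩ : ∃ o : OO K n, o = Quotient.out (Submodule.Quotient.mk ⟨s • (v : Fin n → K), hs _ v.2⟩ :
      (OO K n) ⧸ (J • ⊤ : Submodule (𝓞 K) (OO K n))) := ⟨_, rfl⟩
    have h1 := (mun_mk _ _).1 (hout' (Submodule.Quotient.mk ⟨s • (v : Fin n → K), hs _ v.2⟩))
    rw [← ho] at h1 ⊢
    simp only [] at h1
    have h2 : (s - 1) • (v : Fin n → K) ∈ J • V := Submodule.smul_mem_smul hs1 v.2
    rw [hJ] at h1 h2
    refine mun_cg h hO h2 h1 hl ?_
    rw [sub_smul, one_smul]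
    abel

theorem mean_pos {n : ℕ} {V : Submodule (𝓞 K) (Fin n → K)} (hV : V.FG) {J : Ideal (𝓞 K)}
    (hJ : J ≠ ⊥) {φ : (Fin n → K) → ℝ} (hP : Per V J φ) (h0 : ∀ f, 0 ≤ φ f) {g : Fin n → K}
    (hg : g ∈ V) (h1 : 0 < φ g) : 0 < mean V J φ := by
  have hfin := mun_fin hV hJ
  have := Fintype.ofFinite (V ⧸ (J • ⊤ : Submodule (𝓞 K) V))
  unfold mean
  rw [finsum_eq_sum_of_fintype]
  refine div_pos ?_ ?_
  · refine Finset.sum_pos' (fun c _ => h0 _) ⟨Submodule.Quotient.mk ⟨g, hg⟩, Finset.mem_univ _, ?_⟩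
    rw [mun_out hP]
    exact h1
  · have h2 : 0 < Nat.card (V ⧸ (J • ⊤ : Submodule (𝓞 K) V)) := Nat.card_pos
    exact_mod_cast h2

end H97.SXM
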