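import Pool.Agent.H97.SXM.Wt
import Pool.Agent.H97.SXM.Mun
import Pool.Agent.H97.SXM.Leq
import Pool.Agent.H97.SXM.Frm

/-!
# [SXM HS] The weights, 200-320 lines. File Pool/Agent/H97/SXM/Hs.lean

`S` finite, contains all primes over 6; `q` disjoint from `S`; `Q' := S ∪ q`. `Qd` the choice of primes of `QBar`, `c₀` a field. `k v ≥ 3` for all `v`, and `k v` at least the number of `krasner Qd v`.
`lm l f`, `l0 l f`: the local weights (0 unless `f` is integral and maximal at `l`). `hS S Qd c₀ k f = 1` iff `f` is integral and maximal at all `v ∈ S` and congruent at all `v ∈ S` modulo `v^(k v)` to ONE form `f'` of a frame `w'` of a field `c` of the type of `c₀`, which generates the lattice of `c` at `S`.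
FACTS. (a) `hS`: `0 ≤ hS ≤ 1`; if `∀ v ∈ S, In v f`, `∀ v ∈ S, Cg v (k v) g f` then `hS g = hS f` (`nml_cg` with level 2 ≤ k v; `Cg` is transitive; integrality transports). The same for `lm l`, `l0 l` with level 3 (or 2) at `l`, `|lm l f| ≤ 1` (`MU_bd`), `0 ≤ l0 ≤ 1`.
(b) KEY: let `Lv f x.2`, `x : Fr K`, `x.1.F` not Galois, `c = ⟨x.1.F, _, _⟩ : Cu K`, `Lmx f ∈ LQ Q'`. `Lmx f = LF x.2` (`lmx_eq`), so `LocEq l (LF x.2) (OO K 2)` for all `l ∈ Q'`; `fr_loc`: `f` is integral and maximal at all `l ∈ Q'`. Then `hS f = 1 ↔ LEq S Qd c₀ c`: (⇐) `f' = f`, `w' = x.2`; (⇒) `krasner` at each `v ∈ S` for `c` and the field `c'` of `f'`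
(`Cg v k f f'` for the `k` of `krasner` from `k v ≥ k`), `leq_sing`, `leq_symm`, `leq_trans`. And for `l ∈ q`: `lm l f = MU l f / 2 = c.mu l / 2` (`mu_eq`; `6 ∉ l` because `l ∉ S`), `l0 l f = 1`.
(c) WEIGHTS. `H = hS · ∏_{l ∈ q} lm l` (resp. `l0 l`), `J = JS S k * JQ q ^ 3 = ∏_{l ∈ Q'} l^(k' l)` with `k' = k` on `S`, 3 on `q`. `ne`, `sub` (a prime ideal containing the product contains one of the `v`, and then is equal to it: maximal ideals). `per`: `mean_all` (first part) with `vl_loc` (`Λ ∈ LQ Q'`), `vl_fg`. `bd` from (a). `zero`: `f ∈ NM l Λ`, `l ∈ Q'`: `NML l f` (`nm_iff`), so the factor at `l` is 0.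
`mn`: `mean (VL Λ) J H`: `mean_mul` with `J₁ = JS S k`, `J₂ = JQ q ^ 3` (coprime), then one prime of `q` after the other; `mean_all` for `hS`: `mean (VL Λ) (JS S k) hS = mean (OO K 4) (JS S k) hS =: mS`; `mean_univ` for `lm l`: `= mean (OO K 4) (l^3) (lm l) = M1 l / 2` (on `𝓞⁴` every `f` is integral at `l`), `l0`: `M0 l`.
(d) `mS > 0`: `loc_frame (toCb c₀) S` gives `(f, u)`; `fr_loc`. Approximate `f` by `g ∈ 𝓞⁴` with `Cg v (k v) g f` for all `v ∈ S` (`g = s f` with `s ≡ 1` modulo `JS S k` and `s f ∈ 𝓞⁴`, as in `Mun.lean`). `hS f = 1` (`leq_refl`), so `hS g = 1`, and `mean_pos`.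
(e) `inv`: `leq_iso`, `mu_iso`, and Galois is invariant; `gbd`: `mu_le`; `gal`: by definition; `eq`: (b).
-/

set_option autoImplicit false

open scoped NumberField Classical
open IsDedekindDomain NumberField H38.ML H63.MA H67.SX H77.MF

noncomputable section

namespace H97.SXM

section loc

variable {K : Type} [Field K] [NumberField K]

/-- the local weight `mu / 2` -/
def lm (l : Pl K) (f : Fin 4 → K) : ℝ := if In l f ∧ ¬ NML l f then MU l f / 2 else 0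

/-- the local weight `1` -/
def l0 (l : Pl K) (f : Fin 4 → K) : ℝ := if In l f ∧ ¬ NML l f then 1 else 0

private theorem hs_mono {n : ℕ} {l : Pl K} {k k' : ℕ} (h : k ≤ k') {f g : Fin n → K}
    (hc : Cg l k' f g) : Cg l k f g := fun i => (hc i).trans (by
  rw [WithZero.exp_le_exp]
  omega)

private theorem hs_rfl {n : ℕ} {l : Pl K} {k : ℕ} {f : Fin n → K} : Cg l k f f := fun i => by
  rw [sub_self, map_zero]
  exact zero_le

private theorem hs_symm {n : ℕ} {l : Pl K} {k : ℕ} {f g : Fin n → K} (h : Cg l k f g) :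
    Cg l k g f := fun i => by
  rw [← neg_sub, Valuation.map_neg]
  exact h i

private theorem hs_trans {n : ℕ} {l : Pl K} {k : ℕ} {f g h : Fin n → K} (h1 : Cg l k f g)
    (h2 : Cg l k g h) : Cg l k f h := fun i => by
  have h3 : f i - h i = (f i - g i) + (g i - h i) := by ring
  rw [h3]
  exact Valuation.map_add_le _ (h1 i) (h2 i)

private theorem hs_in {n : ℕ} {l : Pl K} {k : ℕ} {f g : Fin n → K} (hf : In l f)
    (h : Cg l k g f) : In l g := fun i => by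
  have h3 : g i = (g i - f i) + f i := by ring
  rw [h3]
  refine Valuation.map_add_le _ ((h i).trans ?_) (hf i)
  rw [← WithZero.exp_zero, WithZero.exp_le_exp]
  omega

private theorem lm_cg {l : Pl K} {f g : Fin 4 → K} (hf : In l f) (h : Cg l 3 g f) :
    lm l g = lm l f := by
  unfold lm
  rw [MU_cg hf (hs_mono (by norm_num) h)]
  have h1 : (In l g ∧ ¬ NML l g) ↔ (In l f ∧ ¬ NML l f) := by
    rw [nml_cg hf (hs_mono (by norm_num) h)]
    exact and_congr_left fun _ => ⟨fun _ => hf, fun _ => hs_in hf h⟩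
  by_cases h2 : In l f ∧ ¬ NML l f
  · rw [if_pos h2, if_pos (h1.2 h2)]
  · rw [if_neg h2, if_neg fun h3 => h2 (h1.1 h3)]

private theorem l0_cg {l : Pl K} {f g : Fin 4 → K} (hf : In l f) (h : Cg l 3 g f) :
    l0 l g = l0 l f := by
  unfold l0
  have h1 : (In l g ∧ ¬ NML l g) ↔ (In l f ∧ ¬ NML l f) := by
    rw [nml_cg hf (hs_mono (by norm_num) h)]
    exact and_congr_left fun _ => ⟨fun _ => hf, fun _ => hs_in hf h⟩
  by_cases h2 : In l f ∧ ¬ NML l f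
  · rw [if_pos h2, if_pos (h1.2 h2)]
  · rw [if_neg h2, if_neg fun h3 => h2 (h1.1 h3)]

private theorem lm_bd (l : Pl K) (f : Fin 4 → K) : |lm l f| ≤ 1 := by
  unfold lm
  split_ifs with h
  · have h1 := MU_bd h.1 h.2
    rw [abs_div, abs_two]
    linarith
  · rw [abs_zero]
    exact zero_le_one

private theorem l0_bd (l : Pl K) (f : Fin 4 → K) : |l0 l f| ≤ 1 := by
  unfold l0
  split_ifs
  · rw [abs_one]
  · rw [abs_zero]
    exact zero_le_one

private theorem mean_congr {n : ℕ} {V : Submodule (𝓞 K) (Fin n → K)} {J : Ideal (𝓞 K)}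
    {φ ψ : (Fin n → K) → ℝ} (h : ∀ f ∈ V, φ f = ψ f) : mean V J φ = mean V J ψ := by
  unfold mean
  congr 1
  exact finsum_congr fun c => h _ (Quotient.out c : V).2

private theorem mean_half {n : ℕ} {V : Submodule (𝓞 K) (Fin n → K)} {J : Ideal (𝓞 K)}
    {φ : (Fin n → K) → ℝ} : mean V J (fun f => φ f / 2) = mean V J φ / 2 := by
  unfold mean
  have h1 : ∀ c : V ⧸ (J • ⊤ : Submodule (𝓞 K) V), φ ((Quotient.out c : V) : Fin n → K) / 2 =
      (2 : ℝ)⁻¹ • φ ((Quotient.out c : V) : Fin n → K) := by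
    intro c
    rw [smul_eq_mul]
    ring
  rw [finsum_congr h1, ← smul_finsum, smul_eq_mul]
  ring

private theorem oo_in {n : ℕ} {f : Fin n → K} (hf : f ∈ OO K n) (l : Pl K) : In l f :=
  in_of_mem (fun _ => Iff.rfl) hf

private theorem lm_mean (l : Pl K) : mean (OO K 4) (l.asIdeal ^ 3) (lm l) = M1 l / 2 := by
  unfold M1
  rw [← mean_half]
  refine mean_congr fun f hf => ?_
  unfold lm
  by_cases h : NML l f
  · rw [if_pos h, if_neg fun h1 => h1.2 h, zero_div]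
  · rw [if_neg h, if_pos ⟨oo_in hf l, h⟩]

private theorem l0_mean (l : Pl K) : mean (OO K 4) (l.asIdeal ^ 3) (l0 l) = M0 l := by
  unfold M0
  refine mean_congr fun f hf => ?_
  unfold l0
  by_cases h : NML l f
  · rw [if_pos h, if_neg fun h1 => h1.2 h]
  · rw [if_neg h, if_pos ⟨oo_in hf l, h⟩]

private theorem pl_coprime {v l : Pl K} (h : v ≠ l) : IsCoprime v.asIdeal l.asIdeal := by
  rw [Ideal.isCoprime_iff_sup_eq]
  exact Ideal.IsMaximal.coprime_of_ne v.isMaximal l.isMaximal fun h1 => h (HeightOneSpectrum.ext h1)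

private theorem pl_eq {v l : Pl K} (h : v.asIdeal ≤ l.asIdeal) : v = l :=
  HeightOneSpectrum.ext (v.isMaximal.eq_of_le l.isPrime.ne_top h)

private theorem per_mul {n : ℕ} {V : Submodule (𝓞 K) (Fin n → K)} {J₁ J₂ : Ideal (𝓞 K)}
    {φ ψ : (Fin n → K) → ℝ} (h1 : Per V J₁ φ) (h2 : Per V J₂ ψ) :
    Per V (J₁ * J₂) (fun f => φ f * ψ f) := by
  intro f hf g hg
  show φ (f + g) * ψ (f + g) = φ f * ψ f
  rw [h1 f hf g (Submodule.smul_mono_left Ideal.mul_le_left hg),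
    h2 f hf g (Submodule.smul_mono_left Ideal.mul_le_right hg)]

end loc

variable {K : IntermediateField ℚ QBar} [NumberField K]

/-- the indicator of the type of `c₀` at `S` -/
def hS (S : Finset (Pl K)) (Qd : DP K QBar) (c₀ : Cu K) (k : Pl K → ℕ) (f : Fin 4 → K) : ℝ :=
  if (∀ v ∈ S, In v f ∧ ¬ NML v f) ∧ ∃ (c : Cu K) (f' : Fin 4 → K) (w' : Fin 2 → c.F),
    Lv f' w' ∧ LEq S Qd c₀ c ∧ ∀ v ∈ S, LocEq v (LF w') (OO K 2) ∧ Cg v (k v) f f' then 1 else 0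

/-- the modulus at `S` -/
def JS (S : Finset (Pl K)) (k : Pl K → ℕ) : Ideal (𝓞 K) := ∏ v ∈ S, v.asIdeal ^ k v

/-- the weight on the fields -/
def gM (S : Finset (Pl K)) (Qd : DP K QBar) (c₀ : Cu K) (q : Finset (Pl K)) (c : Cb K) : ℝ :=
  if h : ¬ IsGalois K c.F then
    (if LEq S Qd c₀ ⟨c.F, c.deg, h⟩ then ∏ l ∈ q, (Cu.mu ⟨c.F, c.deg, h⟩ l / 2) else 0)
  else 0

theorem gM_facts (S : Finset (Pl K)) (Qd : DP K QBar) (c₀ : Cu K) (q : Finset (Pl K)) :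
    (∀ c, |gM S Qd c₀ q c| ≤ gM S Qd c₀ ∅ c) ∧ (∀ c, 0 ≤ gM S Qd c₀ ∅ c) ∧
    (∀ c, gM S Qd c₀ ∅ c ≤ 1) ∧
    (∀ c c' : Cb K, Nonempty (c.F ≃ₐ[K] c'.F) → gM S Qd c₀ q c = gM S Qd c₀ q c') ∧
    ∀ c : Cb K, IsGalois K c.F → gM S Qd c₀ q c = 0 := by
  have hmu : ∀ (c : Cu K) (l : Pl K), |c.mu l / 2| ≤ 1 := by
    intro c l
    have h1 := mu_le c l
    rw [abs_div, abs_two]
    linarith
  have h0 : ∀ c, gM S Qd c₀ ∅ c = if h : ¬ IsGalois K c.F then
      (if LEq S Qd c₀ ⟨c.F, c.deg, h⟩ then 1 else 0) else 0 := by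
    intro c
    unfold gM
    simp only [Finset.prod_empty]
  refine ⟨fun c => ?_, fun c => ?_, fun c => ?_, ?_, fun c hc => ?_⟩
  · rw [h0]
    unfold gM
    by_cases h : ¬ IsGalois K c.F
    · rw [dif_pos h, dif_pos h]
      by_cases h' : LEq S Qd c₀ ⟨c.F, c.deg, h⟩
      · rw [if_pos h', if_pos h', Finset.abs_prod]
        exact Finset.prod_le_one (fun l _ => abs_nonneg _) (fun l _ => hmu _ l)
      · rw [if_neg h', if_neg h', abs_zero]
    · rw [dif_neg h, dif_neg h, abs_zero]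
  · rw [h0]
    split_ifs
    all_goals first | exact zero_le_one | exact le_rfl
  · rw [h0]
    split_ifs
    all_goals first | exact zero_le_one | exact le_rfl
  · intro c c' hc
    unfold gM
    by_cases h : ¬ IsGalois K c.F
    · have h' : ¬ IsGalois K c'.F := by
        intro h1
        apply h
        obtain ⟨s⟩ := hc
        exact IsGalois.of_algEquiv s.symm
      rw [dif_pos h, dif_pos h']
      have h1 : Nonempty ((⟨c.F, c.deg, h⟩ : Cu K).F ≃ₐ[K] (⟨c'.F, c'.deg, h'⟩ : Cu K).F) := hc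
      have h2 : LEq S Qd ⟨c.F, c.deg, h⟩ ⟨c'.F, c'.deg, h'⟩ := leq_iso S Qd h1
      have h3 : LEq S Qd c₀ ⟨c.F, c.deg, h⟩ ↔ LEq S Qd c₀ ⟨c'.F, c'.deg, h'⟩ :=
        ⟨fun h4 => leq_trans h4 h2, fun h4 => leq_trans h4 (leq_symm h2)⟩
      by_cases h4 : LEq S Qd c₀ ⟨c.F, c.deg, h⟩
      · rw [if_pos h4, if_pos (h3.1 h4)]
        exact Finset.prod_congr rfl fun l _ => by rw [mu_iso h1 l]
      · rw [if_neg h4, if_neg fun h5 => h4 (h3.2 h5)]
    · have h' : ¬ ¬ IsGalois K c'.F := by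
        intro h1
        apply h
        intro h2
        apply h1
        obtain ⟨s⟩ := hc
        exact IsGalois.of_algEquiv s
      rw [dif_neg h, dif_neg h']
  · unfold gM
    rw [dif_neg (not_not.2 hc)]

private theorem JS_ne (S : Finset (Pl K)) (k : Pl K → ℕ) : (∏ v ∈ S, v.asIdeal ^ k v) ≠ ⊥ := by
  rw [← Ideal.zero_eq_bot, Finset.prod_ne_zero_iff]
  intro l _
  refine pow_ne_zero _ ?_
  rw [Ideal.zero_eq_bot]
  exact l.ne_bot

private theorem hs_01 {S : Finset (Pl K)} {Qd : DP K QBar} {c₀ : Cu K} {k : Pl K → ℕ}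
    (f : Fin 4 → K) : 0 ≤ hS S Qd c₀ k f ∧ hS S Qd c₀ k f ≤ 1 := by
  unfold hS
  split_ifs
  · exact ⟨zero_le_one, le_rfl⟩
  · exact ⟨le_rfl, zero_le_one⟩

private theorem hs_cg {S : Finset (Pl K)} {Qd : DP K QBar} {c₀ : Cu K} {k : Pl K → ℕ}
    (hk : ∀ v, 2 ≤ k v) {f g : Fin 4 → K} (hf : ∀ v ∈ S, In v f)
    (h : ∀ v ∈ S, Cg v (k v) g f) : hS S Qd c₀ k g = hS S Qd c₀ k f := by
  have h1 : ((∀ v ∈ S, In v g ∧ ¬ NML v g) ∧ ∃ (c : Cu K) (f' : Fin 4 → K) (w' : Fin 2 → c.F),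
      Lv f' w' ∧ LEq S Qd c₀ c ∧ ∀ v ∈ S, LocEq v (LF w') (OO K 2) ∧ Cg v (k v) g f') ↔
      ((∀ v ∈ S, In v f ∧ ¬ NML v f) ∧ ∃ (c : Cu K) (f' : Fin 4 → K) (w' : Fin 2 → c.F),
      Lv f' w' ∧ LEq S Qd c₀ c ∧ ∀ v ∈ S, LocEq v (LF w') (OO K 2) ∧ Cg v (k v) f f') := by
    refine and_congr ?_ ?_
    · refine forall₂_congr fun v hv => ?_
      rw [nml_cg (hf v hv) (hs_mono (hk v) (h v hv))]
      exact and_congr_left fun _ => ⟨fun _ => hf v hv, fun _ => hs_in (hf v hv) (h v hv)⟩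
    · refine exists_congr fun c => exists_congr fun f' => exists_congr fun w' => ?_
      refine and_congr_right fun _ => and_congr_right fun _ => forall₂_congr fun v hv => ?_
      exact and_congr_right fun _ => ⟨fun h1 => hs_trans (hs_symm (h v hv)) h1,
        fun h1 => hs_trans (h v hv) h1⟩
  unfold hS
  by_cases h2 : ((∀ v ∈ S, In v f ∧ ¬ NML v f) ∧ ∃ (c : Cu K) (f' : Fin 4 → K)
      (w' : Fin 2 → c.F), Lv f' w' ∧ LEq S Qd c₀ c ∧
      ∀ v ∈ S, LocEq v (LF w') (OO K 2) ∧ Cg v (k v) f f')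
  · rw [if_pos h2, if_pos (h1.2 h2)]
  · rw [if_neg h2, if_neg fun h3 => h2 (h1.1 h3)]

private theorem hs_eq {S : Finset (Pl K)} {Qd : DP K QBar} {c₀ : Cu K} {k : Pl K → ℕ}
    (hkr : ∀ (v : Pl K) (c c' : Cu K) (f f' : Fin 4 → K) (w : Fin 2 → c.F) (w' : Fin 2 → c'.F),
      Lv f w → Lv f' w' → LocEq v (LF w) (OO K 2) → LocEq v (LF w') (OO K 2) →
      Cg v (k v) f f' → LEq {v} Qd c c')
    {c : Cu K} {f : Fin 4 → K} {w : Fin 2 → c.F} (h : Lv f w)
    (hl : ∀ v ∈ S, LocEq v (LF w) (OO K 2)) :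
    hS S Qd c₀ k f = if LEq S Qd c₀ c then 1 else 0 := by
  unfold hS
  by_cases hc : LEq S Qd c₀ c
  · rw [if_pos hc, if_pos]
    exact ⟨fun v hv => fr_loc (toCb c) h (hl v hv), c, f, w, h, hc, fun v hv => ⟨hl v hv, hs_rfl⟩⟩
  · rw [if_neg hc, if_neg]
    rintro ⟨-, c', f', w', h1, h2, h3⟩
    refine hc (leq_trans h2 (leq_symm (leq_sing fun v hv => ?_)))
    exact hkr v c c' f f' w w' h h1 (hl v hv) (h3 v hv).1 (h3 v hv).2

private theorem mn_aux {S : Finset (Pl K)} {Qd : DP K QBar} {c₀ : Cu K} {k : Pl K → ℕ}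
    (hk : ∀ v, 2 ≤ k v) {u : Pl K → (Fin 4 → K) → ℝ} {m : Pl K → ℝ}
    (u1 : ∀ l f g, In l f → Cg l 3 g f → u l g = u l f)
    (u4 : ∀ l, mean (OO K 4) (l.asIdeal ^ 3) (u l) = m l) {V : Submodule (𝓞 K) (Fin 4 → K)}
    (hV : V.FG) (hS' : ∀ l ∈ S, LocEq l V (OO K 4)) (q : Finset (Pl K)) :
    (∀ l ∈ q, l ∉ S) → (∀ l ∈ q, LocEq l V (OO K 4)) →
      Per V (JS S k * JQ q ^ 3) (fun f => hS S Qd c₀ k f * ∏ l ∈ q, u l f) ∧
      mean V (JS S k * JQ q ^ 3) (fun f => hS S Qd c₀ k f * ∏ l ∈ q, u l f) =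
        mean (OO K 4) (JS S k) (hS S Qd c₀ k) * ∏ l ∈ q, m l := by
  induction q using Finset.induction_on with
  | empty =>
    intro _ _
    have h1 := mean_all hV hS' (φ := hS S Qd c₀ k) (k := k) (fun f g h1 h2 => hs_cg hk h1 h2)
    have h2 : JS S k * JQ (∅ : Finset (Pl K)) ^ 3 = JS S k := by
      unfold JQ
      rw [Finset.prod_empty, one_pow, mul_one]
    have h3 : (fun f => hS S Qd c₀ k f * ∏ l ∈ (∅ : Finset (Pl K)), u l f) = hS S Qd c₀ k := by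
      funext f
      rw [Finset.prod_empty, mul_one]
    rw [h2, h3, Finset.prod_empty, mul_one]
    exact h1
  | insert a q ha ih =>
    intro hq hl
    obtain ⟨h1, h2⟩ := ih (fun l hl' => hq l (Finset.mem_insert_of_mem hl'))
      (fun l hl' => hl l (Finset.mem_insert_of_mem hl'))
    have h3 : JS S k * JQ (insert a q) ^ 3 = (JS S k * JQ q ^ 3) * a.asIdeal ^ 3 := by
      unfold JQ
      rw [Finset.prod_insert ha, mul_pow]
      ring
    have h4 : (fun f => hS S Qd c₀ k f * ∏ l ∈ insert a q, u l f) =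
        fun f => (hS S Qd c₀ k f * ∏ l ∈ q, u l f) * u a f := by
      funext f
      rw [Finset.prod_insert ha]
      ring
    have h5 := mean_all hV (B := {a}) (k := fun _ => 3) (φ := u a)
      (fun l hl' => by
        rw [Finset.mem_singleton] at hl'
        rw [hl']
        exact hl a (Finset.mem_insert_self a q))
      (fun f g h5 h6 => u1 a f g (h5 a (Finset.mem_singleton_self a))
        (h6 a (Finset.mem_singleton_self a)))
    rw [Finset.prod_singleton] at h5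
    rw [h3, h4]
    refine ⟨per_mul h1 h5.1, ?_⟩
    rw [mean_mul hV ?_ ?_ ?_ h1 h5.1, h2, h5.2, u4, Finset.prod_insert ha]
    · ring
    · exact mul_ne_zero (JS_ne S k) (pow_ne_zero 3 (JQ_norm q).1)
    · exact pow_ne_zero 3 a.ne_bot
    · refine IsCoprime.mul_left (IsCoprime.prod_left fun v hv => ?_) ?_
      · refine IsCoprime.pow (pl_coprime ?_)
        rintro rfl
        exact hq v (Finset.mem_insert_self v q) hv
      · refine IsCoprime.pow ?_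
        unfold JQ
        refine IsCoprime.prod_left fun v hv => pl_coprime ?_
        rintro rfl
        exact ha hv

private theorem wts_aux {S : Finset (Pl K)} (h6 : ∀ l : Pl K, (6 : 𝓞 K) ∈ l.asIdeal → l ∈ S)
    (Qd : DP K QBar) (c₀ : Cu K) {k : Pl K → ℕ} (hk : ∀ v, 2 ≤ k v)
    (hkr : ∀ (v : Pl K) (c c' : Cu K) (f f' : Fin 4 → K) (w : Fin 2 → c.F) (w' : Fin 2 → c'.F),
      Lv f w → Lv f' w' → LocEq v (LF w) (OO K 2) → LocEq v (LF w') (OO K 2) →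
      Cg v (k v) f f' → LEq {v} Qd c c')
    {u : Pl K → (Fin 4 → K) → ℝ} {m : Pl K → ℝ}
    (u1 : ∀ l f g, In l f → Cg l 3 g f → u l g = u l f) (u2 : ∀ l f, |u l f| ≤ 1)
    (u3 : ∀ l f, NML l f → u l f = 0)
    (u4 : ∀ l, mean (OO K 4) (l.asIdeal ^ 3) (u l) = m l) {q : Finset (Pl K)}
    (hq : ∀ l ∈ q, l ∉ S) {q' : Finset (Pl K)}
    (hu : ∀ (c : Cu K) (f : Fin 4 → K) (w : Fin 2 → c.F), Lv f w →
      (∀ l ∈ q, LocEq l (LF w) (OO K 2)) → ∏ l ∈ q, u l f = ∏ l ∈ q', (c.mu l / 2)) :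
    Wt (S ∪ q) (JS S k * JQ q ^ 3) (fun f => hS S Qd c₀ k f * ∏ l ∈ q, u l f)
      (gM S Qd c₀ q') (mean (OO K 4) (JS S k) (hS S Qd c₀ k) * ∏ l ∈ q, m l) := by
  have _h6 := h6
  obtain ⟨g1, g2, g3, g4, g5⟩ := gM_facts S Qd c₀ q'
  have hm : ∀ Λ ∈ LQ (S ∪ q), Per (VL Λ) (JS S k * JQ q ^ 3)
      (fun f => hS S Qd c₀ k f * ∏ l ∈ q, u l f) ∧
      mean (VL Λ) (JS S k * JQ q ^ 3) (fun f => hS S Qd c₀ k f * ∏ l ∈ q, u l f) =
        mean (OO K 4) (JS S k) (hS S Qd c₀ k) * ∏ l ∈ q, m l := by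
    rintro Λ ⟨hL, -, hl⟩
    exact mn_aux hk u1 u4 (vl_fg hL)
      (fun l hl' => vl_loc hL (hl l (Finset.mem_union_left q hl'))) q hq
      (fun l hl' => vl_loc hL (hl l (Finset.mem_union_right S hl')))
  refine ⟨?_, ?_, fun Λ hΛ => (hm Λ hΛ).1, ?_, ?_, fun Λ hΛ => (hm Λ hΛ).2, g4,
    fun c => (g1 c).trans (g3 c), g5, ?_⟩
  · exact mul_ne_zero (JS_ne S k) (pow_ne_zero 3 (JQ_norm q).1)
  · intro l hl
    have hp := l.isPrime
    rw [Finset.mem_union]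
    rcases hp.mul_le.1 hl with h1 | h1
    · left
      obtain ⟨v, hv, h2⟩ := (Ideal.IsPrime.prod_le hp).1 h1
      rw [← pl_eq (hp.le_of_pow_le h2)]
      exact hv
    · right
      have h3 := hp.le_of_pow_le h1
      obtain ⟨v, hv, h2⟩ := (Ideal.IsPrime.prod_le hp).1 h3
      rw [← pl_eq h2]
      exact hv
  · intro f
    rw [abs_mul, Finset.abs_prod]
    have h1 : |hS S Qd c₀ k f| ≤ 1 := by
      rw [abs_of_nonneg (hs_01 f).1]
      exact (hs_01 f).2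
    have h2 : ∏ l ∈ q, |u l f| ≤ 1 :=
      Finset.prod_le_one (fun l _ => abs_nonneg _) (fun l _ => u2 l f)
    calc |hS S Qd c₀ k f| * ∏ l ∈ q, |u l f| ≤ 1 * 1 :=
          mul_le_mul h1 h2 (Finset.prod_nonneg fun l _ => abs_nonneg _) zero_le_one
      _ = 1 := one_mul 1
  · rintro Λ ⟨hL, -, hl⟩ l hlq f hf
    have h1 : NML l f := (nm_iff hL (hl l hlq) hf.1).1 hf
    rcases Finset.mem_union.1 hlq with h2 | h2
    · have h3 : hS S Qd c₀ k f = 0 := if_neg fun h4 => (h4.1 l h2).2 h1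
      show hS S Qd c₀ k f * _ = 0
      rw [h3, zero_mul]
    · show _ * ∏ l ∈ q, u l f = 0
      rw [Finset.prod_eq_zero h2 (u3 l f h1), mul_zero]
  · intro f x hx hg hL
    rw [lmx_eq hx] at hL
    obtain ⟨-, -, hl⟩ := hL
    have h1 := hs_eq (S := S) (c₀ := c₀) hkr (c := ⟨x.1.F, x.1.deg, hg⟩) (w := x.2) hx
      (fun l hl' => hl l (Finset.mem_union_left q hl'))
    have h2 := hu ⟨x.1.F, x.1.deg, hg⟩ f x.2 hx (fun l hl' => hl l (Finset.mem_union_right S hl'))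
    show hS S Qd c₀ k f * ∏ l ∈ q, u l f = _
    unfold gM
    rw [dif_pos hg, h1, h2]
    split_ifs
    · rw [one_mul]
    · rw [zero_mul]

theorem wts (S : Finset (Pl K)) (h6 : ∀ l : Pl K, (6 : 𝓞 K) ∈ l.asIdeal → l ∈ S)
    (Qd : DP K QBar) (c₀ : Cu K) : ∃ (k : Pl K → ℕ) (mS : ℝ), 0 < mS ∧
    ∀ q : Finset (Pl K), (∀ l ∈ q, l ∉ S) →
    (∃ H, Wt (S ∪ q) (JS S k * JQ q ^ 3) H (gM S Qd c₀ q) (mS * ∏ l ∈ q, (M1 l / 2))) ∧
    ∃ H, Wt (S ∪ q) (JS S k * JQ q ^ 3) H (gM S Qd c₀ ∅) (mS * ∏ l ∈ q, M0 l) := by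
  have hkr := fun v : Pl K => krasner Qd v
  choose k₀ hk₀ using hkr
  obtain ⟨k, hk⟩ : ∃ k : Pl K → ℕ, ∀ v, k v = max 3 (k₀ v) := ⟨_, fun _ => rfl⟩
  have hk2 : ∀ v, 2 ≤ k v := by
    intro v
    rw [hk]
    exact le_trans (by norm_num) (le_max_left _ _)
  have hkr : ∀ (v : Pl K) (c c' : Cu K) (f f' : Fin 4 → K) (w : Fin 2 → c.F) (w' : Fin 2 → c'.F),
      Lv f w → Lv f' w' → LocEq v (LF w) (OO K 2) → LocEq v (LF w') (OO K 2) →
      Cg v (k v) f f' → LEq {v} Qd c c' := by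
    intro v c c' f f' w w' h1 h2 h3 h4 h5
    refine hk₀ v c c' f f' w w' h1 h2 h3 h4 (hs_mono ?_ h5)
    rw [hk]
    exact le_max_right _ _
  refine ⟨k, mean (OO K 4) (JS S k) (hS S Qd c₀ k), ?_, fun q hq =>
    ⟨⟨fun f => hS S Qd c₀ k f * ∏ l ∈ q, lm l f, ?_⟩,
      ⟨fun f => hS S Qd c₀ k f * ∏ l ∈ q, l0 l f, ?_⟩⟩⟩
  · obtain ⟨f, u, hf, -, hl⟩ := loc_frame (toCb c₀) S
    have hL : Lt (LF (K := K) u) := lf_lt (toCb c₀).deg hf
    have hV : f ∈ VL (LF (K := K) u) := lf_vl (toCb c₀).deg hf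
    obtain ⟨h1, h2⟩ := mean_all (V := VL (LF (K := K) u)) (vl_fg hL) (B := S) (k := k)
      (fun l hl' => vl_loc hL (hl l hl')) (φ := hS S Qd c₀ k) (fun f g h1 h2 => hs_cg hk2 h1 h2)
    unfold JS
    rw [← h2]
    refine mean_pos (vl_fg hL) (JS_ne S k) h1 (fun f => (hs_01 f).1) hV ?_
    rw [show hS S Qd c₀ k f = 1 from ?_]
    · exact zero_lt_one
    · unfold hS
      refine if_pos ⟨fun v hv => fr_loc (toCb c₀) hf (hl v hv), c₀, f, u, hf, leq_refl S Qd c₀,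
        fun v hv => ⟨hl v hv, hs_rfl⟩⟩
  · refine wts_aux h6 Qd c₀ hk2 hkr (u := lm) (m := fun l => M1 l / 2) (fun l f g h1 h2 => lm_cg h1 h2)
      (fun l f => lm_bd l f) (fun l f h => if_neg fun h1 => h1.2 h) (fun l => lm_mean l) hq (q' := q) ?_
    intro c f w hw hl
    refine Finset.prod_congr rfl fun l hlq => ?_
    have h1 := fr_loc (toCb c) hw (hl l hlq)
    unfold lm
    rw [if_pos h1, mu_eq c hw (fun h => hq l hlq (h6 l h)) (hl l hlq)]
  · refine wts_aux h6 Qd c₀ hk2 hkr (u := l0) (m := M0) (fun l f g h1 h2 => l0_cg h1 h2)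
      (fun l f => l0_bd l f) (fun l f h => if_neg fun h1 => h1.2 h) (fun l => l0_mean l) hq (q' := ∅) ?_
    intro c f w hw hl
    rw [Finset.prod_empty]
    refine Finset.prod_eq_one fun l hlq => ?_
    exact if_pos (fr_loc (toCb c) hw (hl l hlq))

end H97.SXM
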