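import Pool.Agent.H97.SXM.Win

/-!
# [SXM MST] The theorem of chapter M, 80-140 lines. File Pool/Agent/H97/SXM/Mst.lean

`win` gives `κ₀, C, A, η`. For `q` disjoint from `S` apply `lim_sum` with `ι = Cb K`, `D = Cb.D` (`1 ≤ D`: `od_one` for `om c`, `om_D`; finiteness: `cb_fin`), `g = gM q`, `g₀ = gM ∅` (`gM_facts`), `κ := κ₀`, `β := κ₀ ∏ M1 l/(2 M0 l)`, `E := (C + κ₀ + 1) (nr q)^A` (the windows of `g₀` from `win` with `q = ∅`, `nr ∅ = 1 ≤ nr q`; `BB` is the sum over the window by definition).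
Result: `|∑ᶠ_{c.D ≤ R} gM q c - β R| ≤ C (nr q)^A R^(1 - η/4)`. Multiply by `2^#q ≤ nr q` (`nm l ≥ 2`): `2^#q β = κ₀ ∏ M1 l/M0 l`, and `2^#q ∑ᶠ_{c : Cb K, c.D ≤ R} gM q c = ∑ᶠ_{c : Cu K, LEq S Q c₀ c, c.D ≤ R} ∏_{l ∈ q} c.mu l`: `toCb : Cu K → Cb K` is injective with image the non Galois fields, `gM q` is 0 outside the image
(and outside `LEq`), `(toCb c).D = c.D` by `rfl`.
`m l := if (6 : 𝓞 K) ∈ l.asIdeal then 0 else M1 l / M0 l`: for `l ∈ q` the second case (`l ∉ S`). `|m l| ≤ 4 C/nm l` and `-1 ≤ m l` by `M1_bd`, `M0_bd`. `δ = η/4`.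
`mst_ex`: with helper88's theorems (`H88.SO.red_frame`, `H88.SO.od_cnt`; `RFS`, `OCS` are these statements): no hypotheses on orders (this second theorem is added when they are in; leave it to helper97).
-/

set_option autoImplicit false

open scoped NumberField Classical
open IsDedekindDomain NumberField H38.ML H63.MA H67.SX H77.MF

noncomputable section

namespace H97.SXM

private theorem mst_two (K : Type) [Field K] [NumberField K] (l : Pl K) : (2 : ℝ) ≤ nm l := by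
  exact_mod_cast one_lt_nm l

private theorem mst_pow {K : Type} [Field K] [NumberField K] (q : Finset (Pl K)) : (2 : ℝ) ^ q.card ≤ nr q := by
  unfold nr
  rw [← Finset.prod_const]
  exact Finset.prod_le_prod (fun _ _ => by norm_num) (fun l _ => mst_two K l)

private theorem mst_one {K : Type} [Field K] [NumberField K] (q : Finset (Pl K)) : 1 ≤ nr q := by
  refine le_trans ?_ (mst_pow q)
  exact one_le_pow₀ (by norm_num)

variable {K : IntermediateField ℚ QBar} [NumberField K]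

omit [NumberField K] in
private theorem toCb_inj : Function.Injective (toCb (K := K)) := by
  rintro ⟨F, d, n⟩ ⟨F', d', n'⟩ h
  have h1 : F = F' := congrArg Cb.F h
  subst h1
  rfl

private theorem gM_toCb (S : Finset (Pl K)) (Qd : DP K QBar) (c₀ c : Cu K) (q : Finset (Pl K)) :
    (2 : ℝ) ^ q.card * gM S Qd c₀ q (toCb c) = if LEq S Qd c₀ c then ∏ l ∈ q, c.mu l else 0 := by
  have h : ¬ IsGalois K (toCb c).F := c.non
  unfold gM
  rw [dif_pos h]
  show (2 : ℝ) ^ q.card * (if LEq S Qd c₀ c then ∏ l ∈ q, (c.mu l / 2) else 0) = _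
  split_ifs
  · rw [Finset.prod_div_distrib, Finset.prod_const]
    field_simp
  · rw [mul_zero]

private theorem mst_sum (S : Finset (Pl K)) (Qd : DP K QBar) (c₀ : Cu K) (q : Finset (Pl K)) {R : ℝ}
    (hfin : {c : Cb K | c.D ≤ R}.Finite) :
    ∑ᶠ c ∈ {c : Cu K | LEq S Qd c₀ c ∧ c.D ≤ R}, ∏ l ∈ q, c.mu l =
      2 ^ q.card * ∑ᶠ c ∈ {c : Cb K | c.D ≤ R}, gM S Qd c₀ q c := by
  obtain ⟨G, hG⟩ : ∃ G : Cb K → ℝ, G = Set.indicator {c : Cb K | c.D ≤ R} (gM S Qd c₀ q) := ⟨_, rfl⟩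
  have h1 : ∑ᶠ c ∈ {c : Cb K | c.D ≤ R}, gM S Qd c₀ q c = ∑ᶠ c, G c := by
    rw [hG, finsum_mem_def]
  have h2 : G = Set.indicator (Set.range (toCb (K := K))) G := by
    symm
    rw [Set.indicator_eq_self]
    intro c hc
    have h3 : gM S Qd c₀ q c ≠ 0 := by
      intro h0
      apply hc
      rw [hG, Set.indicator_apply]
      split_ifs
      · exact h0
      · rfl
    have h4 : ¬ IsGalois K c.F := by
      intro h5
      apply h3
      unfold gM
      rw [dif_neg (not_not.2 h5)]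
    exact ⟨⟨c.F, c.deg, h4⟩, rfl⟩
  have hsup : (Function.support G).Finite := by
    refine hfin.subset ?_
    rw [hG]
    exact Set.support_indicator_subset
  have h3 : ∑ᶠ c, G c = ∑ᶠ c : Cu K, G (toCb c) := by
    rw [← finsum_mem_range toCb_inj, finsum_mem_def, ← h2]
  rw [h1, h3, mul_finsum, finsum_mem_def]
  refine finsum_congr fun c => ?_
  have h4 := gM_toCb S Qd c₀ c q
  rw [hG, Set.indicator_apply, Set.indicator_apply]
  by_cases h6 : c.D ≤ R
  · have h7 : toCb c ∈ {c : Cb K | c.D ≤ R} := h6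
    rw [if_pos h7, h4]
    by_cases h8 : LEq S Qd c₀ c
    · rw [if_pos h8, if_pos]
      exact ⟨h8, h6⟩
    · rw [if_neg h8, if_neg]
      exact fun h9 => h8 h9.1
  · have h7 : toCb c ∉ {c : Cb K | c.D ≤ R} := h6
    rw [if_neg h7, if_neg, mul_zero]
    exact fun h9 => h6 h9.2

theorem mst (K : IntermediateField ℚ QBar) [NumberField K] [IsTotallyComplex K] {ω : K}
    (hω : IsPrimitiveRoot ω 3) {κ : ℝ} (hκ : 1 ≤ κ) (hR : RFS K κ) (hO : OCS K κ)
    (S : Finset (Pl K)) (h6 : ∀ l : Pl K, (6 : 𝓞 K) ∈ l.asIdeal → l ∈ S)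
    (Qd : DP K QBar) : MStat K S Qd := by
  intro c₀
  obtain ⟨κ₀, C, A, η, hκ₀, hC, hη, hη1, hw⟩ := win K hω hκ hR hO S h6 Qd c₀
  obtain ⟨C', hC', hls⟩ := lim_sum hη hη1
  obtain ⟨C₁, hC₁, hM1⟩ := M1_bd K
  obtain ⟨C₂, hC₂, hfin⟩ := cb_fin K hR hO
  have hCC : 1 ≤ C' * (C + κ₀ + 1) := by nlinarith
  have hM0 : ∀ l : Pl K, 0 < M0 l := fun l => by linarith [(M0_bd l).1]
  refine ⟨κ₀, fun l => if (6 : 𝓞 K) ∈ l.asIdeal then 0 else M1 l / M0 l, C' * (C + κ₀ + 1) + 4 * C₁, A + 1, η / 4,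
    hκ₀, by linarith, by positivity, by linarith, ?_, ?_, ?_⟩
  · intro l
    have hn : 0 < (nm l : ℝ) := by linarith [mst_two K l]
    show |if (6 : 𝓞 K) ∈ l.asIdeal then 0 else M1 l / M0 l| ≤ _
    split_ifs with h
    · rw [abs_zero]
      positivity
    · have h1 := (hM1 l h).1
      have h2 := (M0_bd l).1
      rw [abs_div, abs_of_pos (hM0 l), div_le_div_iff₀ (hM0 l) hn]
      have h3 : |M1 l| * nm l ≤ C₁ := by rwa [le_div_iff₀ hn] at h1
      nlinarith
  · intro l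
    show -1 ≤ if (6 : 𝓞 K) ∈ l.asIdeal then 0 else M1 l / M0 l
    split_ifs with h
    · norm_num
    · rw [le_div_iff₀ (hM0 l)]
      linarith [(hM1 l h).2]
  · intro q hq R hR1
    have hfin' : ∀ R : ℝ, {c : Cb K | c.D ≤ R}.Finite := by
      intro R
      refine (hfin (max R 1) (le_max_right _ _)).1.subset ?_
      intro c hc
      have hc' : c.D ≤ R := hc
      exact hc'.trans (le_max_left _ _)
    have hone : ∀ c : Cb K, 1 ≤ c.D := fun c => (od_one (om c)).1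
    have hn1 : 1 ≤ nr q := mst_one q
    have hnA : 1 ≤ nr q ^ A := one_le_pow₀ hn1
    have hE1 : 1 ≤ (C + κ₀ + 1) * nr q ^ A := by nlinarith
    have hE2 : κ₀ ≤ (C + κ₀ + 1) * nr q ^ A := by nlinarith
    have hE3 : C * nr q ^ A ≤ (C + κ₀ + 1) * nr q ^ A := by nlinarith
    have hE4 : C ≤ (C + κ₀ + 1) * nr q ^ A := by nlinarith
    have key := hls (Cb K) Cb.D (gM S Qd c₀ q) (gM S Qd c₀ ∅) κ₀ (κ₀ * ∏ l ∈ q, M1 l / (2 * M0 l))
      ((C + κ₀ + 1) * nr q ^ A) hκ₀.le hE2 hE1 hone hfin' (gM_facts S Qd c₀ q).1 ?_ ?_ R hR1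
    · rw [mst_sum S Qd c₀ q (hfin' R)]
      have hprod : ∏ l ∈ q, (if (6 : 𝓞 K) ∈ l.asIdeal then 0 else M1 l / M0 l) =
          2 ^ q.card * ∏ l ∈ q, M1 l / (2 * M0 l) := by
        rw [← Finset.prod_const, ← Finset.prod_mul_distrib]
        refine Finset.prod_congr rfl fun l hl => ?_
        rw [if_neg fun h => hq l hl (h6 l h)]
        have := (hM0 l).ne'
        field_simp
      show |_ - κ₀ * R * ∏ l ∈ q, (if (6 : 𝓞 K) ∈ l.asIdeal then 0 else M1 l / M0 l)| ≤ _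
      rw [hprod]
      have e1 : 2 ^ q.card * (∑ᶠ c ∈ {c : Cb K | c.D ≤ R}, gM S Qd c₀ q c) -
          κ₀ * R * (2 ^ q.card * ∏ l ∈ q, M1 l / (2 * M0 l)) =
          2 ^ q.card * ((∑ᶠ c ∈ {c : Cb K | c.D ≤ R}, gM S Qd c₀ q c) -
            (κ₀ * ∏ l ∈ q, M1 l / (2 * M0 l)) * R) := by ring
      rw [e1, abs_mul, abs_of_nonneg (by positivity)]
      have hRp : 0 ≤ R ^ (1 - η / 4) := Real.rpow_nonneg (by linarith) _
      calc 2 ^ q.card * |(∑ᶠ c ∈ {c : Cb K | c.D ≤ R}, gM S Qd c₀ q c) -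
            (κ₀ * ∏ l ∈ q, M1 l / (2 * M0 l)) * R|
          ≤ nr q * (C' * ((C + κ₀ + 1) * nr q ^ A) * R ^ (1 - η / 4)) :=
            mul_le_mul (mst_pow q) key (abs_nonneg _) (by linarith)
        _ = (C' * (C + κ₀ + 1)) * (nr q ^ (A + 1) * R ^ (1 - η / 4)) := by ring
        _ ≤ (C' * (C + κ₀ + 1) + 4 * C₁) * (nr q ^ (A + 1) * R ^ (1 - η / 4)) := by
            refine mul_le_mul_of_nonneg_right (by linarith) ?_
            exact mul_nonneg (pow_nonneg (by linarith) _) hRp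
        _ = _ := by ring
    · intro α R' h1 h2 h3
      refine (hw q hq α R' h1 h2 h3).trans ?_
      exact mul_le_mul_of_nonneg_right hE3 (Real.rpow_nonneg (by linarith) _)
    · intro α R' h1 h2 h3
      have h4 := hw ∅ (by simp) α R' h1 h2 h3
      have e0 : nr (∅ : Finset (Pl K)) = 1 := by
        unfold nr
        rw [Finset.prod_empty]
      rw [Finset.prod_empty, mul_one, e0, one_pow, mul_one] at h4
      refine h4.trans ?_
      exact mul_le_mul_of_nonneg_right hE4 (Real.rpow_nonneg (by linarith) _)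

end H97.SXM
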