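import Pool.Agent.H97.SXM.OdA
import Pool.Agent.H57.LI.PrK

/-!
# [SXM NMX] Orders which are not maximal at a large prime, 150-240 lines. File Pool/Agent/H97/SXM/Nmx.lean

HYPOTHESIS `OCS K κ` and `RFS K κ` (with `Z = 1`): `#{o : o.D ≤ Y} ≤ C Y` for `Y ≥ 1` (every order has a reduced frame, `T₁ ≤ T₂`); there is no order with `D < 1` (`od_one`).
Let `o` be an order, `o.D ≤ R`, not maximal at `l`: frame `(f, w)`, `Λ = pre w o.M`, `Λ < Λ'`, `l Λ' ≤ Λ`, `f ∈ VL Λ'`. `q = nm l`. The order `o'` with `pre w o'.M = Λ'` (`mm_pre`, `Lt Λ'`: `Λ'` is finitely generated because `Λ' ≤ l⁻¹ Λ = linv l Λ` and `𝓞 K` is noetherian), `o'.D = o.D / [Λ' : Λ]²`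
(`od_disc` for a frame in `o.M`, or `Od.D` directly: `[KO : M] = [KO : M'][M' : M]`, `[M' : M] = [Λ' : Λ]`).
CASE A: `Λ' = linv l Λ`: `Λ = l Λ'` (`rix_inv`), index `q²`, `o'.D = o.D / q⁴`, and `o` is determined by `o'` (and `l`): the number of these `o` is `≤ #{o' : o'.D ≤ R / q⁴} ≤ C R / q⁴`.
CASE B: otherwise `l Λ' < Λ < Λ'` (`l Λ' ≠ Λ`: else `Λ' = linv l Λ` by cancellation, `rix_inv` for `Λ'`; or the index), index `q` (`rix_mid`), `o'.D = o.D / q²`. B1: `f ∉ VL (linv l Λ')`: given `o'` at most 3 lattices `Λ` (`sub_three`): number of `o` `≤ 3 #{o' : o'.D ≤ R / q²} ≤ 3 C R / q²`.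
B2: `f ∈ VL (linv l Λ')`: the order `o''` with `pre w o''.M = linv l Λ'`, `o''.D = o'.D / q⁴ ≤ R / q⁶`, `o'` is determined by `o''`, and given `o'` at most `q + 1` lattices `Λ` (`mid_card`): number of `o` `≤ (q + 1) C R / q⁶`.
Everything expressed in ONE frame of `o.c` (the same frame `w` for `o, o', o''`: `od_any`). Total for one `l`: `≤ 8 C R / q²`. (To count, map `o ↦ o'` and bound the fibres: `Finset.card_le_mul_card_image`.)
Sum over the primes `l` with `q > z`: `∑ 8 C R / q² ≤ C' R / z`: at most `d x` (`d = [K : ℚ]`) primes with `nm l ≤ x` (every prime lies over one rational prime `p ≤ x`, at most `d` over each `p`), dyadic decomposition; only finitely many `l` matter (`q² ≤ R`). For `z ≥ 1`.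
-/

set_option autoImplicit false

open scoped NumberField Classical
open IsDedekindDomain NumberField H38.ML H63.MA H67.SX H77.MF

noncomputable section

namespace H97.SXM

section lat

variable {K : Type} [Field K] [NumberField K]

private theorem nx_card {n : ℕ} {Λ : Submodule (𝓞 K) (Fin n → K)} (J : Ideal (𝓞 K)) :
    (J • Λ).toAddSubgroup.relIndex Λ.toAddSubgroup = Nat.card (Λ ⧸ (J • ⊤ : Submodule (𝓞 K) Λ)) := by
  have h : (J • Λ).toAddSubgroup.addSubgroupOf Λ.toAddSubgroup =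
      (J • ⊤ : Submodule (𝓞 K) Λ).toAddSubgroup := by
    ext x
    show (x : Fin n → K) ∈ J • Λ ↔ x ∈ (J • ⊤ : Submodule (𝓞 K) Λ)
    exact (Submodule.mem_smul_top_iff J Λ x).symm
  unfold AddSubgroup.relIndex
  rw [h]
  rfl

private theorem nx_lt {Λ Λ' Λ'' : Submodule (𝓞 K) (Fin 2 → K)} (hL : Lt Λ) (hL' : Lt Λ'')
    (h : Λ ≤ Λ') (h' : Λ' ≤ Λ'') : Lt Λ' := by
  have := isNoetherian_of_fg_of_noetherian Λ'' hL'.1
  obtain ⟨v, hv, w, hw, hd⟩ := hL.2
  exact ⟨Submodule.FG.of_le_of_isNoetherian h', v, h hv, w, h hw, hd⟩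

private theorem nx_q (l : Pl K) : 2 ≤ nm l := H57.LI.prk_two l

/-- the superlattice -/
private theorem nx_sup {Λ : Submodule (𝓞 K) (Fin 2 → K)} (hL : Lt Λ) {l : Pl K} {f : Fin 4 → K}
    (h : f ∈ NM l Λ) : ∃ Λ' : Submodule (𝓞 K) (Fin 2 → K), Lt Λ' ∧ f ∈ VL Λ' ∧ Λ ≤ Λ' ∧
      ((Λ = l.asIdeal • Λ' ∧ rix Λ Λ' = nm l ^ 2) ∨
        (l.asIdeal • Λ' < Λ ∧ Λ < Λ' ∧ rix Λ Λ' = nm l)) := by
  obtain ⟨hf, Λ', h1, h2, h3⟩ := h
  obtain ⟨r1, r2, r3, r4⟩ := rix_inv hL l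
  have hle : Λ' ≤ linv l Λ := by
    intro v hv s hs
    exact h2 (Submodule.smul_mem_smul hs hv)
  have hL' : Lt Λ' := nx_lt hL r1 h1.le hle
  refine ⟨Λ', hL', h3, h1.le, ?_⟩
  by_cases hA : Λ' = linv l Λ
  · left
    rw [hA]
    exact ⟨r3.symm, r4⟩
  · right
    have hlt : Λ' < linv l Λ := lt_of_le_of_ne hle hA
    have m1 : rix Λ' (linv l Λ) = nm l := rix_mid r1 (by rw [r3]; exact h1) hlt
    have m2 : rix Λ Λ' * rix Λ' (linv l Λ) = rix Λ (linv l Λ) :=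
      AddSubgroup.relIndex_mul_relIndex Λ.toAddSubgroup Λ'.toAddSubgroup (linv l Λ).toAddSubgroup h1.le hle
    have hq := nx_q l
    have m3 : rix Λ Λ' = nm l := by
      rw [m1, r4, pow_two] at m2
      exact Nat.eq_of_mul_eq_mul_right (by omega) m2
    refine ⟨lt_of_le_of_ne h2 ?_, h1, m3⟩
    intro he
    have m4 : rix (l.asIdeal • Λ') Λ' = nm l ^ 2 := by
      unfold rix
      rw [nx_card]
      exact (gn_card hL' l).1
    rw [he, m3] at m4
    have m5 : nm l * nm l = nm l * 1 := by rw [mul_one, ← pow_two, ← m4]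
    have m6 := Nat.eq_of_mul_eq_mul_left (by omega) m5
    omega

omit [NumberField K] in
private theorem nx_cb (v v' x : Fin 2 → K) (s : 𝓞 K) : cb v v' (s • x) = s • cb v v' x := by
  funext i
  simp only [cb, Pi.smul_apply, Algebra.smul_def]
  ring

private theorem nx_un {P : Type} {Y S : Set P} (F : P → Set P) (m : ℕ) (hY : Y.Finite)
    (hF : ∀ y ∈ Y, (F y).Finite ∧ (F y).ncard ≤ m) (h : ∀ x ∈ S, ∃ y ∈ Y, x ∈ F y) :
    S.Finite ∧ S.ncard ≤ Y.ncard * m := by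
  classical
  obtain ⟨g, hg⟩ : ∃ g : P → Finset P, ∀ y ∈ Y, (g y : Set P) = F y :=
    ⟨fun y => if h : (F y).Finite then h.toFinset else ∅, fun y hy => by
      simp only [dif_pos (hF y hy).1, Set.Finite.coe_toFinset]⟩
  have h1 : S ⊆ ((hY.toFinset.biUnion g : Finset P) : Set P) := by
    intro x hx
    obtain ⟨y, hy, hxy⟩ := h x hx
    rw [Finset.mem_coe, Finset.mem_biUnion]
    refine ⟨y, (Set.Finite.mem_toFinset _).2 hy, ?_⟩
    rw [← Finset.mem_coe, hg y hy]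
    exact hxy
  refine ⟨(Finset.finite_toSet _).subset h1, ?_⟩
  refine (Set.ncard_le_ncard h1 (Finset.finite_toSet _)).trans ?_
  rw [Set.ncard_coe_finset, Set.ncard_eq_toFinset_card Y hY]
  refine Finset.card_biUnion_le_card_mul _ _ _ fun y hy => ?_
  have hy' := (Set.Finite.mem_toFinset hY).1 hy
  rw [← Set.ncard_coe_finset, hg y hy']
  exact (hF y hy').2

/-- the number of primes of norm at most `x` -/
private theorem nx_pi (T : Finset (Pl K)) {x : ℝ} (hx : 0 ≤ x) (h : ∀ l ∈ T, (nm l : ℝ) ≤ x) :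
    (T.card : ℝ) ≤ Module.finrank ℚ K * x := by
  have h1 : T.card ≤ Module.finrank ℚ K * (T.image fun l => (nm l).minFac).card :=
    Finset.card_le_mul_card_image T _ fun a _ =>
      H57.LI.prk_fibre a _ fun v hv => (Finset.mem_filter.1 hv).2
  have h2 : (T.image fun l => (nm l).minFac) ⊆ Finset.Ioc 0 ⌊x⌋₊ := by
    intro p hp
    obtain ⟨l, hl, rfl⟩ := Finset.mem_image.1 hp
    rw [Finset.mem_Ioc]
    have h3 := nx_q l
    refine ⟨Nat.minFac_pos _, Nat.le_floor ?_⟩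
    refine le_trans ?_ (h l hl)
    exact_mod_cast Nat.minFac_le (by omega)
  have h3 := Finset.card_le_card h2
  rw [Nat.card_Ioc, Nat.sub_zero] at h3
  have h4 : ((T.image fun l => (nm l).minFac).card : ℝ) ≤ x :=
    le_trans (by exact_mod_cast h3) (Nat.floor_le hx)
  calc (T.card : ℝ) ≤ (Module.finrank ℚ K : ℝ) * ((T.image fun l => (nm l).minFac).card : ℝ) := by
        exact_mod_cast h1
    _ ≤ Module.finrank ℚ K * x := mul_le_mul_of_nonneg_left h4 (Nat.cast_nonneg _)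

private theorem nx_tail (n : ℕ) : ∀ (z : ℝ) (T : Finset (Pl K)), 0 < z → (∀ l ∈ T, z < nm l) →
    (∀ l ∈ T, (nm l : ℝ) ≤ 2 ^ n * z) →
    ∑ l ∈ T, 1 / (nm l : ℝ) ^ 2 ≤ 4 * Module.finrank ℚ K / z := by
  induction n with
  | zero =>
    intro z T hz h1 h2
    have hT : T = ∅ := by
      rw [Finset.eq_empty_iff_forall_notMem]
      intro l hl
      have h3 := h1 l hl
      have h4 := h2 l hl
      rw [pow_zero, one_mul] at h4
      linarith
    rw [hT, Finset.sum_empty]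
    positivity
  | succ n ih =>
    intro z T hz h1 h2
    rw [← Finset.sum_filter_add_sum_filter_not T (fun l => (nm l : ℝ) ≤ 2 * z)]
    have h3 : ∑ l ∈ T.filter (fun l => (nm l : ℝ) ≤ 2 * z), 1 / (nm l : ℝ) ^ 2 ≤
        2 * Module.finrank ℚ K / z := by
      have h4 : ∀ l ∈ T.filter (fun l => (nm l : ℝ) ≤ 2 * z), 1 / (nm l : ℝ) ^ 2 ≤ 1 / z ^ 2 := by
        intro l hl
        have h5 := h1 l (Finset.mem_filter.1 hl).1
        exact one_div_le_one_div_of_le (by positivity) (pow_le_pow_left₀ hz.le h5.le 2)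
      refine (Finset.sum_le_sum h4).trans ?_
      rw [Finset.sum_const, nsmul_eq_mul]
      have h6 := nx_pi (T.filter (fun l => (nm l : ℝ) ≤ 2 * z)) (x := 2 * z) (by positivity)
        fun l hl => (Finset.mem_filter.1 hl).2
      calc ((T.filter (fun l => (nm l : ℝ) ≤ 2 * z)).card : ℝ) * (1 / z ^ 2)
          ≤ (Module.finrank ℚ K * (2 * z)) * (1 / z ^ 2) :=
            mul_le_mul_of_nonneg_right h6 (by positivity)
        _ = 2 * Module.finrank ℚ K / z := by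
            field_simp
    have h4 := ih (2 * z) (T.filter (fun l => ¬ (nm l : ℝ) ≤ 2 * z)) (by positivity)
      (fun l hl => not_le.1 (Finset.mem_filter.1 hl).2)
      (fun l hl => by
        have h5 := h2 l (Finset.mem_filter.1 hl).1
        rw [pow_succ] at h5
        linarith)
    have h5 : 4 * (Module.finrank ℚ K : ℝ) / (2 * z) = 2 * Module.finrank ℚ K / z := by
      field_simp
      ring
    have h6 : 4 * (Module.finrank ℚ K : ℝ) / z = 2 * Module.finrank ℚ K / z + 2 * Module.finrank ℚ K / z := by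
      ring
    rw [h5] at h4
    linarith

end lat

section base

variable {K : IntermediateField ℚ QBar} [NumberField K]

/-- the base frame -/
private def nf (c : Cb K) : Fin 4 → K := (base_ex c).choose

private def nw (c : Cb K) : Fin 2 → c.F := (base_ex c).choose_spec.choose

private theorem nh (c : Cb K) : Lv (nf c) (nw c) := (base_ex c).choose_spec.choose_spec

private theorem nx_span (c : Cb K) (x : c.F) : ∃ (k : K) (v : Fin 2 → K),
    x = algebraMap K c.F k + lin (nw c) v := by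
  have h1 := lv_ind c.deg (nh c)
  have h2 : Submodule.span K (Set.range ![1, nw c 0, nw c 1]) = ⊤ :=
    h1.span_eq_top_of_card_eq_finrank (by rw [Fintype.card_fin, c.deg])
  have h3 : x ∈ Submodule.span K (Set.range ![1, nw c 0, nw c 1]) := by
    rw [h2]
    exact Submodule.mem_top
  rw [Submodule.mem_span_range_iff_exists_fun] at h3
  obtain ⟨a, ha⟩ := h3
  refine ⟨a 0, ![a 1, a 2], ?_⟩
  rw [← ha, Fin.sum_univ_three]
  simp only [lin, Algebra.smul_def, Matrix.cons_val_zero, Matrix.cons_val_one, Matrix.cons_val]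
  ring

/-- the lattice of the order -/
private def LO (o : Od K) : Submodule (𝓞 K) (Fin 2 → K) := pre (nw o.c) o.M

private theorem nx_good (o : Od K) : Lt (LO o) ∧ nf o.c ∈ VL (LO o) := od_any o (nh o.c)

private theorem nx_mem (c : Cb K) (M : Submodule (𝓞 K) c.F) (hM : ∀ k : K, algebraMap K c.F k ∈ M)
    (k : K) (v : Fin 2 → K) : algebraMap K c.F k + lin (nw c) v ∈ M ↔ v ∈ pre (nw c) M := by
  constructor
  · intro h
    have h1 := M.sub_mem h (hM k)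
    rw [add_sub_cancel_left] at h1
    exact h1
  · intro h
    exact M.add_mem (hM k) h

private theorem nx_inj : Function.Injective fun o : Od K => (o.c, LO o) := by
  rintro ⟨c, M, hK, hO⟩ ⟨c', M', hK', hO'⟩ h
  obtain ⟨h1, h2⟩ := Prod.ext_iff.1 h
  simp only at h1
  subst h1
  have h3 : pre (nw c) M = pre (nw c) M' := h2
  have h4 : M = M' := by
    ext x
    obtain ⟨k, v, rfl⟩ := nx_span c x
    rw [nx_mem c M hK, nx_mem c M' hK', h3]
  subst h4
  rfl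

private theorem nx_mk (c : Cb K) {Λ : Submodule (𝓞 K) (Fin 2 → K)} (hL : Lt Λ) (hf : nf c ∈ VL Λ) :
    ∃ o : Od K, (o.c, LO o) = (c, Λ) := by
  obtain ⟨M, -, hK, hp⟩ := mm_pre c.deg (nh c) Λ
  refine ⟨⟨c, M, hK, nf c, nw c, nh c, by rw [hp]; exact hL, by rw [hp]; exact hf⟩, ?_⟩
  exact Prod.ext rfl hp

/-- the discriminant of a pair -/
private def DP (x : Cb K × Submodule (𝓞 K) (Fin 2 → K)) : ℝ :=
  x.1.D * ((rix x.2 (LF (nw x.1)) : ℕ) : ℝ) ^ 2

private theorem nx_D (o : Od K) : o.D = DP (o.c, LO o) := by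
  unfold Od.D DP
  congr 3
  obtain ⟨φ, hφ⟩ : ∃ φ : (Fin 2 → K) →+ o.c.F, ∀ v, φ v = lin (nw o.c) v :=
    ⟨{ toFun := fun v => lin (nw o.c) v
       map_zero' := by simp [lin]
       map_add' := fun v v' => by
        simp only [lin, Pi.add_apply, map_add]
        ring }, fun v => rfl⟩
  have e1 : (LO o).toAddSubgroup = o.M.toAddSubgroup.comap φ := by
    ext v
    rw [AddSubgroup.mem_comap, hφ]
    exact Iff.rfl
  have e2 : (LF (nw o.c) : Submodule (𝓞 K) (Fin 2 → K)).toAddSubgroup = (KO o.c).toAddSubgroup.comap φ := by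
    ext v
    rw [AddSubgroup.mem_comap, hφ]
    exact Iff.rfl
  unfold rix
  rw [e1, e2, AddSubgroup.relIndex_comap]
  have hle := od_le o
  have e3 : (KO o.c).toAddSubgroup =
      ((KO o.c).toAddSubgroup.comap φ).map φ ⊔ o.M.toAddSubgroup := by
    apply le_antisymm
    · intro x hx
      obtain ⟨k, v, rfl⟩ := nx_span o.c x
      rw [add_comm]
      refine AddSubgroup.add_mem_sup ?_ (o.hK k)
      refine ⟨v, ?_, hφ v⟩
      rw [SetLike.mem_coe, AddSubgroup.mem_comap, hφ]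
      have h1 := (KO o.c).sub_mem hx (hle (o.hK k))
      rw [add_sub_cancel_left] at h1
      exact h1
    · refine sup_le ?_ hle
      rintro x ⟨v, hv, rfl⟩
      exact hv
  conv_lhs => rw [e3]
  exact AddSubgroup.relIndex_sup_right _ _

private theorem nx_nm (o : Od K) (l : Pl K) (h : o.Nmx l) : nf o.c ∈ NM l (LO o) := by
  obtain ⟨f, w, hw, hf⟩ := h
  have h1 := od_any o hw
  rw [nm_loc o.c.deg (nh o.c) (nx_good o).1 (nx_good o).2 l]
  rw [nm_loc o.c.deg hw h1.1 h1.2 l] at hf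
  intro hloc
  apply hf
  obtain ⟨k₀, v, hv⟩ := nx_span o.c (w 0)
  obtain ⟨k₁, v', hv'⟩ := nx_span o.c (w 1)
  have g0 : w 0 = lin (nw o.c) v + algebraMap K o.c.F (![k₀, k₁] 0) := by
    rw [hv, add_comm]
    rfl
  have g1 : w 1 = lin (nw o.c) v' + algebraMap K o.c.F (![k₀, k₁] 1) := by
    rw [hv', add_comm]
    rfl
  intro x
  have a1 : Lc l (pre w o.M) x ↔ Lc l (LO o) (cb v v' x) := by
    unfold Lc
    refine exists_congr fun s => and_congr_right fun _ => ?_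
    rw [pre_change o.hK g0 g1, nx_cb]
    exact Iff.rfl
  have a2 : Lc l (LF w) x ↔ Lc l (LF (nw o.c)) (cb v v' x) := by
    unfold Lc
    refine exists_congr fun s => and_congr_right fun _ => ?_
    rw [lf_change g0 g1, nx_cb]
  rw [a1, a2]
  exact hloc _

/-- the good pairs -/
private def XG (K : IntermediateField ℚ QBar) [NumberField K] (Y : ℝ) :
    Set (Cb K × Submodule (𝓞 K) (Fin 2 → K)) :=
  {x | Lt x.2 ∧ nf x.1 ∈ VL x.2 ∧ DP x ≤ Y}

private theorem nx_XG (Y : ℝ) : XG K Y = (fun o : Od K => (o.c, LO o)) '' {o : Od K | o.D ≤ Y} := by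
  ext x
  constructor
  · rintro ⟨h1, h2, h3⟩
    obtain ⟨o, ho⟩ := nx_mk x.1 h1 h2
    refine ⟨o, ?_, ho⟩
    show o.D ≤ Y
    rw [nx_D, ho]
    exact h3
  · rintro ⟨o, ho, rfl⟩
    refine ⟨(nx_good o).1, (nx_good o).2, ?_⟩
    rw [← nx_D]
    exact ho

private theorem nx_DP_one {x : Cb K × Submodule (𝓞 K) (Fin 2 → K)} (h1 : Lt x.2) (h2 : nf x.1 ∈ VL x.2) :
    1 ≤ DP x := by
  obtain ⟨o, ho⟩ := nx_mk x.1 h1 h2
  have h3 : DP x = o.D := by
    rw [nx_D, ho]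
  rw [h3]
  exact (od_one o).1.trans (od_one o).2

private theorem nx_mul {c : Cb K} {Λ Λ' : Submodule (𝓞 K) (Fin 2 → K)} (hL' : Lt Λ') (hf : nf c ∈ VL Λ')
    (h : Λ ≤ Λ') : DP (c, Λ) = DP (c, Λ') * ((rix Λ Λ' : ℕ) : ℝ) ^ 2 := by
  have h1 : Λ' ≤ LF (nw c) := lf_max c.deg (nh c) hL' hf
  have h2 : rix Λ Λ' * rix Λ' (LF (nw c)) = rix Λ (LF (nw c)) :=
    AddSubgroup.relIndex_mul_relIndex Λ.toAddSubgroup Λ'.toAddSubgroup
      (LF (nw c) : Submodule (𝓞 K) (Fin 2 → K)).toAddSubgroup h h1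
  unfold DP
  rw [← h2]
  push_cast
  ring

end base

variable (K : IntermediateField ℚ QBar) [NumberField K]

theorem od_all {κ : ℝ} (hR : RFS K κ) (hO : OCS K κ) : ∃ C : ℝ, 1 ≤ C ∧ ∀ Y : ℝ, 1 ≤ Y →
    {o : Od K | o.D ≤ Y}.Finite ∧ ({o : Od K | o.D ≤ Y}.ncard : ℝ) ≤ C * Y := by
  obtain ⟨C, hC, h⟩ := hO
  refine ⟨C, hC, fun Y hY => ?_⟩
  obtain ⟨h1, h2⟩ := h Y 1 hY le_rfl
  refine ⟨h1, ?_⟩
  have h3 := h2 h1.toFinset (by
    intro o ho
    refine ⟨(Set.Finite.mem_toFinset h1).1 ho, ?_⟩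
    obtain ⟨T₁, T₂, f, w, hr⟩ := hR o
    exact ⟨T₁, T₂, f, w, hr, by rw [one_mul]; exact hr.red.le⟩)
  rw [one_pow, div_one] at h3
  rw [Set.ncard_eq_toFinset_card _ h1]
  exact h3

theorem nmx_one {κ : ℝ} (hR : RFS K κ) (hO : OCS K κ) : ∃ C : ℝ, 1 ≤ C ∧ ∀ (R : ℝ) (l : Pl K), 1 ≤ R →
    ({o : Od K | o.D ≤ R ∧ o.Nmx l}.ncard : ℝ) ≤ C * R / (nm l : ℝ) ^ 2 := by
  obtain ⟨C, hC, hall⟩ := od_all K hR hO
  have hX : ∀ Y : ℝ, 0 ≤ Y → (XG K Y).Finite ∧ ((XG K Y).ncard : ℝ) ≤ C * Y := by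
    intro Y hY
    rcases le_or_gt 1 Y with h1 | h1
    · rw [nx_XG, Set.ncard_image_of_injective _ nx_inj]
      exact ⟨(hall Y h1).1.image _, (hall Y h1).2⟩
    · have h2 : XG K Y = ∅ := by
        rw [Set.eq_empty_iff_forall_notMem]
        rintro x ⟨h3, h4, h5⟩
        have h6 := nx_DP_one h3 h4
        linarith
      rw [h2]
      refine ⟨Set.finite_empty, ?_⟩
      rw [Set.ncard_empty, Nat.cast_zero]
      positivity
  refine ⟨5 * C, by linarith, fun R l hR1 => ?_⟩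
  obtain ⟨q, hq⟩ : ∃ q : ℝ, q = nm l := ⟨_, rfl⟩
  have hq2 : 2 ≤ q := by
    rw [hq]
    exact_mod_cast nx_q l
  have hq0 : 0 < q := by linarith
  -- the three families
  obtain ⟨A, hA⟩ : ∃ A : Set (Cb K × Submodule (𝓞 K) (Fin 2 → K)),
      A = {x | ∃ y ∈ XG K (R / q ^ 4), x ∈ ({(y.1, l.asIdeal • y.2)} : Set _)} := ⟨_, rfl⟩
  obtain ⟨B1, hB1⟩ : ∃ B1 : Set (Cb K × Submodule (𝓞 K) (Fin 2 → K)),
      B1 = {x | ∃ y ∈ XG K (R / q ^ 2), x ∈ (fun Λ => (y.1, Λ)) '' {Λ | l.asIdeal • y.2 < Λ ∧ Λ < y.2 ∧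
        nf y.1 ∈ VL Λ ∧ nf y.1 ∉ VL (linv l y.2)}} := ⟨_, rfl⟩
  obtain ⟨B2, hB2⟩ : ∃ B2 : Set (Cb K × Submodule (𝓞 K) (Fin 2 → K)),
      B2 = {x | ∃ y ∈ XG K (R / q ^ 6), x ∈ (fun Λ => (y.1, Λ)) '' {Λ | Lt (l.asIdeal • y.2) ∧
        l.asIdeal • (l.asIdeal • y.2) < Λ ∧ Λ < l.asIdeal • y.2}} := ⟨_, rfl⟩
  have cA := nx_un (S := A) (fun y => ({(y.1, l.asIdeal • y.2)} : Set (Cb K × Submodule (𝓞 K) (Fin 2 → K)))) 1
    (hX (R / q ^ 4) (by positivity)).1 (fun y _ => ⟨Set.finite_singleton _, (Set.ncard_singleton _).le⟩)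
    (fun x hx => by rw [hA] at hx; exact hx)
  have cB1 := nx_un (S := B1) (fun y => (fun Λ => (y.1, Λ)) '' {Λ | l.asIdeal • y.2 < Λ ∧ Λ < y.2 ∧
      nf y.1 ∈ VL Λ ∧ nf y.1 ∉ VL (linv l y.2)}) 3
    (hX (R / q ^ 2) (by positivity)).1 (fun y hy => by
      have hs : {Λ | l.asIdeal • y.2 < Λ ∧ Λ < y.2 ∧ nf y.1 ∈ VL Λ ∧ nf y.1 ∉ VL (linv l y.2)} ⊆
          {Λ | l.asIdeal • y.2 < Λ ∧ Λ < y.2} := fun Λ h => ⟨h.1, h.2.1⟩
      have hf := (mid_card hy.1 l).1.subset hs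
      refine ⟨hf.image _, (Set.ncard_image_le hf).trans ?_⟩
      by_cases hc : nf y.1 ∈ VL (linv l y.2)
      · have he : {Λ | l.asIdeal • y.2 < Λ ∧ Λ < y.2 ∧ nf y.1 ∈ VL Λ ∧ nf y.1 ∉ VL (linv l y.2)} = ∅ := by
          rw [Set.eq_empty_iff_forall_notMem]
          rintro Λ h
          exact h.2.2.2 hc
        rw [he, Set.ncard_empty]
        omega
      · refine (Set.ncard_le_ncard (t := {Λ' | l.asIdeal • y.2 < Λ' ∧ Λ' < y.2 ∧ nf y.1 ∈ VL Λ'})
          (fun Λ h => ⟨h.1, h.2.1, h.2.2.1⟩) ?_).trans (sub_three hy.1 hy.2.1 hc)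
        exact (mid_card hy.1 l).1.subset fun Λ h => ⟨h.1, h.2.1⟩)
    (fun x hx => by rw [hB1] at hx; exact hx)
  have cB2 := nx_un (S := B2) (fun y => (fun Λ => (y.1, Λ)) '' {Λ | Lt (l.asIdeal • y.2) ∧
      l.asIdeal • (l.asIdeal • y.2) < Λ ∧ Λ < l.asIdeal • y.2}) (nm l + 1)
    (hX (R / q ^ 6) (by positivity)).1 (fun y hy => by
      by_cases hL : Lt (l.asIdeal • y.2)
      · have hs : {Λ | Lt (l.asIdeal • y.2) ∧ l.asIdeal • (l.asIdeal • y.2) < Λ ∧ Λ < l.asIdeal • y.2} ⊆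
          {Λ | l.asIdeal • (l.asIdeal • y.2) < Λ ∧ Λ < l.asIdeal • y.2} := fun Λ h => ⟨h.2.1, h.2.2⟩
        have hf := (mid_card hL l).1.subset hs
        exact ⟨hf.image _, (Set.ncard_image_le hf).trans
          ((Set.ncard_le_ncard hs (mid_card hL l).1).trans (mid_card hL l).2)⟩
      · have he : {Λ | Lt (l.asIdeal • y.2) ∧ l.asIdeal • (l.asIdeal • y.2) < Λ ∧ Λ < l.asIdeal • y.2} =
            (∅ : Set (Submodule (𝓞 K) (Fin 2 → K))) := by
          rw [Set.eq_empty_iff_forall_notMem]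
          rintro Λ h
          exact hL h.1
        rw [he, Set.image_empty, Set.ncard_empty]
        exact ⟨Set.finite_empty, Nat.zero_le _⟩)
    (fun x hx => by rw [hB2] at hx; exact hx)
  have hsub : (fun o : Od K => (o.c, LO o)) '' {o : Od K | o.D ≤ R ∧ o.Nmx l} ⊆ A ∪ (B1 ∪ B2) := by
    rintro _ ⟨o, ⟨ho, hn⟩, rfl⟩
    have hg := nx_good o
    obtain ⟨Λ', hL', hf', hle, hcase⟩ := nx_sup hg.1 (nx_nm o l hn)
    have hD : DP (o.c, Λ') * ((rix (LO o) Λ' : ℕ) : ℝ) ^ 2 ≤ R := by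
      rw [← nx_mul hL' hf' hle, ← nx_D]
      exact ho
    rcases hcase with ⟨h1, h2⟩ | ⟨h1, h2, h3⟩
    · left
      rw [hA]
      refine ⟨(o.c, Λ'), ⟨hL', hf', ?_⟩, ?_⟩
      · rw [le_div_iff₀ (by positivity)]
        rw [h2] at hD
        push_cast at hD
        rw [← hq] at hD
        calc DP (o.c, Λ') * q ^ 4 = DP (o.c, Λ') * (q ^ 2) ^ 2 := by ring
          _ ≤ R := hD
      · rw [Set.mem_singleton_iff]
        exact Prod.ext rfl h1
    · right
      rw [h3, ← hq] at hD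
      by_cases hc : nf o.c ∈ VL (linv l Λ')
      · right
        rw [hB2]
        obtain ⟨r1, r2, r3, r4⟩ := rix_inv hL' l
        refine ⟨(o.c, linv l Λ'), ⟨r1, hc, ?_⟩, LO o, ⟨?_, ?_, ?_⟩, rfl⟩
        · rw [le_div_iff₀ (by positivity)]
          have h4 := nx_mul (c := o.c) r1 hc r2
          rw [r4] at h4
          push_cast at h4
          rw [h4, ← hq] at hD
          calc DP (o.c, linv l Λ') * q ^ 6 = DP (o.c, linv l Λ') * (q ^ 2) ^ 2 * q ^ 2 := by ring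
            _ ≤ R := hD
        · show Lt (l.asIdeal • linv l Λ')
          rw [r3]
          exact hL'
        · show l.asIdeal • (l.asIdeal • linv l Λ') < LO o
          rw [r3]
          exact h1
        · show LO o < l.asIdeal • linv l Λ'
          rw [r3]
          exact h2
      · left
        rw [hB1]
        refine ⟨(o.c, Λ'), ⟨hL', hf', ?_⟩, LO o, ⟨h1, h2, hg.2, hc⟩, rfl⟩
        rw [le_div_iff₀ (by positivity)]
        exact hD
  have hfin : (A ∪ (B1 ∪ B2)).Finite := cA.1.union (cB1.1.union cB2.1)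
  have hcard : ({o : Od K | o.D ≤ R ∧ o.Nmx l}.ncard : ℝ) ≤
      ((XG K (R / q ^ 4)).ncard : ℝ) * 1 + (((XG K (R / q ^ 2)).ncard : ℝ) * 3 +
        ((XG K (R / q ^ 6)).ncard : ℝ) * (q + 1)) := by
    rw [← Set.ncard_image_of_injective _ nx_inj]
    have h1 := (Set.ncard_le_ncard hsub hfin).trans ((Set.ncard_union_le _ _).trans
      (Nat.add_le_add_left (Set.ncard_union_le _ _) _))
    have h2 := h1.trans (Nat.add_le_add cA.2 (Nat.add_le_add cB1.2 cB2.2))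
    have h3 : ((((fun o : Od K => (o.c, LO o)) '' {o : Od K | o.D ≤ R ∧ o.Nmx l}).ncard : ℕ) : ℝ) ≤ _ :=
      Nat.cast_le.2 h2
    push_cast at h3
    rw [← hq] at h3
    exact h3
  have x4 := (hX (R / q ^ 4) (by positivity)).2
  have x2 := (hX (R / q ^ 2) (by positivity)).2
  have x6 := (hX (R / q ^ 6) (by positivity)).2
  rw [← hq]
  have hC0 : 0 < C := by linarith
  have y4 : C * (R / q ^ 4) ≤ C * R / q ^ 2 := by
    rw [← mul_div_assoc]
    exact div_le_div_of_nonneg_left (by positivity) (by positivity)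
      (pow_le_pow_right₀ (by linarith) (by norm_num))
  have y6 : C * (R / q ^ 6) * (q + 1) ≤ C * R / q ^ 2 := by
    have h1 : q + 1 ≤ q ^ 4 := by
      have h2 : (1 : ℝ) ≤ q ^ 3 := one_le_pow₀ (by linarith)
      nlinarith
    calc C * (R / q ^ 6) * (q + 1) ≤ C * (R / q ^ 6) * q ^ 4 :=
          mul_le_mul_of_nonneg_left h1 (by positivity)
      _ = C * R / q ^ 2 := by
          field_simp
  have z6 : ((XG K (R / q ^ 6)).ncard : ℝ) * (q + 1) ≤ C * (R / q ^ 6) * (q + 1) :=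
    mul_le_mul_of_nonneg_right x6 (by linarith)
  have e2 : C * (R / q ^ 2) = C * R / q ^ 2 := by rw [mul_div_assoc]
  have e5 : 5 * C * R / q ^ 2 = 5 * (C * R / q ^ 2) := by ring
  rw [e5]
  rw [e2] at x2
  linarith

theorem nmx_cnt {κ : ℝ} (hR : RFS K κ) (hO : OCS K κ) : ∃ C : ℝ, 1 ≤ C ∧ ∀ R z : ℝ, 1 ≤ R → 1 ≤ z →
    ({o : Od K | o.D ≤ R ∧ ∃ l : Pl K, z < nm l ∧ o.Nmx l}.ncard : ℝ) ≤ C * R / z := by
  obtain ⟨C, hC, hone⟩ := nmx_one K hR hO
  obtain ⟨C', hC', hall⟩ := od_all K hR hO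
  have hd : (1 : ℝ) ≤ Module.finrank ℚ K := by
    exact_mod_cast Nat.one_le_iff_ne_zero.2 (Module.finrank_pos (R := ℚ) (M := K)).ne'
  refine ⟨C * (4 * Module.finrank ℚ K), by nlinarith, fun R z hR1 hz => ?_⟩
  have hfin : {o : Od K | o.D ≤ R ∧ ∃ l : Pl K, z < nm l ∧ o.Nmx l}.Finite :=
    (hall R hR1).1.subset fun o h => h.1
  have hfin2 : ∀ l : Pl K, {o : Od K | o.D ≤ R ∧ o.Nmx l}.Finite := fun l =>
    (hall R hR1).1.subset fun o h => h.1
  obtain ⟨T, hT1, hT2⟩ : ∃ T : Finset (Pl K), (∀ l ∈ T, z < nm l) ∧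
      ∀ o : Od K, o.D ≤ R → (∃ l : Pl K, z < nm l ∧ o.Nmx l) → ∃ l ∈ T, o.Nmx l := by
    obtain ⟨g, hg⟩ : ∃ g : Od K → Option (Pl K), ∀ o, (∃ l : Pl K, z < nm l ∧ o.Nmx l) →
        ∃ l, g o = some l ∧ z < nm l ∧ o.Nmx l :=
      ⟨fun o => if h : ∃ l : Pl K, z < nm l ∧ o.Nmx l then some h.choose else none, fun o h =>
        ⟨h.choose, dif_pos h, h.choose_spec⟩⟩
    refine ⟨(hfin.toFinset.biUnion fun o => (g o).toFinset).filter fun l => z < nm l, fun l hl =>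
      (Finset.mem_filter.1 hl).2, ?_⟩
    intro o h1 h2
    obtain ⟨l, h3, h4, h5⟩ := hg o h2
    refine ⟨l, Finset.mem_filter.2 ⟨Finset.mem_biUnion.2 ⟨o, (Set.Finite.mem_toFinset _).2 ⟨h1, h2⟩, ?_⟩, h4⟩, h5⟩
    rw [h3]
    simp
  have h1 : hfin.toFinset ⊆ T.biUnion fun l => (hfin2 l).toFinset := by
    intro o ho
    have h2 := (Set.Finite.mem_toFinset _).1 ho
    obtain ⟨l, hl, h3⟩ := hT2 o h2.1 h2.2
    exact Finset.mem_biUnion.2 ⟨l, hl, (Set.Finite.mem_toFinset _).2 ⟨h2.1, h3⟩⟩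
  have h2 := (Finset.card_le_card h1).trans Finset.card_biUnion_le
  rw [Set.ncard_eq_toFinset_card _ hfin]
  have h3 : ((hfin.toFinset.card : ℕ) : ℝ) ≤ ∑ l ∈ T, (((hfin2 l).toFinset.card : ℕ) : ℝ) := by
    exact_mod_cast h2
  refine h3.trans ?_
  have h4 : ∀ l ∈ T, (((hfin2 l).toFinset.card : ℕ) : ℝ) ≤ (C * R) * (1 / (nm l : ℝ) ^ 2) := by
    intro l _
    rw [← Set.ncard_eq_toFinset_card _ (hfin2 l), mul_one_div]
    exact hone R l hR1
  refine (Finset.sum_le_sum h4).trans ?_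
  rw [← Finset.mul_sum]
  obtain ⟨n, hn⟩ : ∃ n : ℕ, ∀ l ∈ T, (nm l : ℝ) ≤ 2 ^ n * z := by
    obtain ⟨n, hn⟩ : ∃ n : ℕ, n = T.sup nm := ⟨_, rfl⟩
    refine ⟨n, fun l hl => ?_⟩
    have h5 : nm l ≤ n := by
      rw [hn]
      exact Finset.le_sup (f := nm) hl
    have h6 : (nm l : ℝ) ≤ (2 : ℝ) ^ n := by
      exact_mod_cast h5.trans (Nat.lt_two_pow_self).le
    nlinarith [pow_pos (show (0 : ℝ) < 2 by norm_num) n]
  have h5 := nx_tail n z T (by linarith) hT1 hn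
  have hCR : 0 ≤ C * R := by positivity
  calc C * R * ∑ l ∈ T, 1 / (nm l : ℝ) ^ 2 ≤ C * R * (4 * Module.finrank ℚ K / z) :=
        mul_le_mul_of_nonneg_left h5 hCR
    _ = C * (4 * Module.finrank ℚ K) * R / z := by ring

end H97.SXM
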