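import Pool.Agent.H97.SXM.Defs
import Pool.Agent.H77.MF.Idn

/-!
# [SXM ODA] Orders: first facts, 150-250 lines. File Pool/Agent/H97/SXM/OdA.lean

`pre w M = {v | lin w v ∈ M}`. All modules `M` here contain `K` (the image of `algebraMap`).
`pre_change`: `u 0 = lin w v + k 0`, `u 1 = lin w v' + k 1`; `cb v v' x = x 0 v + x 1 v'` (`H77/MF/Defs`): `lin u x = lin w (cb v v' x) + (element of K)`, so `lin u x ∈ M ↔ lin w (cb v v' x) ∈ M`.
`vl_change`: `Λ'` = inverse image of `Λ` under `x ↦ cb v v' x`, `dt v v' ≠ 0`, `f' = (dt v v')⁻¹ pull f v v'`. `pull f' x y = (dt v v')⁻¹ pull f (cb x) (cb y)` and `dt (cb x) (cb y) = dt v v' dt x y` (identities, `H77/MF/Idn.lean`), so `DL Λ = dt v v' • DL Λ'` and `f ∈ VL Λ ↔ f' ∈ VL Λ'` (`cb` is bijective); `Lt` also transports (`cb` is an isomorphism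
of `𝓞 K`-modules `Λ' ≃ Λ`).
`od_any`: `o.hO` gives one frame `(f, w)`; another frame `(g, u)` of the same field: `1, w 0, w 1` is a basis (`lv_ind`), so `u i = lin w (v i) + k i`, `dt ≠ 0`, and `g = dt⁻¹ pull f ..`, (`lv_pull`, `lv_uniq`); apply `pre_change`, `vl_change`.
`mm_pre`: for a frame `w`: `{x | x = k + lin w v, v ∈ Λ}` is a submodule `M` which contains `K` with `pre w M = Λ` (`lv_ind`: the `v` of an element of `M` is unique).
`od_le`: `o.M ≤ KO o.c`: `lf_max` (`pre w o.M ≤ LF w`, and `M = K + lin w (pre w M)`). `pre w (KO c) = LF w`: by definition. `om c` the maximal order (`om_hO`: `base_ex`, `lf_lt`, `lf_vl`).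
`od_disc`: `w i ∈ o.M`, so `𝓞² ≤ pre w o.M ≤ LF w`; `disc_ix`: `c.D ix(LF w)² = nd f`; `ix (LF w) = [LF w : pre w M] ix (pre w M)` (`relIndex_mul_relIndex`) and `[LF w : pre w M] = [KO c : o.M]` (`v ↦ lin w v` induces an isomorphism `LF w / pre w M ≃ KO c / M`).
`form_change`: `f = (dt v v')⁻¹ pull g v v'`: `hA f = hes g v`, `hC f = hes g v'`, `f 0 ^ 2 disc f = ev g v ^ 2 disc g`, `f 3 ^ 2 disc f = ev g v' ^ 2 disc g`, `disc f = dt² disc g` (identities: `field_simp; ring` or `Idn.lean`).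
`d1_iff`: at a place `p`: `D1 T (emb f p) ↔ V1 T (emb g p) (emb v p) ∧ V1 T (emb g p) (emb v' p)`, by `form_change` and `map` of the polynomial functions under `p.embedding`.
`od_one`: `1 ≤ c.D` (norm of a nonzero ideal), `[KO : M] ≥ 1` (finite index: both are lattices), so `1 ≤ o.D` and `c.D ≤ o.D`.
-/

set_option autoImplicit false

open scoped NumberField Classical
open IsDedekindDomain NumberField H38.ML H63.MA H67.SX H77.MF

noncomputable section

namespace H97.SXM

section gen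

variable {K F : Type} [Field K] [NumberField K] [Field F] [Algebra K F]

private theorem oda_lin_cb (w : Fin 2 → F) (v v' x : Fin 2 → K) :
    lin w (cb v v' x) = algebraMap K F (x 0) * lin w v + algebraMap K F (x 1) * lin w v' := by
  simp only [lin, cb, map_add, map_mul]
  ring

private theorem oda_lin_add (w : Fin 2 → F) (a b : Fin 2 → K) :
    lin w (a + b) = lin w a + lin w b := by
  simp only [lin, Pi.add_apply, map_add]
  ring

private theorem oda_lin_sub (w : Fin 2 → F) (a b : Fin 2 → K) :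
    lin w (a - b) = lin w a - lin w b := by
  simp only [lin, Pi.sub_apply, map_sub]
  ring

theorem pre_change {w u : Fin 2 → F} {v v' k : Fin 2 → K} {M : Submodule (𝓞 K) F}
    (hK : ∀ k : K, algebraMap K F k ∈ M) (h₀ : u 0 = lin w v + algebraMap K F (k 0))
    (h₁ : u 1 = lin w v' + algebraMap K F (k 1)) (x : Fin 2 → K) :
    x ∈ pre u M ↔ cb v v' x ∈ pre w M := by
  change lin u x ∈ M ↔ lin w (cb v v' x) ∈ M
  have e : lin u x = lin w (cb v v' x) + algebraMap K F (x 0 * k 0 + x 1 * k 1) := by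
    rw [oda_lin_cb]
    simp only [lin] at h₀ h₁
    simp only [lin, h₀, h₁, map_add, map_mul]
    ring
  rw [e]
  exact M.add_mem_iff_left (hK _)

private theorem oda_smul {n : ℕ} (r : 𝓞 K) (f : Fin n → K) : r • f = (r : K) • f := by
  rw [← algebraMap_smul K r f]

private theorem oda_smul1 (r : 𝓞 K) (x : K) : r • x = (r : K) * x := by
  rw [Algebra.smul_def]

/-- the change of coordinates -/
private def oda_E (v v' : Fin 2 → K) (hd : dt v v' ≠ 0) : (Fin 2 → K) ≃ₗ[𝓞 K] (Fin 2 → K) where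
  toFun := cb v v'
  invFun := fun p => ![dt p v' / dt v v', dt v p / dt v v']
  map_add' := by
    intro x y
    funext i
    simp only [cb, Pi.add_apply]
    ring
  map_smul' := by
    intro r x
    funext i
    simp only [cb, Pi.smul_apply, oda_smul1, RingHom.id_apply]
    ring
  left_inv := by
    intro x
    funext i
    fin_cases i
    · have e : H77.MF.dt (cb v v' x) v' = H77.MF.dt v v' * x 0 := by
        simp only [H77.MF.dt, cb]
        ring
      change H77.MF.dt (cb v v' x) v' / H77.MF.dt v v' = x 0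
      rw [e, mul_div_cancel_left₀ _ hd]
    · have e : H77.MF.dt v (cb v v' x) = H77.MF.dt v v' * x 1 := by
        simp only [H77.MF.dt, cb]
        ring
      change H77.MF.dt v (cb v v' x) / H77.MF.dt v v' = x 1
      rw [e, mul_div_cancel_left₀ _ hd]
  right_inv := by
    intro p
    funext i
    simp only [cb, Matrix.cons_val_zero, Matrix.cons_val_one]
    have h := cramer v v' p i
    field_simp
    linear_combination -h

private theorem oda_dl {v v' : Fin 2 → K} (hd : dt v v' ≠ 0) {Λ Λ' : Submodule (𝓞 K) (Fin 2 → K)}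
    (h : ∀ x, x ∈ Λ' ↔ cb v v' x ∈ Λ) (a : K) : a ∈ DL Λ' ↔ dt v v' * a ∈ DL Λ := by
  constructor
  · intro ha
    unfold DL at ha
    induction ha using Submodule.span_induction with
    | mem x hx =>
      obtain ⟨p, hp, q, hq, rfl⟩ := hx
      rw [← dt_cb]
      exact Submodule.subset_span ⟨_, (h p).1 hp, _, (h q).1 hq, rfl⟩
    | zero => rw [mul_zero]; exact zero_mem _
    | add x y _ _ hx hy => rw [mul_add]; exact add_mem hx hy
    | smul r x _ hx =>
      have e : dt v v' * (r • x) = r • (dt v v' * x) := by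
        rw [oda_smul1, oda_smul1]
        ring
      rw [e]
      exact Submodule.smul_mem _ _ hx
  · intro ha
    have key : ∀ b ∈ DL Λ, (dt v v')⁻¹ * b ∈ DL Λ' := by
      intro b hb
      unfold DL at hb
      induction hb using Submodule.span_induction with
      | mem x hx =>
        obtain ⟨p, hp, q, hq, rfl⟩ := hx
        have ep : cb v v' ((oda_E v v' hd).symm p) = p := (oda_E v v' hd).apply_symm_apply p
        have eq : cb v v' ((oda_E v v' hd).symm q) = q := (oda_E v v' hd).apply_symm_apply q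
        have e : (dt v v')⁻¹ * dt p q =
            dt ((oda_E v v' hd).symm p) ((oda_E v v' hd).symm q) := by
          conv_lhs => rw [← ep, ← eq, dt_cb]
          rw [inv_mul_cancel_left₀ hd]
        rw [e]
        refine Submodule.subset_span ⟨_, (h _).2 ?_, _, (h _).2 ?_, rfl⟩
        · rw [ep]; exact hp
        · rw [eq]; exact hq
      | zero => rw [mul_zero]; exact zero_mem _
      | add x y _ _ hx hy => rw [mul_add]; exact add_mem hx hy
      | smul r x _ hx =>
        have e : (dt v v')⁻¹ * (r • x) = r • ((dt v v')⁻¹ * x) := by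
          rw [oda_smul1, oda_smul1]
          ring
        rw [e]
        exact Submodule.smul_mem _ _ hx
    have h1 := key _ ha
    rwa [inv_mul_cancel_left₀ hd] at h1

theorem vl_change {v v' : Fin 2 → K} (hd : dt v v' ≠ 0) {Λ Λ' : Submodule (𝓞 K) (Fin 2 → K)}
    (h : ∀ x, x ∈ Λ' ↔ cb v v' x ∈ Λ) (f : Fin 4 → K) :
    (f ∈ VL Λ ↔ (dt v v')⁻¹ • pull f v v' ∈ VL Λ') ∧ (Lt Λ ↔ Lt Λ') := by
  have hs : ∀ p, cb v v' ((oda_E v v' hd).symm p) = p := (oda_E v v' hd).apply_symm_apply
  refine ⟨⟨fun hf => ?_, fun hf => ?_⟩, ⟨?_, ?_⟩⟩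
  · intro x hx y hy i
    rw [oda_dl hd h, pull_smul_form, Pi.smul_apply, smul_eq_mul, mul_inv_cancel_left₀ hd, pull_pull]
    exact hf _ ((h x).1 hx) _ ((h y).1 hy) i
  · intro p hp q hq i
    have h1 := hf _ ((h ((oda_E v v' hd).symm p)).2 (by rw [hs]; exact hp)) _
      ((h ((oda_E v v' hd).symm q)).2 (by rw [hs]; exact hq)) i
    rw [oda_dl hd h, pull_smul_form, Pi.smul_apply, smul_eq_mul, mul_inv_cancel_left₀ hd, pull_pull,
      hs, hs] at h1
    exact h1
  · rintro ⟨hfg, p, hp, q, hq, hpq⟩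
    refine ⟨?_, (oda_E v v' hd).symm p, (h _).2 (by rw [hs]; exact hp),
      (oda_E v v' hd).symm q, (h _).2 (by rw [hs]; exact hq), ?_⟩
    · have e : Λ' = Λ.map (oda_E v v' hd).symm.toLinearMap := by
        ext x
        rw [Submodule.mem_map]
        constructor
        · intro hx
          exact ⟨cb v v' x, (h x).1 hx, (oda_E v v' hd).symm_apply_apply x⟩
        · rintro ⟨y, hy, rfl⟩
          refine (h _).2 ?_
          have e2 : cb v v' ((oda_E v v' hd).symm.toLinearMap y) = y := hs y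
          rw [e2]
          exact hy
      rw [e]
      exact hfg.map _
    · intro h0
      apply hpq
      rw [← hs p, ← hs q, dt_cb, h0, mul_zero]
  · rintro ⟨hfg, p, hp, q, hq, hpq⟩
    refine ⟨?_, cb v v' p, (h _).1 hp, cb v v' q, (h _).1 hq, ?_⟩
    · have e : Λ = Λ'.map (oda_E v v' hd).toLinearMap := by
        ext x
        rw [Submodule.mem_map]
        constructor
        · intro hx
          exact ⟨(oda_E v v' hd).symm x, (h _).2 (by rw [hs]; exact hx), hs x⟩
        · rintro ⟨y, hy, rfl⟩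
          exact (h y).1 hy
      rw [e]
      exact hfg.map _
    · rw [dt_cb]
      exact mul_ne_zero hd hpq

private theorem oda_zero (hF : Module.finrank K F = 3) {f : Fin 4 → K} {w : Fin 2 → F}
    (h : Lv f w) {k : K} {v : Fin 2 → K} (h0 : algebraMap K F k + lin w v = 0) :
    k = 0 ∧ v = 0 := by
  have h1 := Fintype.linearIndependent_iff.1 (lv_ind hF h) ![k, v 0, v 1] (by
    rw [Fin.sum_univ_three]
    simp only [Matrix.cons_val_zero, Matrix.cons_val_one, Matrix.cons_val, Algebra.smul_def,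
      mul_one]
    rw [← h0, lin]
    ring)
  refine ⟨h1 0, ?_⟩
  funext i
  fin_cases i
  · exact h1 1
  · exact h1 2

private theorem oda_span (hF : Module.finrank K F = 3) {f : Fin 4 → K} {w : Fin 2 → F}
    (h : Lv f w) (z : F) : ∃ (k : K) (v : Fin 2 → K), z = algebraMap K F k + lin w v := by
  have h1 := (lv_ind hF h).span_eq_top_of_card_eq_finrank (by rw [Fintype.card_fin, hF])
  have h2 : z ∈ Submodule.span K (Set.range ![1, w 0, w 1]) := by
    rw [h1]
    exact Submodule.mem_top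
  obtain ⟨g, hg⟩ := (Submodule.mem_span_range_iff_exists_fun K).1 h2
  rw [Fin.sum_univ_three] at hg
  simp only [Matrix.cons_val_zero, Matrix.cons_val_one, Matrix.cons_val, Algebra.smul_def,
    mul_one] at hg
  refine ⟨g 0, ![g 1, g 2], ?_⟩
  rw [← hg, lin]
  simp only [Matrix.cons_val_zero, Matrix.cons_val_one]
  ring

theorem mm_pre (hF : Module.finrank K F = 3) {f : Fin 4 → K} {w : Fin 2 → F} (h : Lv f w)
    (Λ : Submodule (𝓞 K) (Fin 2 → K)) : ∃ M : Submodule (𝓞 K) F,
    (∀ x, x ∈ M ↔ x ∈ mM w Λ) ∧ (∀ k : K, algebraMap K F k ∈ M) ∧ pre w M = Λ := by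
  have hsm : ∀ (r : 𝓞 K) (x : F), r • x = algebraMap K F (r : K) * x := by
    intro r x
    rw [Algebra.smul_def]
    rfl
  obtain ⟨M, hM⟩ : ∃ M : Submodule (𝓞 K) F, ∀ x, x ∈ M ↔ x ∈ mM w Λ := by
    refine ⟨{ carrier := mM w Λ, add_mem' := ?_, zero_mem' := ?_, smul_mem' := ?_ },
      fun x => Iff.rfl⟩
    · rintro x y ⟨k, v, hv, rfl⟩ ⟨k', v', hv', rfl⟩
      refine ⟨k + k', v + v', add_mem hv hv', ?_⟩
      rw [oda_lin_add, map_add]
      ring
    · refine ⟨0, 0, zero_mem _, ?_⟩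
      simp [lin]
    · rintro r x ⟨k, v, hv, rfl⟩
      refine ⟨(r : K) * k, r • v, Submodule.smul_mem _ _ hv, ?_⟩
      rw [hsm, oda_smul]
      simp only [lin, Pi.smul_apply, smul_eq_mul, map_mul]
      ring
  refine ⟨M, hM, fun k => (hM _).2 ⟨k, 0, zero_mem _, by simp [lin]⟩, ?_⟩
  ext v
  change lin w v ∈ M ↔ v ∈ Λ
  rw [hM]
  constructor
  · rintro ⟨k, v', hv', e⟩
    have h1 : algebraMap K F k + lin w (v' - v) = 0 := by
      rw [oda_lin_sub, e]
      ring
    have h2 := (oda_zero hF h h1).2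
    rw [sub_eq_zero] at h2
    rwa [← h2]
  · intro hv
    exact ⟨0, v, hv, by rw [map_zero, zero_add]⟩

private theorem oda_hA (r : K) (f : Fin 4 → K) : hA (r • f) = r ^ 2 * hA f := by
  simp [hA]
  ring

private theorem oda_hC (r : K) (f : Fin 4 → K) : hC (r • f) = r ^ 2 * hC f := by
  simp [hC]
  ring

theorem form_change {g : Fin 4 → K} {v v' : Fin 2 → K} (hd : dt v v' ≠ 0) {f : Fin 4 → K}
    (hf : f = (dt v v')⁻¹ • pull g v v') : hA f = hes g v ∧ hC f = hes g v' ∧
    f 0 ^ 2 * disc f = ev g v ^ 2 * disc g ∧ f 3 ^ 2 * disc f = ev g v' ^ 2 * disc g ∧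
    disc f = dt v v' ^ 2 * disc g := by
  have hdisc : disc f = dt v v' ^ 2 * disc g := by
    rw [hf, disc_smul, disc_pull]
    field_simp
  have f0 : f 0 = (dt v v')⁻¹ * ev g v := by
    rw [hf]
    rfl
  have f3 : f 3 = (dt v v')⁻¹ * ev g v' := by
    rw [hf]
    rfl
  refine ⟨?_, ?_, ?_, ?_, hdisc⟩
  · rw [hf, oda_hA, hA_pull]
    field_simp
  · rw [hf, oda_hC, hC_pull]
    field_simp
  · rw [hdisc, f0]
    field_simp
  · rw [hdisc, f3]
    field_simp

theorem d1_iff {g : Fin 4 → K} {v v' : Fin 2 → K} (hd : dt v v' ≠ 0) {f : Fin 4 → K}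
    (hf : f = (dt v v')⁻¹ • pull g v v') (T : ℝ) (p : InfinitePlace K) :
    D1 T (emb f p) ↔ V1 T (emb g p) (emb v p) ∧ V1 T (emb g p) (emb v' p) := by
  obtain ⟨h1, h2, h3, h4, h5⟩ := form_change hd hf
  have m2 : p.embedding 2 = 2 := map_ofNat _ 2
  have m3 : p.embedding 3 = 3 := map_ofNat _ 3
  have m4 : p.embedding 4 = 4 := map_ofNat _ 4
  have m9 : p.embedding 9 = 9 := map_ofNat _ 9
  have m18 : p.embedding 18 = 18 := map_ofNat _ 18
  have m27 : p.embedding 27 = 27 := map_ofNat _ 27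
  have eA : hA (emb f p) = p.embedding (hA f) := by simp [hA, emb, m3]
  have eC : hC (emb f p) = p.embedding (hC f) := by simp [hC, emb, m3]
  have eD : ∀ f : Fin 4 → K, disc (emb f p) = p.embedding (disc f) := by
    intro f
    simp [disc, emb, m4, m18, m27]
  have eH : ∀ v : Fin 2 → K, hes (emb g p) (emb v p) = p.embedding (hes g v) := by
    intro v
    simp [hes, hA, hC, emb, m3, m9]
  have eE : ∀ v : Fin 2 → K, ev (emb g p) (emb v p) = p.embedding (ev g v) := by
    intro v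
    simp [ev, emb]
  have e0 : emb f p 0 ^ 2 * disc (emb f p) = p.embedding (f 0 ^ 2 * disc f) := by
    rw [eD, map_mul, map_pow]
    rfl
  have e3 : emb f p 3 ^ 2 * disc (emb f p) = p.embedding (f 3 ^ 2 * disc f) := by
    rw [eD, map_mul, map_pow]
    rfl
  unfold D1 V1
  rw [eA, eC, e0, e3, h1, h2, h3, h4, eH, eH, eE, eE, eD, ← map_pow, ← map_pow, ← map_mul,
    ← map_mul]
  tauto

end gen

variable {K : IntermediateField ℚ QBar} [NumberField K]

private theorem oda_frame {F : Type} [Field F] [Algebra K F] (hF : Module.finrank K F = 3)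
    {f g : Fin 4 → K} {w u : Fin 2 → F} (h : Lv f w) (h' : Lv g u) :
    ∃ v v' k : Fin 2 → K, u 0 = lin w v + algebraMap K F (k 0) ∧
      u 1 = lin w v' + algebraMap K F (k 1) ∧ dt v v' ≠ 0 ∧ g = (dt v v')⁻¹ • pull f v v' := by
  obtain ⟨k0, v, e0⟩ := oda_span hF h (u 0)
  obtain ⟨k1, v', e1⟩ := oda_span hF h (u 1)
  have hd : dt v v' ≠ 0 := by
    intro hd
    have key : ∀ a b : K, a * v 0 + b * v' 0 = 0 → a * v 1 + b * v' 1 = 0 → a = 0 ∧ b = 0 := by
      intro a b c0 c1
      have e : algebraMap K F (-(a * k0 + b * k1)) + lin u ![a, b] = 0 := by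
        have c0' := congrArg (algebraMap K F) c0
        have c1' := congrArg (algebraMap K F) c1
        simp only [map_add, map_mul, map_zero] at c0' c1'
        simp only [lin, Matrix.cons_val_zero, Matrix.cons_val_one, map_neg, map_add, map_mul, e0, e1]
        linear_combination c0' * w 0 + c1' * w 1
      have h2 := (oda_zero hF h' e).2
      exact ⟨congrFun h2 0, congrFun h2 1⟩
    unfold H77.MF.dt at hd
    obtain ⟨a1, b1⟩ := key (v' 0) (-(v 0)) (by ring) (by linear_combination -hd)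
    obtain ⟨a2, b2⟩ := key (v' 1) (-(v 1)) (by linear_combination hd) (by ring)
    have c1 : v 0 = 0 := by linear_combination -b1
    have c2 : v 1 = 0 := by linear_combination -b2
    have h3 : u 0 = algebraMap K F k0 := by
      rw [e0]
      simp [lin, c1, c2]
    exact h'.non ⟨k0, h3.symm⟩
  obtain ⟨u', hu', k, hk0, hk1⟩ := lv_pull hF h hd
  have h4 := lv_uniq hF hu' h' (k := ![k0 - k 0, k1 - k 1]) (by
    intro i
    fin_cases i
    · show u 0 = u' 0 + algebraMap K F (k0 - k 0)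
      rw [hk0, e0, map_sub]
      ring
    · show u 1 = u' 1 + algebraMap K F (k1 - k 1)
      rw [hk1, e1, map_sub]
      ring)
  refine ⟨v, v', ![k0, k1], ?_, ?_, hd, h4.1⟩
  · rw [e0]
    exact add_comm _ _
  · rw [e1]
    exact add_comm _ _

theorem od_any (o : Od K) {g : Fin 4 → K} {u : Fin 2 → o.c.F} (h : Lv g u) :
    Lt (pre u o.M) ∧ g ∈ VL (pre u o.M) := by
  obtain ⟨f, w, hf, hL, hV⟩ := o.hO
  obtain ⟨v, v', k, h0, h1, hd, hg⟩ := oda_frame o.c.deg hf h
  have hc := vl_change hd (fun x => pre_change o.hK h0 h1 x) f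
  refine ⟨hc.2.1 hL, ?_⟩
  rw [hg]
  exact hc.1.1 hV

theorem od_le (o : Od K) : o.M ≤ KO o.c := by
  obtain ⟨f, w, hf, hL, hV⟩ := o.hO
  intro m hm
  obtain ⟨k, v, e⟩ := oda_span o.c.deg hf m
  have hv : v ∈ pre w o.M := by
    change lin w v ∈ o.M
    have h1 := o.M.sub_mem hm (o.hK k)
    rw [e, add_sub_cancel_left] at h1
    exact h1
  obtain ⟨k', hk'⟩ := lf_max o.c.deg hf hL hV hv
  refine ⟨k' - k, ?_⟩
  rw [e, map_sub]
  have e2 : algebraMap K o.c.F k' - algebraMap K o.c.F k + (algebraMap K o.c.F k + lin w v) =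
      algebraMap K o.c.F k' + lin w v := by ring
  rw [e2]
  exact hk'

private theorem oda_pre_ko (c : Cb K) (w : Fin 2 → c.F) : pre w (KO c) = LF w := by
  ext v
  exact Iff.rfl

/-- `lin` as a homomorphism -/
private def oda_lin {F : Type} [Field F] [Algebra K F] (w : Fin 2 → F) : (Fin 2 → K) →+ F where
  toFun := lin w
  map_zero' := by simp [lin]
  map_add' := oda_lin_add w

private theorem oda_rel (o : Od K) {f : Fin 4 → K} {w : Fin 2 → o.c.F} (h : Lv f w) :
    (pre w o.M).toAddSubgroup.relIndex (LF (K := K) w).toAddSubgroup =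
      o.M.toAddSubgroup.relIndex (KO o.c).toAddSubgroup := by
  have e1 : (pre w o.M).toAddSubgroup = o.M.toAddSubgroup.comap (oda_lin w) := by
    ext v
    exact Iff.rfl
  rw [e1, AddSubgroup.relIndex_comap]
  have e2 : (KO o.c).toAddSubgroup =
      AddSubgroup.map (oda_lin w) (LF (K := K) w).toAddSubgroup ⊔ o.M.toAddSubgroup := by
    apply le_antisymm
    · intro x hx
      obtain ⟨k, v, e⟩ := oda_span o.c.deg h x
      obtain ⟨k', hk'⟩ : ∃ k' : K, IsIntegral ℤ (algebraMap K o.c.F k' + x) := hx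
      rw [AddSubgroup.mem_sup]
      refine ⟨lin w v, ⟨v, ?_, rfl⟩, algebraMap K o.c.F k, o.hK k, ?_⟩
      · refine ⟨k' + k, ?_⟩
        rw [e] at hk'
        rw [map_add, add_assoc]
        exact hk'
      · rw [e, add_comm]
    · rw [sup_le_iff]
      constructor
      · rintro _ ⟨v, hv, rfl⟩
        exact hv
      · exact od_le o
  rw [e2, AddSubgroup.relIndex_sup_right]

theorem od_disc (o : Od K) {f : Fin 4 → K} {w : Fin 2 → o.c.F} (h : Lv f w) (hw : ∀ i, w i ∈ o.M) :
    OO K 2 ≤ pre w o.M ∧ nd f = o.D * (ix (pre w o.M) : ℝ) ^ 2 := by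
  obtain ⟨hL, hV⟩ := od_any o h
  have h1 : OO K 2 ≤ pre w o.M := by
    intro v hv
    obtain ⟨a, ha⟩ := hv 0
    obtain ⟨b, hb⟩ := hv 1
    change lin w v ∈ o.M
    have e : lin w v = a • w 0 + b • w 1 := by
      rw [lin, ← ha, ← hb, Algebra.smul_def, Algebra.smul_def]
      rfl
    rw [e]
    exact o.M.add_mem (o.M.smul_mem _ (hw 0)) (o.M.smul_mem _ (hw 1))
  refine ⟨h1, ?_⟩
  have h2 : pre w o.M ≤ LF w := lf_max o.c.deg h hL hV
  have h3 := disc_ix o.c h (h1.trans h2)
  have h4 : ix (LF (K := K) w) = ix (pre w o.M) *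
      o.M.toAddSubgroup.relIndex (KO o.c).toAddSubgroup := by
    unfold ix
    rw [← oda_rel o h]
    exact (AddSubgroup.relIndex_mul_relIndex _ _ _ h1 h2).symm
  rw [nd, ← h3, h4, Od.D]
  push_cast
  ring

private theorem oda_cD (c : Cb K) : 1 ≤ c.D := by
  unfold Cb.D
  have h1 : relDisc K c.F ≠ 0 := by
    unfold relDisc
    rw [dif_pos (inferInstance : NumberField c.F)]
    rw [Ne, Ideal.absNorm_eq_zero_iff]
    exact differentIdeal_ne_bot
  exact_mod_cast Nat.one_le_iff_ne_zero.2 h1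

theorem od_one (o : Od K) : 1 ≤ o.c.D ∧ o.c.D ≤ o.D := by
  have hc := oda_cD o.c
  refine ⟨hc, ?_⟩
  obtain ⟨f, w, hf, ⟨hfg, v, hv, v', hv', hd⟩, hV⟩ := o.hO
  obtain ⟨u, hu, k, h0, h1⟩ := lv_pull o.c.deg hf hd
  have hmem : ∀ i, u i ∈ o.M := by
    intro i
    fin_cases i
    · show u 0 ∈ o.M
      rw [h0]
      exact o.M.add_mem hv (o.hK _)
    · show u 1 ∈ o.M
      rw [h1]
      exact o.M.add_mem hv' (o.hK _)
  obtain ⟨hL, hV'⟩ := od_any o hu
  obtain ⟨hO, -⟩ := od_disc o hu hmem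
  have h2 : pre u o.M ≤ LF u := lf_max o.c.deg hu hL hV'
  have h3 := ix_pos (lf_lt o.c.deg hu) (hO.trans h2)
  have h4 : ix (LF (K := K) u) = ix (pre u o.M) *
      o.M.toAddSubgroup.relIndex (KO o.c).toAddSubgroup := by
    unfold ix
    rw [← oda_rel o hu]
    exact (AddSubgroup.relIndex_mul_relIndex _ _ _ hO h2).symm
  have h5 : 1 ≤ o.M.toAddSubgroup.relIndex (KO o.c).toAddSubgroup := by
    rw [Nat.one_le_iff_ne_zero]
    intro h5
    rw [h5, mul_zero] at h4
    omega
  have h6 : (1 : ℝ) ≤ ((o.M.toAddSubgroup.relIndex (KO o.c).toAddSubgroup : ℕ) : ℝ) := by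
    exact_mod_cast h5
  rw [Od.D]
  have h7 : (1 : ℝ) ≤ ((o.M.toAddSubgroup.relIndex (KO o.c).toAddSubgroup : ℕ) : ℝ) ^ 2 :=
    one_le_pow₀ h6
  nlinarith

theorem om_hO (c : Cb K) : ∃ (f : Fin 4 → K) (w : Fin 2 → c.F), Lv f w ∧ Lt (pre w (KO c)) ∧
    f ∈ VL (pre w (KO c)) := by
  obtain ⟨f, w, h⟩ := base_ex c
  refine ⟨f, w, h, ?_, ?_⟩
  · rw [oda_pre_ko]
    exact lf_lt c.deg h
  · rw [oda_pre_ko]
    exact lf_vl c.deg h

/-- the maximal order -/
def om (c : Cb K) : Od K where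
  c := c
  M := KO c
  hK := fun k => ⟨-k, by rw [map_neg, neg_add_cancel]; exact isIntegral_zero⟩
  hO := om_hO c

theorem om_D (c : Cb K) : (om c).D = c.D := by
  have h : (KO c).toAddSubgroup.relIndex (KO c).toAddSubgroup = 1 := AddSubgroup.relIndex_self _
  unfold Od.D om
  simp only [h]
  norm_num

theorem om_pre (c : Cb K) (w : Fin 2 → c.F) : pre w (om c).M = LF w := oda_pre_ko c w

end H97.SXM
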