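import Pool.Agent.H97.SXM.Per
import Pool.Agent.H67.WA.Cnt

/-!
# [SXM RDC] Forms with a zero over `K`, 100-170 lines. File Pool/Agent/H97/SXM/Rdc.lean

`d = [K : ℚ]`, `y = 1 + T^(4d)/R₁`, `N = ix Λ`. Let `f = (a, b, c, e) ∈ VL Λ`, `emb f ∈ Dg K T R₁ R₂`, `f(v) = 0` for some `v ≠ 0` in `K²`. `g = N² f ∈ 𝓞⁴` (`vl_hi`), all absolute values of its coefficients (at all `σ : K → ℂ`) are `≤ H := C N² y T` (`dg_low`: `‖x w i‖² ≤ C y T²`); `H ≥ 1`. `g` also has a zero; `disc g ≠ 0`.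
It is enough to bound the number of the `g = (a, b, c, e) ∈ 𝓞⁴`, all sizes `≤ H`, with a zero `v ≠ 0`, by `C H^(3d + 1/2)` (then `≤ C (N² y)^(3d+1) T^(3d+1/2) ≤ C (N y)^A T^(4d) T^(-1/2)` because `d ≥ 2`... (`3d + 1/2 ≤ 4d - 1/2` for `d ≥ 1`)).
(1) `a = 0` or `e = 0`: at most `2 (C H^d)^3` (`f1` of `H67/WA/Cnt.lean` with `I = ⊤`: `#{x ∈ 𝓞 : sizes ≤ H} ≤ C (1 + H^d) ≤ 2 C H^d`).
(2) `a ≠ 0`, `e ≠ 0`: `v = (x, y')`, `y' ≠ 0` (else `a x³ = 0`), `θ = x / y'`, `a θ³ + b θ² + c θ + e = 0`, `u = a θ` satisfies `u³ + b u² + a c u + a² e = 0`: `u ∈ 𝓞` (integrally closed), `u ≠ 0` (`e ≠ 0`), and with `t = -(u² + b u + a c) ∈ 𝓞`: `u t = a² e =: n ≠ 0`. Sizes: `‖u‖ ≤ 3 H` (if `‖u‖ > 3H`: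
`‖b u²‖ < ‖u‖³/3`, `‖a c u‖ < ‖u‖³/9`, `‖a² e‖ < ‖u‖³/27`), `‖t‖ ≤ 13 H²`. For given `(a, b, e)` the number of the pairs `(u, t)` is `≤ C (13 H²)^(1/4)` (`f3` of `H67/WA/Cnt.lean` with `ε = 1/4`, `X = 13 H²`), and `c` is determined by `a, b, e, u` (`a u ≠ 0`). Number of `(a, b, e)`: `≤ (C H^d)^3`. Total `≤ C H^(3d + 1/2)`.
-/

set_option autoImplicit false

open scoped NumberField Classical
open NumberField H38.ML H77.MF Pool.Agent.H67.WA

noncomputable section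

namespace H97.SXM

private theorem rdc_size {a b c e u : ℂ} {H : ℝ} (hH : 1 ≤ H) (ha : ‖a‖ ≤ H) (hb : ‖b‖ ≤ H) (hc : ‖c‖ ≤ H)
    (he : ‖e‖ ≤ H) (h : u ^ 3 + b * u ^ 2 + a * c * u + a ^ 2 * e = 0) :
    ‖u‖ ≤ 13 * H ^ 2 ∧ ‖-(u ^ 2 + b * u + a * c)‖ ≤ 13 * H ^ 2 := by
  have hH0 : 0 < H := by linarith
  set x := ‖u‖ with hx
  have hx0 : 0 ≤ x := norm_nonneg _
  have ha0 := norm_nonneg a
  have hb0 := norm_nonneg b
  have hc0 := norm_nonneg c
  have he0 := norm_nonneg e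
  have h1 : x ^ 3 ≤ H * x ^ 2 + H ^ 2 * x + H ^ 3 := by
    have e1 : u ^ 3 = -(b * u ^ 2 + a * c * u + a ^ 2 * e) := by linear_combination h
    calc x ^ 3 = ‖u ^ 3‖ := by rw [norm_pow]
      _ = ‖b * u ^ 2 + a * c * u + a ^ 2 * e‖ := by rw [e1, norm_neg]
      _ ≤ ‖b * u ^ 2‖ + ‖a * c * u‖ + ‖a ^ 2 * e‖ := norm_add₃_le
      _ = ‖b‖ * x ^ 2 + ‖a‖ * ‖c‖ * x + ‖a‖ ^ 2 * ‖e‖ := by simp only [norm_mul, norm_pow, hx]
      _ ≤ H * x ^ 2 + H * H * x + H ^ 2 * H := by gcongr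
      _ = H * x ^ 2 + H ^ 2 * x + H ^ 3 := by ring
  have h2 : x ≤ 3 * H := by
    by_contra hcon
    push Not at hcon
    have h3 : 3 * H * x ^ 2 < x ^ 3 := by
      have hx2 : 0 < x ^ 2 := by nlinarith
      calc 3 * H * x ^ 2 < x * x ^ 2 := mul_lt_mul_of_pos_right hcon hx2
        _ = x ^ 3 := by ring
    have h4 : H ^ 2 * x ≤ H * x ^ 2 := by nlinarith [mul_nonneg hH0.le hx0]
    have h5 : H ^ 3 ≤ H * x ^ 2 := by
      have h6 : H ^ 2 ≤ x ^ 2 := by nlinarith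
      calc H ^ 3 = H * H ^ 2 := by ring
        _ ≤ H * x ^ 2 := by gcongr
    linarith
  constructor
  · nlinarith
  · calc ‖-(u ^ 2 + b * u + a * c)‖ = ‖u ^ 2 + b * u + a * c‖ := norm_neg _
      _ ≤ ‖u ^ 2‖ + ‖b * u‖ + ‖a * c‖ := norm_add₃_le
      _ = x ^ 2 + ‖b‖ * x + ‖a‖ * ‖c‖ := by simp only [norm_mul, norm_pow, hx]
      _ ≤ (3 * H) ^ 2 + H * (3 * H) + H * H := by gcongr
      _ = 13 * H ^ 2 := by ring

private theorem rdc_root (K : Type) [Field K] [NumberField K] (g : Fin 4 → 𝓞 K) (h0 : g 0 ≠ 0) (h3 : g 3 ≠ 0)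
    (v : Fin 2 → K) (hv : v ≠ 0) (hz : ev (fun i => (g i : K)) v = 0) :
    ∃ u : 𝓞 K, u ^ 3 + g 1 * u ^ 2 + g 0 * g 2 * u + g 0 ^ 2 * g 3 = 0 ∧ u ≠ 0 := by
  have h0' : ((g 0 : 𝓞 K) : K) ≠ 0 := by simpa using h0
  have hv1 : v 1 ≠ 0 := by
    intro h1
    unfold ev at hz
    rw [h1] at hz
    have h2 : ((g 0 : 𝓞 K) : K) * v 0 ^ 3 = 0 := by linear_combination hz
    have h4 : v 0 = 0 := by
      rcases mul_eq_zero.1 h2 with h | h
      · exact absurd h h0'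
      · exact pow_eq_zero_iff (by norm_num) |>.1 h
    apply hv
    funext i
    fin_cases i
    · exact h4
    · exact h1
  set θ : K := v 0 / v 1 with hθ
  have hroot : ((g 0 * θ) ^ 3 + g 1 * (g 0 * θ) ^ 2 + g 0 * g 2 * (g 0 * θ) + g 0 ^ 2 * g 3 : K) = 0 := by
    have e1 : (g 0 * θ ^ 3 + g 1 * θ ^ 2 + g 2 * θ + g 3 : K) = 0 := by
      unfold ev at hz
      rw [hθ]
      field_simp
      linear_combination hz
    linear_combination ((g 0 : 𝓞 K) : K) ^ 2 * e1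
  have hint : IsIntegral (𝓞 K) ((g 0 : K) * θ) := by
    refine ⟨Polynomial.X ^ 3 + Polynomial.C (g 1) * Polynomial.X ^ 2 + Polynomial.C (g 0 * g 2) * Polynomial.X +
      Polynomial.C (g 0 ^ 2 * g 3), ?_, ?_⟩
    · monicity!
    · simp only [Polynomial.eval₂_add, Polynomial.eval₂_mul, Polynomial.eval₂_pow, Polynomial.eval₂_X,
        Polynomial.eval₂_C, map_mul, map_pow]
      exact hroot
  obtain ⟨u, hu⟩ := IsIntegrallyClosed.isIntegral_iff.1 hint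
  have hu' : ((u : 𝓞 K) : K) = (g 0 : K) * θ := hu
  refine ⟨u, ?_, ?_⟩
  · apply FaithfulSMul.algebraMap_injective (𝓞 K) K
    simp only [map_add, map_mul, map_pow, map_zero]
    rw [hu]
    exact hroot
  · rintro rfl
    have h5 : ((0 : 𝓞 K) : K) = 0 := by simp
    rw [h5] at hu'
    rw [← hu'] at hroot
    have h6 : ((g 0 : 𝓞 K) : K) ^ 2 * ((g 3 : 𝓞 K) : K) = 0 := by linear_combination hroot
    rcases mul_eq_zero.1 h6 with h | h
    · exact h0' (pow_eq_zero_iff (by norm_num) |>.1 h)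
    · exact h3 (by simpa using h)

theorem red_box (K : Type) [Field K] [NumberField K] : ∃ C : ℝ, 1 ≤ C ∧ ∀ (H : ℝ)
    (Z : Finset (Fin 4 → 𝓞 K)), 1 ≤ H → (∀ g ∈ Z, (∀ (φ : K →+* ℂ) (i : Fin 4), ‖φ (g i : K)‖ ≤ H) ∧
      ∃ v : Fin 2 → K, v ≠ 0 ∧ ev (fun i => (g i : K)) v = 0) →
    (Z.card : ℝ) ≤ C * H ^ (3 * (Module.finrank ℚ K : ℝ) + 1 / 2) := by
  obtain ⟨C1, hC1, hf1⟩ := f1 K
  obtain ⟨C3, hC3, hf3⟩ := f3 K (show (0 : ℝ) < 1 / 4 by norm_num)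
  obtain ⟨d, hd⟩ : ∃ d : ℕ, d = Module.finrank ℚ K := ⟨_, rfl⟩
  refine ⟨2 * (2 * C1) ^ 3 + (2 * C1) ^ 3 * (C3 * 13), ?_, ?_⟩
  · have h1 : (1 : ℝ) ≤ (2 * C1) ^ 3 := one_le_pow₀ (by linarith)
    have h2 : 0 ≤ (2 * C1) ^ 3 * (C3 * 13) := by positivity
    linarith
  intro H Z hH hZ
  rw [← hd]
  have hH0 : 0 < H := by linarith
  -- the set of all coefficients
  set B : Finset (𝓞 K) := Z.biUnion fun g => Finset.univ.image g with hB
  have hmemB : ∀ g ∈ Z, ∀ i, g i ∈ B := by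
    intro g hg i
    rw [hB, Finset.mem_biUnion]
    exact ⟨g, hg, Finset.mem_image_of_mem _ (Finset.mem_univ i)⟩
  have hBcard : (B.card : ℝ) ≤ 2 * C1 * H ^ d := by
    have h1 := hf1 ⊤ (by simp) (fun _ => H) (fun _ => hH0.le) B (by
      intro x hx
      rw [hB, Finset.mem_biUnion] at hx
      obtain ⟨g, hg, hx⟩ := hx
      obtain ⟨i, -, rfl⟩ := Finset.mem_image.1 hx
      exact ⟨trivial, fun φ => (hZ g hg).1 φ i⟩)
    rw [vol_const, ni_top, div_one, ← hd] at h1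
    have h2 : 1 ≤ H ^ d := one_le_pow₀ hH
    calc (B.card : ℝ) ≤ C1 * (1 + H ^ d) := h1
      _ ≤ C1 * (H ^ d + H ^ d) := by gcongr
      _ = 2 * C1 * H ^ d := by ring
  have hB3 : ((B ×ˢ (B ×ˢ B)).card : ℝ) ≤ (2 * C1) ^ 3 * H ^ (3 * d) := by
    rw [Finset.card_product, Finset.card_product]
    push_cast
    calc (B.card : ℝ) * (B.card * B.card) ≤ (2 * C1 * H ^ d) * ((2 * C1 * H ^ d) * (2 * C1 * H ^ d)) := by
          gcongr
      _ = (2 * C1) ^ 3 * H ^ (3 * d) := by rw [pow_mul']; ring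
  -- coefficient zero
  have hz0 : ((Z.filter fun g => g 0 = 0).card : ℝ) ≤ (2 * C1) ^ 3 * H ^ (3 * d) := by
    refine le_trans ?_ hB3
    have : (Z.filter fun g => g 0 = 0).card ≤ (B ×ˢ (B ×ˢ B)).card := by
      refine Finset.card_le_card_of_injOn (fun g => (g 1, g 2, g 3)) ?_ ?_
      · intro g hg
        rw [Finset.mem_coe, Finset.mem_filter] at hg
        rw [Finset.mem_coe, Finset.mem_product, Finset.mem_product]
        exact ⟨hmemB g hg.1 1, hmemB g hg.1 2, hmemB g hg.1 3⟩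
      · intro g hg g' hg' he
        rw [Finset.mem_coe, Finset.mem_filter] at hg hg'
        simp only [Prod.mk.injEq] at he
        funext i
        fin_cases i
        · exact hg.2.trans hg'.2.symm
        · exact he.1
        · exact he.2.1
        · exact he.2.2
    exact_mod_cast this
  have hz3 : ((Z.filter fun g => g 3 = 0).card : ℝ) ≤ (2 * C1) ^ 3 * H ^ (3 * d) := by
    refine le_trans ?_ hB3
    have : (Z.filter fun g => g 3 = 0).card ≤ (B ×ˢ (B ×ˢ B)).card := by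
      refine Finset.card_le_card_of_injOn (fun g => (g 0, g 1, g 2)) ?_ ?_
      · intro g hg
        rw [Finset.mem_coe, Finset.mem_filter] at hg
        rw [Finset.mem_coe, Finset.mem_product, Finset.mem_product]
        exact ⟨hmemB g hg.1 0, hmemB g hg.1 1, hmemB g hg.1 2⟩
      · intro g hg g' hg' he
        rw [Finset.mem_coe, Finset.mem_filter] at hg hg'
        simp only [Prod.mk.injEq] at he
        funext i
        fin_cases i
        · exact he.1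
        · exact he.2.1
        · exact he.2.2
        · exact hg.2.trans hg'.2.symm
    exact_mod_cast this
  -- the main case
  set W := Z.filter fun g => g 0 ≠ 0 ∧ g 3 ≠ 0 with hW
  have hroot : ∀ g : Fin 4 → 𝓞 K, g ∈ W → ∃ u : 𝓞 K,
      u ^ 3 + g 1 * u ^ 2 + g 0 * g 2 * u + g 0 ^ 2 * g 3 = 0 ∧ u ≠ 0 := by
    intro g hg
    rw [hW, Finset.mem_filter] at hg
    obtain ⟨v, hv, hv0⟩ := (hZ g hg.1).2
    exact rdc_root K g hg.2.1 hg.2.2 v hv hv0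
  choose! U hU using hroot
  have hfib : ∀ y ∈ B ×ˢ (B ×ˢ B), (((W.filter fun g => (g 0, g 1, g 3) = y).card : ℕ) : ℝ) ≤
      C3 * (13 * H ^ 2) ^ (1 / 4 : ℝ) := by
    rintro ⟨a, b, e⟩ -
    by_cases hae : a = 0 ∨ e = 0
    · have h1 : (W.filter fun g => (g 0, g 1, g 3) = (a, b, e)) = ∅ := by
        rw [Finset.filter_eq_empty_iff]
        intro g hg he
        rw [hW, Finset.mem_filter] at hg
        simp only [Prod.mk.injEq] at he
        rcases hae with h | h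
        · exact hg.2.1 (he.1.trans h)
        · exact hg.2.2 (he.2.2.trans h)
      rw [h1, Finset.card_empty, Nat.cast_zero]
      positivity
    · push Not at hae
      have hn : a ^ 2 * e ≠ 0 := mul_ne_zero (pow_ne_zero _ hae.1) hae.2
      have h1 := hf3 (13 * H ^ 2) (by nlinarith) (a ^ 2 * e) hn
        ((W.filter fun g => (g 0, g 1, g 3) = (a, b, e)).image fun g =>
          (U g, -(U g ^ 2 + b * U g + a * g 2))) (by
          intro t ht
          obtain ⟨g, hg, rfl⟩ := Finset.mem_image.1 ht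
          rw [Finset.mem_filter] at hg
          obtain ⟨hgW, hge⟩ := hg
          simp only [Prod.mk.injEq] at hge
          obtain ⟨rfl, rfl, rfl⟩ := hge
          obtain ⟨hu1, hu2⟩ := hU g hgW
          refine ⟨?_, ?_⟩
          · simp only
            linear_combination -hu1
          · intro φ
            rw [hW, Finset.mem_filter] at hgW
            have hs := (hZ g hgW.1).1 φ
            have h2 : (φ ((U g : 𝓞 K) : K)) ^ 3 + φ ((g 1 : 𝓞 K) : K) * (φ ((U g : 𝓞 K) : K)) ^ 2 +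
                φ ((g 0 : 𝓞 K) : K) * φ ((g 2 : 𝓞 K) : K) * φ ((U g : 𝓞 K) : K) +
                φ ((g 0 : 𝓞 K) : K) ^ 2 * φ ((g 3 : 𝓞 K) : K) = 0 := by
              have h3 := congrArg (fun x : 𝓞 K => φ (x : K)) hu1
              simpa only [map_add, map_mul, map_pow, map_zero, RingHom.map_zero] using h3
            have h4 := rdc_size hH (hs 0) (hs 1) (hs 2) (hs 3) h2
            refine ⟨h4.1, ?_⟩
            have h5 : sz φ (-(U g ^ 2 + g 1 * U g + g 0 * g 2)) =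
                ‖-((φ ((U g : 𝓞 K) : K)) ^ 2 + φ ((g 1 : 𝓞 K) : K) * φ ((U g : 𝓞 K) : K) +
                  φ ((g 0 : 𝓞 K) : K) * φ ((g 2 : 𝓞 K) : K))‖ := by
              unfold sz
              simp only [map_neg, map_add, map_mul, map_pow]
            simp only
            rw [h5]
            exact h4.2)
      rwa [Finset.card_image_of_injOn] at h1
      intro g hg g' hg' he
      rw [Finset.mem_coe, Finset.mem_filter] at hg hg'
      obtain ⟨hgW, hge⟩ := hg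
      obtain ⟨hgW', hge'⟩ := hg'
      simp only [Prod.mk.injEq] at hge hge' he
      obtain ⟨he1, he2⟩ := he
      rw [he1] at he2
      have h6 : a * (g 2 - g' 2) = 0 := by linear_combination -he2
      have h7 : g 2 = g' 2 := by
        rcases mul_eq_zero.1 h6 with h | h
        · exact absurd h hae.1
        · exact sub_eq_zero.1 h
      funext i
      fin_cases i
      · exact hge.1.trans hge'.1.symm
      · exact hge.2.1.trans hge'.2.1.symm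
      · exact h7
      · exact hge.2.2.trans hge'.2.2.symm
  have hWcard : (W.card : ℝ) ≤ (2 * C1) ^ 3 * H ^ (3 * d) * (C3 * (13 * H ^ 2) ^ (1 / 4 : ℝ)) := by
    have hmaps : ∀ g ∈ W, (g 0, g 1, g 3) ∈ B ×ˢ (B ×ˢ B) := by
      intro g hg
      rw [hW, Finset.mem_filter] at hg
      rw [Finset.mem_product, Finset.mem_product]
      exact ⟨hmemB g hg.1 0, hmemB g hg.1 1, hmemB g hg.1 3⟩
    rw [Finset.card_eq_sum_card_fiberwise hmaps]
    push_cast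
    calc ∑ y ∈ B ×ˢ (B ×ˢ B), (((W.filter fun g => (g 0, g 1, g 3) = y).card : ℕ) : ℝ)
        ≤ ∑ _y ∈ B ×ˢ (B ×ˢ B), C3 * (13 * H ^ 2) ^ (1 / 4 : ℝ) := Finset.sum_le_sum hfib
      _ = ((B ×ˢ (B ×ˢ B)).card : ℝ) * (C3 * (13 * H ^ 2) ^ (1 / 4 : ℝ)) := by
          rw [Finset.sum_const, nsmul_eq_mul]
      _ ≤ (2 * C1) ^ 3 * H ^ (3 * d) * (C3 * (13 * H ^ 2) ^ (1 / 4 : ℝ)) := by gcongr
  have hsplit : Z.card ≤ (Z.filter fun g => g 0 = 0).card + (Z.filter fun g => g 3 = 0).card + W.card := by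
    have h1 : Z ⊆ ((Z.filter fun g => g 0 = 0) ∪ (Z.filter fun g => g 3 = 0)) ∪ W := by
      intro g hg
      rw [hW]
      simp only [Finset.mem_union, Finset.mem_filter]
      tauto
    refine (Finset.card_le_card h1).trans ((Finset.card_union_le _ _).trans ?_)
    exact Nat.add_le_add_right (Finset.card_union_le _ _) _
  have hsplit' : (Z.card : ℝ) ≤ (Z.filter fun g => g 0 = 0).card + (Z.filter fun g => g 3 = 0).card + W.card := by
    exact_mod_cast hsplit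
  have hpow1 : H ^ (3 * d) ≤ H ^ (3 * (d : ℝ) + 1 / 2) := by
    rw [← Real.rpow_natCast]
    refine Real.rpow_le_rpow_of_exponent_le hH ?_
    push_cast
    linarith
  have hpow2 : H ^ (3 * d) * (13 * H ^ 2) ^ (1 / 4 : ℝ) ≤ 13 * H ^ (3 * (d : ℝ) + 1 / 2) := by
    have h1 : (13 * H ^ 2) ^ (1 / 4 : ℝ) ≤ 13 * H ^ (1 / 2 : ℝ) := by
      rw [Real.mul_rpow (by norm_num) (by positivity)]
      have h2 : (13 : ℝ) ^ (1 / 4 : ℝ) ≤ 13 ^ (1 : ℝ) :=
        Real.rpow_le_rpow_of_exponent_le (by norm_num) (by norm_num)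
      rw [Real.rpow_one] at h2
      have h3 : (H ^ 2) ^ (1 / 4 : ℝ) = H ^ (1 / 2 : ℝ) := by
        rw [← Real.rpow_natCast, ← Real.rpow_mul hH0.le]
        norm_num
      rw [h3]
      gcongr
    calc H ^ (3 * d) * (13 * H ^ 2) ^ (1 / 4 : ℝ) ≤ H ^ (3 * d) * (13 * H ^ (1 / 2 : ℝ)) := by gcongr
      _ = 13 * (H ^ (3 * d) * H ^ (1 / 2 : ℝ)) := by ring
      _ = 13 * H ^ (3 * (d : ℝ) + 1 / 2) := by
          rw [← Real.rpow_natCast, ← Real.rpow_add hH0]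
          push_cast
          rfl
  calc (Z.card : ℝ) ≤ (2 * C1) ^ 3 * H ^ (3 * d) + (2 * C1) ^ 3 * H ^ (3 * d) +
        (2 * C1) ^ 3 * H ^ (3 * d) * (C3 * (13 * H ^ 2) ^ (1 / 4 : ℝ)) := by linarith
    _ = 2 * (2 * C1) ^ 3 * H ^ (3 * d) +
        (2 * C1) ^ 3 * C3 * (H ^ (3 * d) * (13 * H ^ 2) ^ (1 / 4 : ℝ)) := by ring
    _ ≤ 2 * (2 * C1) ^ 3 * H ^ (3 * (d : ℝ) + 1 / 2) +
        (2 * C1) ^ 3 * C3 * (13 * H ^ (3 * (d : ℝ) + 1 / 2)) := by gcongr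
    _ = (2 * (2 * C1) ^ 3 + (2 * C1) ^ 3 * (C3 * 13)) * H ^ (3 * (d : ℝ) + 1 / 2) := by ring

theorem red_cnt (K : Type) [Field K] [NumberField K] [IsTotallyComplex K] : ∃ (C : ℝ) (A : ℕ), 1 ≤ C ∧
    ∀ (Λ : Submodule (𝓞 K) (Fin 2 → K)) (T R₁ R₂ : ℝ), Lt Λ → OO K 2 ≤ Λ → 1 ≤ T → 0 < R₁ →
    ({f | f ∈ VL Λ ∧ emb f ∈ Dg K T R₁ R₂ ∧ ∃ v : Fin 2 → K, v ≠ 0 ∧ ev f v = 0}.ncard : ℝ) ≤
      C * ((ix Λ : ℝ) * (1 + T ^ (4 * Module.finrank ℚ K) / R₁)) ^ A *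
        (T ^ (4 * Module.finrank ℚ K) * T ^ (-(1 / 2) : ℝ)) := by
  obtain ⟨C1, hC1, hlow⟩ := dg_low K
  obtain ⟨C2, hC2, hbox⟩ := red_box K
  have hd1 : 1 ≤ Module.finrank ℚ K := Module.finrank_pos
  obtain ⟨d, hd⟩ : ∃ d : ℕ, d = Module.finrank ℚ K := ⟨_, rfl⟩
  rw [← hd] at hlow hbox hd1
  rw [← hd]
  refine ⟨C2 * C1 ^ (3 * d + 1), 2 * (3 * d + 1), one_le_mul_of_one_le_of_one_le hC2 (one_le_pow₀ hC1), ?_⟩
  intro Λ T R₁ R₂ hL hO hT hR
  have hT0 : 0 < T := by linarith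
  have hN : 1 ≤ ix Λ := ix_pos hL hO
  have hNR : (1 : ℝ) ≤ ix Λ := by exact_mod_cast hN
  set N : ℕ := ix Λ with hNdef
  set y : ℝ := 1 + T ^ (4 * d) / R₁ with hy
  have hy1 : 1 ≤ y := by
    have : 0 ≤ T ^ (4 * d) / R₁ := by positivity
    linarith
  set s := {f | f ∈ VL Λ ∧ emb f ∈ Dg K T R₁ R₂ ∧ ∃ v : Fin 2 → K, v ≠ 0 ∧ ev f v = 0} with hs
  by_cases hfin : s.Finite
  swap
  · rw [Set.Infinite.ncard hfin, Nat.cast_zero]
    positivity
  have hNK : ((N : ℕ) : K) ≠ 0 := by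
    have : N ≠ 0 := by omega
    exact_mod_cast this
  have hg : ∀ f : Fin 4 → K, f ∈ s → ∃ g : Fin 4 → 𝓞 K, ∀ i, ((g i : 𝓞 K) : K) = (N : K) ^ 2 * f i := by
    intro f hf
    have h1 := vl_hi hL hO f hf.1
    choose g hg using h1
    refine ⟨g, fun i => ?_⟩
    rw [hg i, Pi.smul_apply, Algebra.smul_def]
    simp only [map_pow, map_natCast, ← hNdef]
  choose! G hG using hg
  have hinj : Set.InjOn G s := by
    intro f hf f' hf' he
    funext i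
    have h1 := hG f hf i
    have h2 := hG f' hf' i
    rw [he, h2] at h1
    exact (mul_left_cancel₀ (pow_ne_zero 2 hNK) h1).symm
  have hH1 : 1 ≤ (N : ℝ) ^ 2 * (C1 * y) * T := by
    have h1 : 1 ≤ (N : ℝ) ^ 2 := one_le_pow₀ hNR
    have h2 : 1 ≤ C1 * y := one_le_mul_of_one_le_of_one_le hC1 hy1
    exact one_le_mul_of_one_le_of_one_le (one_le_mul_of_one_le_of_one_le h1 h2) hT
  have hbx := hbox ((N : ℝ) ^ 2 * (C1 * y) * T) (hfin.toFinset.image G) hH1 (by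
    intro g hg'
    obtain ⟨f, hf, rfl⟩ := Finset.mem_image.1 hg'
    rw [Set.Finite.mem_toFinset] at hf
    have hGf := hG f hf
    refine ⟨?_, ?_⟩
    · intro φ i
      rw [hGf i, map_mul, map_pow, map_natCast, norm_mul, norm_pow, Complex.norm_natCast]
      have h1 := (hlow T R₁ R₂ hT0 hR _ hf.2.1).2.1 (InfinitePlace.mk φ) i
      have h2 : ‖φ (f i)‖ = ‖emb f (InfinitePlace.mk φ) i‖ := by
        unfold emb
        rw [InfinitePlace.norm_embedding_eq, InfinitePlace.apply]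
      rw [← h2] at h1
      have h3 : ‖φ (f i)‖ ≤ (C1 * y) * T := by
        have h4 : 1 ≤ C1 * y := one_le_mul_of_one_le_of_one_le hC1 hy1
        have h5 : C1 * y * T ^ 2 ≤ ((C1 * y) * T) ^ 2 := by
          rw [mul_pow]
          gcongr
          exact le_self_pow₀ h4 (by norm_num)
        exact le_of_sq_le_sq (h1.trans h5) (by positivity)
      calc (N : ℝ) ^ 2 * ‖φ (f i)‖ ≤ (N : ℝ) ^ 2 * ((C1 * y) * T) := by gcongr
        _ = (N : ℝ) ^ 2 * (C1 * y) * T := by ring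
    · obtain ⟨v, hv, hv0⟩ := hf.2.2
      refine ⟨v, hv, ?_⟩
      have h1 : ev (fun i => ((G f i : 𝓞 K) : K)) v = (N : K) ^ 2 * ev f v := by
        unfold ev
        simp only [hGf]
        ring
      rw [h1, hv0, mul_zero])
  have hcard : ((hfin.toFinset.image G).card : ℝ) = (s.ncard : ℝ) := by
    rw [Finset.card_image_of_injOn (by rwa [Set.Finite.coe_toFinset]), Set.ncard_eq_toFinset_card s hfin]
  rw [hcard] at hbx
  refine hbx.trans ?_
  have hB1 : 1 ≤ (N : ℝ) ^ 2 * (C1 * y) :=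
    one_le_mul_of_one_le_of_one_le (one_le_pow₀ hNR) (one_le_mul_of_one_le_of_one_le hC1 hy1)
  rw [Real.mul_rpow (by positivity) hT0.le]
  have h1 : ((N : ℝ) ^ 2 * (C1 * y)) ^ (3 * (d : ℝ) + 1 / 2) ≤ C1 ^ (3 * d + 1) * ((N : ℝ) * y) ^ (2 * (3 * d + 1)) := by
    calc ((N : ℝ) ^ 2 * (C1 * y)) ^ (3 * (d : ℝ) + 1 / 2) ≤ ((N : ℝ) ^ 2 * (C1 * y)) ^ ((3 * d + 1 : ℕ) : ℝ) := by
          refine Real.rpow_le_rpow_of_exponent_le hB1 ?_
          push_cast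
          linarith
      _ = ((N : ℝ) ^ 2 * (C1 * y)) ^ (3 * d + 1) := Real.rpow_natCast _ _
      _ ≤ ((N : ℝ) ^ 2 * (C1 * y ^ 2)) ^ (3 * d + 1) := by
          gcongr
          exact le_self_pow₀ hy1 (by norm_num)
      _ = C1 ^ (3 * d + 1) * ((N : ℝ) * y) ^ (2 * (3 * d + 1)) := by
          rw [pow_mul, ← mul_pow]
          ring_nf
  have h2 : T ^ (3 * (d : ℝ) + 1 / 2) ≤ T ^ (4 * d) * T ^ (-(1 / 2) : ℝ) := by
    rw [← Real.rpow_natCast, ← Real.rpow_add hT0]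
    refine Real.rpow_le_rpow_of_exponent_le hT ?_
    have : (1 : ℝ) ≤ d := by exact_mod_cast hd1
    push_cast
    linarith
  calc C2 * (((N : ℝ) ^ 2 * (C1 * y)) ^ (3 * (d : ℝ) + 1 / 2) * T ^ (3 * (d : ℝ) + 1 / 2))
      ≤ C2 * ((C1 ^ (3 * d + 1) * ((N : ℝ) * y) ^ (2 * (3 * d + 1))) *
        (T ^ (4 * d) * T ^ (-(1 / 2) : ℝ))) := by gcongr
    _ = C2 * C1 ^ (3 * d + 1) * ((N : ℝ) * y) ^ (2 * (3 * d + 1)) *
        (T ^ (4 * d) * T ^ (-(1 / 2) : ℝ)) := by ring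

end H97.SXM
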