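import Pool.Agent.H97.SXM.VecA

/-!
# [SXM VECV] The volume of the region of the vectors, 80-140 lines. File Pool/Agent/H97/SXM/VecV.lean

`V₀ = {v : Fin 2 → ℂ | ‖v₀² + v₀v₁ + v₁²‖ ≤ 1, ‖v₀ v₁ (v₀ + v₁)‖ ≤ 1}`: closed, bounded (`|v₀|³ ≤ |v₀| + 1`, so `|v i| ≤ 2`), contains a ball around 0: `0 < vol V₀ < ∞`; `cV = vol V₀`. At a place `p` with `g = emb f p`, `disc g ≠ 0`: `fac`: `V1 T g v` iff `(ℓ₁(v)/T, ℓ₂(v)/T) ∈ V₀` (`‖ev g v ^ 2 * disc g‖ = ‖ev g v * δ‖²`,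
`x² ≤ T⁶ ↔ x ≤ T³` for `x ≥ 0`). The linear map `L : v ↦ (ℓ₁(v), ℓ₂(v))` of `ℂ²` has complex determinant `δ`, real determinant `|δ|² = ‖disc g‖` (`LinearMap.det_restrictScalars` or explicitly; `Complex.norm_...`; `MeasureTheory.Measure.addHaar_preimage_linearMap` on `Fin 2 → ℂ` over `ℝ`), and scaling by `T` gives `T⁴`
(`finrank ℝ (Fin 2 → ℂ) = 4`): `vol {v | V1 T g v} = T⁴ cV / ‖disc g‖`. `Vg K f T` is the product over the places (`Set.pi`, `MeasureTheory.Measure.pi_pi`, `volume_pi`): `∏_p T⁴ cV / ‖disc (emb f p)‖ = T^(4r) cV^r / √(nd f)`, `4 r = 2 d`, `nd f = ∏_p ‖disc (emb f p)‖²` (`nd_eq`, also stated here: `|N_{K/ℚ} x| = ∏_p ‖x‖_p^(mult)`,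
`NumberField.InfinitePlace.prod_eq_abs_norm`, `mult = 2` for complex places).
-/

set_option autoImplicit false

open scoped NumberField Classical
open NumberField MeasureTheory H77.MF

noncomputable section

namespace H97.SXM

/-- the standard region -/
private def V0 : Set (Fin 2 → ℂ) := {v : Fin 2 → ℂ | ‖v 0 ^ 2 + v 0 * v 1 + v 1 ^ 2‖ ≤ 1 ∧
  ‖v 0 * v 1 * (v 0 + v 1)‖ ≤ 1}

private theorem v0_bd1 (x y : ℂ) (h1 : ‖x ^ 2 + x * y + y ^ 2‖ ≤ 1) (h2 : ‖x * y * (x + y)‖ ≤ 1) : ‖x‖ ≤ 2 := by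
  have h3 : x ^ 3 = (x ^ 2 + x * y + y ^ 2) * x - x * y * (x + y) := by ring
  have h4 : ‖x‖ ^ 3 ≤ ‖x‖ + 1 := by
    rw [← norm_pow, h3]
    refine (norm_sub_le _ _).trans ?_
    rw [norm_mul]
    have h5 : ‖x ^ 2 + x * y + y ^ 2‖ * ‖x‖ ≤ 1 * ‖x‖ := mul_le_mul_of_nonneg_right h1 (norm_nonneg _)
    linarith
  by_contra h5
  push Not at h5
  have h6 : 0 < ‖x‖ := by linarith
  nlinarith [mul_pos h6 h6, mul_pos (mul_pos h6 h6) h6]

private theorem v0_bdd : Bornology.IsBounded V0 := by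
  refine (Metric.isBounded_closedBall (x := (0 : Fin 2 → ℂ)) (r := 2)).subset fun v hv => ?_
  rw [mem_closedBall_zero_iff, pi_norm_le_iff_of_nonneg (by norm_num)]
  obtain ⟨h1, h2⟩ := hv
  intro i
  fin_cases i
  · exact v0_bd1 _ _ h1 h2
  · refine v0_bd1 (v 1) (v 0) ?_ ?_
    · rw [show v 1 ^ 2 + v 1 * v 0 + v 0 ^ 2 = v 0 ^ 2 + v 0 * v 1 + v 1 ^ 2 by ring]
      exact h1
    · rw [show v 1 * v 0 * (v 1 + v 0) = v 0 * v 1 * (v 0 + v 1) by ring]
      exact h2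

private theorem v0_fin : volume V0 ≠ ⊤ := v0_bdd.measure_lt_top.ne

private theorem v0_nhds : V0 ∈ nhds (0 : Fin 2 → ℂ) := by
  have c1 : Continuous fun v : Fin 2 → ℂ => ‖v 0 ^ 2 + v 0 * v 1 + v 1 ^ 2‖ := by fun_prop
  have c2 : Continuous fun v : Fin 2 → ℂ => ‖v 0 * v 1 * (v 0 + v 1)‖ := by fun_prop
  have h1 : ∀ᶠ v in nhds (0 : Fin 2 → ℂ), ‖v 0 ^ 2 + v 0 * v 1 + v 1 ^ 2‖ < 1 :=
    c1.continuousAt.eventually_lt continuousAt_const (by simp)
  have h2 : ∀ᶠ v in nhds (0 : Fin 2 → ℂ), ‖v 0 * v 1 * (v 0 + v 1)‖ < 1 :=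
    c2.continuousAt.eventually_lt continuousAt_const (by simp)
  filter_upwards [h1, h2] with v h3 h4
  exact ⟨h3.le, h4.le⟩

private theorem cV_eq : cV = (volume V0).toReal := rfl

theorem cV_pos : 0 < cV := by
  rw [cV_eq]
  refine ENNReal.toReal_pos ?_ v0_fin
  exact (Measure.measure_pos_of_mem_nhds volume v0_nhds).ne'

variable (K : Type) [Field K] [NumberField K] [IsTotallyComplex K]

omit [IsTotallyComplex K] in
private theorem disc_emb (f : Fin 4 → K) (w : InfinitePlace K) : disc (emb f w) = w.embedding (disc f) := by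
  unfold disc emb
  simp only [map_add, map_sub, map_mul, map_pow, map_ofNat]

theorem nd_eq (f : Fin 4 → K) : nd f = ∏ w, ‖disc (emb f w)‖ ^ 2 := by
  unfold nd
  have h := InfinitePlace.prod_eq_abs_norm (disc f)
  have h2 : |((Algebra.norm ℚ (disc f) : ℚ) : ℝ)| = ((|Algebra.norm ℚ (disc f)| : ℚ) : ℝ) := by
    rw [Rat.cast_abs]
  rw [h2, ← h]
  refine Finset.prod_congr rfl fun w _ => ?_
  rw [IsTotallyComplex.mult_eq, disc_emb, InfinitePlace.norm_embedding_eq]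

theorem card_place : 2 * Fintype.card (InfinitePlace K) = Module.finrank ℚ K := by
  rw [← InfinitePlace.card_add_two_mul_card_eq_rank, IsTotallyComplex.nrRealPlaces_eq_zero, zero_add,
    InfinitePlace.card_eq_nrRealPlaces_add_nrComplexPlaces, IsTotallyComplex.nrRealPlaces_eq_zero, zero_add]

/-- the volume at one place -/
private theorem v1_vol {g : Fin 4 → ℂ} (hg : disc g ≠ 0) {T : ℝ} (hT : 0 < T) :
    volume {v : Fin 2 → ℂ | V1 T g v} = ENNReal.ofReal (T ^ 4 / ‖disc g‖) * volume V0 := by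
  obtain ⟨l, m, h1, h2, h3⟩ := fac hg
  have hTc : (T : ℂ) ≠ 0 := by exact_mod_cast hT.ne'
  obtain ⟨M, hM⟩ : ∃ M : Matrix (Fin 2) (Fin 2) ℂ, M = !![l 0 / T, l 1 / T; m 0 / T, m 1 / T] := ⟨_, rfl⟩
  obtain ⟨L, hL⟩ : ∃ L : (Fin 2 → ℂ) →ₗ[ℝ] (Fin 2 → ℂ), L = (Matrix.toLin' M).restrictScalars ℝ := ⟨_, rfl⟩
  have hL0 : ∀ v, L v 0 = (l 0 * v 0 + l 1 * v 1) / T := by
    intro v
    rw [hL, LinearMap.restrictScalars_apply, Matrix.toLin'_apply, hM]
    simp [Matrix.mulVec, dotProduct, Fin.sum_univ_two]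
    ring
  have hL1 : ∀ v, L v 1 = (m 0 * v 0 + m 1 * v 1) / T := by
    intro v
    rw [hL, LinearMap.restrictScalars_apply, Matrix.toLin'_apply, hM]
    simp [Matrix.mulVec, dotProduct, Fin.sum_univ_two]
    ring
  have hdet : LinearMap.det L = ‖disc g‖ / T ^ 4 := by
    rw [hL, LinearMap.det_restrictScalars, LinearMap.det_toLin', Algebra.norm_complex_apply,
      Complex.normSq_eq_norm_sq, hM, Matrix.det_fin_two_of, h1]
    have h4 : l 0 / (T : ℂ) * (m 1 / T) - l 1 / T * (m 0 / T) = dt l m / (T : ℂ) ^ 2 := by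
      unfold dt
      field_simp
    rw [h4, norm_div, norm_pow, norm_pow, Complex.norm_real, Real.norm_of_nonneg hT.le, div_pow]
    ring
  have hdg : 0 < ‖disc g‖ := norm_pos_iff.2 hg
  have hdet0 : LinearMap.det L ≠ 0 := by
    rw [hdet]
    positivity
  have hpre : {v : Fin 2 → ℂ | V1 T g v} = L ⁻¹' V0 := by
    ext v
    obtain ⟨a, ha⟩ : ∃ a : ℂ, a = L v 0 := ⟨_, rfl⟩
    obtain ⟨b, hb⟩ : ∃ b : ℂ, b = L v 1 := ⟨_, rfl⟩
    have ha' : l 0 * v 0 + l 1 * v 1 = T * a := by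
      rw [ha, hL0]
      field_simp
    have hb' : m 0 * v 0 + m 1 * v 1 = T * b := by
      rw [hb, hL1]
      field_simp
    have e1 : ‖hes g v‖ ≤ T ^ 2 ↔ ‖a ^ 2 + a * b + b ^ 2‖ ≤ 1 := by
      rw [h3, ha', hb', show (T * a) ^ 2 + T * a * (T * b) + (T * b) ^ 2 =
        (T : ℂ) ^ 2 * (a ^ 2 + a * b + b ^ 2) by ring, norm_mul, norm_pow, Complex.norm_real,
        Real.norm_of_nonneg hT.le]
      have hT2 : 0 < T ^ 2 := by positivity
      constructor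
      · intro h
        have h5 : T ^ 2 * ‖a ^ 2 + a * b + b ^ 2‖ ≤ T ^ 2 * 1 := by rwa [mul_one]
        exact le_of_mul_le_mul_left h5 hT2
      · intro h
        calc T ^ 2 * ‖a ^ 2 + a * b + b ^ 2‖ ≤ T ^ 2 * 1 := mul_le_mul_of_nonneg_left h hT2.le
          _ = T ^ 2 := mul_one _
    have e2 : ‖ev g v ^ 2 * disc g‖ ≤ T ^ 6 ↔ ‖a * b * (a + b)‖ ≤ 1 := by
      have h5 : ev g v ^ 2 * disc g = ((T : ℂ) ^ 3 * (a * b * (a + b))) ^ 2 := by
        rw [h1]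
        have h6 := h2 v
        rw [ha', hb'] at h6
        have h7 : ev g v ^ 2 * dt l m ^ 2 = (ev g v * dt l m) ^ 2 := by ring
        rw [h7, h6]
        ring
      rw [h5, norm_pow, norm_mul, norm_pow, Complex.norm_real, Real.norm_of_nonneg hT.le]
      have hT3 : 0 < T ^ 3 := by positivity
      have h8 : T ^ 6 = (T ^ 3) ^ 2 := by ring
      rw [h8, pow_le_pow_iff_left₀ (by positivity) hT3.le two_ne_zero]
      constructor
      · intro h
        have h5 : T ^ 3 * ‖a * b * (a + b)‖ ≤ T ^ 3 * 1 := by rwa [mul_one]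
        exact le_of_mul_le_mul_left h5 hT3
      · intro h
        calc T ^ 3 * ‖a * b * (a + b)‖ ≤ T ^ 3 * 1 := mul_le_mul_of_nonneg_left h hT3.le
          _ = T ^ 3 := mul_one _
    show (‖hes g v‖ ≤ T ^ 2 ∧ ‖ev g v ^ 2 * disc g‖ ≤ T ^ 6) ↔ (‖L v 0 ^ 2 + L v 0 * L v 1 + L v 1 ^ 2‖ ≤ 1 ∧
      ‖L v 0 * L v 1 * (L v 0 + L v 1)‖ ≤ 1)
    rw [← ha, ← hb, e1, e2]
  rw [hpre, Measure.addHaar_preimage_linearMap volume hdet0, hdet, inv_div, abs_of_nonneg (by positivity)]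

theorem vg_vol {f : Fin 4 → K} (hf : disc f ≠ 0) {T : ℝ} (hT : 0 < T) : volume (Vg K f T) ≠ ⊤ ∧
    (volume (Vg K f T)).toReal = cV ^ Fintype.card (InfinitePlace K) *
      T ^ (2 * Module.finrank ℚ K) / Real.sqrt (nd f) := by
  have hdf : ∀ w : InfinitePlace K, disc (emb f w) ≠ 0 := by
    intro w
    rw [disc_emb]
    exact (map_ne_zero _).2 hf
  have h1 : Vg K f T = Set.pi Set.univ fun w => {v : Fin 2 → ℂ | V1 T (emb f w) v} := by
    ext v
    simp only [Vg, Set.mem_pi, Set.mem_univ, true_imp_iff]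
    rfl
  have h2 : volume (Vg K f T) = ∏ w : InfinitePlace K, (ENNReal.ofReal (T ^ 4 / ‖disc (emb f w)‖) * volume V0) := by
    rw [h1, volume_pi_pi]
    exact Finset.prod_congr rfl fun w _ => v1_vol (hdf w) hT
  rw [h2]
  constructor
  · exact ENNReal.prod_ne_top fun w _ => ENNReal.mul_ne_top ENNReal.ofReal_ne_top v0_fin
  · rw [ENNReal.toReal_prod]
    have h3 : ∀ w : InfinitePlace K, (ENNReal.ofReal (T ^ 4 / ‖disc (emb f w)‖) * volume V0).toReal =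
        T ^ 4 / ‖disc (emb f w)‖ * cV := by
      intro w
      rw [ENNReal.toReal_mul, ENNReal.toReal_ofReal (by positivity), cV_eq]
    rw [Finset.prod_congr rfl fun w _ => h3 w, Finset.prod_mul_distrib, Finset.prod_div_distrib,
      Finset.prod_const, Finset.prod_const, Finset.card_univ, nd_eq, Finset.prod_pow, Real.sqrt_sq
      (Finset.prod_nonneg fun w _ => norm_nonneg _), ← card_place K]
    have h4 : (T ^ 4) ^ Fintype.card (InfinitePlace K) = T ^ (2 * (2 * Fintype.card (InfinitePlace K))) := by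
      rw [← pow_mul]
      congr 1
      ring
    rw [h4]
    ring

end H97.SXM
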